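import Pool.Agent.AOC.St

/-!
# AOC, Acy: the acyclicity lemma
-/

set_option autoImplicit false

namespace Pool.Agent.AOC

private theorem acy_map {S M M' : Type} [CommRing S] [AddCommGroup M] [Module S M] [AddCommGroup M'] [Module S M']
    (I : Ideal S) (f : M →ₗ[S] M') {x : M} (hx : x ∈ I • (⊤ : Submodule S M)) : f x ∈ I • (⊤ : Submodule S M') := by
  have := Submodule.smul_top_le_comap_smul_top I f
  exact this hx

private theorem acy_set {S : Type} [CommRing S] (D : S) (d : ℕ → S) (s : ℕ) :
    Ideal.span ({D} ∪ {r | ∃ s' < s + 1, r = d s'}) =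
      Ideal.span ({D} ∪ {r | ∃ s' < s, r = d s'}) ⊔ Ideal.span {d s} := by
  rw [← Ideal.span_union]
  congr 1
  ext r
  simp only [Set.mem_union, Set.mem_singleton_iff, Set.mem_setOf_eq]
  constructor
  · rintro (h | ⟨s', hs', h⟩)
    · exact Or.inl (Or.inl h)
    · rcases Nat.lt_succ_iff_lt_or_eq.mp hs' with h1 | h1
      · exact Or.inl (Or.inr ⟨s', h1, h⟩)
      · right
        rw [h, h1]
  · rintro ((h | ⟨s', hs', h⟩) | h)
    · exact Or.inl h
    · exact Or.inr ⟨s', Nat.lt_succ_of_lt hs', h⟩
    · exact Or.inr ⟨s, Nat.lt_succ_self s, h⟩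

theorem thm_Acy : St_Acy := by
  intro S _ F _ _ k D d del hdd hh hsub hreg
  -- descending induction: `t = k - s`
  have key : ∀ t s : ℕ, s + t = k → ∀ j, s ≤ j → ∀ z : F (j + 1),
      del j z ∈ (Ideal.span ({D} ∪ {r | ∃ s' < s, r = d s'})) • (⊤ : Submodule S (F j)) →
      ∃ ω : F (j + 2), z - del (j + 1) ω ∈
        (Ideal.span ({D} ∪ {r | ∃ s' < s, r = d s'})) • (⊤ : Submodule S (F (j + 1))) := by
    intro t
    induction t with
    | zero =>
      intro s hs j hj z _
      have := hsub (j + 1) (by omega)
      refine ⟨0, ?_⟩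
      rw [Subsingleton.elim z 0, map_zero, sub_zero]
      exact Submodule.zero_mem _
    | succ t ih =>
      intro s hs j hj z hz
      by_cases hjk : k < j + 1
      · have := hsub (j + 1) hjk
        refine ⟨0, ?_⟩
        rw [Subsingleton.elim z 0, map_zero, sub_zero]
        exact Submodule.zero_mem _
      obtain ⟨h, hh'⟩ := hh s (by omega)
      have e1 : del (j + 1) (h (j + 1) z) = d s • z - h j (del j z) := by
        rw [← hh' j z]
        abel
      have hle : Ideal.span ({D} ∪ {r | ∃ s' < s, r = d s'}) ≤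
          Ideal.span ({D} ∪ {r | ∃ s' < s + 1, r = d s'}) := by
        rw [acy_set]
        exact le_sup_left
      have hds : d s ∈ Ideal.span ({D} ∪ {r | ∃ s' < s + 1, r = d s'}) := by
        apply Ideal.subset_span
        exact Or.inr ⟨s, Nat.lt_succ_self s, rfl⟩
      have hhz := acy_map _ (h j) hz
      have hb : del (j + 1) (h (j + 1) z) ∈
          (Ideal.span ({D} ∪ {r | ∃ s' < s + 1, r = d s'})) • (⊤ : Submodule S (F (j + 1))) := by
        rw [e1]
        apply Submodule.sub_mem
        · exact Submodule.smul_mem_smul hds Submodule.mem_top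
        · exact Submodule.smul_mono_left hle hhz
      obtain ⟨e, he⟩ := ih (s + 1) (by omega) (j + 1) (by omega) (h (j + 1) z) hb
      rw [acy_set, Submodule.sup_smul, Submodule.mem_sup] at he
      obtain ⟨b2, hb2, c, hc, hbc⟩ := he
      rw [Submodule.ideal_span_singleton_smul] at hc
      obtain ⟨b', -, hb'⟩ := (Submodule.mem_smul_pointwise_iff_exists _ _ _).mp hc
      have e2 : h (j + 1) z = del (j + 1 + 1) e + (b2 + d s • b') := by
        rw [hb', hbc]
        abel
      have e3 : del (j + 1) (h (j + 1) z) = del (j + 1) b2 + d s • del (j + 1) b' := by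
        rw [e2, map_add, map_add, map_smul, hdd, zero_add]
      refine ⟨b', ?_⟩
      apply hreg (j + 1) s (by omega) (by omega)
      have e4 : d s • (z - del (j + 1) b') = h j (del j z) + del (j + 1) b2 := by
        rw [smul_sub]
        have e5 : d s • z = del (j + 1) b2 + d s • del (j + 1) b' + h j (del j z) := by
          rw [← e3, e1]
          abel
        rw [e5]
        abel
      rw [e4]
      exact Submodule.add_mem _ hhz (acy_map _ (del (j + 1)) hb2)
  intro z hz
  have h0 : Ideal.span ({D} ∪ {r | ∃ s' < 0, r = d s'}) = Ideal.span {D} := by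
    congr 1
    ext r
    simp
  have := key k 0 (by omega) 0 le_rfl z (by rw [h0]; exact hz)
  rw [h0] at this
  exact this

end Pool.Agent.AOC
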