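import Pool.Agent.AOC.St

/-!
# AOC, module Adp: a basis of `V` adapted to the quotient
-/

set_option autoImplicit false

noncomputable section

namespace Pool.Agent.AOC

open Matrix Pool.Agent.CTR Pool.Agent.ANC

/-- the order of the basis -/
private def adp_e (m i l : ℕ) : Iv (m + l) i ≃ Iv m (i + l) :=
  ((finSumFinEquiv.symm).sumCongr (Equiv.refl (Fin i))).trans
    ((Equiv.sumAssoc (Fin m) (Fin l) (Fin i)).trans
      ((Equiv.refl (Fin m)).sumCongr ((Equiv.sumComm (Fin l) (Fin i)).trans finSumFinEquiv)))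

private lemma adp_e_inr (m i l : ℕ) (b : Fin i) :
    adp_e m i l (Sum.inr b) = Sum.inr (Fin.castAdd l b) := by
  simp [adp_e]

/-- the part of the matrix `Pm` in the columns `c ≥ i` -/
private def adp_N (m i l : ℕ) {R : Type} [CommRing R] (G : Matrix (Fin i) (Fin (i + l)) R) :
    Matrix (Iv m (i + l)) (Iv m (i + l)) R :=
  fun s t => Sum.elim (fun _ => 0) (fun c : Fin (i + l) => Sum.elim (fun _ => 0)
    (fun d : Fin (i + l) => if hc : (c : ℕ) < i then (if (d : ℕ) < i then 0 else G ⟨c, hc⟩ d) else 0) t) s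

private lemma adp_N_sq (m i l : ℕ) {R : Type} [CommRing R] (G : Matrix (Fin i) (Fin (i + l)) R) :
    adp_N m i l G * adp_N m i l G = 0 := by
  ext s t
  rw [Matrix.mul_apply, Matrix.zero_apply]
  refine Finset.sum_eq_zero fun u _ => ?_
  rcases s with s | s
  · show (0 : R) * _ = 0
    rw [zero_mul]
  rcases u with u | u
  · show (0 : R) * _ = 0
    rw [zero_mul]
  rcases t with t | t
  · show _ * (0 : R) = 0
    rw [mul_zero]
  by_cases hu : (u : ℕ) < i
  · have h1 : adp_N m i l G (Sum.inr s) (Sum.inr u) = 0 := by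
      unfold adp_N
      simp [hu]
    rw [h1, zero_mul]
  · have h1 : adp_N m i l G (Sum.inr u) (Sum.inr t) = 0 := by
      unfold adp_N
      simp [hu]
    rw [h1, mul_zero]

private lemma adp_main (m l i : ℕ) (R : Type) [CommRing R] (hCmp : St_Cmp)
    (W : Fin m → List Bool) (x y : Matrix (Iv m (i + l)) (Iv m (i + l)) R)
    (v w : Iv m (i + l) → R) (p : Fin i → R) (hF : IsUnit (frm W x y v w).det) :
    ∃ (g : Matrix (Iv m (i + l)) (Iv (m + l) i) R) (g' : Matrix (Iv (m + l) i) (Iv m (i + l)) R),
      g' * g = 1 ∧ g * g' = 1 ∧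
      (∀ b l', g' (Sum.inr b) l' = pim (frm W x y v w)⁻¹ p b l') ∧
      ∀ s (b : Fin i), g s (Sum.inr b) = ((x ^ (b : ℕ)) *ᵥ w) s := by
  obtain ⟨hC1, -, -⟩ := hCmp i R p
  set F := frm W x y v w with hFd
  have hF1 : F⁻¹ * F = 1 := Matrix.nonsing_inv_mul F hF
  have hF2 : F * F⁻¹ = 1 := Matrix.mul_nonsing_inv F hF
  set N := adp_N m i l (Pm (i + l) p) with hN
  have hNN : N * N = 0 := adp_N_sq m i l _
  have hV1 : (1 + N) * (1 - N) = 1 := by
    rw [Matrix.add_mul, Matrix.one_mul, Matrix.mul_sub, Matrix.mul_one, hNN]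
    abel
  have hV2 : (1 - N) * (1 + N) = 1 := by
    rw [Matrix.sub_mul, Matrix.one_mul, Matrix.mul_add, Matrix.mul_one, hNN]
    abel
  set e := adp_e m i l with he
  refine ⟨F * (1 - N).submatrix id e, (1 + N).submatrix e id * F⁻¹, ?_, ?_, ?_, ?_⟩
  · rw [Matrix.mul_assoc, ← Matrix.mul_assoc F⁻¹ F, hF1, Matrix.one_mul]
    rw [← Matrix.submatrix_mul (1 + N) (1 - N) e id e Function.bijective_id, hV1]
    exact Matrix.submatrix_one_equiv e
  · rw [Matrix.mul_assoc, ← Matrix.mul_assoc ((1 - N).submatrix id e)]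
    rw [← Matrix.submatrix_mul (1 - N) (1 + N) id e id e.bijective, hV2, Matrix.submatrix_id_id,
      Matrix.one_mul, hF2]
  · intro b l'
    rw [Matrix.mul_apply]
    unfold pim
    rw [Matrix.mul_apply, Fintype.sum_sum_type]
    have h1 : ∀ a : Fin m, ((1 + N).submatrix e id) (Sum.inr b) (Sum.inl a) = 0 := by
      intro a
      rw [Matrix.submatrix_apply, he, adp_e_inr, id, Matrix.add_apply, Matrix.one_apply_ne (by simp),
        zero_add]
      rfl
    have h2 : ∀ c : Fin (i + l), ((1 + N).submatrix e id) (Sum.inr b) (Sum.inr c) = Pm (i + l) p b c := by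
      intro c
      rw [Matrix.submatrix_apply, he, adp_e_inr, id, Matrix.add_apply]
      by_cases hc : (c : ℕ) < i
      · have h3 : N (Sum.inr (Fin.castAdd l b)) (Sum.inr c) = 0 := by
          rw [hN]
          unfold adp_N
          simp [hc]
        rw [h3, add_zero]
        have h4 : Pm (i + l) p b c = if b = (⟨c, hc⟩ : Fin i) then 1 else 0 := hC1 ⟨c, hc⟩ b
        rw [h4]
        by_cases hbc : b = (⟨c, hc⟩ : Fin i)
        · have h5 : (Fin.castAdd l b) = c := by
            rw [hbc]
            exact Fin.ext rfl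
          rw [h5, Matrix.one_apply_eq, if_pos hbc]
        · rw [if_neg hbc, Matrix.one_apply_ne]
          intro h5
          apply hbc
          have h6 := congrArg Fin.val (Sum.inr_injective h5)
          exact Fin.ext h6
      · have h3 : N (Sum.inr (Fin.castAdd l b)) (Sum.inr c) = Pm (i + l) p b c := by
          rw [hN]
          unfold adp_N
          simp [hc]
        rw [h3, Matrix.one_apply_ne, zero_add]
        intro h5
        apply hc
        have h6 := congrArg Fin.val (Sum.inr_injective h5)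
        rw [← h6]
        exact b.isLt
    rw [Finset.sum_eq_zero (fun a _ => by rw [h1 a, zero_mul]), zero_add]
    refine Finset.sum_congr rfl fun c _ => ?_
    rw [h2 c]
    rfl
  · intro s b
    rw [Matrix.mul_apply]
    have h1 : ∀ t, ((1 - N).submatrix id e) t (Sum.inr b) = if t = Sum.inr (Fin.castAdd l b) then 1 else 0 := by
      intro t
      rw [Matrix.submatrix_apply, he, adp_e_inr, id, Matrix.sub_apply]
      have h3 : N t (Sum.inr (Fin.castAdd l b)) = 0 := by
        rw [hN]
        unfold adp_N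
        rcases t with t | t
        · rfl
        · simp
      rw [h3, sub_zero, Matrix.one_apply]
    simp only [h1, mul_ite, mul_one, mul_zero, Finset.sum_ite_eq', Finset.mem_univ, if_true]
    rfl

theorem thm_Adp (hCmp : St_Cmp) : St_Adp := by
  intro m k h i R _ hik hh W x y v w p hF
  obtain ⟨l, rfl⟩ := Nat.exists_eq_add_of_le hik
  obtain rfl : h = m + l := by omega
  exact adp_main m l i R hCmp W x y v w p hF

end Pool.Agent.AOC
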