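import Pool.Agent.AOC.St

/-!
# AOC, module Brg (helper32): the discriminant is not a zero divisor modulo the `c_b`
-/

set_option autoImplicit false

noncomputable section

namespace Pool.Agent.AOC

open Matrix Pool.Agent.CTR Pool.Agent.ANC

/-- The general form of the argument. -/
theorem brg_abs (hKos : St_Kos) (hAcy : St_Acy) (S : Type) [CommRing S] (N : Type) [AddCommGroup N]
    [Module S N] (τ : N →ₗ[S] S) (k : ℕ) (D : S) (d : ℕ → S) (hd : ∀ s < k, ∃ n, τ n = d s)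
    (hsub : ∀ i, k < i → Subsingleton (⋀[S]^i N))
    (hreg : ∀ i s, s < i → i ≤ k → ∀ z : ⋀[S]^i N,
      d s • z ∈ (Ideal.span ({D} ∪ {r | ∃ s' < s, r = d s'})) • (⊤ : Submodule S (⋀[S]^i N)) →
      z ∈ (Ideal.span ({D} ∪ {r | ∃ s' < s, r = d s'})) • (⊤ : Submodule S (⋀[S]^i N)))
    (hnz : ∀ f : S, D * f = 0 → f = 0) (f : S) (n : N) (h : D * f = τ n) : ∃ n', τ n' = f := by
  obtain ⟨del, hdd, hh, h0⟩ := hKos S N τ
  obtain ⟨ω, hω⟩ := hAcy S (fun i => ⋀[S]^i N) k D d del hdd (fun s hs => by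
      obtain ⟨n, hn⟩ := hd s hs
      obtain ⟨e, he⟩ := hh n
      exact ⟨e, fun i z => by rw [he, hn]⟩) hsub hreg ((exteriorPower.oneEquiv S N).symm n) (by
    have e1 : del 0 ((exteriorPower.oneEquiv S N).symm n) =
        D • (exteriorPower.zeroEquiv S N).symm f := by
      apply (exteriorPower.zeroEquiv S N).injective
      rw [h0, LinearEquiv.apply_symm_apply, map_smul, LinearEquiv.apply_symm_apply, smul_eq_mul, h]
    rw [e1]
    exact Submodule.smul_mem_smul (Ideal.mem_span_singleton_self D) Submodule.mem_top)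
  rw [Submodule.ideal_span_singleton_smul] at hω
  obtain ⟨z', -, hz'⟩ := (Submodule.mem_smul_pointwise_iff_exists _ _ _).1 hω
  refine ⟨exteriorPower.oneEquiv S N z', ?_⟩
  have e2 : τ (exteriorPower.oneEquiv S N (D • z')) = τ n := by
    rw [hz', map_sub, LinearEquiv.apply_symm_apply, map_sub, ← h0, hdd, map_zero, sub_zero]
  rw [map_smul, map_smul, smul_eq_mul, ← h] at e2
  have e3 := hnz (f - τ (exteriorPower.oneEquiv S N z')) (by rw [mul_sub, e2, sub_self])
  exact (sub_eq_zero.1 e3).symm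

/-- The map `u ↦ j u`. -/
def brg_dot {ι S : Type} [Fintype ι] [CommRing S] (j : ι → S) : (ι → S) →ₗ[S] S where
  toFun u := j ⬝ᵥ u
  map_add' u u' := dotProduct_add j u u'
  map_smul' c u := by
    rw [dotProduct_smul]
    rfl

theorem brg_step (hKos : St_Kos) (hAcy : St_Acy) (hReg : St_Reg) (hNZW : St_NZW) (hSub : St_Sub)
    (hFrj : St_Frj) (m k : ℕ) (W : Fin m → List Bool) (f : SA m k W)
    (hf : sD m k W * f ∈ Ideal.span (Set.range (sc m k W))) :
    f ∈ Ideal.span (Set.range (sc m k W)) := by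
  obtain ⟨-, -, hv, hc, hj⟩ := hFrj m k W
  obtain ⟨g, hg⟩ := hReg m k W
  have hker : AV (sM m k W 0) (sM m k W 1) (sV m k W 0) ≤
      LinearMap.ker (brg_dot (sV m k W 1)) := by
    unfold AV
    rw [Submodule.span_le]
    rintro u ⟨l, rfl⟩
    exact hv l
  obtain ⟨τ, hτ⟩ : ∃ τ : NV (sM m k W 0) (sM m k W 1) (sV m k W 0) →ₗ[SA m k W] SA m k W,
      ∀ u, τ (Submodule.Quotient.mk u) = sV m k W 1 ⬝ᵥ u :=
    ⟨Submodule.liftQ _ (brg_dot (sV m k W 1)) hker, fun u => Submodule.liftQ_apply _ _ u⟩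
  have hτc : ∀ b : Fin k, τ (Submodule.Quotient.mk ((sM m k W 0 ^ (b : ℕ)) *ᵥ sV m k W 2)) =
      sc m k W b := fun b => by rw [hτ, hc]
  have hJ : ∀ n, τ n ∈ Ideal.span (Set.range (sc m k W)) := by
    intro n
    obtain ⟨u, rfl⟩ := Submodule.Quotient.mk_surjective _ n
    rw [hτ]
    exact Ideal.sum_mem _ fun l _ => Ideal.mul_mem_right _ _ (hj l)
  have hr : Ideal.span (Set.range (sc m k W)) ≤ LinearMap.range τ := by
    rw [Ideal.span, Submodule.span_le]
    rintro r ⟨b, rfl⟩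
    exact ⟨_, hτc b⟩
  obtain ⟨n, hn⟩ := hr hf
  obtain ⟨n', hn'⟩ := brg_abs hKos hAcy (SA m k W)
    (NV (sM m k W 0) (sM m k W 1) (sV m k W 0)) τ k (sD m k W) (sd m k W g)
    (fun s _ => ⟨∑ b, algebraMap ℂ (SA m k W) (g s b) •
      Submodule.Quotient.mk ((sM m k W 0 ^ (b : ℕ)) *ᵥ sV m k W 2), by
        rw [map_sum]
        unfold sd
        refine Finset.sum_congr rfl fun b _ => ?_
        rw [map_smul, hτc, smul_eq_mul]⟩)
    (fun i hi => hSub m k W i hi) hg (hNZW m k W) f n hn.symm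
  rw [← hn']
  exact hJ n'

theorem thm_Brg (hKos : St_Kos) (hAcy : St_Acy) (hReg : St_Reg) (hNZW : St_NZW) (hSub : St_Sub)
    (hFrj : St_Frj) : St_Brg := by
  intro m k W N
  induction N with
  | zero =>
    intro f hf
    rwa [pow_zero, one_mul] at hf
  | succ N ih =>
    intro f hf
    refine brg_step hKos hAcy hReg hNZW hSub hFrj m k W f (ih _ ?_)
    rwa [pow_succ, mul_assoc] at hf

end Pool.Agent.AOC
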