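import Pool.Agent.AOC.St
import Pool.Agent.ANC.CIa

/-!
# AOC, Cho: general combinations are regular sequences
-/

set_option autoImplicit false

noncomputable section

namespace Pool.Agent.AOC

open MvPolynomial Pool.Agent.ANC

/-- the linear combinations of the `γ b` -/
private def cho_G {k : ℕ} {σ : Type} (γ : Fin k → MvPolynomial σ ℂ) :
    (Fin k → ℂ) →ₗ[ℂ] MvPolynomial σ ℂ where
  toFun c := ∑ b, C (c b) * γ b
  map_add' c c' := by simp [add_mul, Finset.sum_add_distrib]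
  map_smul' m c := by
    simp only [Pi.smul_apply, smul_eq_mul, map_mul, RingHom.id_apply, smul_eq_C_mul, Finset.mul_sum,
      mul_assoc]

private theorem cho_G_apply {k : ℕ} {σ : Type} (γ : Fin k → MvPolynomial σ ℂ) (c : Fin k → ℂ) :
    cho_G γ c = ∑ b, C (c b) * γ b := rfl

private theorem cho_single {k : ℕ} {σ : Type} (γ : Fin k → MvPolynomial σ ℂ) (b : Fin k) :
    cho_G γ (Pi.single b 1) = γ b := by
  rw [cho_G_apply, Finset.sum_eq_single b]
  · rw [Pi.single_eq_same, map_one, one_mul]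
  · intro b' _ hb
    rw [Pi.single_eq_of_ne hb, map_zero, zero_mul]
  · intro h
    exact absurd (Finset.mem_univ b) h

private theorem cho_le {R : Type} [CommRing R] {I J : Ideal R} (h : I ≤ J) :
    ringKrullDim (R ⧸ J) ≤ ringKrullDim (R ⧸ I) :=
  ringKrullDim_le_of_surjective (Ideal.Quotient.factor h) (Ideal.Quotient.factor_surjective h)

private theorem cho_lt {R : Type} [CommRing R] {Q P : Ideal R} [Q.IsPrime] (h : Q ≤ P) {r : R}
    (hr : r ∉ Q) (hrP : r ∈ P) : ringKrullDim (R ⧸ P) + 1 ≤ ringKrullDim (R ⧸ Q) := by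
  refine ringKrullDim_succ_le_of_surjective (Ideal.Quotient.factor h)
    (Ideal.Quotient.factor_surjective h) (r := Ideal.Quotient.mk Q r) ?_ ?_
  · refine mem_nonZeroDivisors_of_ne_zero ?_
    intro h0
    exact hr (Ideal.Quotient.eq_zero_iff_mem.1 h0)
  · rw [Ideal.Quotient.factor_mk]
    exact Ideal.Quotient.eq_zero_iff_mem.2 hrP

private theorem cho_add (x : WithBot ℕ∞) (a s : ℕ) :
    x + ((a + (s + 1) : ℕ) : WithBot ℕ∞) = (x + 1) + ((a + s : ℕ) : WithBot ℕ∞) := by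
  push_cast
  rw [add_assoc x 1, ← add_assoc (1 : WithBot ℕ∞), add_comm (1 : WithBot ℕ∞) _, add_assoc]
  congr 2
  exact add_comm _ _

/-- the dimension bound for the first `s` combinations -/
private def cho_Good {k : ℕ} {σ τ : Fin k → Type} [∀ i, Fintype (σ i)] [∀ i, Fintype (τ i)]
    (f : ∀ i, τ i → MvPolynomial (σ i) ℂ) (θ : ∀ i, MvPolynomial (σ i) ℂ)
    (γ : ∀ i, Fin k → MvPolynomial (σ i) ℂ) (s : ℕ) (g : ℕ → Fin k → ℂ) : Prop :=
  ∀ i : Fin k, s ≤ (i : ℕ) + 1 → ∀ P : Ideal (MvPolynomial (σ i) ℂ), P.IsPrime → (∀ t, f i t ∈ P) →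
    (∀ s' < s, cho_G (γ i) (g s') ∈ P) → θ i ∉ P →
    ringKrullDim (MvPolynomial (σ i) ℂ ⧸ P) + ((Fintype.card (τ i) + s : ℕ) : WithBot ℕ∞) ≤
      ((Fintype.card (σ i) : ℕ) : WithBot ℕ∞)

private theorem cho_step {k : ℕ} {σ τ : Fin k → Type} [∀ i, Fintype (σ i)] [∀ i, Fintype (τ i)]
    (f : ∀ i, τ i → MvPolynomial (σ i) ℂ) (θ : ∀ i, MvPolynomial (σ i) ℂ)
    (γ : ∀ i, Fin k → MvPolynomial (σ i) ℂ)
    (h2 : ∀ i, ∀ P : Ideal (MvPolynomial (σ i) ℂ), P.IsPrime → (∀ t, f i t ∈ P) →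
      (∀ b, γ i b ∈ P) → θ i ∉ P → ringKrullDim (MvPolynomial (σ i) ℂ ⧸ P) +
      ((Fintype.card (τ i) + (i + 1) : ℕ) : WithBot ℕ∞) ≤ ((Fintype.card (σ i) : ℕ) : WithBot ℕ∞))
    (s : ℕ) (g : ℕ → Fin k → ℂ) (hg : cho_Good f θ γ s g) :
    ∃ c : Fin k → ℂ, cho_Good f θ γ (s + 1) (Function.update g s c) := by
  classical
  -- the ideals of the first `s` combinations
  let I : ∀ i : Fin k, Ideal (MvPolynomial (σ i) ℂ) := fun i =>
    Ideal.span (Set.range (f i) ∪ {r | ∃ s' < s, r = cho_G (γ i) (g s')})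
  have hI : ∀ (i : Fin k) (P : Ideal (MvPolynomial (σ i) ℂ)), I i ≤ P ↔
      (∀ t, f i t ∈ P) ∧ ∀ s' < s, cho_G (γ i) (g s') ∈ P := by
    intro i P
    rw [Ideal.span_le, Set.union_subset_iff]
    constructor
    · rintro ⟨h3, h4⟩
      exact ⟨fun t => h3 ⟨t, rfl⟩, fun s' hs' => h4 ⟨s', hs', rfl⟩⟩
    · rintro ⟨h3, h4⟩
      refine ⟨?_, ?_⟩
      · rintro _ ⟨t, rfl⟩
        exact h3 t
      · rintro _ ⟨s', hs', rfl⟩
        exact h4 s' hs'
  let bad : ∀ i : Fin k, Set (Ideal (MvPolynomial (σ i) ℂ)) := fun i =>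
    {Q | Q ∈ (I i).minimalPrimes ∧ s ≤ (i : ℕ) ∧ θ i ∉ Q ∧
      ¬ (ringKrullDim (MvPolynomial (σ i) ℂ ⧸ Q) +
        ((Fintype.card (τ i) + (s + 1) : ℕ) : WithBot ℕ∞) ≤
          ((Fintype.card (σ i) : ℕ) : WithBot ℕ∞))}
  have hfin : ∀ i, Finite (bad i) := fun i =>
    ((I i).finite_minimalPrimes_of_isNoetherianRing.subset fun Q hQ => hQ.1).to_subtype
  let V : (Σ i : Fin k, bad i) → Subspace ℂ (Fin k → ℂ) := fun q =>
    (q.2.val.restrictScalars ℂ).comap (cho_G (γ q.1))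
  have hV : (⋃ q, (V q : Set (Fin k → ℂ))) ≠ Set.univ := by
    intro hcov
    obtain ⟨⟨i, Q, hQ⟩, h3⟩ := Subspace.exists_eq_top_of_iUnion_eq_univ hcov
    obtain ⟨hQ1, hsi, hθ, hbad⟩ := hQ
    have hmem : ∀ b, γ i b ∈ Q := by
      intro b
      have h4 : (Pi.single b 1 : Fin k → ℂ) ∈ V ⟨i, Q, hQ1, hsi, hθ, hbad⟩ := by
        rw [h3]
        exact Submodule.mem_top
      have h5 : cho_G (γ i) (Pi.single b 1) ∈ Q := h4
      rwa [cho_single] at h5
    have hQI := (hI i Q).1 hQ1.1.2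
    have h6 := h2 i Q hQ1.1.1 hQI.1 hmem hθ
    refine hbad (le_trans ?_ h6)
    have h7 : Fintype.card (τ i) + (s + 1) ≤ Fintype.card (τ i) + ((i : ℕ) + 1) := by omega
    have h8 : ((Fintype.card (τ i) + (s + 1) : ℕ) : WithBot ℕ∞) ≤
        ((Fintype.card (τ i) + ((i : ℕ) + 1) : ℕ) : WithBot ℕ∞) := by exact_mod_cast h7
    gcongr
  obtain ⟨c, hc⟩ := (Set.ne_univ_iff_exists_notMem _).1 hV
  refine ⟨c, ?_⟩
  intro i hi P hP hf hcomb hθP
  have hold : ∀ s' < s, cho_G (γ i) (g s') ∈ P := by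
    intro s' hs'
    have h3 := hcomb s' (by omega)
    rwa [Function.update_of_ne (by omega)] at h3
  have hnew : cho_G (γ i) c ∈ P := by
    have h3 := hcomb s (by omega)
    rwa [Function.update_self] at h3
  have hIP : I i ≤ P := (hI i P).2 ⟨hf, hold⟩
  obtain ⟨Q, hQ, hQP⟩ := Ideal.exists_minimalPrimes_le hIP
  have hQp : Q.IsPrime := hQ.1.1
  have hθQ : θ i ∉ Q := fun h => hθP (hQP h)
  have hQI := (hI i Q).1 hQ.1.2
  by_cases hb : ringKrullDim (MvPolynomial (σ i) ℂ ⧸ Q) +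
      ((Fintype.card (τ i) + (s + 1) : ℕ) : WithBot ℕ∞) ≤
        ((Fintype.card (σ i) : ℕ) : WithBot ℕ∞)
  · refine le_trans ?_ hb
    have h3 := cho_le hQP
    gcongr
  · have hQbad : Q ∈ bad i := ⟨hQ, by omega, hθQ, hb⟩
    have hcQ : cho_G (γ i) c ∉ Q := by
      intro h3
      refine hc (Set.mem_iUnion.2 ⟨⟨i, Q, hQbad⟩, ?_⟩)
      exact h3
    have h3 := cho_lt hQP hcQ hnew
    have h4 := hg i (by omega) Q hQp hQI.1 hQI.2 hθQ
    rw [cho_add]
    refine le_trans ?_ h4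
    gcongr

theorem thm_Cho : St_Cho := by
  intro k σ τ _ _ f θ γ h1 h2
  have key : ∀ S : ℕ, ∃ g : ℕ → Fin k → ℂ, ∀ s ≤ S, cho_Good f θ γ s g := by
    intro S
    induction S with
    | zero =>
      refine ⟨fun _ _ => 0, ?_⟩
      intro s hs
      obtain rfl : s = 0 := by omega
      intro i _ P hP hf _ hθ
      rw [add_zero]
      exact h1 i P hP hf hθ
    | succ S ih =>
      obtain ⟨g, hg⟩ := ih
      obtain ⟨c, hc⟩ := cho_step f θ γ h2 S g (hg S le_rfl)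
      refine ⟨Function.update g S c, ?_⟩
      intro s hs
      rcases Nat.lt_or_ge S s with h | h
      · obtain rfl : s = S + 1 := by omega
        exact hc
      · intro i hi P hP hf hcomb hθ
        refine hg s h i hi P hP hf ?_ hθ
        intro s' hs'
        have h3 := hcomb s' hs'
        rwa [Function.update_of_ne (by omega)] at h3
  obtain ⟨g, hg⟩ := key k
  refine ⟨g, ?_⟩
  intro i s hs q hq
  have hik := i.isLt
  have hrange : Set.range (Sum.elim (f i) fun s' : Fin s => ∑ b, C (g s' b) * γ i b) =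
      Set.range (f i) ∪ {r | ∃ s' < s, r = ∑ b, C (g s' b) * γ i b} := by
    ext r
    constructor
    · rintro ⟨t | s', rfl⟩
      · exact Or.inl ⟨t, rfl⟩
      · exact Or.inr ⟨s', s'.isLt, rfl⟩
    · rintro (⟨t, rfl⟩ | ⟨s', hs', rfl⟩)
      · exact ⟨Sum.inl t, rfl⟩
      · exact ⟨Sum.inr ⟨s', hs'⟩, rfl⟩
  rw [← hrange] at hq ⊢
  refine thm_CIa ℂ (σ i) (τ i ⊕ Fin s) _ (∑ b, C (g s b) * γ i b) (θ i) ?_ q hq
  intro P hP hf hc hθ
  have h3 := hg (s + 1) (by omega) i (by omega) P hP (fun t => hf (Sum.inl t)) (by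
    intro s' hs'
    rcases Nat.lt_or_ge s' s with h | h
    · exact hf (Sum.inr ⟨s', h⟩)
    · obtain rfl : s' = s := by omega
      exact hc) hθ
  rw [Fintype.card_sum, Fintype.card_fin]
  exact h3

end Pool.Agent.AOC
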