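import Pool.Agent.AOC.St

/-!
# AOC, module Cmp: the companion matrix
-/

set_option autoImplicit false

noncomputable section

namespace Pool.Agent.AOC

open Matrix Pool.Agent.CTR Pool.Agent.ANC

theorem cmp_col {i : ℕ} {R : Type} [CommRing R] (p : Fin i → R) (b : Fin i) :
    cp p *ᵥ Pi.single b 1 = fun a => cp p a b := by
  rw [mulVec_single_one]
  rfl

theorem cmp_pow {i : ℕ} {R : Type} [CommRing R] (p : Fin i → R) : ∀ (b : ℕ) (hb : b < i),
    (cp p ^ b) *ᵥ e0 = Pi.single (⟨b, hb⟩ : Fin i) (1 : R)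
  | 0, hb => by
    rw [pow_zero, one_mulVec]
    funext s
    unfold e0
    rw [Pi.single_apply]
    have h : s = (⟨0, hb⟩ : Fin i) ↔ (s : ℕ) = 0 := by rw [Fin.ext_iff]
    simp only [h]
  | b + 1, hb => by
    rw [pow_succ', ← mulVec_mulVec, cmp_pow p b (by omega), cmp_col]
    funext s
    rw [Pi.single_apply]
    have h : s = (⟨b + 1, hb⟩ : Fin i) ↔ (s : ℕ) = b + 1 := by rw [Fin.ext_iff]
    simp only [h]
    show (if b + 1 = i then -p s else if (s : ℕ) = b + 1 then 1 else 0) = _
    rw [if_neg (by omega)]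

theorem thm_Cmp : St_Cmp := by
  intro i R _ p
  have h1 : ∀ b : Fin i, (cp p ^ (b : ℕ)) *ᵥ e0 = Pi.single b (1 : R) := fun b => cmp_pow p b b.isLt
  refine ⟨?_, ?_, ?_⟩
  · intro b s
    rw [h1 b, Pi.single_apply]
  · have h2 : ∀ s : Fin i, (pe p (cp p) *ᵥ e0) s = 0 := by
      intro s
      have hi : 0 < i := lt_of_le_of_lt (Nat.zero_le _) s.isLt
      have h3 : (cp p ^ i) *ᵥ e0 = fun a => -p a := by
        have h4 : cp p ^ i = cp p * cp p ^ (i - 1) := by
          rw [← pow_succ']
          congr 1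
          omega
        rw [h4, ← mulVec_mulVec, cmp_pow p (i - 1) (by omega), cmp_col]
        funext a
        show (if i - 1 + 1 = i then -p a else if (a : ℕ) = i - 1 + 1 then 1 else 0) = _
        rw [if_pos (by omega)]
      have h5 : (∑ b : Fin i, p b • cp p ^ (b : ℕ)) *ᵥ e0 = p := by
        rw [sum_mulVec]
        simp_rw [smul_mulVec, h1]
        funext a
        rw [Finset.sum_apply, Finset.sum_eq_single a]
        · rw [Pi.smul_apply, Pi.single_eq_same, smul_eq_mul, mul_one]
        · intro b _ hb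
          rw [Pi.smul_apply, Pi.single_eq_of_ne (Ne.symm hb), smul_zero]
        · intro h
          exact absurd (Finset.mem_univ _) h
      unfold pe
      rw [add_mulVec, h3, h5]
      show -p s + p s = 0
      ring
    have h3 : pe p (cp p) *ᵥ e0 = 0 := funext h2
    have h4 : ∀ b : Fin i, pe p (cp p) *ᵥ Pi.single b 1 = 0 := by
      intro b
      have hc : Commute (pe p (cp p)) (cp p ^ (b : ℕ)) := by
        unfold pe
        refine Commute.add_left ((Commute.refl (cp p)).pow_pow _ _) ?_
        refine Commute.sum_left _ _ _ fun c _ => ?_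
        exact ((Commute.refl (cp p)).pow_pow _ _).smul_left _
      rw [← h1 b, mulVec_mulVec, hc.eq, ← mulVec_mulVec, h3, mulVec_zero]
    ext s b
    have h5 := congrFun (h4 b) s
    rw [mulVec_single_one] at h5
    exact h5
  · intro α hα
    funext b
    show ∑ a : Fin i, α ^ (a : ℕ) * cp p a b = α * α ^ (b : ℕ)
    by_cases hb : (b : ℕ) + 1 = i
    · have e1 : ∀ a : Fin i, α ^ (a : ℕ) * cp p a b = -(p a * α ^ (a : ℕ)) := by
        intro a
        show α ^ (a : ℕ) * (if (b : ℕ) + 1 = i then -p a else if (a : ℕ) = b + 1 then 1 else 0) = _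
        rw [if_pos hb]
        ring
      simp_rw [e1]
      rw [Finset.sum_neg_distrib]
      have e2 : α * α ^ (b : ℕ) = α ^ i := by
        rw [← pow_succ', hb]
      rw [e2]
      linear_combination (-1 : R) * hα
    · have hb' : (b : ℕ) + 1 < i := by
        have := b.isLt
        omega
      rw [Finset.sum_eq_single (⟨(b : ℕ) + 1, hb'⟩ : Fin i)]
      · show α ^ ((b : ℕ) + 1) * (if (b : ℕ) + 1 = i then -p _ else if (b : ℕ) + 1 = b + 1 then 1 else 0) = _
        rw [if_neg hb, if_pos rfl, mul_one, pow_succ']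
      · intro a _ ha
        show α ^ (a : ℕ) * (if (b : ℕ) + 1 = i then -p a else if (a : ℕ) = b + 1 then 1 else 0) = 0
        rw [if_neg hb, if_neg (fun h => ha (Fin.ext h)), mul_zero]
      · intro h
        exact absurd (Finset.mem_univ _) h

end Pool.Agent.AOC
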