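import Pool.Agent.AOC.St
import Pool.Agent.ANC.DQ
import Pool.Agent.ANC.Wrd
import Pool.Agent.ACV.Der

/-!
# AOC: DZ, dimension bounds for the primes of the normal form
-/

set_option autoImplicit false

noncomputable section

namespace Pool.Agent.AOC

open Matrix Pool.Agent.CTR Pool.Agent.ANC

section maps

variable {R S : Type} [CommRing R] [CommRing S] (f : R →+* S)

theorem dz_mulVec {α β : Type} [Fintype β] (M : Matrix α β R) (v : β → R) :
    (M.map f) *ᵥ (f ∘ v) = f ∘ (M *ᵥ v) := by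
  funext i
  exact (RingHom.map_mulVec f M v i).symm

theorem dz_smul {α β : Type} (c : R) (M : Matrix α β R) : (c • M).map f = f c • M.map f := by
  ext i j
  simp [Matrix.map_apply]

theorem dz_pow {ι : Type} [Fintype ι] [DecidableEq ι] (M : Matrix ι ι R) (b : ℕ) :
    (M ^ b).map f = (M.map f) ^ b :=
  map_pow (RingHom.mapMatrix f) M b

theorem dz_sum {ι κ : Type} [Fintype ι] [DecidableEq ι] (s : Finset κ) (F : κ → Matrix ι ι R) :
    (∑ b ∈ s, F b).map f = ∑ b ∈ s, (F b).map f :=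
  map_sum (RingHom.mapMatrix f) F s

theorem dz_add {α β : Type} (M N : Matrix α β R) : (M + N).map f = M.map f + N.map f := by
  ext i j
  simp [Matrix.map_apply]

theorem dz_pe {ι : Type} [Fintype ι] [DecidableEq ι] {i : ℕ} (p : Fin i → R)
    (x : Matrix ι ι R) : (pe p x).map f = pe (f ∘ p) (x.map f) := by
  unfold pe
  rw [dz_add, dz_pow, dz_sum]
  congr 1
  refine Finset.sum_congr rfl fun b _ => ?_
  rw [dz_smul, dz_pow]
  rfl

theorem dz_re {ι : Type} [Fintype ι] [DecidableEq ι] {i : ℕ} (r : Fin i → R)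
    (x : Matrix ι ι R) : (re r x).map f = re (f ∘ r) (x.map f) := by
  unfold re
  rw [dz_sum]
  refine Finset.sum_congr rfl fun b _ => ?_
  rw [dz_smul, dz_pow]
  rfl

theorem dz_qe {ι : Type} [Fintype ι] [DecidableEq ι] {i : ℕ} (p c : Fin i → R)
    (x : Matrix ι ι R) : (qe p c x).map f = qe (f ∘ p) (f ∘ c) (x.map f) := by
  unfold qe
  rw [dz_sum]
  refine Finset.sum_congr rfl fun u _ => ?_
  rw [dz_smul, dz_add, dz_pow, dz_sum]
  congr 2
  refine Finset.sum_congr rfl fun l _ => ?_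
  split_ifs
  · rw [dz_smul, dz_pow]
    rfl
  · ext i j
    exact map_zero f

theorem dz_hx {h i : ℕ} (xH : Matrix (Fin h) (Fin h) R) (a : Fin h → R) (p : Fin i → R) :
    (hx xH a p).map f = hx (xH.map f) (f ∘ a) (f ∘ p) := by
  ext s t
  rcases s with s | s <;> rcases t with t | t
  · rfl
  · show f (if (t : ℕ) + 1 = i then a s else 0) = if (t : ℕ) + 1 = i then f (a s) else 0
    split_ifs
    · rfl
    · exact map_zero f
  · exact map_zero f
  · show f (if (t : ℕ) + 1 = i then -p s else if (s : ℕ) = t + 1 then 1 else 0) =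
      if (t : ℕ) + 1 = i then -(f (p s)) else if (s : ℕ) = t + 1 then 1 else 0
    split_ifs
    · exact map_neg f _
    · exact map_one f
    · exact map_zero f

theorem dz_hv {h : ℕ} (i : ℕ) (vH : Fin h → R) : f ∘ hv i vH = hv i (f ∘ vH) := by
  funext s
  rcases s with s | s
  · rfl
  · exact map_zero f

theorem dz_hj {h i : ℕ} (jH : Fin h → R) (c : Fin i → R) :
    f ∘ hj jH c = hj (f ∘ jH) (f ∘ c) := by
  funext s
  rcases s with s | s <;> rfl

theorem dz_hw (h i : ℕ) : f ∘ hw h i R = hw h i S := by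
  funext s
  rcases s with s | s
  · exact map_zero f
  · show f (if (s : ℕ) = 0 then 1 else 0) = if (s : ℕ) = 0 then 1 else 0
    split_ifs
    · exact map_one f
    · exact map_zero f

theorem dz_hy {h i : ℕ} (xH yH : Matrix (Fin h) (Fin h) R) (vH a b : Fin h → R)
    (p r c : Fin i → R) : (hy xH yH vH a b p r c).map f =
      hy (xH.map f) (yH.map f) (f ∘ vH) (f ∘ a) (f ∘ b) (f ∘ p) (f ∘ r) (f ∘ c) := by
  ext s t
  rcases t with t | t
  · rcases s with s | s
    · rfl
    · exact map_zero f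
  · show f (((hx xH a p ^ (t : ℕ)) *ᵥ Sum.elim b r) s +
      ∑ l : Fin i, if (l : ℕ) < t then
        c l * ((hx xH a p ^ ((t : ℕ) - 1 - l)) *ᵥ hv i vH) s else 0) =
      ((hx (xH.map f) (f ∘ a) (f ∘ p) ^ (t : ℕ)) *ᵥ Sum.elim (f ∘ b) (f ∘ r)) s +
      ∑ l : Fin i, if (l : ℕ) < t then (f ∘ c) l *
        ((hx (xH.map f) (f ∘ a) (f ∘ p) ^ ((t : ℕ) - 1 - l)) *ᵥ hv i (f ∘ vH)) s else 0
    have h1 : Sum.elim (f ∘ b) (f ∘ r) = f ∘ Sum.elim b r := by
      funext u
      rcases u with u | u <;> rfl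
    rw [map_add, map_sum, h1, ← dz_hx, ← dz_pow, dz_mulVec, ← dz_hv]
    congr 1
    refine Finset.sum_congr rfl fun l _ => ?_
    split_ifs
    · rw [map_mul, ← dz_pow, dz_mulVec]
      rfl
    · exact map_zero f

theorem dz_frm {m k : ℕ} (W : Fin m → List Bool) (x y : Matrix (Iv m k) (Iv m k) R)
    (v w : Iv m k → R) : (frm W x y v w).map f = frm W (x.map f) (y.map f) (f ∘ v) (f ∘ w) := by
  ext s t
  rcases t with t | t
  · show f ((wd x y (W t) *ᵥ v) s) = (wd (x.map f) (y.map f) (W t) *ᵥ (f ∘ v)) s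
    rw [dq_wd, dz_mulVec]
    rfl
  · show f (((x ^ (t : ℕ)) *ᵥ w) s) = (((x.map f) ^ (t : ℕ)) *ᵥ (f ∘ w)) s
    rw [← dz_pow, dz_mulVec]
    rfl

end maps

section lin

variable {L : Type} [Field L]

theorem dz_T {α β γ : Type} [Fintype α] [Fintype β] [Fintype γ] [DecidableEq α]
    (g : Matrix α β L) (g' : Matrix β α L) (hg : g * g' = 1) (T : Submodule L (γ → L)) :
    ∃ T' : Submodule L (((α × β) ⊕ (β × α)) ⊕ γ → L),
      Module.finrank L T' ≤ Fintype.card α * Fintype.card β + Module.finrank L T ∧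
      ∀ f : ((α × β) ⊕ (β × α)) ⊕ γ → L,
        (∀ t u, ∑ s, (f (Sum.inl (Sum.inr (t, s))) * g s u +
          g' t s * f (Sum.inl (Sum.inl (s, u)))) = 0) →
        (fun c => f (Sum.inr c)) ∈ T → f ∈ T' := by
  let T' : Submodule L (((α × β) ⊕ (β × α)) ⊕ γ → L) :=
    { carrier := {f | (∀ t u, ∑ s, (f (Sum.inl (Sum.inr (t, s))) * g s u +
          g' t s * f (Sum.inl (Sum.inl (s, u)))) = 0) ∧ (fun c => f (Sum.inr c)) ∈ T}
      zero_mem' := by
        refine ⟨fun t u => ?_, T.zero_mem⟩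
        simp
      add_mem' := by
        rintro a b ⟨ha, ha'⟩ ⟨hb, hb'⟩
        refine ⟨fun t u => ?_, T.add_mem ha' hb'⟩
        have h1 := ha t u
        have h2 := hb t u
        have h3 : ∑ s, (a (Sum.inl (Sum.inr (t, s))) * g s u +
            g' t s * a (Sum.inl (Sum.inl (s, u)))) +
            ∑ s, (b (Sum.inl (Sum.inr (t, s))) * g s u +
            g' t s * b (Sum.inl (Sum.inl (s, u)))) = 0 := by rw [h1, h2, add_zero]
        rw [← Finset.sum_add_distrib] at h3
        rw [← h3]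
        refine Finset.sum_congr rfl fun s _ => ?_
        simp only [Pi.add_apply]
        ring
      smul_mem' := by
        rintro c a ⟨ha, ha'⟩
        refine ⟨fun t u => ?_, T.smul_mem c ha'⟩
        have h1 := ha t u
        rw [← mul_zero c, ← h1, Finset.mul_sum]
        refine Finset.sum_congr rfl fun s _ => ?_
        simp only [Pi.smul_apply, smul_eq_mul]
        ring }
  refine ⟨T', ?_, fun f h1 h2 => ⟨h1, h2⟩⟩
  let Ψ : T' →ₗ[L] ((α × β) → L) × T :=
    { toFun := fun f => (fun st => f.1 (Sum.inl (Sum.inl st)), ⟨fun c => f.1 (Sum.inr c), f.2.2⟩)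
      map_add' := fun _ _ => rfl
      map_smul' := fun _ _ => rfl }
  have hinj : Function.Injective Ψ := by
    rw [← LinearMap.ker_eq_bot, LinearMap.ker_eq_bot']
    intro f hf
    have h1 : ∀ st, f.1 (Sum.inl (Sum.inl st)) = 0 := fun st =>
      congrFun (congrArg Prod.fst hf) st
    have h2 : ∀ c, f.1 (Sum.inr c) = 0 := fun c =>
      congrFun (congrArg (Subtype.val : T → (γ → L)) (congrArg Prod.snd hf)) c
    have h3 : (Matrix.of fun (t : β) (s : α) => f.1 (Sum.inl (Sum.inr (t, s)))) * g = 0 := by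
      ext t u
      have h4 := f.2.1 t u
      simp only [h1, mul_zero, add_zero] at h4
      exact h4
    have h4 : (Matrix.of fun (t : β) (s : α) => f.1 (Sum.inl (Sum.inr (t, s)))) = 0 := by
      rw [← Matrix.mul_one (Matrix.of fun (t : β) (s : α) => f.1 (Sum.inl (Sum.inr (t, s)))),
        ← hg, ← Matrix.mul_assoc, h3, Matrix.zero_mul]
    apply Subtype.ext
    funext z
    rcases z with (z | ⟨t, s⟩) | z
    · exact h1 z
    · exact congrFun (congrFun h4 t) s
    · exact h2 z
  have h1 := LinearMap.finrank_le_finrank_of_injective hinj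
  rw [Module.finrank_prod, Module.finrank_pi, Fintype.card_prod] at h1
  exact h1

theorem dz_cov [Algebra ℂ L] {m k : ℕ} {β : Type} [Fintype β] [DecidableEq β]
    (W : Fin m → List Bool) (g : Matrix (Iv m k) β L) (g' : Matrix β (Iv m k) L) (hg : g' * g = 1)
    (X Y : Matrix β β L) (v j w : β → L) (hAC : AC X Y v j)
    (hdet : (frm W (g * X * g') (g * Y * g') (g *ᵥ v) (g *ᵥ w)).det ≠ 0)
    (hj : ∀ b : Fin k, j ⬝ᵥ ((X ^ (b : ℕ)) *ᵥ w) = 0) : j = 0 := by
  have hmul : ∀ A B : Matrix β β L, (g * A * g') * (g * B * g') = g * (A * B) * g' := by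
    intro A B
    calc (g * A * g') * (g * B * g') = g * A * (g' * g) * B * g' := by
          simp only [Matrix.mul_assoc]
      _ = g * (A * B) * g' := by rw [hg, Matrix.mul_one, Matrix.mul_assoc g A B]
  have hAC' : AC (g * X * g') (g * Y * g') (g *ᵥ v) (j ᵥ* g') := by
    unfold AC at hAC ⊢
    have h1 : vecMulVec (g *ᵥ v) (j ᵥ* g') = g * vecMulVec v j * g' := by
      rw [Matrix.mul_vecMulVec, Matrix.vecMulVec_mul]
    rw [hmul, hmul, h1, ← Matrix.sub_mul, ← Matrix.mul_sub, ← Matrix.add_mul, ← Matrix.mul_add,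
      hAC, Matrix.mul_zero, Matrix.zero_mul]
  have hpow : ∀ b : ℕ, (g * X * g') ^ b * g = g * X ^ b := by
    intro b
    induction b with
    | zero => rw [pow_zero, pow_zero, Matrix.one_mul, Matrix.mul_one]
    | succ b ih =>
      rw [pow_succ', Matrix.mul_assoc, ih, pow_succ']
      calc g * X * g' * (g * X ^ b) = g * X * (g' * g) * X ^ b := by
            simp only [Matrix.mul_assoc]
        _ = g * (X * X ^ b) := by rw [hg, Matrix.mul_one, Matrix.mul_assoc]
  have hz : (j ᵥ* g') ᵥ* frm W (g * X * g') (g * Y * g') (g *ᵥ v) (g *ᵥ w) = 0 := by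
    funext t
    rcases t with a | b
    · exact thm_Wrd (Iv m k) L (g * X * g') (g * Y * g') (g *ᵥ v) (j ᵥ* g') hAC' (W a)
    · show (j ᵥ* g') ⬝ᵥ (((g * X * g') ^ (b : ℕ)) *ᵥ (g *ᵥ w)) = 0
      rw [Matrix.mulVec_mulVec, hpow, ← Matrix.dotProduct_mulVec, Matrix.mulVec_mulVec,
        ← Matrix.mul_assoc, hg, Matrix.one_mul]
      exact hj b
  have h0 := Matrix.eq_zero_of_vecMul_eq_zero hdet hz
  rw [← Matrix.vecMul_one j, ← hg, ← Matrix.vecMul_vecMul, h0, Matrix.zero_vecMul]

end lin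

/-- **DZ.** Dimensions of primes of the normal form. -/
theorem thm_DZ (hNAY : St_NAY) (hTY : St_TY) : St_DZ := by
  classical
  intro m k h i W hi hhi P hP hI hd
  let L := AlgebraicClosure (FractionRing (RZ m k h i ⧸ P))
  let φ : RZ m k h i →+* L := (algebraMap (RZ m k h i ⧸ P) L).comp (Ideal.Quotient.mk P)
  have hφ : ∀ f ∈ P, φ f = 0 := by
    intro f hf
    change algebraMap (RZ m k h i ⧸ P) L (Ideal.Quotient.mk P f) = 0
    rw [Ideal.Quotient.eq_zero_iff_mem.mpr hf, map_zero]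
  have hφ' : ∀ f, φ f = 0 → f ∈ P := by
    intro f hf
    have h1 : Function.Injective (algebraMap (RZ m k h i ⧸ P) L) := by
      rw [IsScalarTower.algebraMap_eq (RZ m k h i ⧸ P) (FractionRing (RZ m k h i ⧸ P)) L]
      exact (FaithfulSMul.algebraMap_injective (FractionRing (RZ m k h i ⧸ P)) L).comp
        (IsFractionRing.injective (RZ m k h i ⧸ P) (FractionRing (RZ m k h i ⧸ P)))
    have h2 : Ideal.Quotient.mk P f = 0 := by
      apply h1
      rw [map_zero]
      exact hf
    exact Ideal.Quotient.eq_zero_iff_mem.1 h2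
  let g : Matrix (Iv m k) (Iv h i) L := (zg m k h i).map φ
  let g' : Matrix (Iv h i) (Iv m k) L := (zg' m k h i).map φ
  let xH : Matrix (Fin h) (Fin h) L := (zM m k h i 0).map φ
  let yH : Matrix (Fin h) (Fin h) L := (zM m k h i 1).map φ
  let vH : Fin h → L := φ ∘ zV m k h i 0
  let jH : Fin h → L := φ ∘ zV m k h i 1
  let a : Fin h → L := φ ∘ zA m k h i 0
  let b : Fin h → L := φ ∘ zA m k h i 1
  let p : Fin i → L := φ ∘ zP m k h i 0
  let r : Fin i → L := φ ∘ zP m k h i 1
  let c : Fin i → L := φ ∘ zP m k h i 2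
  have hX : (zX m k h i).map φ = hx xH a p := dz_hx φ _ _ _
  have hY : (zY m k h i).map φ = hy xH yH vH a b p r c := dz_hy φ _ _ _ _ _ _ _ _
  have heq : ∀ t, φ (eqZ m k h i t) = 0 := fun t => hφ _ (hI (Ideal.subset_span ⟨t, rfl⟩))
  have hg'g : g' * g = 1 := by
    ext s t
    have h1 := heq (Sum.inl (s, t))
    have h2 : φ (eqZ m k h i (Sum.inl (s, t))) = (g' * g) s t - (1 : Matrix _ _ L) s t := by
      have h3 : (g' * g) = (zg' m k h i * zg m k h i).map φ := (Matrix.map_mul).symm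
      have h4 : (1 : Matrix (Iv h i) (Iv h i) L) =
          (1 : Matrix (Iv h i) (Iv h i) (RZ m k h i)).map φ :=
        (Matrix.map_one φ (map_zero φ) (map_one φ)).symm
      rw [h3, h4, Matrix.map_apply, Matrix.map_apply, ← map_sub]
      rfl
    rw [h2] at h1
    exact sub_eq_zero.1 h1
  have hcard : Fintype.card (Iv m k) = Fintype.card (Iv h i) := by
    rw [Fintype.card_sum, Fintype.card_sum, Fintype.card_fin, Fintype.card_fin, Fintype.card_fin,
      Fintype.card_fin, hhi]
  have hgg' : g * g' = 1 :=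
    (Matrix.mul_eq_one_comm_of_equiv (Fintype.card_eq.mp hcard).some).2 hg'g
  have hAC : AC xH yH vH jH := by
    unfold AC
    ext s t
    have h1 := heq (Sum.inr (Sum.inl (s, t)))
    have h2 : φ (eqZ m k h i (Sum.inr (Sum.inl (s, t)))) =
        (xH * yH - yH * xH + vecMulVec vH jH) s t := by
      simp only [eqZ, Sum.elim_inr, Sum.elim_inl, Matrix.add_apply, Matrix.sub_apply,
        Matrix.mul_apply, vecMulVec_apply, map_add, map_sub, map_sum, map_mul, xH, yH, vH, jH,
        Matrix.map_apply, Function.comp_apply]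
    rw [← h2, h1, Matrix.zero_apply]
  have hE3 : E3 xH yH vH a b p r c := by
    unfold E3
    funext s
    have h1 := heq (Sum.inr (Sum.inr s))
    have h2 : φ (eqZ m k h i (Sum.inr (Sum.inr s))) =
        (pe p xH *ᵥ b - (yH *ᵥ a - re r xH *ᵥ a) + qe p c xH *ᵥ vH) s := by
      have e1 : pe p xH *ᵥ b = φ ∘ (pe (zP m k h i 0) (zM m k h i 0) *ᵥ zA m k h i 1) := by
        rw [← dz_mulVec, dz_pe]
      have e2 : yH *ᵥ a = φ ∘ (zM m k h i 1 *ᵥ zA m k h i 0) := by
        rw [← dz_mulVec]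
      have e3 : re r xH *ᵥ a = φ ∘ (re (zP m k h i 1) (zM m k h i 0) *ᵥ zA m k h i 0) := by
        rw [← dz_mulVec, dz_re]
      have e4 : qe p c xH *ᵥ vH =
          φ ∘ (qe (zP m k h i 0) (zP m k h i 2) (zM m k h i 0) *ᵥ zV m k h i 0) := by
        rw [← dz_mulVec, dz_qe]
      rw [e1, e2, e3, e4]
      simp only [eqZ, Sum.elim_inr, Pi.add_apply, Pi.sub_apply, Function.comp_apply, map_add,
        map_sub]
    rw [← h2, h1, Pi.zero_apply]
  have hdsx : dsx (h + i) (hx xH a p) = 0 := by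
    rw [← hX, dq_dsx, hhi]
    exact hφ _ hd
  have hco : ∀ s, coY xH yH vH jH a b p r c s = algebraMap (RZ m k h i ⧸ P) L
      (Ideal.Quotient.mk P (MvPolynomial.X (Sum.inr s))) := by
    rintro ((⟨s, t, u⟩ | ⟨s, t⟩) | (⟨s, t⟩ | ⟨s, t⟩))
    · fin_cases s <;> rfl
    · fin_cases s <;> rfl
    · fin_cases s <;> rfl
    · fin_cases s <;> rfl
  have hder : ∀ δ : Derivation ℂ L L, ∀ t u, ∑ s, (δ (g' t s) * g s u + g' t s * δ (g s u)) = 0 := by
    intro δ t u
    have h1 : (g' * g) t u = (1 : Matrix (Iv h i) (Iv h i) L) t u := by rw [hg'g]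
    have h2 : δ ((g' * g) t u) = 0 := by
      rw [h1, Matrix.one_apply]
      split_ifs
      · exact δ.map_one_eq_zero
      · exact map_zero δ
    rw [Matrix.mul_apply, map_sum] at h2
    rw [← h2]
    refine Finset.sum_congr rfl fun s _ => ?_
    rw [Derivation.leibniz, smul_eq_mul, smul_eq_mul]
    ring
  have hfin : ∀ T : Submodule L (Yv h i → L),
      (∀ δ : Derivation ℂ L L, (fun s => δ (coY xH yH vH jH a b p r c s)) ∈ T) →
      ringKrullDim (RZ m k h i ⧸ P) ≤
        (((m + k) ^ 2 + Module.finrank L T : ℕ) : WithBot ℕ∞) := by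
    intro T hT
    obtain ⟨T', hT', hmem⟩ := dz_T g g' hgg' T
    have h1 := Pool.Agent.ACV.thm_Der ℂ (Zv m k h i) P T' (fun δ => by
      refine hmem _ (fun t u => ?_) ?_
      · exact hder δ t u
      · have h3 := hT δ
        simp_rw [hco] at h3
        exact h3)
    refine h1.trans ?_
    have h2 : Fintype.card (Iv m k) * Fintype.card (Iv h i) = (m + k) ^ 2 := by
      rw [← hcard, Fintype.card_sum, Fintype.card_fin, Fintype.card_fin, sq]
    rw [h2] at hT'
    exact_mod_cast hT'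
  obtain ⟨hT1, hT2⟩ := hTY L h i xH yH vH jH a b p r c hAC hE3 hdsx
  refine ⟨?_, fun hgZ hth => ?_⟩
  · obtain ⟨T, hT, hδ⟩ := hT1
    have h1 := hfin T hδ
    calc ringKrullDim (RZ m k h i ⧸ P) + 1
        ≤ (((m + k) ^ 2 + Module.finrank L T : ℕ) : WithBot ℕ∞) + 1 := add_le_add_left h1 1
      _ = (((m + k) ^ 2 + Module.finrank L T + 1 : ℕ) : WithBot ℕ∞) := by push_cast; rfl
      _ ≤ _ := by exact_mod_cast (by omega)
  · have hj0 : hj jH c = 0 := by
      refine dz_cov W g g' hg'g (hx xH a p) (hy xH yH vH a b p r c) (hv i vH) (hj jH c)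
        (hw h i L) (hNAY h i L hi xH yH vH jH a b p r c hAC hE3) ?_ ?_
      · intro h0
        apply hth
        apply hφ'
        unfold thZ
        rw [RingHom.map_det, RingHom.mapMatrix_apply, dz_frm, ← dz_mulVec, ← dz_mulVec, dz_hv,
          dz_hw, Matrix.map_mul, Matrix.map_mul, Matrix.map_mul, Matrix.map_mul, hX, hY]
        exact h0
      · intro b'
        have h1 := hφ _ (hgZ b')
        unfold gZ at h1
        rw [RingHom.map_dotProduct, dz_hj, ← dz_mulVec, dz_hw, dz_pow, hX] at h1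
        exact h1
    have hjH : jH = 0 := by
      funext s
      exact congrFun hj0 (Sum.inl s)
    have hc : c = 0 := by
      funext s
      exact congrFun hj0 (Sum.inr s)
    obtain ⟨T, hT, hδ⟩ := hT2 hjH hc
    have h1 := hfin T hδ
    calc ringKrullDim (RZ m k h i ⧸ P) + 1 + ((i : ℕ) : WithBot ℕ∞)
        ≤ (((m + k) ^ 2 + Module.finrank L T : ℕ) : WithBot ℕ∞) + 1 + ((i : ℕ) : WithBot ℕ∞) :=
          add_le_add_left (add_le_add_left h1 1) _
      _ = (((m + k) ^ 2 + Module.finrank L T + 1 + i : ℕ) : WithBot ℕ∞) := by push_cast; rfl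
      _ ≤ _ := by exact_mod_cast (by omega)

end Pool.Agent.AOC
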