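import Pool.Agent.AOC.St
import Pool.Agent.ANC.Bas
import Pool.Agent.ANC.Cnj

/-!
# AOC: the theorem (Dec)
-/

set_option autoImplicit false

namespace Pool.Agent.AOC

open Matrix Pool.Agent.CTR Pool.Agent.ANC

private theorem dec_top {n : ℕ} (A : Matrix (Fin n) (Fin n) ℂ) (α : ℂ) :
    Module.End.maxGenEigenspace (Matrix.toLin' A) α = ⊤ ↔
      (A - α • (1 : Matrix (Fin n) (Fin n) ℂ)) ^ n = 0 := by
  rw [Module.End.maxGenEigenspace_eq_genEigenspace_finrank, Module.End.genEigenspace_nat,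
    LinearMap.ker_eq_top]
  have h : Matrix.toLin' A - α • (1 : Module.End ℂ (Fin n → ℂ)) =
      Matrix.toLin' (A - α • (1 : Matrix (Fin n) (Fin n) ℂ)) := by
    rw [map_sub, map_smul, Matrix.toLin'_one]
    rfl
  rw [h, Module.finrank_fin_fun, ← Matrix.toLin'_pow]
  constructor
  · intro h2
    exact Matrix.toLin'.injective (by rw [h2, map_zero])
  · intro h2
    rw [h2, map_zero]

private theorem dec_tr {n : ℕ} (A : Matrix (Fin n) (Fin n) ℂ) (α : ℂ)
    (h : Module.End.maxGenEigenspace (Matrix.toLin' A) α = ⊤) :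
    Module.End.maxGenEigenspace (Matrix.toLin' Aᵀ) α = ⊤ := by
  rw [dec_top] at h ⊢
  have h2 : Aᵀ - α • (1 : Matrix (Fin n) (Fin n) ℂ) =
      (A - α • (1 : Matrix (Fin n) (Fin n) ℂ))ᵀ := by
    rw [transpose_sub, transpose_smul, transpose_one]
  rw [h2, ← transpose_pow, h, transpose_zero]

private theorem dec_gE {n : ℕ} (A B : Matrix (Fin n) (Fin n) ℂ) (α β : ℂ)
    (h : gE A B α β = ⊤) : gE Aᵀ Bᵀ α β = ⊤ := by
  unfold gE at h ⊢
  rw [inf_eq_top_iff] at h ⊢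
  exact ⟨dec_tr A α h.1, dec_tr B β h.2⟩

private theorem dec_zero (hOne : St_One) (A B : Matrix (Fin 0) (Fin 0) ℂ) : Rd A B := by
  refine hOne 0 A B 0 0 (Subsingleton.elim _ _) (Subsingleton.elim _ _) ⟨0, 0, 0, ?_⟩
  refine le_trans (Submodule.finrank_le _) ?_
  rw [Module.finrank_fin_fun]
  exact Nat.zero_le _

/-- **Dec.** The theorem. -/
theorem thm_Dec (hTrn : Pool.Agent.ANC.St_Trn) (hPrd : Pool.Agent.ANC.St_Prd) (hOne : St_One)
    (hCub : St_Cub) : St_Dec := by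
  intro n
  induction n using Nat.strong_induction_on with
  | _ n ih =>
  intro A B hAB hCd
  rcases Nat.eq_zero_or_pos n with rfl | hn
  · exact dec_zero hOne A B
  · obtain ⟨α, β, t, n₁, n₂, e, Q, A₁, B₁, A₂, B₂, hn1, hA, hB, hco, hg1, -⟩ :=
      Pool.Agent.ANC.thm_Bas n A B hn hAB
    have hcomm : Matrix.fromBlocks A₁ 0 0 A₂ * Matrix.fromBlocks B₁ 0 0 B₂ =
        Matrix.fromBlocks B₁ 0 0 B₂ * Matrix.fromBlocks A₁ 0 0 A₂ := by
      rw [← hA, ← hB]
      simp only [Matrix.reindex_apply, Matrix.submatrix_mul_equiv]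
      congr 1
      have hQ : Q.val * (Q⁻¹ : (Matrix (Fin n) (Fin n) ℂ)ˣ).val = 1 := Q.mul_inv
      calc (Q⁻¹ : (Matrix (Fin n) (Fin n) ℂ)ˣ).val * A * Q.val *
            ((Q⁻¹ : (Matrix (Fin n) (Fin n) ℂ)ˣ).val * B * Q.val)
          = (Q⁻¹ : (Matrix (Fin n) (Fin n) ℂ)ˣ).val * A *
            (Q.val * (Q⁻¹ : (Matrix (Fin n) (Fin n) ℂ)ˣ).val) * B * Q.val := by
            simp only [mul_assoc]
        _ = (Q⁻¹ : (Matrix (Fin n) (Fin n) ℂ)ˣ).val * (A * B) * Q.val := by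
            rw [hQ]; simp only [mul_assoc, one_mul]
        _ = (Q⁻¹ : (Matrix (Fin n) (Fin n) ℂ)ˣ).val * B *
            (Q.val * (Q⁻¹ : (Matrix (Fin n) (Fin n) ℂ)ˣ).val) * A * Q.val := by
            rw [hQ, hAB]; simp only [mul_assoc, one_mul]
        _ = _ := by simp only [mul_assoc]
    rw [Matrix.fromBlocks_multiply, Matrix.fromBlocks_multiply, Matrix.fromBlocks_inj] at hcomm
    simp only [Matrix.mul_zero, Matrix.zero_mul, add_zero, zero_add] at hcomm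
    obtain ⟨hc1, -, -, hc2⟩ := hcomm
    have hcard : n = n₁ + n₂ := by simpa using Fintype.card_congr e
    have hC := hCub n n₁ n₂ A B e Q A₁ B₁ A₂ B₂ t hAB hA hB hco
    have hR1 : Rd A₁ B₁ := by
      rcases hCd α β with h | h
      · exact hOne n₁ A₁ B₁ α β hc1 hg1 ((hC α β).1 h).1
      · refine hTrn (Fin n₁) A₁ B₁ ?_
        refine hOne n₁ A₁ᵀ B₁ᵀ α β ?_ (dec_gE _ _ _ _ hg1) ((hC α β).2 h).1
        rw [← transpose_mul, ← transpose_mul, hc1]
    have hR2 : Rd A₂ B₂ := by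
      refine ih n₂ (by omega) A₂ B₂ hc2 fun α' β' => ?_
      rcases hCd α' β' with h | h
      · exact Or.inl ((hC α' β').1 h).2
      · exact Or.inr ((hC α' β').2 h).2
    refine Pool.Agent.ANC.thm_Cnj _ _ e Q A B ?_
    rw [hA, hB]
    exact hPrd n₁ n₂ A₁ B₁ A₂ B₂ t hc1 hc2 hco hR1 hR2

end Pool.Agent.AOC
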