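import Pool.Agent.AOC.St
import Pool.Agent.ANC.Wrd

/-!
# AOC.Frj: the ideal of the covector (MP_c67a3f_ag)
-/

set_option autoImplicit false

noncomputable section

namespace Pool.Agent.AOC

open Matrix Pool.Agent.CTR Pool.Agent.ANC

theorem frj_wd {ι R T : Type} [Fintype ι] [DecidableEq ι] [CommRing R] [CommRing T] (κ : R →+* T)
    (x y : Matrix ι ι R) (w : List Bool) : (wd x y w).map κ = wd (x.map κ) (y.map κ) w := by
  induction w with
  | nil => exact Matrix.map_one κ (map_zero κ) (map_one κ)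
  | cons b w ih =>
    simp only [wd]
    rw [Matrix.map_mul, ih]
    cases b <;> rfl

theorem frj_pow {ι R T : Type} [Fintype ι] [DecidableEq ι] [CommRing R] [CommRing T] (κ : R →+* T)
    (x : Matrix ι ι R) (n : ℕ) : (x ^ n).map κ = x.map κ ^ n :=
  map_pow (RingHom.mapMatrix κ) x n

theorem frj_frm {m k : ℕ} {R T : Type} [CommRing R] [CommRing T] (κ : R →+* T)
    (W : Fin m → List Bool) (x y : Matrix (Iv m k) (Iv m k) R) (v w : Iv m k → R) :
    (frm W x y v w).map κ = frm W (x.map κ) (y.map κ) (fun i => κ (v i)) (fun i => κ (w i)) := by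
  ext i s
  rcases s with a | b
  · show κ ((wd x y (W a) *ᵥ v) i) = (wd (x.map κ) (y.map κ) (W a) *ᵥ (fun i => κ (v i))) i
    rw [RingHom.map_mulVec, frj_wd]
    rfl
  · show κ ((x ^ (b : ℕ) *ᵥ w) i) = (x.map κ ^ (b : ℕ) *ᵥ (fun i => κ (w i))) i
    rw [RingHom.map_mulVec, frj_pow]
    rfl

theorem frj_eq {ι R T : Type} [Fintype ι] [DecidableEq ι] [CommRing R] [CommRing T] (κ : R →+* T)
    (x y : Matrix ι ι R) (v j : ι → R) :
    (x * y - y * x + vecMulVec v j).map κ =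
      x.map κ * y.map κ - y.map κ * x.map κ + vecMulVec (fun i => κ (v i)) (fun i => κ (j i)) := by
  rw [← Matrix.map_mul, ← Matrix.map_mul]
  ext a b
  simp only [Matrix.map_apply, Matrix.add_apply, Matrix.sub_apply, vecMulVec_apply, map_add,
    map_sub, map_mul]

theorem frj_det {ι R T : Type} [Fintype ι] [DecidableEq ι] [CommRing R] [CommRing T] (κ : R →+* T)
    (M : Matrix ι ι R) : (M.map κ).det = κ M.det :=
  (RingHom.map_det κ M).symm

theorem frj_mem {ι S : Type} [Fintype ι] [DecidableEq ι] [CommRing S] (F : Matrix ι ι S)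
    (hF : IsUnit F.det) (j : ι → S) (I : Ideal S) (h : ∀ t, (j ᵥ* F) t ∈ I) (l : ι) : j l ∈ I := by
  have e : j = (j ᵥ* F) ᵥ* F⁻¹ := by
    rw [Matrix.vecMul_vecMul, Matrix.mul_nonsing_inv F hF, Matrix.vecMul_one]
  rw [e]
  show (j ᵥ* F) ⬝ᵥ (fun t => F⁻¹ t l) ∈ I
  exact Ideal.sum_mem _ fun t _ => Ideal.mul_mem_right _ _ (h t)

theorem thm_Frj : St_Frj := by
  intro m k W
  have hAC : AC (sM m k W 0) (sM m k W 1) (sV m k W 0) (sV m k W 1) := by
    have h2 := frj_eq (js m k W) (wM m k 0) (wM m k 1) (wV m k 0) (wV m k 1)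
    unfold AC
    refine h2.symm.trans ?_
    ext a b
    show js m k W ((wM m k 0 * wM m k 1 - wM m k 1 * wM m k 0 +
      vecMulVec (wV m k 0) (wV m k 1)) a b) = 0
    have h3 : (wM m k 0 * wM m k 1 - wM m k 1 * wM m k 0 +
        vecMulVec (wV m k 0) (wV m k 1)) a b ∈ IWd m k :=
      Ideal.subset_span ⟨(a, b), rfl⟩
    unfold js
    rw [RingHom.comp_apply, Ideal.Quotient.eq_zero_iff_mem.2 h3, map_zero]
  have hU : IsUnit (frm W (sM m k W 0) (sM m k W 1) (sV m k W 0) (sV m k W 2)).det := by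
    have h1 : frm W (sM m k W 0) (sM m k W 1) (sV m k W 0) (sV m k W 2) =
        (frm W (wM m k 0) (wM m k 1) (wV m k 0) (wV m k 2)).map (js m k W) :=
      (frj_frm (js m k W) W _ _ _ _).symm
    rw [h1]
    rw [frj_det]
    exact IsLocalization.Away.algebraMap_isUnit (Ideal.Quotient.mk (IWd m k)
      (frm W (wM m k 0) (wM m k 1) (wV m k 0) (wV m k 2)).det)
  have hW := thm_Wrd (Iv m k) (SA m k W) (sM m k W 0) (sM m k W 1) (sV m k W 0) (sV m k W 1) hAC
  have hc : ∀ b : Fin k, sc m k W b = sV m k W 1 ⬝ᵥ ((sM m k W 0 ^ (b : ℕ)) *ᵥ sV m k W 2) := by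
    intro b
    unfold sc
    rw [RingHom.map_dotProduct]
    refine congrArg (fun z => sV m k W 1 ⬝ᵥ z) ?_
    funext i
    show js m k W ((wM m k 0 ^ (b : ℕ) *ᵥ wV m k 2) i) = _
    rw [RingHom.map_mulVec, frj_pow]
    rfl
  refine ⟨hAC, hU, hW, hc, frj_mem _ hU _ _ fun t => ?_⟩
  rcases t with a | b
  · have h1 : (sV m k W 1 ᵥ* frm W (sM m k W 0) (sM m k W 1) (sV m k W 0) (sV m k W 2))
        (Sum.inl a) = sV m k W 1 ⬝ᵥ (wd (sM m k W 0) (sM m k W 1) (W a) *ᵥ sV m k W 0) := rfl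
    rw [h1, hW (W a)]
    exact zero_mem _
  · have h1 : (sV m k W 1 ᵥ* frm W (sM m k W 0) (sM m k W 1) (sV m k W 0) (sV m k W 2))
        (Sum.inr b) = sV m k W 1 ⬝ᵥ ((sM m k W 0 ^ (b : ℕ)) *ᵥ sV m k W 2) := rfl
    rw [h1, ← hc b]
    exact Ideal.subset_span ⟨b, rfl⟩

end Pool.Agent.AOC
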