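import Pool.Agent.AOC.St
import Pool.Agent.CTR.GL

/-!
# AOC: linear substitutions
-/

set_option autoImplicit false

noncomputable section

namespace Pool.Agent.AOC

open Matrix Pool.Agent.CTR Pool.Agent.ANC

theorem glt_lin {M : Type} [AddCommGroup M] [Module ℂ M] (X Y : M) (a b c d u v : ℂ) :
    u • (a • X + b • Y) + v • (c • X + d • Y) =
      (u * a + v * c) • X + (u * b + v * d) • Y := by
  module

theorem glt_one {M : Type} [AddCommGroup M] [Module ℂ M] (X Y : M) (a b c d D : ℂ)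
    (hD : D ≠ 0) (h : D = a * d - b * c) :
    (D⁻¹ * d) • (a • X + b • Y) + (-(D⁻¹ * b)) • (c • X + d • Y) = X ∧
    (-(D⁻¹ * c)) • (a • X + b • Y) + (D⁻¹ * a) • (c • X + d • Y) = Y := by
  constructor
  · rw [glt_lin]
    have e1 : D⁻¹ * d * a + -(D⁻¹ * b) * c = 1 := by
      calc D⁻¹ * d * a + -(D⁻¹ * b) * c = D⁻¹ * (a * d - b * c) := by ring
        _ = 1 := by rw [← h, inv_mul_cancel₀ hD]
    have e2 : D⁻¹ * d * b + -(D⁻¹ * b) * d = 0 := by ring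
    rw [e1, e2, one_smul, zero_smul, add_zero]
  · rw [glt_lin]
    have e1 : -(D⁻¹ * c) * a + D⁻¹ * a * c = 0 := by ring
    have e2 : -(D⁻¹ * c) * b + D⁻¹ * a * d = 1 := by
      calc -(D⁻¹ * c) * b + D⁻¹ * a * d = D⁻¹ * (a * d - b * c) := by ring
        _ = 1 := by rw [← h, inv_mul_cancel₀ hD]
    rw [e1, e2, one_smul, zero_smul, zero_add]

theorem glt_cm {R : Type} [Ring R] [Algebra ℂ R] (X Y : R) (h : X * Y = Y * X) (a b c d : ℂ) :
    (a • X + b • Y) * (c • X + d • Y) = (c • X + d • Y) * (a • X + b • Y) := by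
  simp only [mul_add, add_mul, smul_mul_assoc, mul_smul_comm, h]
  module

/-- The value of a linear combination of two matrices at a homomorphism. -/
theorem glt_map {ι S S' : Type} [CommRing S] [Algebra ℂ S] [CommRing S'] [Algebra ℂ S'] (a b : ℂ)
    (X Y : Matrix ι ι S) (φ : S →ₐ[ℂ] S') :
    (a • X + b • Y).map φ = a • X.map φ + b • Y.map φ := by
  ext i j
  simp

/-- A linear substitution. -/
def gltS (n : ℕ) (a b c d : ℂ) : Rg (Fin n) ℂ →ₐ[ℂ] Rg (Fin n) ℂ :=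
  ev (a • mX (Fin n) ℂ + b • mY (Fin n) ℂ) (c • mX (Fin n) ℂ + d • mY (Fin n) ℂ)

theorem glt_X (n : ℕ) (a b c d : ℂ) :
    (mX (Fin n) ℂ).map (gltS n a b c d) = a • mX (Fin n) ℂ + b • mY (Fin n) ℂ := gl_ev_X _ _

theorem glt_Y (n : ℕ) (a b c d : ℂ) :
    (mY (Fin n) ℂ).map (gltS n a b c d) = c • mX (Fin n) ℂ + d • mY (Fin n) ℂ := gl_ev_Y _ _

/-- A linear substitution maps `comI` into `comI`. -/
theorem glt_le (n : ℕ) (a b c d : ℂ) :
    comI (Fin n) ℂ ≤ (comI (Fin n) ℂ).comap (gltS n a b c d) := by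
  apply gl_le
  rw [glt_X, glt_Y]
  have h2 : ∀ u v : ℂ, (u • mX (Fin n) ℂ + v • mY (Fin n) ℂ).map
      (Ideal.Quotient.mk (comI (Fin n) ℂ)) =
      u • (mX (Fin n) ℂ).map (Ideal.Quotient.mk (comI (Fin n) ℂ)) +
        v • (mY (Fin n) ℂ).map (Ideal.Quotient.mk (comI (Fin n) ℂ)) := fun u v =>
    glt_map u v _ _ (Ideal.Quotient.mkₐ ℂ (comI (Fin n) ℂ))
  rw [h2, h2]
  exact glt_cm _ _ (gl_comm (Fin n) ℂ) a b c d

theorem glt_comp (n : ℕ) (a b c d : ℂ) (hD : a * d - b * c ≠ 0) (f : Rg (Fin n) ℂ) :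
    gltS n a b c d (gltS n ((a * d - b * c)⁻¹ * d) (-((a * d - b * c)⁻¹ * b))
      (-((a * d - b * c)⁻¹ * c)) ((a * d - b * c)⁻¹ * a) f) = f := by
  have hcomp : (gltS n a b c d).comp (gltS n ((a * d - b * c)⁻¹ * d) (-((a * d - b * c)⁻¹ * b))
      (-((a * d - b * c)⁻¹ * c)) ((a * d - b * c)⁻¹ * a)) = AlgHom.id ℂ _ := by
    have h0 := glt_one (mX (Fin n) ℂ) (mY (Fin n) ℂ) a b c d _ hD rfl
    apply gl_ext
    · have h1 : ∀ α β : Rg (Fin n) ℂ →ₐ[ℂ] Rg (Fin n) ℂ,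
        (mX (Fin n) ℂ).map (α.comp β) = ((mX (Fin n) ℂ).map β).map α := fun _ _ => rfl
      rw [h1, glt_X, glt_map, glt_X, glt_Y, h0.1]
      rfl
    · have h1 : ∀ α β : Rg (Fin n) ℂ →ₐ[ℂ] Rg (Fin n) ℂ,
        (mY (Fin n) ℂ).map (α.comp β) = ((mY (Fin n) ℂ).map β).map α := fun _ _ => rfl
      rw [h1, glt_Y, glt_map, glt_X, glt_Y, h0.2]
      rfl
  exact DFunLike.congr_fun hcomp f

theorem glt_ev (n : ℕ) (A B : Matrix (Fin n) (Fin n) ℂ) (a b c d : ℂ) (f : Rg (Fin n) ℂ) :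
    ev A B (gltS n a b c d f) = ev (a • A + b • B) (c • A + d • B) f := by
  have hev : (ev A B).comp (gltS n a b c d) = ev (a • A + b • B) (c • A + d • B) := by
    apply gl_ext
    · have h1 : (mX (Fin n) ℂ).map ((ev A B).comp (gltS n a b c d)) =
        ((mX (Fin n) ℂ).map (gltS n a b c d)).map (ev A B) := rfl
      rw [h1, glt_X, glt_map, gl_ev_X, gl_ev_Y, gl_ev_X]
    · have h1 : (mY (Fin n) ℂ).map ((ev A B).comp (gltS n a b c d)) =
        ((mY (Fin n) ℂ).map (gltS n a b c d)).map (ev A B) := rfl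
      rw [h1, glt_Y, glt_map, gl_ev_X, gl_ev_Y, gl_ev_Y]
  exact DFunLike.congr_fun hev f

/-- **GLt** -/
theorem thm_GLt : St_GLt := by
  intro n A B a b c d hD hRd f hf
  obtain ⟨m, hfm⟩ := hf
  obtain ⟨g, hg1, hg2⟩ := hRd (gltS n ((a * d - b * c)⁻¹ * d) (-((a * d - b * c)⁻¹ * b))
      (-((a * d - b * c)⁻¹ * c)) ((a * d - b * c)⁻¹ * a) f) ⟨m, by
    rw [← map_pow]
    exact glt_le _ _ _ _ _ hfm⟩
  refine ⟨gltS n a b c d g, ?_, ?_⟩
  · rw [glt_ev]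
    exact hg1
  · have h1 := glt_le n a b c d hg2
    rw [Ideal.mem_comap, map_mul, glt_comp n a b c d hD] at h1
    exact h1

end Pool.Agent.AOC
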