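import Pool.Agent.AOC.St

set_option autoImplicit false

noncomputable section

namespace Pool.Agent.AOC

open Matrix Pool.Agent.CTR Pool.Agent.ANC

section abstract

variable {S N : Type} [CommRing S] [AddCommGroup N] [Module S N] (T : Module.End S N) (w : N) (i : ℕ)

/-- `g ↦ g(T) w` -/
def kap_ev : Polynomial S →ₗ[S] N := (LinearMap.applyₗ w) ∘ₗ (Polynomial.aeval T).toLinearMap

theorem kap_ev_apply (g : Polynomial S) : kap_ev T w g = (Polynomial.aeval T g) w := rfl

/-- `α^a ↦ T^(a_0) w ∧ .. ∧ T^(a_(i-1)) w` -/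
def kap_br : MvPolynomial (Fin i) S →ₗ[S] (⋀[S]^i N) :=
  (MvPolynomial.basisMonomials (Fin i) S).constr S
    (fun a => exteriorPower.ιMulti S i (fun s => (T ^ (a s)) w))

theorem kap_br_one (a : Fin i →₀ ℕ) :
    kap_br T w i (MvPolynomial.monomial a 1) = exteriorPower.ιMulti S i (fun s => (T ^ (a s)) w) := by
  have h := (MvPolynomial.basisMonomials (Fin i) S).constr_basis S
    (fun a => exteriorPower.ιMulti S i (fun s => (T ^ (a s)) w)) a
  rwa [MvPolynomial.coe_basisMonomials] at h

theorem kap_br_mon (a : Fin i →₀ ℕ) (c : S) :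
    kap_br T w i (MvPolynomial.monomial a c) = c • exteriorPower.ιMulti S i (fun s => (T ^ (a s)) w) := by
  rw [← kap_br_one, ← map_smul, MvPolynomial.smul_monomial, smul_eq_mul, mul_one]

theorem kap_br_prod (g : Fin i → Polynomial S) :
    kap_br T w i (∏ s, Polynomial.aeval (MvPolynomial.X s : MvPolynomial (Fin i) S) (g s)) =
      exteriorPower.ιMulti S i (fun s => kap_ev T w (g s)) := by
  let M1 : MultilinearMap S (fun _ : Fin i => Polynomial S) (⋀[S]^i N) :=
    (kap_br T w i).compMultilinearMap ((MultilinearMap.mkPiAlgebra S (Fin i) (MvPolynomial (Fin i) S)).compLinearMap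
      (fun s => (Polynomial.aeval (MvPolynomial.X s : MvPolynomial (Fin i) S)).toLinearMap))
  let M2 : MultilinearMap S (fun _ : Fin i => Polynomial S) (⋀[S]^i N) :=
    (exteriorPower.ιMulti S i (M := N)).toMultilinearMap.compLinearMap (fun _ => kap_ev T w)
  have h : M1 = M2 := by
    refine Module.Basis.ext_multilinear (fun _ => Polynomial.basisMonomials S) fun v => ?_
    simp only [M1, M2, LinearMap.compMultilinearMap_apply, MultilinearMap.compLinearMap_apply,
      MultilinearMap.mkPiAlgebra_apply, Polynomial.coe_basisMonomials, AlgHom.toLinearMap_apply,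
      AlternatingMap.coe_multilinearMap, kap_ev_apply]
    have e1 : ∏ s, Polynomial.aeval (MvPolynomial.X s : MvPolynomial (Fin i) S) (Polynomial.monomial (v s) (1 : S)) =
        MvPolynomial.monomial (Finsupp.equivFunOnFinite.symm v) (1 : S) := by
      rw [MvPolynomial.monomial_eq, MvPolynomial.C_1, one_mul, Finsupp.prod_fintype]
      · refine Finset.prod_congr rfl fun s _ => ?_
        rw [Polynomial.aeval_monomial, map_one, one_mul]
        rfl
      · intro s
        exact pow_zero _
    rw [e1, kap_br_one]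
    congr 1
    funext s
    rw [Polynomial.aeval_monomial, map_one, one_mul]
    rfl
  exact congrArg (fun M : MultilinearMap S (fun _ : Fin i => Polynomial S) (⋀[S]^i N) => M g) h

theorem kap_br_perm (σ : Equiv.Perm (Fin i)) (f : MvPolynomial (Fin i) S) :
    kap_br T w i (MvPolynomial.rename σ f) = (Equiv.Perm.sign σ : ℤˣ) • kap_br T w i f := by
  induction f using MvPolynomial.induction_on' with
  | monomial a c =>
    rw [MvPolynomial.rename_monomial, kap_br_mon, kap_br_mon, smul_comm]
    congr 1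
    have h := (exteriorPower.ιMulti S i (M := N)).map_perm (fun s => (T ^ (a s)) w) σ⁻¹
    rw [Equiv.Perm.sign_inv] at h
    rw [← h]
    congr 1
    funext s
    have e : (Finsupp.mapDomain σ a) s = a (σ⁻¹ s) := by
      have := Finsupp.mapDomain_apply σ.injective a (σ⁻¹ s)
      rwa [show σ (σ⁻¹ s) = s from σ.apply_symm_apply s] at this
    rw [e]
    rfl
  | add p q hp hq => rw [map_add, map_add, hp, hq, map_add, smul_add]

theorem kap_br_swap (h2 : IsUnit (2 : S)) (s t : Fin i) (hst : s ≠ t) (f : MvPolynomial (Fin i) S)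
    (hf : MvPolynomial.rename (Equiv.swap s t) f = f) : kap_br T w i f = 0 := by
  have h := kap_br_perm T w i (Equiv.swap s t) f
  rw [hf, Equiv.Perm.sign_swap hst, Units.neg_smul, one_smul] at h
  have h3 : (2 : S) • kap_br T w i f = 0 := by
    rw [two_smul]
    nth_rw 1 [h]
    exact neg_add_cancel _
  exact (h2.smul_eq_zero).1 h3

/-- the elementary symmetric functions up to signs -/
def kap_eps (S : Type) [CommRing S] (i : ℕ) : MvPolynomial (Fin i) S →ₐ[S] MvPolynomial (Fin i) S :=
  MvPolynomial.aeval fun b : Fin i =>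
    (∏ s : Fin i, (Polynomial.X - Polynomial.C (MvPolynomial.X s : MvPolynomial (Fin i) S))).coeff b

theorem kap_eps_symm (σ : Equiv.Perm (Fin i)) (f : MvPolynomial (Fin i) S) :
    MvPolynomial.rename σ (kap_eps S i f) = kap_eps S i f := by
  have h : (MvPolynomial.rename σ).comp (kap_eps S i) = kap_eps S i := by
    refine MvPolynomial.algHom_ext fun b => ?_
    rw [AlgHom.comp_apply]
    unfold kap_eps
    rw [MvPolynomial.aeval_X]
    have e1 : MvPolynomial.rename σ ((∏ s : Fin i, (Polynomial.X -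
        Polynomial.C (MvPolynomial.X s : MvPolynomial (Fin i) S))).coeff b) =
        ((∏ s : Fin i, (Polynomial.X - Polynomial.C (MvPolynomial.X s : MvPolynomial (Fin i) S))).map
          (MvPolynomial.rename σ : MvPolynomial (Fin i) S →ₐ[S] MvPolynomial (Fin i) S).toRingHom).coeff b := by
      rw [Polynomial.coeff_map]
      rfl
    rw [e1, Polynomial.map_prod]
    congr 1
    simp only [Polynomial.map_sub, Polynomial.map_X, Polynomial.map_C]
    have e2 : ∀ s : Fin i, (MvPolynomial.rename σ : MvPolynomial (Fin i) S →ₐ[S] MvPolynomial (Fin i) S).toRingHom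
        (MvPolynomial.X s) = MvPolynomial.X (σ s) := fun s => MvPolynomial.rename_X _ _
    simp only [e2]
    exact Equiv.prod_comp σ (fun s => Polynomial.X - Polynomial.C (MvPolynomial.X s : MvPolynomial (Fin i) S))
  exact congrArg (fun φ : MvPolynomial (Fin i) S →ₐ[S] MvPolynomial (Fin i) S => φ f) h

theorem kap_eps_root (s : Fin i) : (MvPolynomial.X s : MvPolynomial (Fin i) S) ^ i +
    ∑ b : Fin i, kap_eps S i (MvPolynomial.X b) * (MvPolynomial.X s) ^ (b : ℕ) = 0 := by
  rcases subsingleton_or_nontrivial S with hS | hS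
  · exact Subsingleton.elim _ _
  have h1 : (∏ r : Fin i, (Polynomial.X - Polynomial.C (MvPolynomial.X r : MvPolynomial (Fin i) S))).natDegree = i := by
    rw [Polynomial.natDegree_prod_of_monic _ _ fun r _ => Polynomial.monic_X_sub_C _]
    simp
  have h2 : (∏ r : Fin i, (Polynomial.X - Polynomial.C (MvPolynomial.X r : MvPolynomial (Fin i) S))).Monic :=
    Polynomial.monic_prod_of_monic _ _ fun r _ => Polynomial.monic_X_sub_C _
  have h3 : (∏ r : Fin i, (Polynomial.X - Polynomial.C (MvPolynomial.X r : MvPolynomial (Fin i) S))).eval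
      (MvPolynomial.X s) = 0 := by
    rw [Polynomial.eval_prod]
    exact Finset.prod_eq_zero (Finset.mem_univ s) (by simp)
  rw [Polynomial.eval_eq_sum_range, h1, Finset.sum_range_succ] at h3
  have h4 : (∏ r : Fin i, (Polynomial.X - Polynomial.C (MvPolynomial.X r : MvPolynomial (Fin i) S))).coeff i = 1 := by
    have := h2.coeff_natDegree
    rwa [h1] at this
  rw [h4, one_mul, add_comm, Finset.sum_range] at h3
  rw [← h3]
  congr 1
  refine Finset.sum_congr rfl fun b _ => ?_
  unfold kap_eps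
  rw [MvPolynomial.aeval_X]

/-- the map -/
def kap_k : MvPolynomial (Fin i) S →ₗ[S] (⋀[S]^i N) :=
  (kap_br T w i) ∘ₗ (LinearMap.mulRight S (∏ s : Fin i, (MvPolynomial.X s : MvPolynomial (Fin i) S) ^ (s : ℕ))) ∘ₗ
    (kap_eps S i).toLinearMap

theorem kap_k_apply (f : MvPolynomial (Fin i) S) : kap_k T w i f =
    kap_br T w i (kap_eps S i f * ∏ s : Fin i, (MvPolynomial.X s : MvPolynomial (Fin i) S) ^ (s : ℕ)) := rfl

theorem kap_ren (σ : Equiv.Perm (Fin i)) (b : Fin i → ℕ) (f : MvPolynomial (Fin i) S) :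
    MvPolynomial.rename σ (kap_eps S i f * ∏ s, (MvPolynomial.X s : MvPolynomial (Fin i) S) ^ b s) =
      kap_eps S i f * ∏ s, (MvPolynomial.X s : MvPolynomial (Fin i) S) ^ b (σ⁻¹ s) := by
  rw [map_mul, kap_eps_symm, map_prod]
  congr 1
  rw [← Equiv.prod_comp σ (fun s => (MvPolynomial.X s : MvPolynomial (Fin i) S) ^ b (σ⁻¹ s))]
  refine Finset.prod_congr rfl fun s _ => ?_
  rw [map_pow, MvPolynomial.rename_X, show σ⁻¹ (σ s) = s from σ.symm_apply_apply s]

theorem kap_zero (h2 : IsUnit (2 : S)) (b : Fin i → ℕ) (s t : Fin i) (hst : s ≠ t) (hb : b s = b t)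
    (f : MvPolynomial (Fin i) S) :
    kap_br T w i (kap_eps S i f * ∏ s, (MvPolynomial.X s : MvPolynomial (Fin i) S) ^ b s) = 0 := by
  refine kap_br_swap T w i h2 s t hst _ ?_
  rw [kap_ren]
  congr 1
  refine Finset.prod_congr rfl fun r _ => ?_
  congr 1
  rw [Equiv.swap_inv]
  by_cases h : r = s
  · rw [h, Equiv.swap_apply_left, hb]
  · by_cases h' : r = t
    · rw [h', Equiv.swap_apply_right, hb]
    · rw [Equiv.swap_apply_of_ne_of_ne h h']

theorem kap_perm (σ : Equiv.Perm (Fin i)) (b : Fin i → ℕ) (f : MvPolynomial (Fin i) S) :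
    kap_br T w i (kap_eps S i f * ∏ s, (MvPolynomial.X s : MvPolynomial (Fin i) S) ^ b (σ s)) =
      (Equiv.Perm.sign σ : ℤˣ) •
        kap_br T w i (kap_eps S i f * ∏ s, (MvPolynomial.X s : MvPolynomial (Fin i) S) ^ b s) := by
  have h := kap_br_perm T w i σ⁻¹ (kap_eps S i f * ∏ s, (MvPolynomial.X s : MvPolynomial (Fin i) S) ^ b s)
  rw [kap_ren, inv_inv, Equiv.Perm.sign_inv] at h
  exact h

theorem kap_det (h2 : IsUnit (2 : S)) (M : Matrix (Fin i) (Fin i) (MvPolynomial (Fin i) S)) :
    kap_br T w i (∏ s, ∑ b : Fin i, (MvPolynomial.X s : MvPolynomial (Fin i) S) ^ (b : ℕ) * kap_eps S i (M s b)) =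
      kap_k T w i M.det := by
  classical
  rw [Finset.prod_univ_sum, map_sum]
  have h0 : ∀ p : Fin i → Fin i, ∏ s, ((MvPolynomial.X s : MvPolynomial (Fin i) S) ^ (p s : ℕ) * kap_eps S i (M s (p s))) =
      kap_eps S i (∏ s, M s (p s)) * ∏ s, (MvPolynomial.X s : MvPolynomial (Fin i) S) ^ (p s : ℕ) := by
    intro p
    rw [Finset.prod_mul_distrib, map_prod, mul_comm]
  simp only [h0]
  have h1 : ∑ p ∈ Fintype.piFinset (fun _ : Fin i => (Finset.univ : Finset (Fin i))),
      kap_br T w i (kap_eps S i (∏ s, M s (p s)) * ∏ s, (MvPolynomial.X s : MvPolynomial (Fin i) S) ^ (p s : ℕ)) =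
      ∑ σ : Equiv.Perm (Fin i), kap_br T w i (kap_eps S i (∏ s, M s (σ s)) *
        ∏ s, (MvPolynomial.X s : MvPolynomial (Fin i) S) ^ (σ s : ℕ)) := by
    symm
    refine Finset.sum_bij_ne_zero (fun σ _ _ => (σ : Fin i → Fin i)) ?_ ?_ ?_ ?_
    · intro σ _ _
      simp
    · intro σ _ _ τ _ _ h
      exact Equiv.coe_fn_injective h
    · intro p _ hp
      have hinj : Function.Injective p := by
        intro s t hst
        by_contra hne
        exact hp (kap_zero T w i h2 (fun s => (p s : ℕ)) s t hne (by simp only [hst]) _)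
      refine ⟨Equiv.ofBijective p (Finite.injective_iff_bijective.1 hinj), Finset.mem_univ _, ?_, rfl⟩
      exact hp
    · intro σ _ _
      rfl
  rw [h1, ← Matrix.det_transpose, Matrix.det_apply, map_sum]
  refine Finset.sum_congr rfl fun σ _ => ?_
  rw [kap_perm T w i σ (fun s => (s : ℕ)), Units.smul_def, Units.smul_def, map_zsmul, kap_k_apply]
  rfl

/-- the elements `f ϱ_b` -/
theorem kap_kill (h2 : IsUnit (2 : S)) (r : Fin i → MvPolynomial (Fin i) S) (R : Polynomial S)
    (H1 : ∀ s, ∑ c : Fin i, (MvPolynomial.X s : MvPolynomial (Fin i) S) ^ (c : ℕ) * kap_eps S i (r c) =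
      Polynomial.aeval (MvPolynomial.X s : MvPolynomial (Fin i) S) R)
    (H2 : kap_ev T w R = 0) (f : MvPolynomial (Fin i) S) (b : Fin i) : kap_k T w i (f * r b) = 0 := by
  classical
  -- the monomials
  have h3 : ∀ g : MvPolynomial (Fin i) S, kap_br T w i (g * (Polynomial.aeval (MvPolynomial.X b : MvPolynomial (Fin i) S) R *
      ∏ s ∈ Finset.univ.erase b, (MvPolynomial.X s : MvPolynomial (Fin i) S) ^ (s : ℕ))) = 0 := by
    intro g
    induction g using MvPolynomial.induction_on' with
    | monomial a c =>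
      have e1 : (MvPolynomial.monomial a c : MvPolynomial (Fin i) S) *
          (Polynomial.aeval (MvPolynomial.X b : MvPolynomial (Fin i) S) R *
          ∏ s ∈ Finset.univ.erase b, (MvPolynomial.X s : MvPolynomial (Fin i) S) ^ (s : ℕ)) =
          c • ∏ s, Polynomial.aeval (MvPolynomial.X s : MvPolynomial (Fin i) S)
            (Polynomial.X ^ (a s) * if s = b then R else Polynomial.X ^ (s : ℕ)) := by
        rw [MvPolynomial.monomial_eq, Finsupp.prod_fintype _ _ (fun s => pow_zero _), MvPolynomial.smul_eq_C_mul,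
          mul_assoc]
        congr 1
        simp only [map_mul, map_pow, Polynomial.aeval_X]
        rw [Finset.prod_mul_distrib]
        congr 1
        rw [← Finset.mul_prod_erase _ _ (Finset.mem_univ b), if_pos rfl]
        congr 1
        refine Finset.prod_congr rfl fun s hs => ?_
        rw [if_neg (Finset.ne_of_mem_erase hs), map_pow, Polynomial.aeval_X]
      rw [e1, map_smul, kap_br_prod]
      have e2 : exteriorPower.ιMulti S i (fun s => kap_ev T w
          (Polynomial.X ^ (a s) * if s = b then R else Polynomial.X ^ (s : ℕ))) = 0 := by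
        refine (exteriorPower.ιMulti S i (M := N)).map_coord_zero b ?_
        rw [if_pos rfl, kap_ev_apply, map_mul, Module.End.mul_apply]
        have : (Polynomial.aeval T R) w = 0 := H2
        rw [this, map_zero]
      rw [e2, smul_zero]
    | add p q hp hq => rw [add_mul, map_add, hp, hq, add_zero]
  have h4 := h3 (kap_eps S i f)
  rw [← H1 b, Finset.sum_mul, Finset.mul_sum, map_sum, Finset.sum_eq_single b] at h4
  · rw [kap_k_apply, map_mul (kap_eps S i)]
    rw [← h4]
    congr 1
    rw [← Finset.mul_prod_erase _ _ (Finset.mem_univ b)]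
    ring
  · intro c _ hc
    have e1 : kap_eps S i f * ((MvPolynomial.X b : MvPolynomial (Fin i) S) ^ (c : ℕ) * kap_eps S i (r c) *
        ∏ s ∈ Finset.univ.erase b, (MvPolynomial.X s : MvPolynomial (Fin i) S) ^ (s : ℕ)) =
        kap_eps S i (f * r c) * ∏ s, (MvPolynomial.X s : MvPolynomial (Fin i) S) ^
          (if s = b then (c : ℕ) else (s : ℕ)) := by
      rw [← Finset.mul_prod_erase Finset.univ (fun s => (MvPolynomial.X s : MvPolynomial (Fin i) S) ^
          (if s = b then (c : ℕ) else (s : ℕ))) (Finset.mem_univ b), if_pos rfl, map_mul]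
      have e2 : ∏ s ∈ Finset.univ.erase b, (MvPolynomial.X s : MvPolynomial (Fin i) S) ^
          (if s = b then (c : ℕ) else (s : ℕ)) =
          ∏ s ∈ Finset.univ.erase b, (MvPolynomial.X s : MvPolynomial (Fin i) S) ^ (s : ℕ) :=
        Finset.prod_congr rfl fun s hs => by rw [if_neg (Finset.ne_of_mem_erase hs)]
      rw [e2]
      ring
    rw [e1]
    refine kap_zero T w i h2 _ b c hc.symm ?_ _
    rw [if_pos rfl, if_neg hc]
  · intro h
    exact absurd (Finset.mem_univ b) h

end abstract


section companion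

variable {S : Type} [CommRing S] {i : ℕ}

/-- the row vector of the powers of `α_s`, applied after `ε` -/
def kap_L (s : Fin i) (z : Fin i → MvPolynomial (Fin i) S) : MvPolynomial (Fin i) S :=
  ∑ b : Fin i, (MvPolynomial.X s : MvPolynomial (Fin i) S) ^ (b : ℕ) * kap_eps S i (z b)

/-- the row vector is an eigenvector with the eigenvalue `d` -/
def kap_E (s : Fin i) (D : Matrix (Fin i) (Fin i) (MvPolynomial (Fin i) S)) (d : MvPolynomial (Fin i) S) : Prop :=
  (fun b : Fin i => (MvPolynomial.X s : MvPolynomial (Fin i) S) ^ (b : ℕ)) ᵥ* D.map (kap_eps S i) =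
    d • fun b : Fin i => (MvPolynomial.X s : MvPolynomial (Fin i) S) ^ (b : ℕ)

theorem kap_E_mul (s : Fin i) (D : Matrix (Fin i) (Fin i) (MvPolynomial (Fin i) S)) (d : MvPolynomial (Fin i) S)
    (h : kap_E s D d) (z : Fin i → MvPolynomial (Fin i) S) : kap_L s (D *ᵥ z) = d * kap_L s z := by
  unfold kap_L
  have e1 : ∀ b, kap_eps S i ((D *ᵥ z) b) = ∑ c, kap_eps S i (D b c) * kap_eps S i (z c) := by
    intro b
    rw [Matrix.mulVec, dotProduct, map_sum]
    exact Finset.sum_congr rfl fun c _ => map_mul _ _ _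
  simp only [e1, Finset.mul_sum]
  rw [Finset.sum_comm]
  refine Finset.sum_congr rfl fun c _ => ?_
  have h' := congrFun h c
  rw [Matrix.vecMul, dotProduct, Pi.smul_apply, smul_eq_mul] at h'
  have h'' : ∑ b : Fin i, (MvPolynomial.X s : MvPolynomial (Fin i) S) ^ (b : ℕ) * kap_eps S i (D b c) =
      d * (MvPolynomial.X s : MvPolynomial (Fin i) S) ^ (c : ℕ) := h'
  rw [← mul_assoc, ← h'', Finset.sum_mul]
  exact Finset.sum_congr rfl fun b _ => by ring

theorem kap_E_cp (hCmp : St_Cmp) (s : Fin i) : kap_E s (cp (MvPolynomial.X : Fin i → MvPolynomial (Fin i) S))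
    (MvPolynomial.X s) := by
  unfold kap_E
  have e1 : (cp (MvPolynomial.X : Fin i → MvPolynomial (Fin i) S)).map (kap_eps S i) =
      cp (fun b : Fin i => kap_eps S i (MvPolynomial.X b)) := by
    ext1 a b
    rw [Matrix.map_apply]
    unfold cp
    split_ifs <;> simp
  rw [e1]
  exact (hCmp i (MvPolynomial (Fin i) S) (fun b : Fin i => kap_eps S i (MvPolynomial.X b))).2.2 (MvPolynomial.X s)
    (kap_eps_root i s)

theorem kap_E_one (s : Fin i) : kap_E (S := S) s 1 1 := by
  unfold kap_E
  have e1 : (1 : Matrix (Fin i) (Fin i) (MvPolynomial (Fin i) S)).map (kap_eps S i) = 1 :=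
    Matrix.map_one _ (map_zero _) (map_one _)
  rw [e1, Matrix.vecMul_one, one_smul]

theorem kap_E_mm (s : Fin i) (D D' : Matrix (Fin i) (Fin i) (MvPolynomial (Fin i) S)) (d d' : MvPolynomial (Fin i) S)
    (h : kap_E s D d) (h' : kap_E s D' d') : kap_E s (D * D') (d * d') := by
  unfold kap_E at *
  have e1 : (D * D').map (kap_eps S i) = D.map (kap_eps S i) * D'.map (kap_eps S i) := by
    ext1 a b
    rw [Matrix.map_apply, Matrix.mul_apply, Matrix.mul_apply, map_sum]
    exact Finset.sum_congr rfl fun c _ => map_mul _ _ _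
  rw [e1, ← Matrix.vecMul_vecMul, h, Matrix.smul_vecMul, h', smul_smul]

theorem kap_E_pow (hCmp : St_Cmp) (s : Fin i) (c : ℕ) :
    kap_E s ((cp (MvPolynomial.X : Fin i → MvPolynomial (Fin i) S)) ^ c) ((MvPolynomial.X s) ^ c) := by
  induction c with
  | zero =>
    rw [pow_zero, pow_zero]
    exact kap_E_one s
  | succ c ih =>
    rw [pow_succ, pow_succ]
    exact kap_E_mm s _ _ _ _ ih (kap_E_cp hCmp s)

theorem kap_E_re (hCmp : St_Cmp) (s : Fin i) (ρ : Fin i → MvPolynomial (Fin i) S) :
    kap_E s (re ρ (cp (MvPolynomial.X : Fin i → MvPolynomial (Fin i) S))) (kap_L s ρ) := by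
  unfold kap_E
  have e1 : (re ρ (cp (MvPolynomial.X : Fin i → MvPolynomial (Fin i) S))).map (kap_eps S i) =
      ∑ b : Fin i, kap_eps S i (ρ b) •
        ((cp (MvPolynomial.X : Fin i → MvPolynomial (Fin i) S)) ^ (b : ℕ)).map (kap_eps S i) := by
    ext1 a c
    rw [Matrix.map_apply]
    unfold re
    rw [Matrix.sum_apply, Matrix.sum_apply, map_sum]
    refine Finset.sum_congr rfl fun b _ => ?_
    rw [Matrix.smul_apply, Matrix.smul_apply, smul_eq_mul, smul_eq_mul, map_mul, Matrix.map_apply]
  rw [e1]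
  funext c
  rw [Matrix.vecMul, dotProduct, Pi.smul_apply, smul_eq_mul]
  unfold kap_L
  simp only [Matrix.sum_apply, Matrix.smul_apply, smul_eq_mul, Finset.mul_sum]
  rw [Finset.sum_comm, Finset.sum_mul]
  refine Finset.sum_congr rfl fun b _ => ?_
  have h' := congrFun (kap_E_pow (S := S) hCmp s (b : ℕ)) c
  rw [Matrix.vecMul, dotProduct, Pi.smul_apply, smul_eq_mul] at h'
  have e2 : ∀ a : Fin i, (MvPolynomial.X s : MvPolynomial (Fin i) S) ^ (a : ℕ) * (kap_eps S i (ρ b) *
      (((cp (MvPolynomial.X : Fin i → MvPolynomial (Fin i) S)) ^ (b : ℕ)).map (kap_eps S i)) a c) =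
      kap_eps S i (ρ b) * ((MvPolynomial.X s : MvPolynomial (Fin i) S) ^ (a : ℕ) *
      (((cp (MvPolynomial.X : Fin i → MvPolynomial (Fin i) S)) ^ (b : ℕ)).map (kap_eps S i)) a c) := fun a => by ring
  simp only [e2]
  rw [← Finset.mul_sum, h']
  ring

theorem kap_L_e0 (s : Fin i) : kap_L (S := S) s e0 = 1 := by
  unfold kap_L
  have hi : 0 < i := lt_of_le_of_lt (Nat.zero_le _) s.2
  rw [Finset.sum_eq_single (⟨0, hi⟩ : Fin i)]
  · simp [e0]
  · intro b _ hb
    have : (b : ℕ) ≠ 0 := fun h => hb (Fin.ext h)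
    simp [e0, this]
  · intro h
    exact absurd (Finset.mem_univ _) h

/-- the polynomial of a vector -/
def kap_f {m k : ℕ} (F' : Matrix (Iv m k) (Iv m k) S) (u : Iv m k → S) : Polynomial S :=
  ∑ c : Fin k, Polynomial.C ((F' *ᵥ u) (Sum.inr c)) * Polynomial.X ^ (c : ℕ)

theorem kap_L_sub (s : Fin i) (z z' : Fin i → MvPolynomial (Fin i) S) :
    kap_L s (fun b => z b - z' b) = kap_L s z - kap_L s z' := by
  unfold kap_L
  rw [← Finset.sum_sub_distrib]
  exact Finset.sum_congr rfl fun b _ => by rw [map_sub]; ring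

theorem kap_L_pi (hCmp : St_Cmp) {m k : ℕ} (F' : Matrix (Iv m k) (Iv m k) S) (u : Iv m k → S) (s : Fin i) :
    kap_L s (pX i F' *ᵥ fun l => MvPolynomial.C (u l)) =
      Polynomial.aeval (MvPolynomial.X s : MvPolynomial (Fin i) S) (kap_f F' u) := by
  have e1 : ∀ b, (pX i F' *ᵥ fun l => MvPolynomial.C (u l)) b =
      ∑ c : Fin k, MvPolynomial.C ((F' *ᵥ u) (Sum.inr c)) *
        (((cp (MvPolynomial.X : Fin i → MvPolynomial (Fin i) S)) ^ (c : ℕ)) *ᵥ e0) b := by
    intro b
    unfold pX pim
    rw [← Matrix.mulVec_mulVec, Matrix.mulVec, dotProduct]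
    refine Finset.sum_congr rfl fun c _ => ?_
    rw [mul_comm]
    congr 1
    rw [Matrix.mulVec, Matrix.mulVec, dotProduct, dotProduct, map_sum]
    refine Finset.sum_congr rfl fun l _ => ?_
    rw [Matrix.submatrix_apply, Matrix.map_apply, map_mul]
    rfl
  unfold kap_L
  simp only [e1, map_sum, map_mul, Finset.mul_sum]
  rw [Finset.sum_comm]
  unfold kap_f
  rw [map_sum]
  refine Finset.sum_congr rfl fun c _ => ?_
  have h1 := kap_E_mul s _ _ (kap_E_pow (S := S) hCmp s (c : ℕ)) e0
  rw [kap_L_e0, mul_one] at h1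
  unfold kap_L at h1
  have e3 : kap_eps S i (MvPolynomial.C ((F' *ᵥ u) (Sum.inr c))) = MvPolynomial.C ((F' *ᵥ u) (Sum.inr c)) :=
    (kap_eps S i).commutes _
  rw [map_mul, map_pow, Polynomial.aeval_X, Polynomial.aeval_C, ← h1, Finset.mul_sum, e3]
  refine Finset.sum_congr rfl fun b _ => ?_
  rw [MvPolynomial.algebraMap_eq]
  ring

end companion

section quotient

variable {m k : ℕ} {S : Type} [CommRing S] (x y : Matrix (Iv m k) (Iv m k) S) (v j w : Iv m k → S)

theorem kap_stab (b : Bool) (u : Iv m k → S) (hu : u ∈ AV x y v) : (if b then x else y) *ᵥ u ∈ AV x y v := by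
  have h : AV x y v ≤ (AV x y v).comap (Matrix.mulVecLin (if b then x else y)) := by
    refine Submodule.span_le.2 ?_
    rintro _ ⟨W, rfl⟩
    rw [SetLike.mem_coe, Submodule.mem_comap, Matrix.mulVecLin_apply, Matrix.mulVec_mulVec]
    exact Submodule.subset_span ⟨b :: W, rfl⟩
  exact h hu

theorem kap_v : v ∈ AV x y v := by
  refine Submodule.subset_span ⟨[], ?_⟩
  show wd x y [] *ᵥ v = v
  rw [wd, Matrix.one_mulVec]

/-- multiplication by `x` on the quotient -/
def kap_T : Module.End S (NV x y v) :=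
  (AV x y v).mapQ (AV x y v) x.mulVecLin fun u hu => kap_stab x y v true u hu

/-- multiplication by `y` on the quotient -/
def kap_U : Module.End S (NV x y v) :=
  (AV x y v).mapQ (AV x y v) y.mulVecLin fun u hu => kap_stab x y v false u hu

theorem kap_T_mk (u : Iv m k → S) : kap_T x y v (Submodule.Quotient.mk u) = Submodule.Quotient.mk (x *ᵥ u) := rfl

theorem kap_U_mk (u : Iv m k → S) : kap_U x y v (Submodule.Quotient.mk u) = Submodule.Quotient.mk (y *ᵥ u) := rfl

theorem kap_T_pow (c : ℕ) (u : Iv m k → S) :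
    ((kap_T x y v) ^ c) (Submodule.Quotient.mk u) = Submodule.Quotient.mk ((x ^ c) *ᵥ u) := by
  induction c with
  | zero => rw [pow_zero, pow_zero, Matrix.one_mulVec]; rfl
  | succ c ih =>
    rw [pow_succ', Module.End.mul_apply, ih, kap_T_mk, Matrix.mulVec_mulVec, ← pow_succ']

theorem kap_comm (h : AC x y v j) : Commute (kap_T x y v) (kap_U x y v) := by
  refine LinearMap.ext fun n => ?_
  obtain ⟨u, rfl⟩ := Submodule.Quotient.mk_surjective _ n
  rw [Module.End.mul_apply, Module.End.mul_apply, kap_T_mk, kap_U_mk, kap_T_mk, kap_U_mk,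
    Submodule.Quotient.eq, Matrix.mulVec_mulVec, Matrix.mulVec_mulVec, ← Matrix.sub_mulVec]
  have h1 : x * y - y * x = -vecMulVec v j := by
    unfold AC at h
    exact eq_neg_of_add_eq_zero_left h
  rw [h1, Matrix.neg_mulVec, Matrix.vecMulVec_mulVec, op_smul_eq_smul]
  exact (AV x y v).neg_mem ((AV x y v).smul_mem _ (kap_v x y v))

theorem kap_comm_poly (h : AC x y v j) (g : Polynomial S) :
    Commute (Polynomial.aeval (kap_T x y v) g) (kap_U x y v) := by
  induction g using Polynomial.induction_on' with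
  | add p q hp hq => rw [map_add]; exact hp.add_left hq
  | monomial n c =>
    rw [Polynomial.aeval_monomial]
    exact Commute.mul_left (Algebra.commutes c (kap_U x y v)) ((kap_comm x y v j h).pow_left n)

theorem kap_f_ev (W : Fin m → List Bool) (hF : IsUnit (frm W x y v w).det) (u : Iv m k → S) :
    kap_ev (kap_T x y v) (Submodule.Quotient.mk w) (kap_f (frm W x y v w)⁻¹ u) = Submodule.Quotient.mk u := by
  unfold kap_f
  rw [map_sum]
  have e1 : ∀ c : Fin k, kap_ev (kap_T x y v) (Submodule.Quotient.mk w)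
      (Polynomial.C (((frm W x y v w)⁻¹ *ᵥ u) (Sum.inr c)) * Polynomial.X ^ (c : ℕ)) =
      Submodule.Quotient.mk ((((frm W x y v w)⁻¹ *ᵥ u) (Sum.inr c)) • ((x ^ (c : ℕ)) *ᵥ w)) := by
    intro c
    rw [kap_ev_apply, map_mul, map_pow, Polynomial.aeval_X, Polynomial.aeval_C, Module.End.mul_apply, kap_T_pow,
      Submodule.Quotient.mk_smul]
    rfl
  rw [Finset.sum_congr rfl fun c _ => e1 c]
  have e2 : u = (frm W x y v w) *ᵥ ((frm W x y v w)⁻¹ *ᵥ u) := by
    rw [Matrix.mulVec_mulVec, Matrix.mul_nonsing_inv _ hF, Matrix.one_mulVec]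
  have e3 : (frm W x y v w) *ᵥ ((frm W x y v w)⁻¹ *ᵥ u) =
      (∑ a : Fin m, (((frm W x y v w)⁻¹ *ᵥ u) (Sum.inl a)) • (wd x y (W a) *ᵥ v)) +
      ∑ c : Fin k, (((frm W x y v w)⁻¹ *ᵥ u) (Sum.inr c)) • ((x ^ (c : ℕ)) *ᵥ w) := by
    generalize (frm W x y v w)⁻¹ *ᵥ u = z
    funext s
    rw [Matrix.mulVec, dotProduct, Fintype.sum_sum_type, Pi.add_apply, Finset.sum_apply, Finset.sum_apply]
    congr 1
    · exact Finset.sum_congr rfl fun a _ => by
        rw [Pi.smul_apply, smul_eq_mul, mul_comm]; rfl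
    · exact Finset.sum_congr rfl fun a _ => by
        rw [Pi.smul_apply, smul_eq_mul, mul_comm]; rfl
  have e4 : (Submodule.Quotient.mk u : NV x y v) = Submodule.Quotient.mk
      (∑ c : Fin k, (((frm W x y v w)⁻¹ *ᵥ u) (Sum.inr c)) • ((x ^ (c : ℕ)) *ᵥ w)) := by
    rw [Submodule.Quotient.eq]
    nth_rw 1 [e2]
    rw [e3, add_sub_cancel_right]
    exact Submodule.sum_mem _ fun a _ => (AV x y v).smul_mem _ (Submodule.subset_span ⟨W a, rfl⟩)
  rw [e4]
  exact (map_sum (AV x y v).mkQ _ _).symm

end quotient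

theorem kap_col {m k i : ℕ} {S : Type} [CommRing S] (π : Matrix (Fin i) (Iv m k) (MvPolynomial (Fin i) S)) (l : Iv m k) :
    (π *ᵥ fun l' => MvPolynomial.C ((Pi.single l (1 : S) : Iv m k → S) l')) = fun c => π c l := by
  have e : (fun l' => (MvPolynomial.C ((Pi.single l (1 : S) : Iv m k → S) l') : MvPolynomial (Fin i) S)) =
      Pi.single l 1 := by
    funext l'
    by_cases h : l' = l
    · subst h
      rw [Pi.single_eq_same, Pi.single_eq_same, map_one]
    · rw [Pi.single_eq_of_ne h, Pi.single_eq_of_ne h, map_zero]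
  rw [e, Matrix.mulVec_single_one]
  rfl

theorem kap_single {m k : ℕ} {S : Type} [CommRing S] (x : Matrix (Iv m k) (Iv m k) S) (l : Iv m k) :
    x *ᵥ Pi.single l 1 = fun l' => x l' l := by
  rw [Matrix.mulVec_single_one]
  rfl

theorem kap_map_mulVec {m k i : ℕ} {S : Type} [CommRing S] (y : Matrix (Iv m k) (Iv m k) S) (w : Iv m k → S) :
    (y.map MvPolynomial.C *ᵥ fun l => (MvPolynomial.C (w l) : MvPolynomial (Fin i) S)) =
      fun l => MvPolynomial.C ((y *ᵥ w) l) := by
  funext l
  rw [Matrix.mulVec, Matrix.mulVec, dotProduct, dotProduct, map_sum]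
  exact Finset.sum_congr rfl fun a _ => by rw [Matrix.map_apply, map_mul]

theorem thm_Kap (hCmp : St_Cmp) : St_Kap := by
  intro m k i S _ _ W x y v j w hAC hF
  have h2 : IsUnit (2 : S) := by
    have := (IsUnit.mk0 (2 : ℂ) two_ne_zero).map (algebraMap ℂ S)
    rwa [map_ofNat] at this
  have hev := kap_f_ev x y v w W hF
  have hpi := fun u s => kap_L_pi (i := i) hCmp (frm W x y v w)⁻¹ u s
  refine ⟨kap_k (kap_T x y v) (Submodule.Quotient.mk w) i, ?_, ?_⟩
  · intro f hf
    have key : ∀ r ∈ rI i x y v w (frm W x y v w)⁻¹, ∀ g, kap_k (kap_T x y v) (Submodule.Quotient.mk w) i (g * r) = 0 := by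
      intro r hr
      unfold rI at hr
      induction hr using Submodule.span_induction with
      | mem r hr =>
        rcases hr with (⟨b, l, rfl⟩ | ⟨b, l, rfl⟩) | ⟨b, rfl⟩
        · intro g
          refine kap_kill _ _ i h2 (fun c => (pX i (frm W x y v w)⁻¹ * x.map MvPolynomial.C :
            Matrix (Fin i) (Iv m k) (MvPolynomial (Fin i) S)) c l - (cp MvPolynomial.X * pX i (frm W x y v w)⁻¹ :
            Matrix (Fin i) (Iv m k) (MvPolynomial (Fin i) S)) c l)
            (kap_f (frm W x y v w)⁻¹ (fun l' => x l' l) - Polynomial.X * kap_f (frm W x y v w)⁻¹ (Pi.single l 1))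
            (fun s => ?_) ?_ g b
          · have h3 := kap_L_sub (S := S) s (fun c => (pX i (frm W x y v w)⁻¹ * x.map MvPolynomial.C :
              Matrix (Fin i) (Iv m k) (MvPolynomial (Fin i) S)) c l) (fun c => (cp MvPolynomial.X * pX i (frm W x y v w)⁻¹ :
              Matrix (Fin i) (Iv m k) (MvPolynomial (Fin i) S)) c l)
            refine h3.trans ?_
            rw [map_sub, map_mul, Polynomial.aeval_X, ← hpi, ← hpi, kap_col,
              ← kap_E_mul s _ _ (kap_E_cp hCmp s)]
            rfl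
          · rw [map_sub, hev, kap_ev_apply, map_mul, Polynomial.aeval_X, Module.End.mul_apply, ← kap_ev_apply, hev,
              kap_T_mk, kap_single]
            exact sub_self _
        · intro g
          refine kap_kill _ _ i h2 (fun c => (pX i (frm W x y v w)⁻¹ * y.map MvPolynomial.C :
            Matrix (Fin i) (Iv m k) (MvPolynomial (Fin i) S)) c l -
            (re (pX i (frm W x y v w)⁻¹ *ᵥ (y.map MvPolynomial.C *ᵥ fun l => MvPolynomial.C (w l)))
              (cp MvPolynomial.X) * pX i (frm W x y v w)⁻¹ :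
            Matrix (Fin i) (Iv m k) (MvPolynomial (Fin i) S)) c l)
            (kap_f (frm W x y v w)⁻¹ (fun l' => y l' l) -
              kap_f (frm W x y v w)⁻¹ (y *ᵥ w) * kap_f (frm W x y v w)⁻¹ (Pi.single l 1))
            (fun s => ?_) ?_ g b
          · have h3 := kap_L_sub (S := S) s (fun c => (pX i (frm W x y v w)⁻¹ * y.map MvPolynomial.C :
              Matrix (Fin i) (Iv m k) (MvPolynomial (Fin i) S)) c l) (fun c =>
              (re (pX i (frm W x y v w)⁻¹ *ᵥ (y.map MvPolynomial.C *ᵥ fun l => MvPolynomial.C (w l)))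
              (cp MvPolynomial.X) * pX i (frm W x y v w)⁻¹ :
              Matrix (Fin i) (Iv m k) (MvPolynomial (Fin i) S)) c l)
            refine h3.trans ?_
            rw [map_sub, map_mul, ← hpi, ← hpi, ← hpi, kap_col, ← kap_map_mulVec,
              ← kap_E_mul s _ _ (kap_E_re hCmp s _)]
            rfl
          · rw [map_sub, hev, mul_comm, kap_ev_apply, map_mul, Module.End.mul_apply,
              ← kap_ev_apply (kap_T x y v) (Submodule.Quotient.mk w) (kap_f (frm W x y v w)⁻¹ (y *ᵥ w)), hev,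
              ← kap_U_mk, ← Module.End.mul_apply, (kap_comm_poly x y v j hAC _).eq, Module.End.mul_apply,
              ← kap_ev_apply, hev, kap_U_mk, kap_single]
            exact sub_self _
        · intro g
          refine kap_kill _ _ i h2 (fun c => (pX i (frm W x y v w)⁻¹ *ᵥ fun l => MvPolynomial.C (v l)) c)
            (kap_f (frm W x y v w)⁻¹ v) (fun s => hpi v s) ?_ g b
          rw [hev]
          exact (Submodule.Quotient.mk_eq_zero _).2 (kap_v x y v)
      | zero => intro g; rw [mul_zero, map_zero]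
      | add r r' _ _ h h' => intro g; rw [mul_add, map_add, h, h', add_zero]
      | smul a r _ h => intro g; rw [smul_eq_mul, ← mul_assoc, h]
    have := key f hf 1
    rwa [one_mul] at this
  · intro u
    rw [← kap_det _ _ _ h2]
    have e1 : ∀ s, ∑ b : Fin i, (MvPolynomial.X s : MvPolynomial (Fin i) S) ^ (b : ℕ) *
        kap_eps S i ((Matrix.of fun s b => (pX i (frm W x y v w)⁻¹ *ᵥ fun l => MvPolynomial.C (u s l)) b) s b) =
        Polynomial.aeval (MvPolynomial.X s : MvPolynomial (Fin i) S) (kap_f (frm W x y v w)⁻¹ (u s)) :=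
      fun s => hpi (u s) s
    simp only [e1]
    rw [kap_br_prod]
    congr 1
    funext s
    exact hev (u s)

end Pool.Agent.AOC

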