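import Pool.Agent.AOC.St
import Mathlib.LinearAlgebra.CliffordAlgebra.Contraction
import Mathlib.LinearAlgebra.ExteriorPower.Basic

/-!
# AOC: the Koszul complex
-/

set_option autoImplicit false

noncomputable section

namespace Pool.Agent.AOC

/-- The contraction with `τ`. -/
def kos_c {S : Type} [CommRing S] {N : Type} [AddCommGroup N] [Module S N] (τ : N →ₗ[S] S) :
    ExteriorAlgebra S N →ₗ[S] ExteriorAlgebra S N :=
  CliffordAlgebra.contractLeft (Q := (0 : QuadraticForm S N)) τ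

theorem kos_c_mul {S : Type} [CommRing S] {N : Type} [AddCommGroup N] [Module S N]
    (τ : N →ₗ[S] S) (n : N) (z : ExteriorAlgebra S N) :
    kos_c τ (ExteriorAlgebra.ι S n * z) = τ n • z - ExteriorAlgebra.ι S n * kos_c τ z :=
  CliffordAlgebra.contractLeft_ι_mul (Q := (0 : QuadraticForm S N)) τ n z

theorem kos_c_alg {S : Type} [CommRing S] {N : Type} [AddCommGroup N] [Module S N]
    (τ : N →ₗ[S] S) (r : S) : kos_c τ (algebraMap S _ r) = 0 :=
  CliffordAlgebra.contractLeft_algebraMap (0 : QuadraticForm S N) τ r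

theorem kos_c_c {S : Type} [CommRing S] {N : Type} [AddCommGroup N] [Module S N]
    (τ : N →ₗ[S] S) (z : ExteriorAlgebra S N) : kos_c τ (kos_c τ z) = 0 :=
  CliffordAlgebra.contractLeft_contractLeft (Q := (0 : QuadraticForm S N)) τ z

theorem kos_mul_mem {S : Type} [CommRing S] {N : Type} [AddCommGroup N] [Module S N] (n : N)
    (i : ℕ) (z : ExteriorAlgebra S N) (hz : z ∈ ⋀[S]^i N) :
    ExteriorAlgebra.ι S n * z ∈ ⋀[S]^(i + 1) N := by
  show ExteriorAlgebra.ι S n * z ∈ (LinearMap.range (ExteriorAlgebra.ι S : N →ₗ[S] _)) ^ (i + 1)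
  rw [pow_succ']
  exact Submodule.mul_mem_mul ⟨n, rfl⟩ hz

theorem kos_c_mem {S : Type} [CommRing S] {N : Type} [AddCommGroup N] [Module S N]
    (τ : N →ₗ[S] S) (i : ℕ) : ∀ z : ExteriorAlgebra S N, z ∈ ⋀[S]^(i + 1) N →
    kos_c τ z ∈ ⋀[S]^i N := by
  induction i with
  | zero =>
    intro z hz
    have hz' : z ∈ (LinearMap.range (ExteriorAlgebra.ι S : N →ₗ[S] _)) ^ (0 + 1) := hz
    rw [zero_add, pow_one] at hz'
    obtain ⟨n, rfl⟩ := hz'
    have h1 : kos_c τ (ExteriorAlgebra.ι S n) = algebraMap S _ (τ n) :=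
      CliffordAlgebra.contractLeft_ι (0 : QuadraticForm S N) τ n
    rw [h1]
    show algebraMap S _ (τ n) ∈ (LinearMap.range (ExteriorAlgebra.ι S : N →ₗ[S] _)) ^ 0
    rw [pow_zero, Submodule.mem_one]
    exact ⟨τ n, rfl⟩
  | succ i ih =>
    intro z hz
    have hz' : z ∈ (LinearMap.range (ExteriorAlgebra.ι S : N →ₗ[S] _)) ^ (i + 1 + 1) := hz
    rw [pow_succ'] at hz'
    refine Submodule.mul_induction_on hz' ?_ ?_
    · rintro _ ⟨n, rfl⟩ w hw
      rw [kos_c_mul]
      exact Submodule.sub_mem _ (Submodule.smul_mem _ _ hw) (kos_mul_mem n i _ (ih w hw))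
    · intro a b ha hb
      rw [map_add]
      exact Submodule.add_mem _ ha hb

/-- **Kos.** -/
theorem thm_Kos : St_Kos := by
  intro S _ N _ _ τ
  refine ⟨fun i => (kos_c τ).restrict (kos_c_mem τ i), ?_, ?_, ?_⟩
  · intro i z
    apply Subtype.ext
    show kos_c τ (kos_c τ z.1) = 0
    exact kos_c_c τ z.1
  · intro n
    refine ⟨fun i => (LinearMap.mulLeft S (ExteriorAlgebra.ι S n)).restrict
      (fun z hz => kos_mul_mem n i z hz), ?_⟩
    intro i z
    apply Subtype.ext
    show kos_c τ (ExteriorAlgebra.ι S n * z.1) + ExteriorAlgebra.ι S n * kos_c τ z.1 = τ n • z.1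
    rw [kos_c_mul]
    abel
  · intro z
    have key : (exteriorPower.zeroEquiv S N).toLinearMap ∘ₗ
        (kos_c τ).restrict (kos_c_mem τ 0) = τ ∘ₗ (exteriorPower.oneEquiv S N).toLinearMap := by
      apply exteriorPower.linearMap_ext
      ext f
      show exteriorPower.zeroEquiv S N ((kos_c τ).restrict (kos_c_mem τ 0)
        (exteriorPower.ιMulti S 1 f)) = τ (exteriorPower.oneEquiv S N (exteriorPower.ιMulti S 1 f))
      rw [exteriorPower.oneEquiv_ιMulti]
      have h1 : (kos_c τ).restrict (kos_c_mem τ 0) (exteriorPower.ιMulti S 1 f) =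
          τ (f 0) • exteriorPower.ιMulti S 0 (fun _ => (0 : N)) := by
        apply Subtype.ext
        show kos_c τ (ExteriorAlgebra.ιMulti S 1 f) =
          τ (f 0) • ExteriorAlgebra.ιMulti S 0 (fun _ => (0 : N))
        rw [ExteriorAlgebra.ιMulti_apply, ExteriorAlgebra.ιMulti_apply]
        simp only [List.ofFn_succ, List.ofFn_zero, List.prod_cons, List.prod_nil, mul_one]
        have h2 : kos_c τ (ExteriorAlgebra.ι S (f 0)) = algebraMap S _ (τ (f 0)) :=
          CliffordAlgebra.contractLeft_ι (0 : QuadraticForm S N) τ (f 0)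
        rw [h2, Algebra.algebraMap_eq_smul_one]
      rw [h1, map_smul, exteriorPower.zeroEquiv_ιMulti, smul_eq_mul, mul_one]
    exact LinearMap.congr_fun key z

end Pool.Agent.AOC
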