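import Pool.Agent.AOC.St
import Pool.Agent.ANC.Gen

/-!
# AOC, module Loc: the commuting scheme is reduced where the frame is a basis

Statement and proof: `St_Loc` in `AOC/St.lean`. The pattern is `ANC/Loc.lean` (helper68).
-/

set_option autoImplicit false

noncomputable section

namespace Pool.Agent.AOC

open Matrix Pool.Agent.CTR Pool.Agent.ANC

/-! ### homomorphisms -/

private theorem loc_wd {ι R S : Type} [Fintype ι] [DecidableEq ι] [CommRing R] [CommRing S]
    (φ : R →+* S) (x y : Matrix ι ι R) (w : List Bool) :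
    wd (x.map φ) (y.map φ) w = (wd x y w).map φ := by
  induction w with
  | nil =>
    show (1 : Matrix ι ι S) = (1 : Matrix ι ι R).map φ
    rw [Matrix.map_one φ (map_zero φ) (map_one φ)]
  | cons b w ih =>
    show (if b then x.map φ else y.map φ) * wd (x.map φ) (y.map φ) w
      = ((if b then x else y) * wd x y w).map φ
    rw [ih, Matrix.map_mul]
    cases b <;> rfl

private theorem loc_pow {ι R S : Type} [Fintype ι] [DecidableEq ι] [CommRing R] [CommRing S]
    (φ : R →+* S) (x : Matrix ι ι R) (n : ℕ) : (x.map φ) ^ n = (x ^ n).map φ := by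
  rw [← RingHom.mapMatrix_apply, ← RingHom.mapMatrix_apply, map_pow]

private theorem loc_fr {m k : ℕ} {R S : Type} [CommRing R] [CommRing S] (φ : R →+* S)
    (W : Fin m → List Bool) (x y : Matrix (Iv m k) (Iv m k) R) (v w : Iv m k → R) :
    frm W (x.map φ) (y.map φ) (φ ∘ v) (φ ∘ w) = (frm W x y v w).map φ := by
  ext i s
  rcases s with a | b
  · show (wd (x.map φ) (y.map φ) (W a) *ᵥ (φ ∘ v)) i = φ ((wd x y (W a) *ᵥ v) i)
    rw [loc_wd, RingHom.map_mulVec]
  · show (((x.map φ) ^ (b : ℕ)) *ᵥ (φ ∘ w)) i = φ (((x ^ (b : ℕ)) *ᵥ w) i)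
    rw [loc_pow, RingHom.map_mulVec]

private theorem loc_frdet {m k : ℕ} {R S : Type} [CommRing R] [CommRing S] (φ : R →+* S)
    (W : Fin m → List Bool) (x y : Matrix (Iv m k) (Iv m k) R) (v w : Iv m k → R) :
    (frm W (x.map φ) (y.map φ) (φ ∘ v) (φ ∘ w)).det = φ (frm W x y v w).det := by
  rw [loc_fr, RingHom.map_det, RingHom.mapMatrix_apply]

private theorem loc_comm {ι R S : Type} [Fintype ι] [CommRing R] [CommRing S]
    (φ : R →+* S) (x y : Matrix ι ι R) (s t : ι) :
    φ ((x * y - y * x) s t) = (x.map φ * y.map φ - y.map φ * x.map φ) s t := by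
  rw [← Matrix.map_mul, ← Matrix.map_mul]
  show φ ((x * y) s t - (y * x) s t) = φ ((x * y) s t) - φ ((y * x) s t)
  rw [map_sub]

/-! ### the embedding and the retraction -/

/-- the polynomials in `x, y` as polynomials in `x, y, v, j, w` -/
private def locE (m k : ℕ) : Rg (Iv m k) ℂ →+* RW m k :=
  (MvPolynomial.rename (Sum.inl : Fin 2 × Iv m k × Iv m k →
    (Fin 2 × Iv m k × Iv m k) ⊕ (Fin 3 × Iv m k))).toRingHom

private theorem locE_X (m k : ℕ) (t : Fin 2 × Iv m k × Iv m k) :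
    locE m k (MvPolynomial.X t) = MvPolynomial.X (Sum.inl t) :=
  MvPolynomial.rename_X _ _

private theorem locE_mX (m k : ℕ) : (mX (Iv m k) ℂ).map (locE m k) = wM m k 0 := by
  ext1 i j
  exact locE_X m k _

private theorem locE_mY (m k : ℕ) : (mY (Iv m k) ℂ).map (locE m k) = wM m k 1 := by
  ext1 i j
  exact locE_X m k _

/-- the retraction `v ↦ v`, `w ↦ w`, `j ↦ 0` -/
private def locC (m k : ℕ) (v w : Iv m k → ℂ) : RW m k →+* Rg (Iv m k) ℂ :=
  (MvPolynomial.aeval (R := ℂ) (Sum.elim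
    (fun t : Fin 2 × Iv m k × Iv m k => (MvPolynomial.X t : Rg (Iv m k) ℂ))
    (fun t : Fin 3 × Iv m k => if t.1 = 0 then MvPolynomial.C (v t.2) else
      if t.1 = 2 then MvPolynomial.C (w t.2) else 0))).toRingHom

private theorem locC_l (m k : ℕ) (v w : Iv m k → ℂ) (t : Fin 2 × Iv m k × Iv m k) :
    locC m k v w (MvPolynomial.X (Sum.inl t)) = MvPolynomial.X t :=
  MvPolynomial.aeval_X _ _

private theorem locC_r (m k : ℕ) (v w : Iv m k → ℂ) (t : Fin 3 × Iv m k) :
    locC m k v w (MvPolynomial.X (Sum.inr t)) = if t.1 = 0 then MvPolynomial.C (v t.2) else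
      if t.1 = 2 then MvPolynomial.C (w t.2) else 0 :=
  MvPolynomial.aeval_X _ _

private theorem locC_E (m k : ℕ) (v w : Iv m k → ℂ) (f : Rg (Iv m k) ℂ) :
    locC m k v w (locE m k f) = f := by
  have h : (MvPolynomial.aeval (R := ℂ) (Sum.elim
    (fun t : Fin 2 × Iv m k × Iv m k => (MvPolynomial.X t : Rg (Iv m k) ℂ))
    (fun t : Fin 3 × Iv m k => if t.1 = 0 then MvPolynomial.C (v t.2) else
      if t.1 = 2 then MvPolynomial.C (w t.2) else 0))).comp
      (MvPolynomial.rename (Sum.inl : Fin 2 × Iv m k × Iv m k →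
        (Fin 2 × Iv m k × Iv m k) ⊕ (Fin 3 × Iv m k))) = AlgHom.id ℂ (Rg (Iv m k) ℂ) := by
    apply MvPolynomial.algHom_ext
    intro t
    rw [AlgHom.comp_apply, MvPolynomial.rename_X, MvPolynomial.aeval_X]
    rfl
  exact DFunLike.congr_fun h f

private theorem locC_0 (m k : ℕ) (v w : Iv m k → ℂ) :
    (wM m k 0).map (locC m k v w) = mX (Iv m k) ℂ := by
  ext1 i j
  exact locC_l m k v w _

private theorem locC_1 (m k : ℕ) (v w : Iv m k → ℂ) :
    (wM m k 1).map (locC m k v w) = mY (Iv m k) ℂ := by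
  ext1 i j
  exact locC_l m k v w _

private theorem locC_v (m k : ℕ) (v w : Iv m k → ℂ) :
    (locC m k v w) ∘ wV m k 0 = fun i => MvPolynomial.C (v i) := by
  funext i
  exact (locC_r m k v w _).trans (if_pos rfl)

private theorem locC_w (m k : ℕ) (v w : Iv m k → ℂ) :
    (locC m k v w) ∘ wV m k 2 = fun i => MvPolynomial.C (w i) := by
  funext i
  refine (locC_r m k v w _).trans ((if_neg ?_).trans (if_pos rfl))
  show ¬ ((2 : Fin 3) = 0)
  decide

private theorem locC_j (m k : ℕ) (v w : Iv m k → ℂ) (i : Iv m k) :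
    locC m k v w (wV m k 1 i) = 0 := by
  refine (locC_r m k v w _).trans ((if_neg ?_).trans (if_neg ?_))
  · show ¬ ((1 : Fin 3) = 0)
    decide
  · show ¬ ((1 : Fin 3) = 2)
    decide

/-- The elements `j x^b w`. -/
private def locc (m k : ℕ) (b : Fin k) : RW m k :=
  wV m k 1 ⬝ᵥ ((wM m k 0 ^ (b : ℕ)) *ᵥ wV m k 2)

private theorem locC_c (m k : ℕ) (v w : Iv m k → ℂ) (b : Fin k) :
    locC m k v w (locc m k b) = 0 := by
  unfold locc dotProduct
  rw [map_sum]
  refine Finset.sum_eq_zero fun i _ => ?_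
  rw [map_mul, locC_j, zero_mul]

private theorem locC_sup (m k : ℕ) (v w : Iv m k → ℂ) {g : RW m k}
    (h : g ∈ Ideal.span (Set.range (locc m k)) ⊔ IWd m k) :
    locC m k v w g ∈ comI (Iv m k) ℂ := by
  have h1 : Ideal.span (Set.range (locc m k)) ≤ (comI (Iv m k) ℂ).comap (locC m k v w) := by
    rw [Ideal.span_le]
    rintro _ ⟨b, rfl⟩
    show locC m k v w (locc m k b) ∈ comI (Iv m k) ℂ
    rw [locC_c]
    exact Ideal.zero_mem _
  have h2 : IWd m k ≤ (comI (Iv m k) ℂ).comap (locC m k v w) := by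
    unfold IWd
    rw [Ideal.span_le]
    rintro _ ⟨⟨s, t⟩, rfl⟩
    show locC m k v w ((wM m k 0 * wM m k 1 - wM m k 1 * wM m k 0) s t +
      wV m k 0 s * wV m k 1 t) ∈ comI (Iv m k) ℂ
    rw [map_add, map_mul, locC_j, mul_zero, add_zero, loc_comm, locC_0, locC_1]
    exact Ideal.subset_span ⟨s, t, rfl⟩
  exact (sup_le h1 h2) h

private theorem loc_ev {ι : Type} [Fintype ι] [DecidableEq ι] (A B : Matrix ι ι ℂ) :
    (mX ι ℂ).map (ev (k := ℂ) A B).toRingHom = A ∧ (mY ι ℂ).map (ev (k := ℂ) A B).toRingHom = B := by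
  constructor
  · ext1 i j
    show ev (k := ℂ) A B (MvPolynomial.X (0, i, j)) = A i j
    unfold ev
    rw [MvPolynomial.aeval_X]
    exact if_pos rfl
  · ext1 i j
    show ev (k := ℂ) A B (MvPolynomial.X (1, i, j)) = B i j
    unfold ev
    rw [MvPolynomial.aeval_X]
    refine if_neg ?_
    show ¬ ((1 : Fin 2) = 0)
    decide

private theorem loc_evc {m k : ℕ} (A B : Matrix (Iv m k) (Iv m k) ℂ) (v : Iv m k → ℂ) :
    (ev (k := ℂ) A B).toRingHom ∘ (fun i : Iv m k => MvPolynomial.C (v i)) = v := by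
  funext i
  show ev (k := ℂ) A B (MvPolynomial.C (v i)) = v i
  unfold ev
  rw [MvPolynomial.aeval_C]
  rfl

/-- the module Loc -/
theorem thm_Loc (hFrj : St_Frj) (hBrg : St_Brg) : St_Loc := by
  intro m k W A B v w hdet f hf
  obtain ⟨N, hN⟩ := thm_Gen (Iv m k) (m + k) (by simp [Iv]) f hf
  obtain ⟨hAC, _, _, _, hj⟩ := hFrj m k W
  -- the entries of the commutator
  have hcom : ∀ g ∈ comI (Iv m k) ℂ, js m k W (locE m k g) ∈ Ideal.span (Set.range (sc m k W)) := by
    have : comI (Iv m k) ℂ ≤ (Ideal.span (Set.range (sc m k W))).comap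
        ((js m k W).comp (locE m k)) := by
      unfold comI
      rw [Ideal.span_le]
      rintro r ⟨s, t, rfl⟩
      show js m k W (locE m k ((mX (Iv m k) ℂ * mY (Iv m k) ℂ - mY (Iv m k) ℂ * mX (Iv m k) ℂ) s t))
        ∈ Ideal.span (Set.range (sc m k W))
      rw [loc_comm, locE_mX, locE_mY, loc_comm]
      have h1 : ((wM m k 0).map (js m k W) * (wM m k 1).map (js m k W)
        - (wM m k 1).map (js m k W) * (wM m k 0).map (js m k W)) s t
        + sV m k W 0 s * sV m k W 1 t = 0 := congrFun (congrFun hAC s) t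
      have h3 : ((wM m k 0).map (js m k W) * (wM m k 1).map (js m k W)
        - (wM m k 1).map (js m k W) * (wM m k 0).map (js m k W)) s t
        = (-(sV m k W 0 s)) * sV m k W 1 t := by
        linear_combination h1
      rw [h3]
      exact Ideal.mul_mem_left _ _ (hj t)
    exact fun g hg => this hg
  have h1 := hcom _ hN
  have hD : js m k W (locE m k (dsx (m + k) (mX (Iv m k) ℂ))) = sD m k W := by
    rw [gen_map (locE m k), locE_mX]
    rfl
  rw [map_mul, map_mul, map_pow, map_pow, hD] at h1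
  have h2 := hBrg m k W N _ h1
  -- clearing denominators
  have h3 : Ideal.span (Set.range (sc m k W)) =
      ((Ideal.span (Set.range (locc m k))).map (Ideal.Quotient.mk (IWd m k))).map
        (algebraMap (RW m k ⧸ IWd m k) (SA m k W)) := by
    rw [Ideal.map_span, Ideal.map_span, ← Set.range_comp, ← Set.range_comp]
    rfl
  rw [h3] at h2
  set θ : RW m k := (frm W (wM m k 0) (wM m k 1) (wV m k 0) (wV m k 2)).det with hθ
  have h4 : algebraMap (RW m k ⧸ IWd m k) (SA m k W)
      (Ideal.Quotient.mk (IWd m k) (locE m k f)) ∈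
      ((Ideal.span (Set.range (locc m k))).map (Ideal.Quotient.mk (IWd m k))).map
        (algebraMap (RW m k ⧸ IWd m k) (SA m k W)) := h2
  rw [IsLocalization.algebraMap_mem_map_algebraMap_iff
    (Submonoid.powers (Ideal.Quotient.mk (IWd m k) θ)) (SA m k W)] at h4
  obtain ⟨c, ⟨K, hK⟩, hc⟩ := h4
  have hK' : (Ideal.Quotient.mk (IWd m k) θ) ^ K = c := hK
  rw [← hK', ← map_pow, ← map_mul, Ideal.mem_quotient_iff_mem_sup] at hc
  have h5 := locC_sup m k v w hc
  rw [map_mul, locC_E, map_pow] at h5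
  refine ⟨locC m k v w θ ^ K, ?_, h5⟩
  have h6 : locC m k v w θ = (frm W (mX (Iv m k) ℂ) (mY (Iv m k) ℂ)
      (fun i => MvPolynomial.C (v i)) (fun i => MvPolynomial.C (w i))).det := by
    rw [hθ, ← loc_frdet, locC_0, locC_1, locC_v, locC_w]
  rw [h6, map_pow]
  apply pow_ne_zero
  have h7 : ev A B (frm W (mX (Iv m k) ℂ) (mY (Iv m k) ℂ) (fun i => MvPolynomial.C (v i))
      (fun i => MvPolynomial.C (w i))).det = (frm W A B v w).det := by
    have h8 := loc_frdet (ev (k := ℂ) A B).toRingHom W (mX (Iv m k) ℂ) (mY (Iv m k) ℂ)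
      (fun i => MvPolynomial.C (v i)) (fun i => MvPolynomial.C (w i))
    rw [(loc_ev A B).1, (loc_ev A B).2, loc_evc, loc_evc] at h8
    exact h8.symm
  rw [h7]
  exact hdet

end Pool.Agent.AOC
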