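import Pool.Agent.AOC.St

/-!
# AOC: module NAY, the normal form satisfies the relation
-/

set_option autoImplicit false

noncomputable section

namespace Pool.Agent.AOC

open Matrix Pool.Agent.CTR Pool.Agent.ANC

section nay

variable {h i : ℕ} {R : Type} [CommRing R]

/-- A vector of the first block. -/
private abbrev nay_l (i : ℕ) (u : Fin h → R) : Iv h i → R := Sum.elim u fun _ => 0

/-- A vector of the second block. -/
private abbrev nay_r (h : ℕ) (u : Fin i → R) : Iv h i → R := Sum.elim (fun _ => 0) u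

private theorem nay_split (u : Fin h → R) (w : Fin i → R) :
    (Sum.elim u w : Iv h i → R) = nay_l i u + nay_r h w := by
  funext s
  cases s <;> simp [nay_l, nay_r]

private theorem nay_l_add (u w : Fin h → R) : nay_l i (u + w) = nay_l i u + nay_l i w := by
  funext s
  cases s <;> simp [nay_l]

private theorem nay_l_smul (c : R) (u : Fin h → R) : nay_l i (c • u) = c • nay_l i u := by
  funext s
  cases s <;> simp [nay_l]

private theorem nay_l_zero : nay_l i (0 : Fin h → R) = 0 := by
  funext s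
  cases s <;> simp [nay_l]

private theorem nay_l_sum {ι : Type} (S : Finset ι) (f : ι → Fin h → R) :
    nay_l i (∑ x ∈ S, f x) = ∑ x ∈ S, nay_l i (f x) := by
  classical
  induction S using Finset.induction_on with
  | empty => simp [nay_l_zero]
  | insert x S hx ih => rw [Finset.sum_insert hx, Finset.sum_insert hx, nay_l_add, ih]

private theorem nay_ll (xH : Matrix (Fin h) (Fin h) R) (a : Fin h → R) (p : Fin i → R)
    (s t : Fin h) : hx xH a p (Sum.inl s) (Sum.inl t) = xH s t := rfl

private theorem nay_lr (xH : Matrix (Fin h) (Fin h) R) (a : Fin h → R) (p : Fin i → R)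
    (s : Fin h) (t : Fin i) : hx xH a p (Sum.inl s) (Sum.inr t) =
      if (t : ℕ) + 1 = i then a s else 0 := rfl

private theorem nay_rl (xH : Matrix (Fin h) (Fin h) R) (a : Fin h → R) (p : Fin i → R)
    (s : Fin i) (t : Fin h) : hx xH a p (Sum.inr s) (Sum.inl t) = 0 := rfl

private theorem nay_rr (xH : Matrix (Fin h) (Fin h) R) (a : Fin h → R) (p : Fin i → R)
    (s t : Fin i) : hx xH a p (Sum.inr s) (Sum.inr t) =
      if (t : ℕ) + 1 = i then -p s else if (s : ℕ) = t + 1 then 1 else 0 := rfl

/-- `x` on the first block. -/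
private theorem nay_X_l (xH : Matrix (Fin h) (Fin h) R) (a : Fin h → R) (p : Fin i → R)
    (u : Fin h → R) : hx xH a p *ᵥ nay_l i u = nay_l i (xH *ᵥ u) := by
  funext s
  rw [mulVec, dotProduct, Fintype.sum_sum_type]
  cases s with
  | inl s => simp [nay_l, mulVec, dotProduct, nay_ll]
  | inr s => simp [nay_l, nay_rl]

private theorem nay_pow_l (xH : Matrix (Fin h) (Fin h) R) (a : Fin h → R) (p : Fin i → R) (k : ℕ)
    (u : Fin h → R) : hx xH a p ^ k *ᵥ nay_l i u = nay_l i (xH ^ k *ᵥ u) := by
  induction k with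
  | zero => simp
  | succ k ih => rw [pow_succ', pow_succ', ← mulVec_mulVec, ← mulVec_mulVec, ih, nay_X_l]

private theorem nay_pe_l (xH : Matrix (Fin h) (Fin h) R) (a : Fin h → R) (p : Fin i → R)
    (u : Fin h → R) : pe p (hx xH a p) *ᵥ nay_l i u = nay_l i (pe p xH *ᵥ u) := by
  unfold pe
  rw [add_mulVec, add_mulVec, sum_mulVec, sum_mulVec, nay_l_add, nay_l_sum, nay_pow_l]
  congr 1
  refine Finset.sum_congr rfl fun b _ => ?_
  rw [smul_mulVec, smul_mulVec, nay_l_smul, nay_pow_l]

private theorem nay_re_l (xH : Matrix (Fin h) (Fin h) R) (a : Fin h → R) (p r : Fin i → R)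
    (u : Fin h → R) : re r (hx xH a p) *ᵥ nay_l i u = nay_l i (re r xH *ᵥ u) := by
  unfold re
  rw [sum_mulVec, sum_mulVec, nay_l_sum]
  refine Finset.sum_congr rfl fun b _ => ?_
  rw [smul_mulVec, smul_mulVec, nay_l_smul, nay_pow_l]

private theorem nay_qe_l (xH : Matrix (Fin h) (Fin h) R) (a : Fin h → R) (p c : Fin i → R)
    (u : Fin h → R) : qe p c (hx xH a p) *ᵥ nay_l i u = nay_l i (qe p c xH *ᵥ u) := by
  unfold qe
  rw [sum_mulVec, sum_mulVec, nay_l_sum]
  refine Finset.sum_congr rfl fun b _ => ?_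
  rw [smul_mulVec, smul_mulVec, nay_l_smul, add_mulVec, add_mulVec, sum_mulVec, sum_mulVec,
    nay_l_add, nay_l_sum, nay_pow_l]
  congr 2
  refine Finset.sum_congr rfl fun l _ => ?_
  split_ifs
  · rw [smul_mulVec, smul_mulVec, nay_l_smul, nay_pow_l]
  · rw [zero_mulVec, zero_mulVec, nay_l_zero]

/-- The unit vectors of the second block. -/
private def nay_e (h : ℕ) {i : ℕ} {R : Type} [CommRing R] (m : Fin i) : Iv h i → R :=
  nay_r h (Pi.single m 1)

private theorem nay_X_e (xH : Matrix (Fin h) (Fin h) R) (a : Fin h → R) (p : Fin i → R)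
    (m : Fin i) : hx xH a p *ᵥ nay_e h m = fun s => hx xH a p s (Sum.inr m) := by
  have e : nay_e (R := R) h m = Pi.single (Sum.inr m) 1 := by
    funext s
    cases s with
    | inl s => simp [nay_e, nay_r]
    | inr s =>
      by_cases hs : s = m
      · subst hs
        simp [nay_e, nay_r]
      · rw [Pi.single_eq_of_ne (by simpa using hs)]
        simp [nay_e, nay_r, hs]
  rw [e, mulVec_single_one]
  rfl

private theorem nay_X_e1 (xH : Matrix (Fin h) (Fin h) R) (a : Fin h → R) (p : Fin i → R)
    (m : Fin i) (hm : (m : ℕ) + 1 < i) :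
    hx xH a p *ᵥ nay_e h m = nay_e h ⟨(m : ℕ) + 1, hm⟩ := by
  rw [nay_X_e]
  funext s
  cases s with
  | inl s => simp [nay_lr, nay_e, nay_r, hm.ne]
  | inr s =>
    simp only [nay_rr, hm.ne, if_false, nay_e, nay_r, Sum.elim_inr]
    by_cases hs : (s : ℕ) = m + 1
    · have : s = ⟨(m : ℕ) + 1, hm⟩ := Fin.ext hs
      rw [if_pos hs, this, Pi.single_eq_same]
    · rw [if_neg hs, Pi.single_eq_of_ne fun h' => hs (congrArg Fin.val h')]

private theorem nay_X_e2 (xH : Matrix (Fin h) (Fin h) R) (a : Fin h → R) (p : Fin i → R)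
    (m : Fin i) (hm : (m : ℕ) + 1 = i) :
    hx xH a p *ᵥ nay_e h m = nay_l i a + nay_r h (-p) := by
  rw [nay_X_e, ← nay_split]
  funext s
  cases s with
  | inl s => simp [nay_lr, hm]
  | inr s => simp [nay_rr, hm]

private theorem nay_pow_e (xH : Matrix (Fin h) (Fin h) R) (a : Fin h → R) (p : Fin i → R)
    (hi : 0 < i) : ∀ (m : ℕ) (hm : m < i), hx xH a p ^ m *ᵥ nay_e h ⟨0, hi⟩ = nay_e h ⟨m, hm⟩ := by
  intro m
  induction m with
  | zero => intro hm; simp
  | succ m ih =>
    intro hm
    rw [pow_succ', ← mulVec_mulVec, ih (by omega), nay_X_e1 _ _ _ _ hm]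

private theorem nay_r_sum (w : Fin i → R) : nay_r h w = ∑ m, w m • nay_e h m := by
  funext s
  rw [Finset.sum_apply]
  cases s with
  | inl s => simp [nay_e, nay_r]
  | inr s =>
    simp only [nay_e, nay_r, Pi.smul_apply, Sum.elim_inr, smul_eq_mul]
    rw [Finset.sum_eq_single s]
    · simp
    · intro m _ hm
      rw [Pi.single_eq_of_ne (Ne.symm hm), mul_zero]
    · intro hs
      exact absurd (Finset.mem_univ s) hs

private theorem nay_re_e (xH : Matrix (Fin h) (Fin h) R) (a : Fin h → R) (p r : Fin i → R)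
    (hi : 0 < i) : re r (hx xH a p) *ᵥ nay_e h ⟨0, hi⟩ = nay_r h r := by
  unfold re
  rw [sum_mulVec, nay_r_sum]
  refine Finset.sum_congr rfl fun m _ => ?_
  rw [smul_mulVec, nay_pow_e xH a p hi m m.2]

private theorem nay_pe_e (xH : Matrix (Fin h) (Fin h) R) (a : Fin h → R) (p : Fin i → R)
    (hi : 0 < i) : pe p (hx xH a p) *ᵥ nay_e h ⟨0, hi⟩ = nay_l i a := by
  have e0 : hx xH a p ^ i *ᵥ nay_e h ⟨0, hi⟩ = nay_l i a + nay_r h (-p) := by
    have h1 : ∀ n : ℕ, n = i → hx xH a p ^ i = hx xH a p ^ n := by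
      intro n hn
      rw [hn]
    have h2 : hx xH a p ^ i = hx xH a p * hx xH a p ^ (i - 1) := by
      rw [h1 (i - 1 + 1) (by omega)]
      exact pow_succ' _ _
    rw [h2, ← mulVec_mulVec, nay_pow_e xH a p hi (i - 1) (by omega),
      nay_X_e2 xH a p ⟨i - 1, by omega⟩ (by simp only []; omega)]
  unfold pe
  rw [add_mulVec, sum_mulVec, e0]
  have e : ∑ b : Fin i, (p b • hx xH a p ^ (b : ℕ)) *ᵥ nay_e h ⟨0, hi⟩ = nay_r h p := by
    rw [nay_r_sum]
    refine Finset.sum_congr rfl fun m _ => ?_
    rw [smul_mulVec, nay_pow_e xH a p hi m m.2]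
  rw [e, add_assoc]
  have e2 : nay_r h (-p) + nay_r h p = 0 := by
    funext s
    cases s <;> simp [nay_r]
  rw [e2, add_zero]

private theorem nay_comm {ι : Type} [Fintype ι] [DecidableEq ι] (x : Matrix ι ι R)
    (p r : Fin i → R) : Commute (pe p x) (re r x) := by
  unfold pe re
  refine Commute.sum_right _ _ _ fun b _ => ?_
  refine Commute.smul_right ?_ _
  refine Commute.add_left (Commute.pow_pow_self x _ _) ?_
  refine Commute.sum_left _ _ _ fun l _ => ?_
  exact Commute.smul_left (Commute.pow_pow_self x _ _) _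

/-- The column `t` of `y` in the second block. -/
private def nay_Z (xH : Matrix (Fin h) (Fin h) R) (vH a b : Fin h → R) (p r c : Fin i → R)
    (t : ℕ) : Iv h i → R :=
  (hx xH a p ^ t) *ᵥ Sum.elim b r +
    ∑ l : Fin i, if (l : ℕ) < t then c l • ((hx xH a p ^ (t - 1 - l)) *ᵥ hv i vH) else 0

private theorem nay_Y_r (xH yH : Matrix (Fin h) (Fin h) R) (vH a b : Fin h → R)
    (p r c : Fin i → R) (t : Fin i) :
    (fun s => hy xH yH vH a b p r c s (Sum.inr t)) = nay_Z xH vH a b p r c t := by
  funext s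
  simp only [hy, nay_Z, Sum.elim_inr, Pi.add_apply, Finset.sum_apply]
  congr 1
  refine Finset.sum_congr rfl fun l _ => ?_
  split_ifs
  · rw [Pi.smul_apply, smul_eq_mul]
  · rfl

private theorem nay_Y (xH yH : Matrix (Fin h) (Fin h) R) (vH a b : Fin h → R)
    (p r c : Fin i → R) (u : Fin h → R) (w : Fin i → R) :
    hy xH yH vH a b p r c *ᵥ Sum.elim u w =
      nay_l i (yH *ᵥ u) + ∑ t, w t • nay_Z xH vH a b p r c t := by
  funext s
  rw [Pi.add_apply, Finset.sum_apply, mulVec, dotProduct, Fintype.sum_sum_type]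
  congr 1
  · cases s with
    | inl s => simp [hy, nay_l, mulVec, dotProduct]
    | inr s => simp [hy, nay_l]
  · refine Finset.sum_congr rfl fun t _ => ?_
    rw [Pi.smul_apply, smul_eq_mul, Sum.elim_inr, mul_comm, ← nay_Y_r xH yH]

private theorem nay_step (xH : Matrix (Fin h) (Fin h) R) (vH a b : Fin h → R)
    (p r c : Fin i → R) (t : Fin i) :
    hx xH a p *ᵥ nay_Z xH vH a b p r c t + c t • hv i vH = nay_Z xH vH a b p r c (t + 1) := by
  unfold nay_Z
  rw [mulVec_add, mulVec_mulVec, ← pow_succ', mulVec_sum, add_assoc]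
  congr 1
  have e1 : c t • hv i vH = ∑ l : Fin i, if l = t then c l • hv i vH else 0 := by
    rw [Finset.sum_ite_eq' Finset.univ t]
    simp
  rw [e1, ← Finset.sum_add_distrib]
  refine Finset.sum_congr rfl fun l _ => ?_
  rcases lt_trichotomy (l : ℕ) t with hl | hl | hl
  · have h1 : l ≠ t := fun h' => by rw [h'] at hl; exact lt_irrefl _ hl
    rw [if_pos hl, if_neg h1, if_pos (by omega), add_zero, mulVec_smul, mulVec_mulVec,
      ← pow_succ', show (t : ℕ) - 1 - l + 1 = t + 1 - 1 - l by omega]
  · have h1 : l = t := Fin.ext hl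
    rw [if_neg (by omega), if_pos h1, if_pos (by omega), mulVec_zero, zero_add,
      show (t : ℕ) + 1 - 1 - l = 0 by omega, pow_zero, one_mulVec]
  · have h1 : l ≠ t := fun h' => by rw [h'] at hl; exact lt_irrefl _ hl
    rw [if_neg (by omega), if_neg h1, if_neg (by omega), mulVec_zero, add_zero]

/-- Collect the coefficients. -/
private theorem nay_last (xH : Matrix (Fin h) (Fin h) R) (vH a b : Fin h → R)
    (p r c : Fin i → R) :
    nay_Z xH vH a b p r c i + ∑ t, p t • nay_Z xH vH a b p r c t =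
      pe p (hx xH a p) *ᵥ Sum.elim b r + qe p c (hx xH a p) *ᵥ hv i vH := by
  unfold nay_Z pe qe
  rw [add_mulVec, sum_mulVec, sum_mulVec]
  simp only [smul_add, Finset.sum_add_distrib, smul_mulVec, add_mulVec, sum_mulVec,
    Finset.smul_sum]
  have e1 : ∑ l : Fin i, (if (l : ℕ) < i then c l • ((hx xH a p ^ (i - 1 - (l : ℕ))) *ᵥ hv i vH)
      else 0) = ∑ l : Fin i, c l • ((hx xH a p ^ (i - 1 - (l : ℕ))) *ᵥ hv i vH) :=
    Finset.sum_congr rfl fun l _ => if_pos l.2
  have e2 : ∑ t : Fin i, ∑ l : Fin i, p t • (if (l : ℕ) < t then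
      c l • ((hx xH a p ^ ((t : ℕ) - 1 - l)) *ᵥ hv i vH) else 0) =
      ∑ u : Fin i, ∑ l : Fin i, c u • ((if (u : ℕ) < l then
        p l • hx xH a p ^ ((l : ℕ) - 1 - u) else 0) *ᵥ hv i vH) := by
    rw [Finset.sum_comm]
    refine Finset.sum_congr rfl fun u _ => Finset.sum_congr rfl fun l _ => ?_
    split_ifs
    · rw [smul_mulVec, smul_comm]
    · rw [smul_zero, zero_mulVec, smul_zero]
  rw [e1, e2]
  abel

end nay

theorem thm_NAY : St_NAY := by
  intro h i R _ hi xH yH vH jH a b p r c hAC hE3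
  unfold AC at hAC ⊢
  -- the columns
  have key : ∀ t, (hx xH a p *ᵥ fun k => hy xH yH vH a b p r c k t) -
      (hy xH yH vH a b p r c *ᵥ fun k => hx xH a p k t) + hj jH c t • hv i vH = 0 := by
    intro t
    cases t with
    | inl t =>
      have e1 : (fun k => hy xH yH vH a b p r c k (Sum.inl t)) = nay_l i fun s => yH s t := by
        funext s
        cases s <;> simp [hy, nay_l]
      have e2 : (fun k => hx xH a p k (Sum.inl t)) = Sum.elim (fun s => xH s t) 0 := by
        funext s
        cases s with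
        | inl s => simp [nay_ll]
        | inr s => simp [nay_rl]
      rw [e1, e2, nay_X_l, nay_Y]
      simp only [Pi.zero_apply, zero_smul, Finset.sum_const_zero, add_zero]
      have e3 : (xH *ᵥ fun s => yH s t) - (yH *ᵥ fun s => xH s t) + jH t • vH = 0 := by
        funext s
        have := congrFun (congrFun hAC s) t
        rw [Matrix.add_apply, Matrix.sub_apply, Matrix.mul_apply, Matrix.mul_apply,
          vecMulVec_apply, Matrix.zero_apply] at this
        rw [Pi.add_apply, Pi.sub_apply, Pi.smul_apply, smul_eq_mul, mul_comm (jH t)]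
        exact this
      funext s
      cases s with
      | inl s =>
        have := congrFun e3 s
        simpa [nay_l, hj, hv] using this
      | inr s => simp [nay_l, hj, hv]
    | inr t =>
      rw [nay_Y_r xH yH vH a b p r c t]
      have e0 : hj jH c (Sum.inr t) = c t := rfl
      rw [e0]
      have st := nay_step xH vH a b p r c t
      by_cases ht : (t : ℕ) + 1 < i
      · have e2 : (fun k => hx xH a p k (Sum.inr t)) =
            Sum.elim (0 : Fin h → R) (Pi.single (⟨(t : ℕ) + 1, ht⟩ : Fin i) (1 : R)) := by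
          rw [← nay_X_e, nay_X_e1 _ _ _ _ ht]
          rfl
        rw [e2, nay_Y, mulVec_zero]
        have e3 : ∑ m : Fin i, (Pi.single (⟨(t : ℕ) + 1, ht⟩ : Fin i) (1 : R) : Fin i → R) m •
            nay_Z xH vH a b p r c m = nay_Z xH vH a b p r c ((t : ℕ) + 1) := by
          rw [Finset.sum_eq_single (⟨(t : ℕ) + 1, ht⟩ : Fin i)]
          · rw [Pi.single_eq_same, one_smul]
          · intro m _ hm
            rw [Pi.single_eq_of_ne hm, zero_smul]
          · intro hs
            exact absurd (Finset.mem_univ _) hs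
        have e4 : nay_l i (0 : Fin h → R) = 0 := nay_l_zero
        rw [e3, e4, zero_add, ← st]
        abel
      · have ht' : (t : ℕ) + 1 = i := by
          have := t.2
          omega
        have e2 : (fun k => hx xH a p k (Sum.inr t)) = Sum.elim a (-p) := by
          rw [← nay_X_e, nay_X_e2 _ _ _ _ ht', ← nay_split]
        rw [e2, nay_Y]
        have e3 : ∑ m : Fin i, (-p) m • nay_Z xH vH a b p r c m =
            - ∑ m : Fin i, p m • nay_Z xH vH a b p r c m := by
          rw [← Finset.sum_neg_distrib]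
          exact Finset.sum_congr rfl fun m _ => by rw [Pi.neg_apply, neg_smul]
        rw [ht'] at st
        have e5 := nay_last xH vH a b p r c
        have e6 : pe p (hx xH a p) *ᵥ (Sum.elim b r : Iv h i → R) +
            qe p c (hx xH a p) *ᵥ hv i vH = nay_l i (yH *ᵥ a) := by
          rw [nay_split, mulVec_add, nay_pe_l, ← nay_re_e xH a p r hi, mulVec_mulVec,
            (nay_comm (hx xH a p) p r).eq, ← mulVec_mulVec, nay_pe_e, nay_re_l]
          have e7 : (hv i vH : Iv h i → R) = nay_l i vH := rfl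
          rw [e7, nay_qe_l, ← nay_l_add, ← nay_l_add]
          congr 1
          have := hE3
          unfold E3 at this
          rw [← sub_eq_zero]
          rw [← this]
          abel
        rw [e6] at e5
        rw [e3, ← e5, ← st]
        abel
  funext s t
  have := congrFun (key t) s
  rw [Matrix.add_apply, Matrix.sub_apply, Matrix.mul_apply, Matrix.mul_apply, vecMulVec_apply,
    Matrix.zero_apply]
  rw [Pi.add_apply, Pi.sub_apply, Pi.smul_apply, smul_eq_mul, mul_comm (hj jH c t)] at this
  exact this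

end Pool.Agent.AOC
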