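import Pool.Agent.AOC.St
import Pool.Agent.ANC.NA
import Pool.Agent.ACV.All

/-!
# AOC: the discriminant is not a zero divisor
-/

set_option autoImplicit false

noncomputable section

namespace Pool.Agent.AOC

open Matrix MvPolynomial Pool.Agent.CTR Pool.Agent.ANC

/-- The bijection of the indices. -/
def nzw_e (m k : ℕ) : Fin (m + k) ≃ Iv m k := finSumFinEquiv.symm

/-- The ring with the additional variables `w`. -/
abbrev nzw_R (m k : ℕ) := MvPolynomial (Iv m k) (ACV.RS ℂ (m + k))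

/-- The values of the variables. -/
def nzw_f (m k : ℕ) : (Fin 2 × Iv m k × Iv m k) ⊕ (Fin 3 × Iv m k) → nzw_R m k :=
  Sum.elim (fun t => C (X (Sum.inl (t.1, (nzw_e m k).symm t.2.1, (nzw_e m k).symm t.2.2))))
    (fun t => if t.1 = 0 then C (X (Sum.inr (0, (nzw_e m k).symm t.2))) else
      if t.1 = 1 then C (X (Sum.inr (1, (nzw_e m k).symm t.2))) else X t.2)

/-- The homomorphism. -/
def nzw_p (m k : ℕ) : RW m k →+* nzw_R m k := eval₂Hom (C.comp C) (nzw_f m k)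

/-- The inverse on the coefficients. -/
def nzw_q0 (m k : ℕ) : ACV.RS ℂ (m + k) →+* RW m k :=
  eval₂Hom C (Sum.elim (fun t => X (Sum.inl (t.1, nzw_e m k t.2.1, nzw_e m k t.2.2)))
    (fun t => X (Sum.inr (Fin.castSucc t.1, nzw_e m k t.2))))

/-- The inverse. -/
def nzw_q (m k : ℕ) : nzw_R m k →+* RW m k :=
  eval₂Hom (nzw_q0 m k) (fun t => X (Sum.inr (2, t)))

theorem nzw_qX (m k : ℕ) (s : (Fin 2 × Iv m k × Iv m k) ⊕ (Fin 3 × Iv m k)) :
    nzw_q m k (nzw_f m k s) = X s := by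
  rcases s with ⟨a, i, j⟩ | ⟨a, i⟩
  · rw [nzw_f, Sum.elim_inl, nzw_q, eval₂Hom_C, nzw_q0, eval₂Hom_X', Sum.elim_inl]
    simp only [Equiv.apply_symm_apply]
  · rw [nzw_f, Sum.elim_inr]
    show nzw_q m k (if a = 0 then C (X (Sum.inr (0, (nzw_e m k).symm i))) else
      if a = 1 then C (X (Sum.inr (1, (nzw_e m k).symm i))) else X i) = _
    fin_cases a
    · show nzw_q m k (C (X (Sum.inr (0, (nzw_e m k).symm i)))) = _
      rw [nzw_q, eval₂Hom_C, nzw_q0, eval₂Hom_X', Sum.elim_inr]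
      simp only [Equiv.apply_symm_apply]
      rfl
    · show nzw_q m k (C (X (Sum.inr (1, (nzw_e m k).symm i)))) = _
      rw [nzw_q, eval₂Hom_C, nzw_q0, eval₂Hom_X', Sum.elim_inr]
      simp only [Equiv.apply_symm_apply]
      rfl
    · show nzw_q m k (X i) = _
      rw [nzw_q, eval₂Hom_X']
      rfl

theorem nzw_qp (m k : ℕ) (f : RW m k) : nzw_q m k (nzw_p m k f) = f := by
  have h : (nzw_q m k).comp (nzw_p m k) = RingHom.id _ := by
    apply MvPolynomial.ringHom_ext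
    · intro a
      rw [RingHom.comp_apply, nzw_p, eval₂Hom_C, RingHom.comp_apply, nzw_q, eval₂Hom_C, nzw_q0,
        eval₂Hom_C, RingHom.id_apply]
    · intro s
      rw [RingHom.comp_apply, nzw_p, eval₂Hom_X', nzw_qX, RingHom.id_apply]
  exact RingHom.congr_fun h f

theorem nzw_x (m k : ℕ) (i j : Iv m k) : nzw_p m k (wM m k 0 i j) =
    C (ACV.sX ℂ (m + k) ((nzw_e m k).symm i) ((nzw_e m k).symm j)) :=
  eval₂Hom_X' _ _ _

theorem nzw_y (m k : ℕ) (i j : Iv m k) : nzw_p m k (wM m k 1 i j) =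
    C (ACV.sY ℂ (m + k) ((nzw_e m k).symm i) ((nzw_e m k).symm j)) :=
  eval₂Hom_X' _ _ _

theorem nzw_v (m k : ℕ) (i : Iv m k) : nzw_p m k (wV m k 0 i) =
    C (ACV.sv ℂ (m + k) ((nzw_e m k).symm i)) :=
  eval₂Hom_X' _ _ _

theorem nzw_j (m k : ℕ) (i : Iv m k) : nzw_p m k (wV m k 1 i) =
    C (ACV.sj ℂ (m + k) ((nzw_e m k).symm i)) :=
  eval₂Hom_X' _ _ _

theorem nzw_eqn (m k : ℕ) (i j : Iv m k) :
    nzw_p m k ((wM m k 0 * wM m k 1 - wM m k 1 * wM m k 0 +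
      vecMulVec (wV m k 0) (wV m k 1)) i j) =
      C (ACV.eqn ℂ (m + k) ((nzw_e m k).symm i, (nzw_e m k).symm j)) := by
  rw [ACV.eqn]
  simp only [Matrix.add_apply, Matrix.sub_apply, Matrix.mul_apply, vecMulVec_apply, map_add,
    map_sub, map_sum, map_mul, nzw_x, nzw_y, nzw_v, nzw_j]
  rw [Equiv.sum_comp (nzw_e m k).symm (fun l => (C (ACV.sX ℂ (m + k) ((nzw_e m k).symm i) l) :
      nzw_R m k) * C (ACV.sY ℂ (m + k) l ((nzw_e m k).symm j))),
    Equiv.sum_comp (nzw_e m k).symm (fun l => (C (ACV.sY ℂ (m + k) ((nzw_e m k).symm i) l) :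
      nzw_R m k) * C (ACV.sX ℂ (m + k) l ((nzw_e m k).symm j)))]

theorem nzw_pow (m k r : ℕ) (i j : Iv m k) : nzw_p m k ((wM m k 0 ^ r) i j) =
    C ((ACV.sX ℂ (m + k) ^ r) ((nzw_e m k).symm i) ((nzw_e m k).symm j)) := by
  induction r generalizing i j with
  | zero =>
    rw [pow_zero, pow_zero, Matrix.one_apply, Matrix.one_apply]
    by_cases h : i = j
    · rw [if_pos h, if_pos (congrArg _ h), map_one, map_one]
    · rw [if_neg h, if_neg (fun h' => h ((nzw_e m k).symm.injective h')), map_zero, map_zero]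
  | succ r ih =>
    rw [pow_succ, pow_succ, Matrix.mul_apply, Matrix.mul_apply, map_sum, map_sum]
    simp only [map_mul, ih, nzw_x]
    rw [Equiv.sum_comp (nzw_e m k).symm (fun l =>
      (C ((ACV.sX ℂ (m + k) ^ r) ((nzw_e m k).symm i) l) : nzw_R m k) *
        C (ACV.sX ℂ (m + k) l ((nzw_e m k).symm j)))]

theorem nzw_dsc (m k : ℕ) :
    nzw_p m k (dsx (m + k) (wM m k 0)) = C (ACV.dsc (ACV.sX ℂ (m + k))) := by
  rw [ACV.dsc, dsx, RingHom.map_det, RingHom.map_det]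
  apply congrArg
  ext1 a b
  rw [RingHom.mapMatrix_apply, RingHom.mapMatrix_apply, Matrix.map_apply, Matrix.map_apply,
    Matrix.of_apply, Matrix.of_apply, Matrix.trace, Matrix.trace, map_sum, map_sum]
  simp only [Matrix.diag_apply, nzw_pow]
  rw [Equiv.sum_comp (nzw_e m k).symm
    (fun l => (C ((ACV.sX ℂ (m + k) ^ ((a : ℕ) + b)) l l) : nzw_R m k))]

/-- The ideals correspond. -/
theorem nzw_le (m k : ℕ) (f : RW m k) (hf : f ∈ IWd m k) :
    nzw_p m k f ∈ (ACV.IJ ℂ (m + k)).map (C : ACV.RS ℂ (m + k) →+* nzw_R m k) := by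
  have h : IWd m k ≤ Ideal.comap (nzw_p m k)
      ((ACV.IJ ℂ (m + k)).map (C : ACV.RS ℂ (m + k) →+* nzw_R m k)) := by
    rw [IWd, Ideal.span_le]
    rintro _ ⟨t, rfl⟩
    rw [SetLike.mem_coe, Ideal.mem_comap, nzw_eqn]
    exact Ideal.mem_map_of_mem _ (Ideal.subset_span ⟨_, rfl⟩)
  exact h hf

theorem nzw_ge (m k : ℕ) (f : nzw_R m k)
    (hf : f ∈ (ACV.IJ ℂ (m + k)).map (C : ACV.RS ℂ (m + k) →+* nzw_R m k)) :
    nzw_q m k f ∈ IWd m k := by
  have h : (ACV.IJ ℂ (m + k)).map (C : ACV.RS ℂ (m + k) →+* nzw_R m k) ≤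
      Ideal.comap (nzw_q m k) (IWd m k) := by
    rw [Ideal.map_le_iff_le_comap, ACV.IJ, Ideal.span_le]
    rintro _ ⟨t, rfl⟩
    show nzw_q m k (C (ACV.eqn ℂ (m + k) t)) ∈ IWd m k
    have h1 := nzw_eqn m k (nzw_e m k t.1) (nzw_e m k t.2)
    rw [Equiv.symm_apply_apply, Equiv.symm_apply_apply] at h1
    have h2 : nzw_q m k (C (ACV.eqn ℂ (m + k) t)) = _ := (congrArg (nzw_q m k) h1).symm
    rw [h2, nzw_qp]
    exact Ideal.subset_span ⟨(nzw_e m k t.1, nzw_e m k t.2), rfl⟩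
  exact h hf

/-- The discriminant is regular modulo the ideal. -/
theorem nzw_reg (m k : ℕ) (g : RW m k) (hg : dsx (m + k) (wM m k 0) * g ∈ IWd m k) :
    g ∈ IWd m k := by
  have h1 := nzw_le m k _ hg
  rw [map_mul, nzw_dsc, mem_map_C_iff] at h1
  have h2 : nzw_p m k g ∈ (ACV.IJ ℂ (m + k)).map (C : ACV.RS ℂ (m + k) →+* nzw_R m k) := by
    rw [mem_map_C_iff]
    intro s
    have h3 := h1 s
    rw [coeff_C_mul] at h3
    exact ACV.all_NZ ℂ (m + k) _ h3
  have h4 := nzw_ge m k _ h2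
  rw [nzw_qp] at h4
  exact h4

/-- **NZW.** -/
theorem thm_NZW : St_NZW := by
  intro m k W f h
  exact na_loc (IWd m k) (dsx (m + k) (wM m k 0)) _ (nzw_reg m k) f h

end Pool.Agent.AOC
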