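import Pool.Agent.AOC.St

/-!
# AOC, module NrY: quadruples with a quotient `R[t]/p` are of the normal form (Lean: helper3)
-/

set_option autoImplicit false
set_option linter.unusedVariables false

noncomputable section

namespace Pool.Agent.AOC

open Matrix Pool.Agent.CTR Pool.Agent.ANC

section nry

variable {R : Type} [CommRing R] {ι κ : Type} [Fintype ι] [DecidableEq ι] [Fintype κ]
  [DecidableEq κ]

private theorem nry_pw {A : Matrix ι ι R} {B : Matrix κ κ R} {S : Matrix ι κ R}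
    (h : A * S = S * B) (n : ℕ) : A ^ n * S = S * B ^ n := by
  induction n with
  | zero => rw [pow_zero, pow_zero, Matrix.one_mul, Matrix.mul_one]
  | succ n ih => rw [pow_succ, pow_succ, Matrix.mul_assoc, h, ← Matrix.mul_assoc, ih,
      Matrix.mul_assoc]

private theorem nry_re {i : ℕ} {A : Matrix ι ι R} {B : Matrix κ κ R} {S : Matrix ι κ R}
    (h : A * S = S * B) (r : Fin i → R) : re r A * S = S * re r B := by
  unfold re
  rw [Matrix.sum_mul, Matrix.mul_sum]
  refine Finset.sum_congr rfl fun b _ => ?_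
  rw [Matrix.smul_mul, Matrix.mul_smul, nry_pw h]

private theorem nry_pe {i : ℕ} {A : Matrix ι ι R} {B : Matrix κ κ R} {S : Matrix ι κ R}
    (h : A * S = S * B) (p : Fin i → R) : pe p A * S = S * pe p B := by
  have h1 := nry_re h p
  unfold re at h1
  unfold pe
  rw [Matrix.add_mul, Matrix.mul_add, nry_pw h, h1]

private theorem nry_qe {i : ℕ} {A : Matrix ι ι R} {B : Matrix κ κ R} {S : Matrix ι κ R}
    (h : A * S = S * B) (p c : Fin i → R) : qe p c A * S = S * qe p c B := by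
  unfold qe
  rw [Matrix.sum_mul, Matrix.mul_sum]
  refine Finset.sum_congr rfl fun u _ => ?_
  rw [Matrix.smul_mul, Matrix.mul_smul, Matrix.add_mul, Matrix.mul_add, nry_pw h, Matrix.sum_mul,
    Matrix.mul_sum]
  have h1 : ∀ l : Fin i, (if (u : ℕ) < l then p l • A ^ ((l : ℕ) - 1 - u) else 0) * S =
      S * (if (u : ℕ) < l then p l • B ^ ((l : ℕ) - 1 - u) else 0) := by
    intro l
    split
    · rw [Matrix.smul_mul, Matrix.mul_smul, nry_pw h]
    · rw [Matrix.zero_mul, Matrix.mul_zero]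
  rw [Finset.sum_congr rfl fun l _ => h1 l]

private theorem nry_sum {M : Type} [AddCommMonoid M] {i t : ℕ} (ht : t ≤ i) (f : ℕ → M) :
    (∑ l : Fin i, if (l : ℕ) < t then f l else 0) = ∑ l ∈ Finset.range t, f l := by
  rw [Fin.sum_univ_eq_sum_range (fun l => if l < t then f l else 0) i, ← Finset.sum_filter]
  refine Finset.sum_congr ?_ fun _ _ => rfl
  ext l
  rw [Finset.mem_filter, Finset.mem_range, Finset.mem_range]
  omega

/-- the inclusion of the first block -/
private def nryE (h i : ℕ) (R : Type) [CommRing R] : Matrix (Iv h i) (Fin h) R :=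
  fun s t => Sum.elim (fun s' => if s' = t then 1 else 0) (fun _ => 0) s

private theorem nry_E {h i : ℕ} (u : Fin h → R) :
    nryE h i R *ᵥ u = Sum.elim u (fun _ => 0) := by
  funext s
  unfold nryE
  rcases s with s | b
  · simp [Matrix.mulVec, dotProduct]
  · simp [Matrix.mulVec, dotProduct]

end nry

theorem thm_NrY (hCmp : St_Cmp) (hNAY : St_NAY) : St_NrY := by
  intro m k h i R _ hi x y v j w p ρ π g g' hAC hπx hπy hπv hρ h1 h2 hg' hg
  have hcol : ∀ (A : Matrix (Iv h i) (Iv m k) R) (s : Iv h i) (b : Fin i),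
      (A * g) s (Sum.inr b) = (A *ᵥ ((x ^ (b : ℕ)) *ᵥ w)) s := by
    intro A s b
    rw [Matrix.mul_apply]
    show _ = ∑ l, A s l * ((x ^ (b : ℕ)) *ᵥ w) l
    exact Finset.sum_congr rfl fun l _ => by rw [hg]
  have hrow : ∀ (A : Matrix (Iv m k) (Iv h i) R) (b : Fin i) (t : Iv h i),
      (g' * A) (Sum.inr b) t = (π * A) b t := by
    intro A b t
    rw [Matrix.mul_apply, Matrix.mul_apply]
    exact Finset.sum_congr rfl fun l _ => by rw [hg']
  have hrowv : ∀ (u : Iv m k → R) (b : Fin i), (g' *ᵥ u) (Sum.inr b) = (π *ᵥ u) b := by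
    intro u b
    show ∑ l, g' (Sum.inr b) l * u l = ∑ l, π b l * u l
    exact Finset.sum_congr rfl fun l _ => by rw [hg']
  have hπg : ∀ b t, (π * g) b t = (1 : Matrix (Iv h i) (Iv h i) R) (Sum.inr b) t := by
    intro b t
    rw [← hrow, h1]
  set X := g' * x * g with hX
  set Y := g' * y * g with hY
  -- intertwining
  have hXg : X * g' = g' * x := by
    rw [hX, Matrix.mul_assoc, h2, Matrix.mul_one]
  have hYg : Y * g' = g' * y := by
    rw [hY, Matrix.mul_assoc, h2, Matrix.mul_one]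
  have hXv : ∀ u : Iv m k → R, g' *ᵥ (x *ᵥ u) = X *ᵥ (g' *ᵥ u) := by
    intro u
    rw [Matrix.mulVec_mulVec, Matrix.mulVec_mulVec, hXg]
  have hYv : ∀ u : Iv m k → R, g' *ᵥ (y *ᵥ u) = Y *ᵥ (g' *ᵥ u) := by
    intro u
    rw [Matrix.mulVec_mulVec, Matrix.mulVec_mulVec, hYg]
  -- rows of the second block
  have hXr : ∀ b t, X (Sum.inr b) t =
      ∑ c, cp p b c * (1 : Matrix (Iv h i) (Iv h i) R) (Sum.inr c) t := by
    intro b t
    rw [hX, Matrix.mul_assoc, hrow, ← Matrix.mul_assoc, hπx, Matrix.mul_assoc, Matrix.mul_apply]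
    exact Finset.sum_congr rfl fun c _ => by rw [hπg]
  have hYr : ∀ b t, Y (Sum.inr b) t =
      ∑ c, re ρ (cp p) b c * (1 : Matrix (Iv h i) (Iv h i) R) (Sum.inr c) t := by
    intro b t
    rw [hY, Matrix.mul_assoc, hrow, ← Matrix.mul_assoc, hπy, Matrix.mul_assoc, Matrix.mul_apply]
    exact Finset.sum_congr rfl fun c _ => by rw [hπg]
  have hX21 : ∀ b s, X (Sum.inr b) (Sum.inl s) = 0 := by
    intro b s
    rw [hXr]
    exact Finset.sum_eq_zero fun c _ => by rw [Matrix.one_apply_ne Sum.inr_ne_inl, mul_zero]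
  have hY21 : ∀ b s, Y (Sum.inr b) (Sum.inl s) = 0 := by
    intro b s
    rw [hYr]
    exact Finset.sum_eq_zero fun c _ => by rw [Matrix.one_apply_ne Sum.inr_ne_inl, mul_zero]
  have hX22 : ∀ b c, X (Sum.inr b) (Sum.inr c) = cp p b c := by
    intro b c
    rw [hXr, Finset.sum_eq_single c]
    · rw [Matrix.one_apply_eq, mul_one]
    · intro d _ hd
      rw [Matrix.one_apply_ne (fun hh => hd (Sum.inr_injective hh)), mul_zero]
    · exact fun hh => absurd (Finset.mem_univ c) hh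
  -- columns of the second block
  have hgw : ∀ (b : Fin i) (s : Iv h i), (g' *ᵥ ((x ^ (b : ℕ)) *ᵥ w)) s =
      (1 : Matrix (Iv h i) (Iv h i) R) s (Sum.inr b) := by
    intro b s
    rw [← hcol, h1]
  have hXcol : ∀ (s : Iv h i) (b : Fin i), X s (Sum.inr b) =
      (g' *ᵥ ((x ^ ((b : ℕ) + 1)) *ᵥ w)) s := by
    intro s b
    rw [hX, hcol, ← Matrix.mulVec_mulVec, pow_succ', ← Matrix.mulVec_mulVec]
  have hYcol : ∀ (s : Iv h i) (b : Fin i), Y s (Sum.inr b) =
      (g' *ᵥ (y *ᵥ ((x ^ (b : ℕ)) *ᵥ w))) s := by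
    intro s b
    rw [hY, hcol, ← Matrix.mulVec_mulVec]
  set η := g' *ᵥ (y *ᵥ w) with hη
  set v' := g' *ᵥ v with hv'
  set cc : ℕ → R := fun l => j ⬝ᵥ ((x ^ l) *ᵥ w) with hcc
  -- the powers
  have hyx : ∀ u : Iv m k → R, y *ᵥ (x *ᵥ u) = x *ᵥ (y *ᵥ u) + (j ⬝ᵥ u) • v := by
    intro u
    have e1 : y * x = x * y + vecMulVec v j := by
      have h3 : x * y - y * x + vecMulVec v j = 0 := hAC
      have h4 : x * y + vecMulVec v j - y * x = 0 := by rw [← h3]; abel
      exact (sub_eq_zero.1 h4).symm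
    rw [Matrix.mulVec_mulVec, e1, Matrix.add_mulVec, Matrix.vecMulVec_mulVec, ← Matrix.mulVec_mulVec,
      op_smul_eq_smul]
  have hYt : ∀ t : ℕ, g' *ᵥ (y *ᵥ ((x ^ t) *ᵥ w)) = (X ^ t) *ᵥ η +
      ∑ l ∈ Finset.range t, cc l • ((X ^ (t - 1 - l)) *ᵥ v') := by
    intro t
    induction t with
    | zero => simp [hη]
    | succ t ih =>
      rw [pow_succ', ← Matrix.mulVec_mulVec, hyx, Matrix.mulVec_add, Matrix.mulVec_smul, hXv, ih,
        Matrix.mulVec_add, Matrix.mulVec_sum, Finset.sum_range_succ, add_assoc]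
      congr 1
      · rw [Matrix.mulVec_mulVec, ← pow_succ']
      · congr 1
        · refine Finset.sum_congr rfl fun l hl => ?_
          rw [Finset.mem_range] at hl
          rw [Matrix.mulVec_smul, Matrix.mulVec_mulVec, ← pow_succ']
          have e1 : t - 1 - l + 1 = t + 1 - 1 - l := by omega
          rw [e1]
        · have e1 : t + 1 - 1 - t = 0 := by omega
          rw [e1, pow_zero, Matrix.one_mulVec]
  -- the data
  set xH : Matrix (Fin h) (Fin h) R := fun s t => X (Sum.inl s) (Sum.inl t) with hxH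
  set yH : Matrix (Fin h) (Fin h) R := fun s t => Y (Sum.inl s) (Sum.inl t) with hyH
  set a : Fin h → R := fun s => X (Sum.inl s) (Sum.inr ⟨i - 1, by omega⟩) with ha
  set b : Fin h → R := fun s => η (Sum.inl s) with hb
  set vH : Fin h → R := fun s => v' (Sum.inl s) with hvH
  set jH : Fin h → R := fun s => (j ᵥ* g) (Sum.inl s) with hjH
  set c : Fin i → R := fun l => cc l with hc
  have CX : X = hx xH a p := by
    ext s t
    unfold hx
    rcases s with s | s <;> rcases t with t | t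
    · rfl
    · show _ = if (t : ℕ) + 1 = i then a s else 0
      split
      · rename_i ht
        have e1 : t = ⟨i - 1, by omega⟩ := Fin.ext (by show (t : ℕ) = i - 1; omega)
        rw [e1]
      · rename_i ht
        have ht2 : (t : ℕ) + 1 < i := by
          have := t.2
          omega
        rw [hXcol]
        have e1 := hgw ⟨(t : ℕ) + 1, ht2⟩ (Sum.inl s)
        rw [e1, Matrix.one_apply_ne Sum.inl_ne_inr]
    · exact hX21 s t
    · exact hX22 s t
  have Cη : η = Sum.elim b ρ := by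
    funext s
    rcases s with s | s
    · rfl
    · show (g' *ᵥ (y *ᵥ w)) (Sum.inr s) = ρ s
      rw [hrowv, ← hρ]
  have Cv : v' = hv i vH := by
    funext s
    rcases s with s | s
    · rfl
    · show (g' *ᵥ v) (Sum.inr s) = 0
      rw [hrowv, hπv]
      rfl
  have CY : Y = hy xH yH vH a b p ρ c := by
    ext s t
    rcases t with t | t
    · rcases s with s | s
      · rfl
      · exact hY21 s t
    · rw [hYcol, hYt]
      show _ = ((hx xH a p ^ (t : ℕ)) *ᵥ Sum.elim b ρ) s +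
        ∑ l : Fin i, if (l : ℕ) < t then
          c l * ((hx xH a p ^ ((t : ℕ) - 1 - l)) *ᵥ hv i vH) s else 0
      rw [← CX, ← Cη, ← Cv, Pi.add_apply, Finset.sum_apply]
      congr 1
      have e1 := nry_sum (M := R) (le_of_lt t.2)
        (fun l => cc l * ((X ^ ((t : ℕ) - 1 - l)) *ᵥ v') s)
      rw [hc]
      rw [e1]
      exact Finset.sum_congr rfl fun l _ => by rw [Pi.smul_apply, smul_eq_mul]
  -- the first block
  have hXE : X * nryE h i R = nryE h i R * xH := by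
    ext s t
    rw [Matrix.mul_apply, Matrix.mul_apply, Fintype.sum_sum_type]
    unfold nryE
    rcases s with s | s
    · simp [hxH]
    · simp [hX21]
  have hYE : Y * nryE h i R = nryE h i R * yH := by
    ext s t
    rw [Matrix.mul_apply, Matrix.mul_apply, Fintype.sum_sum_type]
    unfold nryE
    rcases s with s | s
    · simp [hyH]
    · simp [hY21]
  -- AC for the first block
  have hACX : X * Y - Y * X + vecMulVec v' (j ᵥ* g) = 0 := by
    have h3 : x * y - y * x + vecMulVec v j = 0 := hAC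
    have e1 : X * Y = g' * (x * y) * g := by
      rw [hY, ← Matrix.mul_assoc, ← Matrix.mul_assoc, hXg, Matrix.mul_assoc g' x y]
    have e2 : Y * X = g' * (y * x) * g := by
      rw [hX, ← Matrix.mul_assoc, ← Matrix.mul_assoc, hYg, Matrix.mul_assoc g' y x]
    have e3 : vecMulVec v' (j ᵥ* g) = g' * vecMulVec v j * g := by
      rw [Matrix.mul_vecMulVec, Matrix.vecMulVec_mul]
    rw [e1, e2, e3, ← Matrix.sub_mul, ← Matrix.add_mul, ← Matrix.mul_sub, ← Matrix.mul_add, h3,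
      Matrix.mul_zero, Matrix.zero_mul]
  have hACH : AC xH yH vH jH := by
    show xH * yH - yH * xH + vecMulVec vH jH = 0
    ext s t
    have h3 := congrFun (congrFun hACX (Sum.inl s)) (Sum.inl t)
    have e1 : (X * Y) (Sum.inl s) (Sum.inl t) = (xH * yH) s t := by
      rw [Matrix.mul_apply, Matrix.mul_apply, Fintype.sum_sum_type]
      simp [hY21, hxH, hyH]
    have e2 : (Y * X) (Sum.inl s) (Sum.inl t) = (yH * xH) s t := by
      rw [Matrix.mul_apply, Matrix.mul_apply, Fintype.sum_sum_type]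
      simp [hX21, hxH, hyH]
    have e4 : (X * Y) (Sum.inl s) (Sum.inl t) - (Y * X) (Sum.inl s) (Sum.inl t) +
        v' (Sum.inl s) * (j ᵥ* g) (Sum.inl t) = 0 := h3
    rw [e1, e2] at e4
    exact e4
  -- E3
  set ww : Iv m k → R := pe p x *ᵥ w with hww
  have hww1 : g' *ᵥ ww = Sum.elim a (fun _ => 0) := by
    funext s
    have e1 : g' *ᵥ ww = g' *ᵥ ((x ^ i) *ᵥ w) + ∑ l : Fin i, p l • (g' *ᵥ ((x ^ (l : ℕ)) *ᵥ w)) := by
      rw [hww]
      unfold pe
      rw [Matrix.add_mulVec, Matrix.mulVec_add, Matrix.sum_mulVec, Matrix.mulVec_sum]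
      congr 1
      exact Finset.sum_congr rfl fun l _ => by rw [Matrix.smul_mulVec, Matrix.mulVec_smul]
    have e2 : (g' *ᵥ ((x ^ i) *ᵥ w)) s = X s (Sum.inr ⟨i - 1, by omega⟩) := by
      rw [hXcol]
      have e3 : i - 1 + 1 = i := by omega
      show _ = (g' *ᵥ ((x ^ (i - 1 + 1)) *ᵥ w)) s
      rw [e3]
    rw [e1, Pi.add_apply, Finset.sum_apply, e2]
    have e4 : ∀ l : Fin i, (p l • (g' *ᵥ ((x ^ (l : ℕ)) *ᵥ w))) s =
        p l * (1 : Matrix (Iv h i) (Iv h i) R) s (Sum.inr l) := by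
      intro l
      rw [Pi.smul_apply, smul_eq_mul, hgw]
    rw [Finset.sum_congr rfl fun l _ => e4 l]
    rcases s with s | s
    · rw [Finset.sum_eq_zero fun l _ => by rw [Matrix.one_apply_ne Sum.inl_ne_inr, mul_zero],
        add_zero]
      rfl
    · rw [hX22, Finset.sum_eq_single s]
      · rw [Matrix.one_apply_eq, mul_one]
        unfold cp
        have e5 : i - 1 + 1 = i := by omega
        show (if i - 1 + 1 = i then -p s else _) + p s = 0
        rw [if_pos e5]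
        ring
      · intro l _ hl
        rw [Matrix.one_apply_ne (fun hh => hl (Sum.inr_injective hh).symm), mul_zero]
      · exact fun hh => absurd (Finset.mem_univ s) hh
  have hE1 : g' *ᵥ (y *ᵥ ww) = nryE h i R *ᵥ (yH *ᵥ a) := by
    rw [hYv, hww1, ← nry_E, Matrix.mulVec_mulVec, hYE, ← Matrix.mulVec_mulVec]
  have hE2 : g' *ᵥ (y *ᵥ ww) = pe p X *ᵥ η + qe p c X *ᵥ v' := by
    have e1 : g' *ᵥ (y *ᵥ ww) = g' *ᵥ (y *ᵥ ((x ^ i) *ᵥ w)) +
        ∑ l : Fin i, p l • (g' *ᵥ (y *ᵥ ((x ^ (l : ℕ)) *ᵥ w))) := by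
      rw [hww]
      unfold pe
      rw [Matrix.add_mulVec, Matrix.mulVec_add, Matrix.mulVec_add, Matrix.sum_mulVec,
        Matrix.mulVec_sum, Matrix.mulVec_sum]
      congr 1
      exact Finset.sum_congr rfl fun l _ => by
        rw [Matrix.smul_mulVec, Matrix.mulVec_smul, Matrix.mulVec_smul]
    have e2 : ∀ t : ℕ, t ≤ i → g' *ᵥ (y *ᵥ ((x ^ t) *ᵥ w)) = (X ^ t) *ᵥ η +
        ∑ l : Fin i, if (l : ℕ) < t then c l • ((X ^ (t - 1 - l)) *ᵥ v') else 0 := by
      intro t ht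
      rw [hYt, ← nry_sum ht (fun l => cc l • ((X ^ (t - 1 - l)) *ᵥ v'))]
    have e3 : ∀ l : Fin i, p l • (g' *ᵥ (y *ᵥ ((x ^ (l : ℕ)) *ᵥ w))) =
        p l • ((X ^ (l : ℕ)) *ᵥ η) +
        ∑ u : Fin i, if (u : ℕ) < l then p l • c u • ((X ^ ((l : ℕ) - 1 - u)) *ᵥ v') else 0 := by
      intro l
      rw [e2 l l.2.le, smul_add, Finset.smul_sum]
      congr 1
      refine Finset.sum_congr rfl fun u _ => ?_
      split
      · rfl
      · rw [smul_zero]
    have e4 : ∀ u : Fin i, (if (u : ℕ) < i then c u • ((X ^ (i - 1 - u)) *ᵥ v') else 0) =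
        c u • ((X ^ (i - 1 - u)) *ᵥ v') := fun u => if_pos u.2
    rw [e1, e2 i le_rfl, Finset.sum_congr rfl fun u _ => e4 u, Finset.sum_congr rfl fun l _ => e3 l,
      Finset.sum_add_distrib, Finset.sum_comm]
    have e5 : pe p X *ᵥ η = (X ^ i) *ᵥ η + ∑ l : Fin i, p l • ((X ^ (l : ℕ)) *ᵥ η) := by
      unfold pe
      rw [Matrix.add_mulVec, Matrix.sum_mulVec]
      congr 1
      exact Finset.sum_congr rfl fun l _ => by rw [Matrix.smul_mulVec]
    have e6 : qe p c X *ᵥ v' = ∑ u : Fin i, (c u • ((X ^ (i - 1 - u)) *ᵥ v') +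
        ∑ l : Fin i, if (u : ℕ) < l then p l • c u • ((X ^ ((l : ℕ) - 1 - u)) *ᵥ v') else 0) := by
      unfold qe
      rw [Matrix.sum_mulVec]
      refine Finset.sum_congr rfl fun u _ => ?_
      rw [Matrix.smul_mulVec, Matrix.add_mulVec, Matrix.sum_mulVec, smul_add, Finset.smul_sum]
      congr 1
      refine Finset.sum_congr rfl fun l _ => ?_
      split
      · rw [Matrix.smul_mulVec, smul_comm]
      · rw [Matrix.zero_mulVec, smul_zero]
    rw [e5, e6, Finset.sum_add_distrib]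
    abel
  -- `η` is the sum of two vectors
  have hη1 : η = nryE h i R *ᵥ b + g' *ᵥ (re ρ x *ᵥ w) := by
    rw [Cη, nry_E]
    have e1 : g' *ᵥ (re ρ x *ᵥ w) = ∑ l : Fin i, ρ l • (g' *ᵥ ((x ^ (l : ℕ)) *ᵥ w)) := by
      unfold re
      rw [Matrix.sum_mulVec, Matrix.mulVec_sum]
      exact Finset.sum_congr rfl fun l _ => by rw [Matrix.smul_mulVec, Matrix.mulVec_smul]
    funext s
    rw [Pi.add_apply, e1, Finset.sum_apply]
    have e4 : ∀ l : Fin i, (ρ l • (g' *ᵥ ((x ^ (l : ℕ)) *ᵥ w))) s =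
        ρ l * (1 : Matrix (Iv h i) (Iv h i) R) s (Sum.inr l) := by
      intro l
      rw [Pi.smul_apply, smul_eq_mul, hgw]
    rw [Finset.sum_congr rfl fun l _ => e4 l]
    rcases s with s | s
    · rw [Finset.sum_eq_zero fun l _ => by rw [Matrix.one_apply_ne Sum.inl_ne_inr, mul_zero],
        add_zero]
      rfl
    · rw [Finset.sum_eq_single s]
      · rw [Matrix.one_apply_eq, mul_one]
        show ρ s = 0 + ρ s
        rw [zero_add]
      · intro l _ hl
        rw [Matrix.one_apply_ne (fun hh => hl (Sum.inr_injective hh).symm), mul_zero]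
      · exact fun hh => absurd (Finset.mem_univ s) hh
  have hcomm : pe p x * re ρ x = re ρ x * pe p x := nry_pe (nry_re rfl ρ).symm p
  have hE3 : pe p X *ᵥ (g' *ᵥ (re ρ x *ᵥ w)) = nryE h i R *ᵥ (re ρ xH *ᵥ a) := by
    have e1 : pe p X *ᵥ (g' *ᵥ (re ρ x *ᵥ w)) = g' *ᵥ (pe p x *ᵥ (re ρ x *ᵥ w)) := by
      rw [Matrix.mulVec_mulVec (re ρ x *ᵥ w) (pe p X) g', nry_pe hXg p,
        ← Matrix.mulVec_mulVec (re ρ x *ᵥ w) g' (pe p x)]
    have e2 : pe p x *ᵥ (re ρ x *ᵥ w) = re ρ x *ᵥ ww := by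
      rw [Matrix.mulVec_mulVec w (pe p x) (re ρ x), hcomm, ← Matrix.mulVec_mulVec w (re ρ x) (pe p x)]
    have e3 : g' *ᵥ (re ρ x *ᵥ ww) = re ρ X *ᵥ (g' *ᵥ ww) := by
      rw [Matrix.mulVec_mulVec ww g' (re ρ x), ← nry_re hXg ρ,
        ← Matrix.mulVec_mulVec ww (re ρ X) g']
    rw [e1, e2, e3, hww1, ← nry_E, Matrix.mulVec_mulVec a (re ρ X) (nryE h i R), nry_re hXE ρ,
      ← Matrix.mulVec_mulVec a (nryE h i R) (re ρ xH)]
  have hE4 : pe p X *ᵥ (nryE h i R *ᵥ b) = nryE h i R *ᵥ (pe p xH *ᵥ b) := by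
    rw [Matrix.mulVec_mulVec, nry_pe hXE p, ← Matrix.mulVec_mulVec]
  have hE5 : qe p c X *ᵥ v' = nryE h i R *ᵥ (qe p c xH *ᵥ vH) := by
    have e1 : v' = nryE h i R *ᵥ vH := by
      rw [nry_E]
      exact Cv
    rw [e1, Matrix.mulVec_mulVec, nry_qe hXE p c, ← Matrix.mulVec_mulVec]
  have hE3' : E3 xH yH vH a b p ρ c := by
    show pe p xH *ᵥ b - (yH *ᵥ a - re ρ xH *ᵥ a) + qe p c xH *ᵥ vH = 0
    have e1 : nryE h i R *ᵥ (yH *ᵥ a) = nryE h i R *ᵥ (pe p xH *ᵥ b) +
        nryE h i R *ᵥ (re ρ xH *ᵥ a) + nryE h i R *ᵥ (qe p c xH *ᵥ vH) := by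
      rw [← hE1, hE2, ← hE5, ← hE4, ← hE3, ← Matrix.mulVec_add, ← hη1]
    rw [nry_E, nry_E, nry_E, nry_E] at e1
    funext s
    have e2 := congrFun e1 (Sum.inl s)
    have e3 : (yH *ᵥ a) s = (pe p xH *ᵥ b) s + (re ρ xH *ᵥ a) s + (qe p c xH *ᵥ vH) s := e2
    show (pe p xH *ᵥ b) s - ((yH *ᵥ a) s - (re ρ xH *ᵥ a) s) + (qe p c xH *ᵥ vH) s = 0
    rw [e3]
    ring
  refine ⟨xH, yH, vH, jH, a, b, ρ, c, hACH, hE3', ?_, ?_, ?_, ?_, ?_⟩
  · rw [← CX, hX, ← Matrix.mul_assoc, ← Matrix.mul_assoc, h2, Matrix.one_mul, Matrix.mul_assoc, h2,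
      Matrix.mul_one]
  · rw [← CY, hY, ← Matrix.mul_assoc, ← Matrix.mul_assoc, h2, Matrix.one_mul, Matrix.mul_assoc, h2,
      Matrix.mul_one]
  · rw [← Cv, hv', Matrix.mulVec_mulVec, h2, Matrix.one_mulVec]
  · have e1 : (hj jH c : Iv h i → R) = j ᵥ* g := by
      funext s
      rcases s with s | s
      · rfl
      · show j ⬝ᵥ ((x ^ (s : ℕ)) *ᵥ w) = ∑ l, j l * g l (Sum.inr s)
        show ∑ l, j l * ((x ^ (s : ℕ)) *ᵥ w) l = _
        exact Finset.sum_congr rfl fun l _ => by rw [hg]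
    rw [e1, Matrix.vecMul_vecMul, h2, Matrix.vecMul_one]
  · funext s
    show w s = ∑ t, g s t * hw h i R t
    rw [Fintype.sum_sum_type]
    have e1 : ∑ t : Fin h, g s (Sum.inl t) * hw h i R (Sum.inl t) = 0 :=
      Finset.sum_eq_zero fun t _ => by
        show g s (Sum.inl t) * 0 = 0
        rw [mul_zero]
    rw [e1, zero_add, Finset.sum_eq_single ⟨0, hi⟩]
    · show w s = g s (Sum.inr ⟨0, hi⟩) * (if (0 : ℕ) = 0 then 1 else 0)
      rw [if_pos rfl, mul_one, hg]
      show w s = ((x ^ 0) *ᵥ w) s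
      rw [pow_zero, Matrix.one_mulVec]
    · intro t _ ht
      show g s (Sum.inr t) * (if (t : ℕ) = 0 then 1 else 0) = 0
      rw [if_neg (fun hh => ht (Fin.ext hh)), mul_zero]
    · exact fun hh => absurd (Finset.mem_univ _) hh

end Pool.Agent.AOC
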