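import Pool.Agent.AOC.St
import Pool.Agent.ANC.Bas
import Pool.Agent.ANC.Cnj

/-!
# AOC, module One: one joint eigenvalue

The proof follows the comment of `St_One`.
-/

set_option autoImplicit false

noncomputable section

namespace Pool.Agent.AOC

open Matrix Pool.Agent.CTR Pool.Agent.ANC Module.End

/-- Spaces of codimension at most one. -/
theorem one_w {n : ℕ} (Z : Submodule ℂ (Fin n → ℂ)) (h : n ≤ Module.finrank ℂ Z + 1) :
    ∃ w : Fin n → ℂ, Z ⊔ Submodule.span ℂ {w} = ⊤ := by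
  by_cases hZ : Z = ⊤
  · exact ⟨0, by rw [hZ, top_sup_eq]⟩
  · obtain ⟨w, hw⟩ : ∃ w, w ∉ Z := by
      by_contra hno
      push Not at hno
      exact hZ (eq_top_iff.2 fun x _ => hno x)
    refine ⟨w, ?_⟩
    have h1 : Z < Z ⊔ Submodule.span ℂ {w} := by
      refine lt_of_le_of_ne le_sup_left fun h2 => hw ?_
      rw [h2]
      exact Submodule.mem_sup_right (Submodule.mem_span_singleton_self w)
    have h2 := Submodule.finrank_lt_finrank_of_lt h1
    apply Submodule.eq_top_of_finrank_eq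
    have h3 := Submodule.finrank_le (Z ⊔ Submodule.span ℂ {w})
    rw [Module.finrank_fintype_fun_eq_card, Fintype.card_fin] at h3 ⊢
    omega

theorem one_pow {n : ℕ} (A : Matrix (Fin n) (Fin n) ℂ) (U : Submodule ℂ (Fin n → ℂ))
    (h : ∀ u ∈ U, A *ᵥ u ∈ U) (i : ℕ) : ∀ u ∈ U, (A ^ i) *ᵥ u ∈ U := by
  induction i with
  | zero =>
    intro u hu
    rw [pow_zero, Matrix.one_mulVec]
    exact hu
  | succ i ih =>
    intro u hu
    rw [pow_succ, ← Matrix.mulVec_mulVec]
    exact ih _ (h u hu)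

theorem one_min {n : ℕ} (A B : Matrix (Fin n) (Fin n) ℂ) (v : Fin n → ℂ)
    (U : Submodule ℂ (Fin n → ℂ)) (hA : ∀ u ∈ U, A *ᵥ u ∈ U) (hB : ∀ u ∈ U, B *ᵥ u ∈ U)
    (hv : v ∈ U) : gen A B v ≤ U := by
  unfold gen
  rw [Submodule.span_le]
  rintro _ ⟨p, rfl⟩
  show (A ^ p.1 * B ^ p.2) *ᵥ v ∈ U
  rw [← Matrix.mulVec_mulVec]
  exact one_pow A U hA p.1 _ (one_pow B U hB p.2 v hv)

theorem one_self {n : ℕ} (A B : Matrix (Fin n) (Fin n) ℂ) (v : Fin n → ℂ) : v ∈ gen A B v := by
  refine Submodule.subset_span ⟨(0, 0), ?_⟩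
  simp

theorem one_stab {n : ℕ} (A B : Matrix (Fin n) (Fin n) ℂ) (hAB : A * B = B * A) (v : Fin n → ℂ) :
    (∀ u ∈ gen A B v, A *ᵥ u ∈ gen A B v) ∧ ∀ u ∈ gen A B v, B *ᵥ u ∈ gen A B v := by
  have hc : Commute A B := hAB
  constructor
  · have h1 : (gen A B v).map (Matrix.toLin' A) ≤ gen A B v := by
      conv_lhs => unfold gen
      rw [Submodule.map_span, Submodule.span_le]
      rintro _ ⟨_, ⟨p, rfl⟩, rfl⟩
      refine Submodule.subset_span ⟨(p.1 + 1, p.2), ?_⟩
      show (A ^ (p.1 + 1) * B ^ p.2) *ᵥ v = Matrix.toLin' A ((A ^ p.1 * B ^ p.2) *ᵥ v)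
      rw [Matrix.toLin'_apply, Matrix.mulVec_mulVec, pow_succ', mul_assoc]
    intro u hu
    exact h1 ⟨u, hu, Matrix.toLin'_apply A u⟩
  · have h1 : (gen A B v).map (Matrix.toLin' B) ≤ gen A B v := by
      conv_lhs => unfold gen
      rw [Submodule.map_span, Submodule.span_le]
      rintro _ ⟨_, ⟨p, rfl⟩, rfl⟩
      refine Submodule.subset_span ⟨(p.1, p.2 + 1), ?_⟩
      show (A ^ p.1 * B ^ (p.2 + 1)) *ᵥ v = Matrix.toLin' B ((A ^ p.1 * B ^ p.2) *ᵥ v)
      rw [Matrix.toLin'_apply, Matrix.mulVec_mulVec, pow_succ', ← mul_assoc, ← mul_assoc,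
        (hc.pow_left p.1).eq]
    intro u hu
    exact h1 ⟨u, hu, Matrix.toLin'_apply B u⟩

/-- Nilpotent operators. -/
theorem one_nil {n : ℕ} (f : Module.End ℂ (Fin n → ℂ)) (μ : ℂ) (h : f.maxGenEigenspace μ = ⊤)
    (x : Fin n → ℂ) : ((f - μ • (1 : Module.End ℂ (Fin n → ℂ))) ^ n) x = 0 := by
  have h1 : x ∈ f.maxGenEigenspace μ := by
    rw [h]
    exact Submodule.mem_top
  rw [maxGenEigenspace_eq_genEigenspace_finrank, Module.finrank_fintype_fun_eq_card,
    Fintype.card_fin, mem_genEigenspace_nat, LinearMap.mem_ker] at h1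
  exact h1

/-- The main step: `V / P` is generated by its image under a nilpotent operator. -/
theorem one_nak {n : ℕ} (N : Module.End ℂ (Fin n → ℂ)) (K : ℕ) (hN : ∀ x, (N ^ K) x = 0)
    (P : Submodule ℂ (Fin n → ℂ)) (hP : ∀ u ∈ P, N u ∈ P) (h : P ⊔ LinearMap.range N = ⊤) :
    P = ⊤ := by
  have key : ∀ i : ℕ, P ⊔ LinearMap.range (N ^ i) = ⊤ := by
    intro i
    induction i with
    | zero =>
      rw [pow_zero]
      have h1 : LinearMap.range (1 : Module.End ℂ (Fin n → ℂ)) = ⊤ := LinearMap.range_id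
      rw [h1, sup_top_eq]
    | succ i ih =>
      rw [eq_top_iff]
      intro x _
      have hx : x ∈ P ⊔ LinearMap.range (N ^ i) := by
        rw [ih]
        exact Submodule.mem_top
      obtain ⟨y, hy, z, ⟨u, rfl⟩, rfl⟩ := Submodule.mem_sup.1 hx
      have hu : u ∈ P ⊔ LinearMap.range N := by
        rw [h]
        exact Submodule.mem_top
      obtain ⟨y', hy', z', ⟨u', rfl⟩, rfl⟩ := Submodule.mem_sup.1 hu
      rw [map_add, ← add_assoc]
      refine Submodule.add_mem_sup (P.add_mem hy ?_) ⟨u', ?_⟩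
      · have h2 : ∀ j : ℕ, (N ^ j) y' ∈ P := by
          intro j
          induction j with
          | zero => simpa using hy'
          | succ j ihj =>
            rw [pow_succ', Module.End.mul_apply]
            exact hP _ ihj
        exact h2 i
      · rw [pow_succ, Module.End.mul_apply]
  have h1 := key K
  have h2 : LinearMap.range (N ^ K) = ⊥ := by
    rw [eq_bot_iff]
    rintro _ ⟨x, rfl⟩
    rw [hN x]
    exact Submodule.zero_mem _
  rwa [h2, sup_bot_eq] at h1

/-- The case `(a, b) ≠ (0, 0)`. -/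
theorem one_main (hPtt : St_Ptt) (hLoc : St_Loc) (hGLt : St_GLt) {n : ℕ}
    (A B : Matrix (Fin n) (Fin n) ℂ) (α β : ℂ) (hAB : A * B = B * A) (hE : gE A B α β = ⊤)
    (a b c d : ℂ) (hdet : a * d - b * c ≠ 0) (v : Fin n → ℂ)
    (hc : n ≤ Module.finrank ℂ (gen A B v ⊔
      LinearMap.range (Matrix.toLin' (a • A + b • B - (a * α + b * β) • 1)) :
      Submodule ℂ (Fin n → ℂ)) + 1) : Rd A B := by
  obtain ⟨w, hw⟩ := one_w _ hc
  set X : Matrix (Fin n) (Fin n) ℂ := a • A + b • B with hX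
  set Y : Matrix (Fin n) (Fin n) ℂ := c • A + d • B with hY
  set ξ : ℂ := a * α + b * β with hξ
  have hXY : X * Y = Y * X := by
    rw [hX, hY]
    simp only [add_mul, mul_add, Matrix.smul_mul, Matrix.mul_smul, hAB, smul_smul]
    rw [mul_comm d a, mul_comm c a, mul_comm d b, mul_comm c b]
    abel
  obtain ⟨hsA, hsB⟩ := one_stab A B hAB v
  have hsX : ∀ u ∈ gen A B v, X *ᵥ u ∈ gen A B v := by
    intro u hu
    rw [hX, Matrix.add_mulVec, Matrix.smul_mulVec, Matrix.smul_mulVec]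
    exact Submodule.add_mem _ (Submodule.smul_mem _ _ (hsA u hu))
      (Submodule.smul_mem _ _ (hsB u hu))
  set S : Submodule ℂ (Fin n → ℂ) := Submodule.span ℂ (Set.range fun i : ℕ => (X ^ i) *ᵥ w)
    with hS
  have hwS : w ∈ S := Submodule.subset_span ⟨0, by simp⟩
  have hSX : ∀ u ∈ S, X *ᵥ u ∈ S := by
    have h1 : S.map (Matrix.toLin' X) ≤ S := by
      conv_lhs => rw [hS]
      rw [Submodule.map_span, Submodule.span_le]
      rintro _ ⟨_, ⟨i, rfl⟩, rfl⟩
      refine Submodule.subset_span ⟨i + 1, ?_⟩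
      show (X ^ (i + 1)) *ᵥ w = Matrix.toLin' X ((X ^ i) *ᵥ w)
      rw [Matrix.toLin'_apply, Matrix.mulVec_mulVec, pow_succ']
    intro u hu
    exact h1 ⟨u, hu, Matrix.toLin'_apply X u⟩
  have hNL : Matrix.toLin' (X - ξ • 1) =
      a • (Matrix.toLin' A - α • (1 : Module.End ℂ (Fin n → ℂ))) +
      b • (Matrix.toLin' B - β • (1 : Module.End ℂ (Fin n → ℂ))) := by
    rw [hX, hξ, map_sub, map_add, map_smul, map_smul, map_smul, Matrix.toLin'_one]
    show _ = a • (Matrix.toLin' A - α • (LinearMap.id : (Fin n → ℂ) →ₗ[ℂ] (Fin n → ℂ))) +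
      b • (Matrix.toLin' B - β • (LinearMap.id : (Fin n → ℂ) →ₗ[ℂ] (Fin n → ℂ)))
    rw [smul_sub, smul_sub, smul_smul, smul_smul, add_smul]
    abel
  have hE1 : Module.End.maxGenEigenspace (Matrix.toLin' A) α = ⊤ := by
    rw [eq_top_iff, ← hE]
    exact inf_le_left
  have hE2 : Module.End.maxGenEigenspace (Matrix.toLin' B) β = ⊤ := by
    rw [eq_top_iff, ← hE]
    exact inf_le_right
  have hcomm : Commute (Matrix.toLin' A : Module.End ℂ (Fin n → ℂ)) (Matrix.toLin' B) := by
    show Matrix.toLin' A * Matrix.toLin' B = Matrix.toLin' B * Matrix.toLin' A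
    rw [Module.End.mul_eq_comp, Module.End.mul_eq_comp, ← Matrix.toLin'_mul,
      ← Matrix.toLin'_mul, hAB]
  have hnil : ∀ x, ((Matrix.toLin' (X - ξ • 1) : Module.End ℂ (Fin n → ℂ)) ^ (n + n)) x = 0 := by
    intro x
    rw [hNL]
    refine bas_nil _ _ ?_ n n x ?_ ?_
    · refine Commute.smul_left (Commute.smul_right ?_ b) a
      refine Commute.sub_left (Commute.sub_right hcomm ?_) (Commute.sub_right ?_ ?_)
      · exact Commute.smul_right (Commute.one_right _) β
      · exact Commute.smul_left (Commute.one_left _) α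
      · exact Commute.smul_left (Commute.one_left _) α
    · rw [smul_pow, LinearMap.smul_apply, one_nil _ α hE1 x, smul_zero]
    · rw [smul_pow, LinearMap.smul_apply, one_nil _ β hE2 x, smul_zero]
  have htop : gen A B v ⊔ S = ⊤ := by
    refine one_nak (Matrix.toLin' (X - ξ • 1)) (n + n) hnil _ ?_ ?_
    · intro u hu
      obtain ⟨y, hy, z, hz, rfl⟩ := Submodule.mem_sup.1 hu
      rw [Matrix.toLin'_apply, Matrix.sub_mulVec, Matrix.smul_mulVec, Matrix.one_mulVec]
      refine Submodule.sub_mem _ ?_ (Submodule.smul_mem _ _ hu)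
      rw [Matrix.mulVec_add]
      exact Submodule.add_mem_sup (hsX y hy) (hSX z hz)
    · rw [eq_top_iff, ← hw]
      refine sup_le (sup_le ?_ le_sup_right) ?_
      · exact le_sup_left.trans le_sup_left
      · rw [Submodule.span_le, Set.singleton_subset_iff]
        exact Submodule.mem_sup_left (Submodule.mem_sup_right hwS)
  have hgen : gen A B v ≤ gen X Y v := by
    obtain ⟨h1, h2⟩ := one_stab X Y hXY v
    have hA' : A = (a * d - b * c)⁻¹ • (d • X - b • Y) := by
      have h3 : d • X - b • Y = (a * d - b * c) • A := by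
        rw [hX, hY, smul_add, smul_add, smul_smul, smul_smul, smul_smul, smul_smul, sub_smul,
          mul_comm d b, mul_comm d a]
        abel
      rw [h3, smul_smul, inv_mul_cancel₀ hdet, one_smul]
    have hB' : B = (a * d - b * c)⁻¹ • (a • Y - c • X) := by
      have h3 : a • Y - c • X = (a * d - b * c) • B := by
        rw [hX, hY, smul_add, smul_add, smul_smul, smul_smul, smul_smul, smul_smul, sub_smul,
          mul_comm c a, mul_comm c b]
        abel
      rw [h3, smul_smul, inv_mul_cancel₀ hdet, one_smul]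
    refine one_min A B v _ ?_ ?_ (one_self X Y v)
    · intro u hu
      rw [hA', Matrix.smul_mulVec, Matrix.sub_mulVec, Matrix.smul_mulVec, Matrix.smul_mulVec]
      exact Submodule.smul_mem _ _ (Submodule.sub_mem _ (Submodule.smul_mem _ _ (h1 u hu))
        (Submodule.smul_mem _ _ (h2 u hu)))
    · intro u hu
      rw [hB', Matrix.smul_mulVec, Matrix.sub_mulVec, Matrix.smul_mulVec, Matrix.smul_mulVec]
      exact Submodule.smul_mem _ _ (Submodule.sub_mem _ (Submodule.smul_mem _ _ (h2 u hu))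
        (Submodule.smul_mem _ _ (h1 u hu)))
  have htop2 : gen X Y v ⊔ Submodule.span ℂ (Set.range fun i : ℕ => (X ^ i) *ᵥ w) = ⊤ := by
    rw [eq_top_iff, ← htop]
    exact sup_le_sup_right hgen _
  obtain ⟨m, k, e, W, hdetne⟩ := hPtt n X Y v w hXY htop2
  have hRd := hLoc m k W _ _ _ _ hdetne
  have hRdXY : Rd X Y := by
    refine thm_Cnj (Fin n) (Iv m k) e 1 X Y ?_
    simpa using hRd
  exact hGLt n A B a b c d hdet hRdXY

theorem thm_One (hPtt : St_Ptt) (hLoc : St_Loc) (hGLt : St_GLt) : St_One := by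
  intro n A B α β hAB hE hCu
  obtain ⟨a, b, v, hc⟩ := hCu
  rw [hE, finrank_top, top_inf_eq, Module.finrank_fintype_fun_eq_card, Fintype.card_fin] at hc
  by_cases ha : a = 0
  · by_cases hb : b = 0
    · subst ha hb
      refine one_main hPtt hLoc hGLt A B α β hAB hE 1 0 0 1 (by norm_num) v ?_
      have h1 : Matrix.toLin' ((0 : ℂ) • A + (0 : ℂ) • B - (0 * α + 0 * β) •
          (1 : Matrix (Fin n) (Fin n) ℂ)) = 0 := by
        simp
      rw [h1, LinearMap.range_zero, sup_bot_eq] at hc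
      refine hc.trans (Nat.add_le_add_right ?_ 1)
      exact Submodule.finrank_mono le_sup_left
    · exact one_main hPtt hLoc hGLt A B α β hAB hE a b 1 0 (by
        rw [ha, zero_mul, zero_sub, mul_one]
        exact neg_ne_zero.2 hb) v hc
  · exact one_main hPtt hLoc hGLt A B α β hAB hE a b 0 1 (by
      rw [mul_one, mul_zero, sub_zero]
      exact ha) v hc

end Pool.Agent.AOC
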