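import Pool.Agent.AOC.St

/-!
# AOC, module Ptt (helper13): linear algebra at the point
-/

set_option autoImplicit false

noncomputable section

namespace Pool.Agent.AOC

open Matrix Pool.Agent.CTR Pool.Agent.ANC

lemma ptt_wd_append {ι R : Type} [Fintype ι] [DecidableEq ι] [CommRing R] (x y : Matrix ι ι R)
    (w w' : List Bool) : wd x y (w ++ w') = wd x y w * wd x y w' := by
  induction w with
  | nil => simp [wd]
  | cons b w ih => simp [wd, ih, Matrix.mul_assoc]

lemma ptt_wd_true {ι R : Type} [Fintype ι] [DecidableEq ι] [CommRing R] (x y : Matrix ι ι R)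
    (i : ℕ) : wd x y (List.replicate i true) = x ^ i := by
  induction i with
  | zero => simp [wd]
  | succ i ih => simp [List.replicate_succ, wd, ih, pow_succ']

lemma ptt_wd_false {ι R : Type} [Fintype ι] [DecidableEq ι] [CommRing R] (x y : Matrix ι ι R)
    (i : ℕ) : wd x y (List.replicate i false) = y ^ i := by
  induction i with
  | zero => simp [wd]
  | succ i ih => simp [List.replicate_succ, wd, ih, pow_succ']

lemma ptt_wd {ι R : Type} [Fintype ι] [DecidableEq ι] [CommRing R] (x y : Matrix ι ι R)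
    (i j : ℕ) : wd x y (List.replicate i true ++ List.replicate j false) = x ^ i * y ^ j := by
  rw [ptt_wd_append, ptt_wd_true, ptt_wd_false]

lemma ptt_wd_reindex {ι κ R : Type} [Fintype ι] [DecidableEq ι] [Fintype κ] [DecidableEq κ]
    [CommRing R] (e : ι ≃ κ) (x y : Matrix ι ι R) (w : List Bool) :
    wd (Matrix.reindex e e x) (Matrix.reindex e e y) w = Matrix.reindex e e (wd x y w) := by
  induction w with
  | nil => simp [wd]
  | cons b w ih =>
    rw [wd, ih, wd]
    cases b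
    · simp only [Bool.false_eq_true, if_false, Matrix.reindex_apply, Matrix.submatrix_mul_equiv]
    · simp only [if_true, Matrix.reindex_apply, Matrix.submatrix_mul_equiv]

lemma ptt_pow_reindex {ι κ R : Type} [Fintype ι] [DecidableEq ι] [Fintype κ] [DecidableEq κ]
    [CommRing R] (e : ι ≃ κ) (x : Matrix ι ι R) (i : ℕ) :
    Matrix.reindex e e x ^ i = Matrix.reindex e e (x ^ i) := by
  rw [← ptt_wd_true (Matrix.reindex e e x) (Matrix.reindex e e x), ptt_wd_reindex, ptt_wd_true]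

/-- The powers of `A` modulo a stable subspace. -/
lemma ptt_pow {n : ℕ} (A : Matrix (Fin n) (Fin n) ℂ) (w : Fin n → ℂ)
    (G : Submodule ℂ (Fin n → ℂ)) (hG : G ≤ G.comap (Matrix.toLin' A)) (i : ℕ) :
    (A ^ i) *ᵥ w ∈ G ⊔ Submodule.span ℂ
      (Set.range fun b : Fin (Module.finrank ℂ ((Fin n → ℂ) ⧸ G)) => (A ^ (b : ℕ)) *ᵥ w) := by
  let T : ((Fin n → ℂ) ⧸ G) →ₗ[ℂ] ((Fin n → ℂ) ⧸ G) := G.mapQ G (Matrix.toLin' A) hG
  have hT : ∀ (i : ℕ), (T ^ i) (G.mkQ w) = G.mkQ ((A ^ i) *ᵥ w) := by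
    intro i
    induction i with
    | zero => simp
    | succ i ih =>
      rw [pow_succ', Module.End.mul_apply, ih, pow_succ', ← Matrix.mulVec_mulVec]
      rfl
  obtain ⟨P, hP⟩ : ∃ P, P = (Polynomial.X ^ i : Polynomial ℂ) %ₘ T.charpoly := ⟨_, rfl⟩
  have hdeg : P.degree < (Module.finrank ℂ ((Fin n → ℂ) ⧸ G) : ℕ) := by
    rw [← LinearMap.charpoly_natDegree T, ← Polynomial.degree_eq_natDegree
      T.charpoly_monic.ne_zero, hP]
    exact Polynomial.degree_modByMonic_lt _ T.charpoly_monic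
  have h1 : (T ^ i) (G.mkQ w) = G.mkQ (∑ b ∈ Finset.range (P.natDegree + 1),
      P.coeff b • ((A ^ b) *ᵥ w)) := by
    rw [LinearMap.pow_eq_aeval_mod_charpoly, ← hP, Polynomial.aeval_eq_sum_range,
      LinearMap.sum_apply, map_sum]
    refine Finset.sum_congr rfl fun b _ => ?_
    rw [LinearMap.smul_apply, hT, map_smul]
  rw [hT] at h1
  have h2 : (A ^ i) *ᵥ w - ∑ b ∈ Finset.range (P.natDegree + 1), P.coeff b • ((A ^ b) *ᵥ w) ∈ G := by
    rw [← Submodule.Quotient.mk_eq_zero, ← Submodule.mkQ_apply, map_sub, h1, sub_self]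
  have h3 : ∑ b ∈ Finset.range (P.natDegree + 1), P.coeff b • ((A ^ b) *ᵥ w) ∈ Submodule.span ℂ
      (Set.range fun b : Fin (Module.finrank ℂ ((Fin n → ℂ) ⧸ G)) => (A ^ (b : ℕ)) *ᵥ w) := by
    refine Submodule.sum_mem _ fun b _ => ?_
    by_cases hb : b < Module.finrank ℂ ((Fin n → ℂ) ⧸ G)
    · exact Submodule.smul_mem _ _ (Submodule.subset_span ⟨⟨b, hb⟩, rfl⟩)
    · have h4 : P.coeff b = 0 := by
        refine Polynomial.coeff_eq_zero_of_degree_lt (lt_of_lt_of_le hdeg ?_)
        exact_mod_cast not_lt.1 hb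
      rw [h4, zero_smul]
      exact Submodule.zero_mem _
  rw [← sub_add_cancel ((A ^ i) *ᵥ w)
    (∑ b ∈ Finset.range (P.natDegree + 1), P.coeff b • ((A ^ b) *ᵥ w))]
  exact Submodule.add_mem _ (Submodule.mem_sup_left h2) (Submodule.mem_sup_right h3)

theorem thm_Ptt : St_Ptt := by
  intro n A B v w _ htop
  have hstab : gen A B v ≤ (gen A B v).comap (Matrix.toLin' A) := by
    unfold gen
    rw [Submodule.span_le]
    rintro _ ⟨p, rfl⟩
    show Matrix.toLin' A ((A ^ p.1 * B ^ p.2) *ᵥ v) ∈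
      Submodule.span ℂ (Set.range fun p : ℕ × ℕ => (A ^ p.1 * B ^ p.2) *ᵥ v)
    rw [Matrix.toLin'_apply, Matrix.mulVec_mulVec, ← mul_assoc, ← pow_succ']
    exact Submodule.subset_span ⟨(p.1 + 1, p.2), rfl⟩
  obtain ⟨f, hf, hfs⟩ : ∃ f : Fin (Module.finrank ℂ (gen A B v)) → (Fin n → ℂ),
      (∀ a, ∃ p : ℕ × ℕ, (A ^ p.1 * B ^ p.2) *ᵥ v = f a) ∧
      Submodule.span ℂ (Set.range f) = gen A B v := by
    obtain ⟨f, hf, hfs, -⟩ := Submodule.exists_fun_fin_finrank_span_eq ℂ
      (Set.range fun p : ℕ × ℕ => (A ^ p.1 * B ^ p.2) *ᵥ v)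
    exact ⟨f, hf, hfs⟩
  choose p hp using hf
  have hn : n = Module.finrank ℂ (gen A B v) + Module.finrank ℂ ((Fin n → ℂ) ⧸ gen A B v) := by
    have h1 := Submodule.finrank_quotient_add_finrank (gen A B v)
    rw [Module.finrank_fintype_fun_eq_card, Fintype.card_fin] at h1
    omega
  let e : Fin n ≃ Iv (Module.finrank ℂ (gen A B v)) (Module.finrank ℂ ((Fin n → ℂ) ⧸ gen A B v)) :=
    (finCongr hn).trans finSumFinEquiv.symm
  refine ⟨Module.finrank ℂ (gen A B v), Module.finrank ℂ ((Fin n → ℂ) ⧸ gen A B v), e,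
    fun a => List.replicate (p a).1 true ++ List.replicate (p a).2 false, ?_⟩
  have hli : LinearIndependent ℂ (Sum.elim f
      (fun b : Fin (Module.finrank ℂ ((Fin n → ℂ) ⧸ gen A B v)) => (A ^ (b : ℕ)) *ᵥ w)) := by
    refine linearIndependent_of_top_le_span_of_card_eq_finrank ?_ ?_
    · rw [Set.Sum.elim_range, Submodule.span_union, hfs, ← htop]
      refine sup_le le_sup_left ?_
      rw [Submodule.span_le]
      rintro _ ⟨i, rfl⟩
      exact ptt_pow A w (gen A B v) hstab i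
    · rw [Module.finrank_fintype_fun_eq_card, Fintype.card_fin, Fintype.card_sum,
        Fintype.card_fin, Fintype.card_fin]
      exact hn.symm
  have hli2 := hli.map' (LinearEquiv.funCongrLeft ℂ ℂ e.symm).toLinearMap (LinearEquiv.ker _)
  rw [← isUnit_iff_ne_zero, ← Matrix.isUnit_iff_isUnit_det,
    ← Matrix.linearIndependent_cols_iff_isUnit]
  have hcol : (frm (fun a => List.replicate (p a).1 true ++ List.replicate (p a).2 false)
      (Matrix.reindex e e A) (Matrix.reindex e e B) (v ∘ e.symm) (w ∘ e.symm)).col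
      = (LinearEquiv.funCongrLeft ℂ ℂ e.symm).toLinearMap ∘ (Sum.elim f
      (fun b : Fin (Module.finrank ℂ ((Fin n → ℂ) ⧸ gen A B v)) => (A ^ (b : ℕ)) *ᵥ w)) := by
    funext s
    funext i
    rcases s with a | b
    · show (wd (Matrix.reindex e e A) (Matrix.reindex e e B)
        (List.replicate (p a).1 true ++ List.replicate (p a).2 false) *ᵥ (v ∘ e.symm)) i
        = f a (e.symm i)
      rw [ptt_wd_reindex, ptt_wd, Matrix.reindex_apply, Matrix.submatrix_mulVec_equiv, ← hp a]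
      simp [Function.comp_assoc]
    · show ((Matrix.reindex e e A ^ (b : ℕ)) *ᵥ (w ∘ e.symm)) i = ((A ^ (b : ℕ)) *ᵥ w) (e.symm i)
      rw [ptt_pow_reindex, Matrix.reindex_apply, Matrix.submatrix_mulVec_equiv]
      simp [Function.comp_assoc]
  rw [hcol]
  exact hli2

end Pool.Agent.AOC
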