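import Pool.Agent.AOC.St

/-!
# AOC, module RgZ (helper98): regular sequences on the rings of the normal forms
-/

set_option autoImplicit false

noncomputable section

namespace Pool.Agent.AOC

open Matrix Pool.Agent.CTR Pool.Agent.ANC

lemma rgz_arith (d : WithBot ℕ∞) (a b c t s : ℕ) (h : d + ((a : ℕ) : WithBot ℕ∞) ≤ ((b : ℕ) : WithBot ℕ∞))
    (ht : t = a + c) (hs : s = b + c) :
    d + ((t : ℕ) : WithBot ℕ∞) ≤ ((s : ℕ) : WithBot ℕ∞) := by
  subst ht hs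
  rw [Nat.cast_add, Nat.cast_add, ← add_assoc]
  gcongr

lemma rgz_arith1 (d : WithBot ℕ∞) (b c t s : ℕ) (h : d + 1 ≤ ((b : ℕ) : WithBot ℕ∞))
    (ht : t = 1 + c) (hs : s = b + c) :
    d + ((t : ℕ) : WithBot ℕ∞) ≤ ((s : ℕ) : WithBot ℕ∞) := by
  refine rgz_arith d 1 b c t s ?_ ht hs
  rw [Nat.cast_one]
  exact h

lemma rgz_arith2 (d : WithBot ℕ∞) (a b c t s : ℕ)
    (h : d + 1 + ((a : ℕ) : WithBot ℕ∞) ≤ ((b : ℕ) : WithBot ℕ∞))
    (ht : t = 1 + a + c) (hs : s = b + c) :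
    d + ((t : ℕ) : WithBot ℕ∞) ≤ ((s : ℕ) : WithBot ℕ∞) := by
  refine rgz_arith d (1 + a) b c t s ?_ ht hs
  rw [Nat.cast_add, Nat.cast_one, ← add_assoc]
  exact h

lemma rgz_card (m k h i : ℕ) (hn : h + i = m + k) :
    Fintype.card (Zv m k h i) = 2 * (m + k) ^ 2 + 2 * h ^ 2 + 4 * h + 3 * i := by
  have h1 : Fintype.card (Zv m k h i) = (m + k) * (h + i) + (h + i) * (m + k) +
      ((2 * (h * h) + 2 * h) + (2 * h + 3 * i)) := by
    simp only [Fintype.card_sum, Fintype.card_prod, Fintype.card_fin]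
  rw [h1, hn]
  ring

lemma rgz_card' (m k h i : ℕ) (hn : h + i = m + k) :
    Fintype.card (((Iv h i × Iv h i) ⊕ ((Fin h × Fin h) ⊕ Fin h)) ⊕ Unit) =
      (m + k) ^ 2 + h ^ 2 + h + 1 := by
  have h1 : Fintype.card (((Iv h i × Iv h i) ⊕ ((Fin h × Fin h) ⊕ Fin h)) ⊕ Unit) =
      ((h + i) * (h + i) + (h * h + h)) + 1 := by
    simp only [Fintype.card_sum, Fintype.card_prod, Fintype.card_fin, Fintype.card_unit]
  rw [h1, hn]
  ring

/-- Clearing denominators, one direction. -/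
lemma rgz_clear {R : Type} [CommRing R] (I : Ideal R) (θ : R) (T : Set R) (a : R)
    (h : ((algebraMap (R ⧸ I) (Localization.Away (Ideal.Quotient.mk I θ))).comp
      (Ideal.Quotient.mk I)) a ∈ Ideal.span
        (((algebraMap (R ⧸ I) (Localization.Away (Ideal.Quotient.mk I θ))).comp
          (Ideal.Quotient.mk I)) '' T)) :
    ∃ N : ℕ, θ ^ N * a ∈ I ⊔ Ideal.span T := by
  rw [← Ideal.map_span, ← Ideal.map_map, RingHom.comp_apply,
    IsLocalization.mem_map_algebraMap_iff (Submonoid.powers (Ideal.Quotient.mk I θ))] at h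
  obtain ⟨⟨b, s⟩, hb⟩ := h
  rw [← map_mul] at hb
  obtain ⟨c, hc⟩ := (IsLocalization.eq_iff_exists
    (Submonoid.powers (Ideal.Quotient.mk I θ)) _).mp hb
  obtain ⟨n, hn⟩ := c.2
  obtain ⟨l, hl⟩ := s.2
  refine ⟨n + l, ?_⟩
  have h1 : Ideal.Quotient.mk I (θ ^ (n + l) * a) ∈
      Ideal.map (Ideal.Quotient.mk I) (Ideal.span T) := by
    have h2 : Ideal.Quotient.mk I (θ ^ (n + l) * a) = (c : R ⧸ I) * (b : R ⧸ I) := by
      rw [← hc, ← hn, ← hl]
      simp only [map_mul, map_pow]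
      ring
    rw [h2]
    exact Ideal.mul_mem_left _ _ b.2
  have h3 : θ ^ (n + l) * a ∈ Ideal.comap (Ideal.Quotient.mk I)
      (Ideal.map (Ideal.Quotient.mk I) (Ideal.span T)) := h1
  rw [Ideal.comap_map_of_surjective _ Ideal.Quotient.mk_surjective] at h3
  have h4 : Ideal.comap (Ideal.Quotient.mk I) ⊥ = I := by
    rw [← RingHom.ker_eq_comap_bot, Ideal.mk_ker]
  rw [h4, sup_comm] at h3
  exact h3

/-- The other direction. -/
lemma rgz_back {R : Type} [CommRing R] (I : Ideal R) (θ : R) (T : Set R) (a : R) (N : ℕ)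
    (h : θ ^ N * a ∈ I ⊔ Ideal.span T) :
    ((algebraMap (R ⧸ I) (Localization.Away (Ideal.Quotient.mk I θ))).comp
      (Ideal.Quotient.mk I)) a ∈ Ideal.span
        (((algebraMap (R ⧸ I) (Localization.Away (Ideal.Quotient.mk I θ))).comp
          (Ideal.Quotient.mk I)) '' T) := by
  set j := (algebraMap (R ⧸ I) (Localization.Away (Ideal.Quotient.mk I θ))).comp
      (Ideal.Quotient.mk I) with hj
  have hI : Ideal.map j I = ⊥ := by
    rw [hj, ← Ideal.map_map, Ideal.map_quotient_self, Ideal.map_bot]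
  have h1 : j (θ ^ N * a) ∈ Ideal.map j (I ⊔ Ideal.span T) := Ideal.mem_map_of_mem j h
  rw [Ideal.map_sup, hI, bot_sup_eq, Ideal.map_span, map_mul, map_pow] at h1
  have hu : IsUnit (j θ) := by
    rw [hj]
    exact IsLocalization.Away.algebraMap_isUnit (Ideal.Quotient.mk I θ)
  exact (Ideal.unit_mul_mem_iff_mem _ (hu.pow N)).mp h1

theorem thm_RgZ (hDZ : St_DZ) (hCho : St_Cho) : St_RgZ := by
  intro m k W
  have hn : ∀ i : Fin k, (m + k - ((i : ℕ) + 1)) + ((i : ℕ) + 1) = m + k := fun i => by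
    have := i.2
    omega
  obtain ⟨g, hg⟩ := hCho k (fun i => Zv m k (m + k - ((i : ℕ) + 1)) ((i : ℕ) + 1))
    (fun i => ((Iv (m + k - ((i : ℕ) + 1)) ((i : ℕ) + 1) × Iv (m + k - ((i : ℕ) + 1)) ((i : ℕ) + 1)) ⊕
      ((Fin (m + k - ((i : ℕ) + 1)) × Fin (m + k - ((i : ℕ) + 1))) ⊕
        Fin (m + k - ((i : ℕ) + 1)))) ⊕ Unit)
    (fun i => Sum.elim (eqZ m k (m + k - ((i : ℕ) + 1)) ((i : ℕ) + 1))
      (fun _ => dZ m k (m + k - ((i : ℕ) + 1)) ((i : ℕ) + 1)))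
    (fun i => thZ m k (m + k - ((i : ℕ) + 1)) ((i : ℕ) + 1) W)
    (fun i => gZ m k (m + k - ((i : ℕ) + 1)) ((i : ℕ) + 1))
    (by
      intro i P hP hf hθ
      have hIZ : IZ m k (m + k - ((i : ℕ) + 1)) ((i : ℕ) + 1) ≤ P := by
        rw [IZ, Ideal.span_le]
        rintro _ ⟨t, rfl⟩
        exact hf (Sum.inl t)
      have h1 := (hDZ m k (m + k - ((i : ℕ) + 1)) ((i : ℕ) + 1) W (Nat.succ_pos _) (hn i) P hIZ
        (hf (Sum.inr ()))).1
      refine rgz_arith1 _ _ ((m + k) ^ 2 + (m + k - ((i : ℕ) + 1)) ^ 2 +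
        (m + k - ((i : ℕ) + 1))) _ _ h1 ?_ ?_
      · rw [rgz_card' m k _ _ (hn i)]
        ring
      · rw [rgz_card m k _ _ (hn i)]
        ring)
    (by
      intro i P hP hf hγ hθ
      have hIZ : IZ m k (m + k - ((i : ℕ) + 1)) ((i : ℕ) + 1) ≤ P := by
        rw [IZ, Ideal.span_le]
        rintro _ ⟨t, rfl⟩
        exact hf (Sum.inl t)
      have h1 := (hDZ m k (m + k - ((i : ℕ) + 1)) ((i : ℕ) + 1) W (Nat.succ_pos _) (hn i) P hIZ
        (hf (Sum.inr ()))).2 hγ hθ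
      refine rgz_arith2 _ _ _ ((m + k) ^ 2 + (m + k - ((i : ℕ) + 1)) ^ 2 +
        (m + k - ((i : ℕ) + 1))) _ _ h1 ?_ ?_
      · rw [rgz_card' m k _ _ (hn i)]
        ring
      · rw [rgz_card m k _ _ (hn i)]
        ring)
  refine ⟨g, ?_⟩
  intro h i hi hik hh s hs q hq
  obtain ⟨i', rfl⟩ : ∃ i', i = i' + 1 := ⟨i - 1, by omega⟩
  obtain rfl : h = m + k - (i' + 1) := by omega
  have key := hg ⟨i', by omega⟩ s (by show s ≤ i'; omega)
  -- the two ideals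
  set I := IZ m k (m + k - (i' + 1)) (i' + 1) with hI
  set θ := thZ m k (m + k - (i' + 1)) (i' + 1) W with hθ
  set T : Set (RZ m k (m + k - (i' + 1)) (i' + 1)) :=
    {dZ m k (m + k - (i' + 1)) (i' + 1)} ∪ {r | ∃ s' < s, r = ∑ b, MvPolynomial.C (g s' b) *
      gZ m k (m + k - (i' + 1)) (i' + 1) b} with hT
  have hTT : ({jz m k (m + k - (i' + 1)) (i' + 1) W (dZ m k (m + k - (i' + 1)) (i' + 1))} ∪
      {r | ∃ s' < s, r = jz m k (m + k - (i' + 1)) (i' + 1) W (∑ b, MvPolynomial.C (g s' b) *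
        gZ m k (m + k - (i' + 1)) (i' + 1) b)} :
        Set (QZ m k (m + k - (i' + 1)) (i' + 1) W)) =
      jz m k (m + k - (i' + 1)) (i' + 1) W '' T := by
    rw [hT, Set.image_union, Set.image_singleton]
    congr 1
    ext r
    constructor
    · rintro ⟨s', hs', rfl⟩
      exact ⟨_, ⟨s', hs', rfl⟩, rfl⟩
    · rintro ⟨_, ⟨s', hs', rfl⟩, rfl⟩
      exact ⟨s', hs', rfl⟩
  rw [hTT] at hq ⊢
  have hJ : Ideal.span (Set.range (Sum.elim (eqZ m k (m + k - (i' + 1)) (i' + 1))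
      (fun _ : Unit => dZ m k (m + k - (i' + 1)) (i' + 1))) ∪
      {r | ∃ s' < s, r = ∑ b, MvPolynomial.C (g s' b) *
        gZ m k (m + k - (i' + 1)) (i' + 1) b}) = I ⊔ Ideal.span T := by
    rw [Set.Sum.elim_range, hI, IZ, ← Ideal.span_union, hT, Set.range_const, Set.union_assoc]
  have key' : ∀ q : RZ m k (m + k - (i' + 1)) (i' + 1),
      (∑ b, MvPolynomial.C (g s b) * gZ m k (m + k - (i' + 1)) (i' + 1) b) * q ∈
        I ⊔ Ideal.span T → ∃ N : ℕ, θ ^ N * q ∈ I ⊔ Ideal.span T := by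
    intro q hq
    rw [← hJ] at hq ⊢
    exact key q hq
  obtain ⟨⟨a0, t⟩, ha⟩ := IsLocalization.surj (Submonoid.powers (Ideal.Quotient.mk I θ)) q
  obtain ⟨a, rfl⟩ := Ideal.Quotient.mk_surjective a0
  obtain ⟨n, hn'⟩ := t.2
  have ha' : q * jz m k (m + k - (i' + 1)) (i' + 1) W (θ ^ n) =
      jz m k (m + k - (i' + 1)) (i' + 1) W a := by
    have h1 : jz m k (m + k - (i' + 1)) (i' + 1) W (θ ^ n) =
        algebraMap _ (QZ m k (m + k - (i' + 1)) (i' + 1) W) (t : _ ⧸ I) := by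
      rw [← hn', jz, RingHom.comp_apply, map_pow]
    rw [h1]
    exact ha
  have h2 : jz m k (m + k - (i' + 1)) (i' + 1) W
      ((∑ b, MvPolynomial.C (g s b) * gZ m k (m + k - (i' + 1)) (i' + 1) b) * a) ∈
      Ideal.span (jz m k (m + k - (i' + 1)) (i' + 1) W '' T) := by
    rw [map_mul, ← ha', ← mul_assoc]
    exact Ideal.mul_mem_right _ _ hq
  obtain ⟨N, hN⟩ := rgz_clear I θ T _ h2
  rw [mul_left_comm] at hN
  obtain ⟨N', hN'⟩ := key' _ hN
  rw [← mul_assoc, ← pow_add] at hN'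
  have h3 := rgz_back I θ T a (N' + N) hN'
  change jz m k (m + k - (i' + 1)) (i' + 1) W a ∈
    Ideal.span (jz m k (m + k - (i' + 1)) (i' + 1) W '' T) at h3
  rw [← ha'] at h3
  have hu : IsUnit (jz m k (m + k - (i' + 1)) (i' + 1) W (θ ^ n)) := by
    rw [map_pow]
    exact IsUnit.pow n (IsLocalization.Away.algebraMap_isUnit (Ideal.Quotient.mk I θ))
  exact (Ideal.mul_unit_mem_iff_mem _ hu).mp h3

end Pool.Agent.AOC
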