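import Pool.Agent.AOC.St

/-!
# AOC, module Rtr: the exterior powers are retracts of the rings of the normal forms
-/

set_option autoImplicit false

noncomputable section

namespace Pool.Agent.AOC

open Matrix Pool.Agent.CTR Pool.Agent.ANC

/-! ### functoriality -/

section functor

variable {R T : Type} [CommRing R] [CommRing T] (f : R →+* T)

theorem rtr_AC {ι : Type} [Fintype ι] {x y : Matrix ι ι R} {v j : ι → R} (h : AC x y v j) :
    AC (x.map f) (y.map f) (f ∘ v) (f ∘ j) := by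
  unfold AC at h ⊢
  have h1 : (x * y - y * x + vecMulVec v j).map f = 0 := by
    rw [h]
    ext i k
    simp
  rw [← h1]
  ext i k
  simp [Matrix.mul_apply, vecMulVec_apply, Matrix.map_apply]

theorem rtr_wd {ι : Type} [Fintype ι] [DecidableEq ι] (x y : Matrix ι ι R) (w : List Bool) :
    (wd x y w).map f = wd (x.map f) (y.map f) w := by
  induction w with
  | nil =>
    simp [wd]
  | cons b w ih =>
    rw [wd, wd, Matrix.map_mul, ih]
    congr 1
    cases b <;> rfl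

theorem rtr_pow {ι : Type} [Fintype ι] [DecidableEq ι] (M : Matrix ι ι R) (n : ℕ) :
    (M ^ n).map f = (M.map f) ^ n :=
  map_pow f.mapMatrix M n

theorem rtr_mulVec {ι κ : Type} [Fintype ι] (M : Matrix κ ι R) (v : ι → R) :
    f ∘ (M *ᵥ v) = M.map f *ᵥ (f ∘ v) := by
  ext i
  exact RingHom.map_mulVec f M v i

theorem rtr_vecMul {ι κ : Type} [Fintype ι] (M : Matrix ι κ R) (v : ι → R) :
    f ∘ (v ᵥ* M) = (f ∘ v) ᵥ* M.map f := by
  ext i
  exact RingHom.map_vecMul f M v i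

theorem rtr_frm {m k : ℕ} (W : Fin m → List Bool) (x y : Matrix (Iv m k) (Iv m k) R)
    (v w : Iv m k → R) :
    (frm W x y v w).map f = frm W (x.map f) (y.map f) (f ∘ v) (f ∘ w) := by
  ext i s
  rcases s with a | a
  · show f ((wd x y (W a) *ᵥ v) i) = (wd (x.map f) (y.map f) (W a) *ᵥ (f ∘ v)) i
    rw [← rtr_wd, RingHom.map_mulVec]
  · show f (((x ^ (a : ℕ)) *ᵥ w) i) = (((x.map f) ^ (a : ℕ)) *ᵥ (f ∘ w)) i
    rw [← rtr_pow, RingHom.map_mulVec]

theorem rtr_dsx {ι : Type} [Fintype ι] [DecidableEq ι] (n : ℕ) (A : Matrix ι ι R) :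
    f (dsx n A) = dsx n (A.map f) := by
  unfold dsx
  rw [RingHom.map_det]
  congr 1
  ext a b
  show f ((A ^ ((a : ℕ) + b)).trace) = ((A.map f) ^ ((a : ℕ) + b)).trace
  rw [← rtr_pow]
  simp [Matrix.trace, map_sum]

theorem rtr_cp {i : ℕ} (p : Fin i → R) : (cp p).map f = cp (f ∘ p) := by
  ext a b
  simp only [Matrix.map_apply, cp, Function.comp_apply]
  split_ifs
  · exact map_neg f _
  · exact map_one f
  · exact map_zero f

theorem rtr_e0 {i : ℕ} : f ∘ (e0 : Fin i → R) = e0 := by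
  ext b
  simp only [Function.comp_apply, e0]
  split_ifs
  · exact map_one f
  · exact map_zero f

theorem rtr_smulpow {ι : Type} [Fintype ι] [DecidableEq ι] (a : R) (M : Matrix ι ι R) (n : ℕ) :
    (a • M ^ n).map f = f a • (M.map f) ^ n := by
  rw [← rtr_pow]
  ext s t
  simp

theorem rtr_re {ι : Type} [Fintype ι] [DecidableEq ι] {i : ℕ} (r : Fin i → R)
    (x : Matrix ι ι R) : (re r x).map f = re (f ∘ r) (x.map f) := by
  unfold re
  have h1 : (∑ b : Fin i, r b • x ^ (b : ℕ)).map f = ∑ b : Fin i, (r b • x ^ (b : ℕ)).map f :=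
    map_sum f.mapMatrix _ _
  rw [h1]
  exact Finset.sum_congr rfl fun b _ => rtr_smulpow f _ _ _

theorem rtr_pe {ι : Type} [Fintype ι] [DecidableEq ι] {i : ℕ} (p : Fin i → R)
    (x : Matrix ι ι R) : (pe p x).map f = pe (f ∘ p) (x.map f) := by
  have h1 : (pe p x).map f = (x ^ i).map f + (re p x).map f := map_add f.mapMatrix _ _
  rw [h1, rtr_re, rtr_pow]
  rfl

theorem rtr_qe {ι : Type} [Fintype ι] [DecidableEq ι] {i : ℕ} (p c : Fin i → R)
    (x : Matrix ι ι R) : (qe p c x).map f = qe (f ∘ p) (f ∘ c) (x.map f) := by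
  unfold qe
  have h1 : ∀ g : Fin i → Matrix ι ι R, (∑ b, g b).map f = ∑ b, (g b).map f :=
    fun g => map_sum f.mapMatrix _ _
  rw [h1]
  refine Finset.sum_congr rfl fun u _ => ?_
  have h2 : ∀ (a : R) (M : Matrix ι ι R), (a • M).map f = f a • M.map f := by
    intro a M
    ext s t
    simp
  have h3 : ∀ M N : Matrix ι ι R, (M + N).map f = M.map f + N.map f :=
    fun M N => map_add f.mapMatrix _ _
  rw [h2, h3, h1, rtr_pow]
  congr 2
  refine Finset.sum_congr rfl fun l _ => ?_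
  split_ifs
  · exact rtr_smulpow f _ _ _
  · exact map_zero f.mapMatrix

theorem rtr_hx {h i : ℕ} (xH : Matrix (Fin h) (Fin h) R) (a : Fin h → R) (p : Fin i → R) :
    (hx xH a p).map f = hx (xH.map f) (f ∘ a) (f ∘ p) := by
  ext s t
  rcases s with s | s <;> rcases t with t | t
  · rfl
  · show f (if (t : ℕ) + 1 = i then a s else 0) = if (t : ℕ) + 1 = i then (f ∘ a) s else 0
    split_ifs
    · rfl
    · exact map_zero f
  · exact map_zero f
  · exact congrFun (congrFun (rtr_cp f p) s) t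

theorem rtr_hv {h : ℕ} (i : ℕ) (vH : Fin h → R) : f ∘ hv i vH = hv i (f ∘ vH) := by
  ext s
  rcases s with s | s
  · rfl
  · exact map_zero f

theorem rtr_hw (h i : ℕ) : f ∘ hw h i R = hw h i T := by
  ext s
  rcases s with s | s
  · exact map_zero f
  · exact congrFun (rtr_e0 f) s

theorem rtr_hj {h i : ℕ} (jH : Fin h → R) (c : Fin i → R) :
    f ∘ (hj jH c : Iv h i → R) = hj (f ∘ jH) (f ∘ c) := by
  ext s
  rcases s with s | s <;> rfl

theorem rtr_elim {h i : ℕ} (a : Fin h → R) (c : Fin i → R) :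
    f ∘ (Sum.elim a c : Iv h i → R) = Sum.elim (f ∘ a) (f ∘ c) := by
  ext s
  rcases s with s | s <;> rfl

theorem rtr_hy {h i : ℕ} (xH yH : Matrix (Fin h) (Fin h) R) (vH a b : Fin h → R)
    (p r c : Fin i → R) : (hy xH yH vH a b p r c).map f =
      hy (xH.map f) (yH.map f) (f ∘ vH) (f ∘ a) (f ∘ b) (f ∘ p) (f ∘ r) (f ∘ c) := by
  ext s t
  rcases t with t | t
  · rcases s with s | s
    · rfl
    · exact map_zero f
  · show f (((hx xH a p ^ (t : ℕ)) *ᵥ Sum.elim b r) s + ∑ l : Fin i, if (l : ℕ) < t then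
        c l * ((hx xH a p ^ ((t : ℕ) - 1 - l)) *ᵥ hv i vH) s else 0) =
      ((hx (xH.map f) (f ∘ a) (f ∘ p) ^ (t : ℕ)) *ᵥ Sum.elim (f ∘ b) (f ∘ r)) s +
      ∑ l : Fin i, if (l : ℕ) < t then
        f (c l) * ((hx (xH.map f) (f ∘ a) (f ∘ p) ^ ((t : ℕ) - 1 - l)) *ᵥ hv i (f ∘ vH)) s else 0
    rw [map_add, RingHom.map_mulVec, rtr_pow, rtr_hx, rtr_elim, map_sum]
    congr 1
    refine Finset.sum_congr rfl fun l _ => ?_
    split_ifs
    · rw [map_mul, RingHom.map_mulVec, rtr_pow, rtr_hx, rtr_hv]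
    · exact map_zero f

theorem rtr_E3 {h i : ℕ} {xH yH : Matrix (Fin h) (Fin h) R} {vH a b : Fin h → R}
    {p r c : Fin i → R} (H : E3 xH yH vH a b p r c) :
    E3 (xH.map f) (yH.map f) (f ∘ vH) (f ∘ a) (f ∘ b) (f ∘ p) (f ∘ r) (f ∘ c) := by
  unfold E3 at H ⊢
  rw [← rtr_pe, ← rtr_re, ← rtr_qe, ← rtr_mulVec, ← rtr_mulVec, ← rtr_mulVec, ← rtr_mulVec]
  ext s
  have h1 := congrArg f (congrFun H s)
  simp only [Pi.add_apply, Pi.sub_apply, map_add, map_sub, Pi.zero_apply, map_zero] at h1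
  exact h1

theorem rtr_Pm (k : ℕ) {i : ℕ} (p : Fin i → R) : (Pm k p).map f = Pm k (f ∘ p) := by
  ext b c
  show f (((cp p ^ (c : ℕ)) *ᵥ e0) b) = ((cp (f ∘ p) ^ (c : ℕ)) *ᵥ e0) b
  rw [RingHom.map_mulVec, rtr_pow, rtr_cp, rtr_e0]

theorem rtr_pim {m k i : ℕ} (F' : Matrix (Iv m k) (Iv m k) R) (p : Fin i → R) :
    (pim F' p).map f = pim (F'.map f) (f ∘ p) := by
  unfold pim
  rw [Matrix.map_mul, rtr_Pm, Matrix.submatrix_map]

end functor

/-! ### the first block and conjugation -/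

section block

variable {R : Type} [CommRing R] {h i : ℕ}

theorem rtr_hx0 (xH : Matrix (Fin h) (Fin h) R) (a : Fin h → R) (p : Fin i → R)
    (z : Iv h i → R) (hz : ∀ b, z (Sum.inr b) = 0) (b : Fin i) :
    (hx xH a p *ᵥ z) (Sum.inr b) = 0 := by
  simp only [Matrix.mulVec, dotProduct, Fintype.sum_sum_type, hz, mul_zero,
    Finset.sum_const_zero, add_zero]
  exact Finset.sum_eq_zero fun t _ => zero_mul _

theorem rtr_hy0 (xH yH : Matrix (Fin h) (Fin h) R) (vH a b : Fin h → R) (p r c : Fin i → R)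
    (z : Iv h i → R) (hz : ∀ b, z (Sum.inr b) = 0) (d : Fin i) :
    (hy xH yH vH a b p r c *ᵥ z) (Sum.inr d) = 0 := by
  simp only [Matrix.mulVec, dotProduct, Fintype.sum_sum_type, hz, mul_zero,
    Finset.sum_const_zero, add_zero]
  exact Finset.sum_eq_zero fun t _ => zero_mul _

theorem rtr_wd0 (X Y : Matrix (Iv h i) (Iv h i) R)
    (hX : ∀ z : Iv h i → R, (∀ b, z (Sum.inr b) = 0) → ∀ b, (X *ᵥ z) (Sum.inr b) = 0)
    (hY : ∀ z : Iv h i → R, (∀ b, z (Sum.inr b) = 0) → ∀ b, (Y *ᵥ z) (Sum.inr b) = 0)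
    (W : List Bool) (z : Iv h i → R) (hz : ∀ b, z (Sum.inr b) = 0) :
    ∀ b, (wd X Y W *ᵥ z) (Sum.inr b) = 0 := by
  induction W with
  | nil =>
    rw [wd, Matrix.one_mulVec]
    exact hz
  | cons a w ih =>
    rw [wd, ← Matrix.mulVec_mulVec]
    cases a
    · exact hY _ ih
    · exact hX _ ih

end block

section conj

variable {R : Type} [CommRing R] {κ ι : Type} [Fintype κ] [Fintype ι] [DecidableEq κ]
  [DecidableEq ι] (g : Matrix κ ι R) (g' : Matrix ι κ R) (h1 : g' * g = 1) (h2 : g * g' = 1)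

omit [DecidableEq κ] in
include h1 in
theorem rtr_cmul (X Y : Matrix ι ι R) : (g * X * g') * (g * Y * g') = g * (X * Y) * g' := by
  calc (g * X * g') * (g * Y * g') = g * X * (g' * g) * (Y * g') := by
        simp only [Matrix.mul_assoc]
    _ = g * (X * Y) * g' := by rw [h1, Matrix.mul_one]; simp only [Matrix.mul_assoc]

include h1 h2 in
theorem rtr_cpow (X : Matrix ι ι R) (n : ℕ) : (g * X * g') ^ n = g * X ^ n * g' := by
  induction n with
  | zero => rw [pow_zero, pow_zero, Matrix.mul_one, h2]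
  | succ n ih => rw [pow_succ, ih, rtr_cmul g g' h1, ← pow_succ]

include h1 h2 in
theorem rtr_cwd (X Y : Matrix ι ι R) (W : List Bool) :
    wd (g * X * g') (g * Y * g') W = g * wd X Y W * g' := by
  induction W with
  | nil => rw [wd, wd, Matrix.mul_one, h2]
  | cons a w ih =>
    rw [wd, wd, ih]
    cases a
    · exact rtr_cmul g g' h1 _ _
    · exact rtr_cmul g g' h1 _ _

omit [DecidableEq κ] in
include h1 in
theorem rtr_cvec (X : Matrix ι ι R) (z : ι → R) : (g * X * g') *ᵥ (g *ᵥ z) = g *ᵥ (X *ᵥ z) := by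
  rw [Matrix.mulVec_mulVec, Matrix.mul_assoc, h1, Matrix.mul_one, Matrix.mulVec_mulVec]

omit [DecidableEq κ] in
include h1 in
theorem rtr_cAC {X Y : Matrix ι ι R} {v j : ι → R} (h : AC X Y v j) :
    AC (g * X * g') (g * Y * g') (g *ᵥ v) (j ᵥ* g') := by
  unfold AC at h ⊢
  rw [rtr_cmul g g' h1, rtr_cmul g g' h1, ← Matrix.vecMulVec_mul, ← Matrix.mul_vecMulVec,
    ← Matrix.sub_mul, ← Matrix.add_mul, ← Matrix.mul_sub, ← Matrix.mul_add, h, Matrix.mul_zero,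
    Matrix.zero_mul]

include h1 h2 in
theorem rtr_cdsx (n : ℕ) (X : Matrix ι ι R) : dsx n (g * X * g') = dsx n X := by
  unfold dsx
  congr 1
  ext a b
  show ((g * X * g') ^ ((a : ℕ) + b)).trace = (X ^ ((a : ℕ) + b)).trace
  rw [rtr_cpow g g' h1 h2, Matrix.trace_mul_comm, ← Matrix.mul_assoc, h1, Matrix.one_mul]

omit [DecidableEq κ] in
include h1 in
theorem rtr_cdot (j z : ι → R) : (j ᵥ* g') ⬝ᵥ (g *ᵥ z) = j ⬝ᵥ z := by
  rw [← Matrix.dotProduct_mulVec, Matrix.mulVec_mulVec, h1, Matrix.one_mulVec]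

end conj

/-! ### homomorphisms from the polynomial rings -/

theorem rtr_kW (m k : ℕ) {T : Type} [CommRing T] (ρ : ℂ →+* T) (x y : Matrix (Iv m k) (Iv m k) T)
    (v j w : Iv m k → T) :
    ∃ κ : RW m k →+* T, (∀ r, κ (MvPolynomial.C r) = ρ r) ∧ (wM m k 0).map κ = x ∧
      (wM m k 1).map κ = y ∧ κ ∘ wV m k 0 = v ∧ κ ∘ wV m k 1 = j ∧ κ ∘ wV m k 2 = w := by
  refine ⟨MvPolynomial.eval₂Hom ρ (Sum.elim
    (fun t => (![x, y] : Fin 2 → Matrix (Iv m k) (Iv m k) T) t.1 t.2.1 t.2.2)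
    (fun t => (![v, j, w] : Fin 3 → Iv m k → T) t.1 t.2)),
    fun r => MvPolynomial.eval₂Hom_C _ _ _, ?_, ?_, ?_, ?_, ?_⟩
  · ext i k
    exact MvPolynomial.eval₂Hom_X' _ _ _
  · ext i k
    exact MvPolynomial.eval₂Hom_X' _ _ _
  · ext i
    exact MvPolynomial.eval₂Hom_X' _ _ _
  · ext i
    exact MvPolynomial.eval₂Hom_X' _ _ _
  · ext i
    exact MvPolynomial.eval₂Hom_X' _ _ _

theorem rtr_extW (m k : ℕ) {T : Type} [CommRing T] (f g : RW m k →+* T)
    (h0 : ∀ r, f (MvPolynomial.C r) = g (MvPolynomial.C r))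
    (h1 : (wM m k 0).map f = (wM m k 0).map g) (h2 : (wM m k 1).map f = (wM m k 1).map g)
    (h3 : f ∘ wV m k 0 = g ∘ wV m k 0) (h4 : f ∘ wV m k 1 = g ∘ wV m k 1)
    (h5 : f ∘ wV m k 2 = g ∘ wV m k 2) : f = g := by
  refine MvPolynomial.ringHom_ext h0 fun t => ?_
  rcases t with ⟨s, i, l⟩ | ⟨s, i⟩
  · fin_cases s
    · exact congrFun (congrFun h1 i) l
    · exact congrFun (congrFun h2 i) l
  · fin_cases s
    · exact congrFun h3 i
    · exact congrFun h4 i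
    · exact congrFun h5 i

theorem rtr_kZ (m k h i : ℕ) {T : Type} [CommRing T] (ρ : ℂ →+* T)
    (g : Matrix (Iv m k) (Iv h i) T) (g' : Matrix (Iv h i) (Iv m k) T)
    (xH yH : Matrix (Fin h) (Fin h) T) (vH jH a b : Fin h → T) (p r c : Fin i → T) :
    ∃ κ : RZ m k h i →+* T, (∀ r, κ (MvPolynomial.C r) = ρ r) ∧ (zg m k h i).map κ = g ∧
      (zg' m k h i).map κ = g' ∧ (zM m k h i 0).map κ = xH ∧ (zM m k h i 1).map κ = yH ∧
      κ ∘ zV m k h i 0 = vH ∧ κ ∘ zV m k h i 1 = jH ∧ κ ∘ zA m k h i 0 = a ∧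
      κ ∘ zA m k h i 1 = b ∧ κ ∘ zP m k h i 0 = p ∧ κ ∘ zP m k h i 1 = r ∧
      κ ∘ zP m k h i 2 = c := by
  refine ⟨MvPolynomial.eval₂Hom ρ (Sum.elim (Sum.elim (fun t => g t.1 t.2) (fun t => g' t.1 t.2))
    (coY xH yH vH jH a b p r c)), fun r => MvPolynomial.eval₂Hom_C _ _ _,
    ?_, ?_, ?_, ?_, ?_, ?_, ?_, ?_, ?_, ?_, ?_⟩
  · ext s t
    exact MvPolynomial.eval₂Hom_X' _ _ _
  · ext s t
    exact MvPolynomial.eval₂Hom_X' _ _ _
  · ext s t
    exact MvPolynomial.eval₂Hom_X' _ _ _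
  · ext s t
    exact MvPolynomial.eval₂Hom_X' _ _ _
  · ext s
    exact MvPolynomial.eval₂Hom_X' _ _ _
  · ext s
    exact MvPolynomial.eval₂Hom_X' _ _ _
  · ext s
    exact MvPolynomial.eval₂Hom_X' _ _ _
  · ext s
    exact MvPolynomial.eval₂Hom_X' _ _ _
  · ext s
    exact MvPolynomial.eval₂Hom_X' _ _ _
  · ext s
    exact MvPolynomial.eval₂Hom_X' _ _ _
  · ext s
    exact MvPolynomial.eval₂Hom_X' _ _ _

/-! ### the map from the exterior power -/

theorem rtr_u {m k h i : ℕ} {S Q : Type} [CommRing S] [CommRing Q]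
    (x y : Matrix (Iv m k) (Iv m k) S) (v : Iv m k → S) (φ : S →+* Q)
    (G : Matrix (Iv m k) (Iv h i) Q) (G' : Matrix (Iv h i) (Iv m k) Q)
    (X Y : Matrix (Iv h i) (Iv h i) Q) (V : Iv h i → Q) (h1 : G' * G = 1) (h2 : G * G' = 1)
    (hX : ∀ z : Iv h i → Q, (∀ b, z (Sum.inr b) = 0) → ∀ b, (X *ᵥ z) (Sum.inr b) = 0)
    (hY : ∀ z : Iv h i → Q, (∀ b, z (Sum.inr b) = 0) → ∀ b, (Y *ᵥ z) (Sum.inr b) = 0)
    (hV : ∀ b, V (Sum.inr b) = 0) (ex : x.map φ = G * X * G') (ey : y.map φ = G * Y * G')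
    (ev : φ ∘ v = G *ᵥ V) :
    ∃ u : (⋀[S]^i (NV x y v)) →+ Q, (∀ a z, u (a • z) = φ a * u z) ∧
      ∀ z : Fin i → Iv m k → S,
        u (exteriorPower.ιMulti S i fun s => Submodule.Quotient.mk (z s)) =
        Matrix.det (Matrix.of fun s b => (G' *ᵥ (φ ∘ z s)) (Sum.inr b)) := by
  let : Algebra S Q := φ.toAlgebra
  have hsm : ∀ (a : S) (q : Q), a • q = φ a * q := fun a q => rfl
  let θ₀ : (Iv m k → S) →ₗ[S] (Fin i → Q) :=
    { toFun := fun u b => (G' *ᵥ (φ ∘ u)) (Sum.inr b)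
      map_add' := fun u u' => by
        ext b
        have e : φ ∘ (u + u') = φ ∘ u + φ ∘ u' := by
          ext l
          exact map_add φ _ _
        rw [e, Matrix.mulVec_add]
        rfl
      map_smul' := fun a u => by
        ext b
        have e : φ ∘ (a • u) = φ a • (φ ∘ u) := by
          ext l
          exact map_mul φ _ _
        rw [e, Matrix.mulVec_smul]
        rfl }
  have hker : AV x y v ≤ LinearMap.ker θ₀ := by
    unfold AV
    rw [Submodule.span_le]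
    rintro _ ⟨w, rfl⟩
    rw [SetLike.mem_coe, LinearMap.mem_ker]
    ext b
    show (G' *ᵥ (φ ∘ (wd x y w *ᵥ v))) (Sum.inr b) = 0
    rw [rtr_mulVec, rtr_wd, ex, ey, ev, rtr_cwd G G' h1 h2, rtr_cvec G G' h1,
      Matrix.mulVec_mulVec, h1, Matrix.one_mulVec]
    exact rtr_wd0 X Y hX hY w V hV b
  let θ : NV x y v →ₗ[S] (Fin i → Q) := (AV x y v).liftQ θ₀ hker
  let D : (Fin i → Q) [⋀^Fin i]→ₗ[S] Q :=
    { (Matrix.detRowAlternating : (Fin i → Q) [⋀^Fin i]→ₗ[Q] Q).toMultilinearMap.restrictScalars S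
      with
      map_eq_zero_of_eq' := fun w a b hw hab =>
        (Matrix.detRowAlternating : (Fin i → Q) [⋀^Fin i]→ₗ[Q] Q).map_eq_zero_of_eq w hw hab }
  refine ⟨(exteriorPower.alternatingMapLinearEquiv (D.compLinearMap θ)).toAddMonoidHom, ?_, ?_⟩
  · intro a z
    exact map_smul (exteriorPower.alternatingMapLinearEquiv (D.compLinearMap θ)) a z
  · intro z
    exact exteriorPower.alternatingMapLinearEquiv_apply_ιMulti (D.compLinearMap θ) _

/-! ### the map to the exterior power -/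

theorem rtr_s {i : ℕ} {S Q N : Type} [CommRing S] [CommRing Q] [AddCommGroup N] [Module S N]
    (I : Ideal (MvPolynomial (Fin i) S)) (κ : MvPolynomial (Fin i) S →ₗ[S] N)
    (hκ : ∀ f ∈ I, κ f = 0) (φ : S →+* Q) (ρ : Q →+* MvPolynomial (Fin i) S ⧸ I)
    (hρ : ∀ a, ρ (φ a) = Ideal.Quotient.mk I (MvPolynomial.C a)) :
    ∃ s : Q →+ N, (∀ a q, s (φ a * q) = a • s q) ∧
      ∀ q f, ρ q = Ideal.Quotient.mk I f → s q = κ f := by
  have h0 : ∀ q, ∃ f, Ideal.Quotient.mk I f = ρ q := fun q => Ideal.Quotient.mk_surjective _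
  choose F hF using h0
  have key : ∀ q f, ρ q = Ideal.Quotient.mk I f → κ (F q) = κ f := by
    intro q f h
    have h1 : F q - f ∈ I := by
      rw [← Ideal.Quotient.eq_zero_iff_mem, map_sub, hF, h, sub_self]
    have h2 := hκ _ h1
    rw [map_sub, sub_eq_zero] at h2
    exact h2
  refine ⟨AddMonoidHom.mk' (fun q => κ (F q)) fun q q' => ?_, fun a q => ?_, fun q f h => key q f h⟩
  · show κ (F (q + q')) = κ (F q) + κ (F q')
    rw [← map_add]
    exact key _ _ (by rw [map_add, map_add, hF, hF])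
  · show κ (F (φ a * q)) = a • κ (F q)
    rw [← map_smul]
    exact key _ _ (by rw [map_mul, hρ, MvPolynomial.smul_eq_C_mul, map_mul, hF])

/-! ### the relations over the quotient -/

theorem rtr_mm {α β γ : Type} [Fintype β] {R T : Type} [CommRing R] [CommRing T] (f : R →+* T)
    (A : Matrix α β R) (B : Matrix β γ R) (s : α) (t : γ) :
    f ((A * B) s t) = (A.map f * B.map f) s t :=
  RingHom.map_matrix_mul A B s t f

theorem rtr_rel {m k i : ℕ} {S : Type} [CommRing S] (x y : Matrix (Iv m k) (Iv m k) S)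
    (v w : Iv m k → S) (F' : Matrix (Iv m k) (Iv m k) S) {T : Type} [CommRing T]
    (f : MvPolynomial (Fin i) S →+* T) (hf : ∀ r ∈ rI i x y v w F', f r = 0) :
    (pX i F').map f * x.map (f.comp MvPolynomial.C) =
      cp (f ∘ MvPolynomial.X) * (pX i F').map f ∧
    (pX i F').map f * y.map (f.comp MvPolynomial.C) =
      re ((pX i F').map f *ᵥ (y.map (f.comp MvPolynomial.C) *ᵥ (f.comp MvPolynomial.C ∘ w)))
        (cp (f ∘ MvPolynomial.X)) * (pX i F').map f ∧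
    (pX i F').map f *ᵥ (f.comp MvPolynomial.C ∘ v) = 0 := by
  refine ⟨?_, ?_, ?_⟩
  · ext b l
    have h1 := hf _ (Ideal.subset_span (Or.inl (Or.inl ⟨b, l, rfl⟩)))
    rw [map_sub, sub_eq_zero] at h1
    have e1 := rtr_mm f (pX i F') (x.map (MvPolynomial.C : S →+* MvPolynomial (Fin i) S)) b l
    have e2 := rtr_mm f (cp MvPolynomial.X) (pX i F') b l
    rw [rtr_cp] at e2
    exact e1.symm.trans (h1.trans e2)
  · ext b l
    have h1 := hf _ (Ideal.subset_span (Or.inl (Or.inr ⟨b, l, rfl⟩)))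
    rw [map_sub, sub_eq_zero] at h1
    have e1 := rtr_mm f (pX i F') (y.map (MvPolynomial.C : S →+* MvPolynomial (Fin i) S)) b l
    have e2 := rtr_mm f (re (pX i F' *ᵥ (y.map (MvPolynomial.C : S →+* MvPolynomial (Fin i) S) *ᵥ
      fun l => MvPolynomial.C (w l))) (cp MvPolynomial.X)) (pX i F') b l
    rw [rtr_re, rtr_cp, rtr_mulVec, rtr_mulVec] at e2
    exact e1.symm.trans (h1.trans e2)
  · ext b
    have h1 := hf _ (Ideal.subset_span (Or.inr ⟨b, rfl⟩))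
    have e1 : f ∘ (pX i F' *ᵥ fun l => MvPolynomial.C (v l)) =
        (pX i F').map f *ᵥ (f.comp MvPolynomial.C ∘ v) := by
      rw [rtr_mulVec]
      rfl
    rw [← e1]
    exact h1

/-- the inverse of the frame matrix over another ring -/
theorem rtr_inv {ι : Type} [Fintype ι] [DecidableEq ι] {R T : Type} [CommRing R] [CommRing T]
    (f : R →+* T) (F : Matrix ι ι R) (h : IsUnit F.det) : (F.map f)⁻¹ = F⁻¹.map f := by
  refine Matrix.inv_eq_right_inv ?_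
  rw [← Matrix.map_mul, Matrix.mul_nonsing_inv F h]
  exact Matrix.map_one f (map_zero f) (map_one f)

/-- the homomorphism from the ring of the normal form to the quotient -/
theorem rtr_rho (hNrY : St_NrY) (hAdp : St_Adp) (m k h i : ℕ) (W : Fin m → List Bool)
    (hi : 0 < i) (hik : i ≤ k) (hh : h + i = m + k) (S Q : Type) [CommRing S] [CommRing Q]
    (js : RW m k →+* S) (jz : RZ m k h i →+* Q) (x y : Matrix (Iv m k) (Iv m k) S)
    (v j w : Iv m k → S) (hx_ : (wM m k 0).map js = x) (hy_ : (wM m k 1).map js = y)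
    (hv_ : js ∘ wV m k 0 = v) (hj_ : js ∘ wV m k 1 = j) (hw_ : js ∘ wV m k 2 = w)
    (hAC : AC x y v j) (hF : IsUnit (frm W x y v w).det)
    (hext : ∀ (T : Type) [CommRing T] (f g : S →+* T), f.comp js = g.comp js → f = g)
    (UnZ : ∀ (T : Type) [CommRing T] (ψ : RZ m k h i →+* T),
      (zg' m k h i).map ψ * (zg m k h i).map ψ = 1 →
      AC ((zM m k h i 0).map ψ) ((zM m k h i 1).map ψ) (ψ ∘ zV m k h i 0) (ψ ∘ zV m k h i 1) →
      E3 ((zM m k h i 0).map ψ) ((zM m k h i 1).map ψ) (ψ ∘ zV m k h i 0) (ψ ∘ zA m k h i 0)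
        (ψ ∘ zA m k h i 1) (ψ ∘ zP m k h i 0) (ψ ∘ zP m k h i 1) (ψ ∘ zP m k h i 2) →
      IsUnit (ψ (thZ m k h i W)) → ∃ φ : Q →+* T, φ.comp jz = ψ)
    (φ : S →+* Q) (hφC : ∀ r, φ (js (MvPolynomial.C r)) = jz (MvPolynomial.C r))
    (hφx : x.map φ = (zg m k h i * zX m k h i * zg' m k h i).map jz)
    (hφy : y.map φ = (zg m k h i * zY m k h i * zg' m k h i).map jz)
    (hφv : φ ∘ v = jz ∘ (zg m k h i *ᵥ hv i (zV m k h i 0)))
    (hφj : φ ∘ j = jz ∘ (hj (zV m k h i 1) (zP m k h i 2) ᵥ* zg' m k h i))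
    (hφw : φ ∘ w = jz ∘ (zg m k h i *ᵥ hw h i (RZ m k h i))) :
    ∃ ρ : Q →+* MvPolynomial (Fin i) S ⧸ rI i x y v w (frm W x y v w)⁻¹,
      (∀ a, ρ (φ a) = Ideal.Quotient.mk (rI i x y v w (frm W x y v w)⁻¹) (MvPolynomial.C a)) ∧
      ∀ (z : Iv m k → S) (b : Fin i), ρ (((zg' m k h i).map jz *ᵥ (φ ∘ z)) (Sum.inr b)) =
        Ideal.Quotient.mk (rI i x y v w (frm W x y v w)⁻¹)
          ((pX i (frm W x y v w)⁻¹ *ᵥ fun l => MvPolynomial.C (z l)) b) := by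
  obtain ⟨I, hI⟩ : ∃ I : Ideal (MvPolynomial (Fin i) S), I = rI i x y v w (frm W x y v w)⁻¹ :=
    ⟨_, rfl⟩
  rw [← hI]
  obtain ⟨π, hπ⟩ : ∃ π : MvPolynomial (Fin i) S →+* MvPolynomial (Fin i) S ⧸ I,
    π = Ideal.Quotient.mk I := ⟨_, rfl⟩
  have hπ0 : ∀ r ∈ rI i x y v w (frm W x y v w)⁻¹, π r = 0 := by
    intro r hr
    rw [hπ]
    exact Ideal.Quotient.eq_zero_iff_mem.2 (by rw [hI]; exact hr)
  rw [← hπ]
  obtain ⟨r1, r2, r3⟩ := rtr_rel x y v w (frm W x y v w)⁻¹ π hπ0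
  obtain ⟨e, he⟩ : ∃ e : S →+* MvPolynomial (Fin i) S ⧸ I, e = π.comp MvPolynomial.C := ⟨_, rfl⟩
  rw [← he] at r1 r2 r3
  have hFe : (frm W x y v w).map e = frm W (x.map e) (y.map e) (e ∘ v) (e ∘ w) :=
    rtr_frm e W x y v w
  have hFu : IsUnit (frm W (x.map e) (y.map e) (e ∘ v) (e ∘ w)).det := by
    rw [← hFe, ← RingHom.mapMatrix_apply, ← RingHom.map_det]
    exact hF.map e
  have hpim : pim (frm W (x.map e) (y.map e) (e ∘ v) (e ∘ w))⁻¹ (π ∘ MvPolynomial.X) =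
      (pX i (frm W x y v w)⁻¹).map π := by
    rw [← hFe, rtr_inv e _ hF]
    unfold pX
    rw [rtr_pim, he]
    rfl
  obtain ⟨g, g', g1, g2, g3, g4⟩ := hAdp m k h i (MvPolynomial (Fin i) S ⧸ I) hik hh W
    (x.map e) (y.map e) (e ∘ v) (e ∘ w) (π ∘ MvPolynomial.X) hFu
  rw [hpim] at g3
  obtain ⟨xH, yH, vH, jH, a, b, r, c, n1, n2, n3, n4, n5, n6, n7⟩ :=
    hNrY m k h i (MvPolynomial (Fin i) S ⧸ I) hi (x.map e) (y.map e) (e ∘ v) (e ∘ j) (e ∘ w)
      (π ∘ MvPolynomial.X) _ _ g g' (rtr_AC e hAC) r1 r2 r3 rfl g1 g2 g3 g4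
  obtain ⟨κ, k0, k1, k2, k3, k4, k5, k6, k7, k8, k9, k10, k11⟩ := rtr_kZ m k h i
    (e.comp (js.comp MvPolynomial.C)) g g' xH yH vH jH a b (π ∘ MvPolynomial.X) r c
  have kX : (zX m k h i).map κ = hx xH a (π ∘ MvPolynomial.X) := by
    unfold zX
    rw [rtr_hx, k3, k7, k9]
  have kY : (zY m k h i).map κ = hy xH yH vH a b (π ∘ MvPolynomial.X) r c := by
    unfold zY
    rw [rtr_hy, k3, k4, k5, k7, k8, k9, k10, k11]
  have kx : (zg m k h i * zX m k h i * zg' m k h i).map κ = x.map e := by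
    rw [Matrix.map_mul, Matrix.map_mul, k1, k2, kX, n3]
  have ky : (zg m k h i * zY m k h i * zg' m k h i).map κ = y.map e := by
    rw [Matrix.map_mul, Matrix.map_mul, k1, k2, kY, n4]
  have kv : κ ∘ (zg m k h i *ᵥ hv i (zV m k h i 0)) = e ∘ v := by
    rw [rtr_mulVec, rtr_hv, k1, k5, n5]
  have kj : κ ∘ (hj (zV m k h i 1) (zP m k h i 2) ᵥ* zg' m k h i) = e ∘ j := by
    rw [rtr_vecMul, rtr_hj, k2, k6, k11, n6]
  have kw : κ ∘ (zg m k h i *ᵥ hw h i (RZ m k h i)) = e ∘ w := by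
    rw [rtr_mulVec, rtr_hw, k1, n7]
  obtain ⟨ρ, hρ⟩ := UnZ (MvPolynomial (Fin i) S ⧸ I) κ (by rw [k1, k2]; exact g1)
    (by rw [k3, k4, k5, k6]; exact n1) (by rw [k3, k4, k5, k7, k8, k9, k10, k11]; exact n2)
    (by
      unfold thZ
      rw [RingHom.map_det, RingHom.mapMatrix_apply, rtr_frm, kx, ky, kv, kw]
      exact hFu)
  have hρ1 : ∀ t, ρ (jz t) = κ t := fun t => by
    rw [← hρ]
    rfl
  have hmM : ∀ {α β : Type} (M : Matrix α β (RZ m k h i)), (M.map jz).map ρ = M.map κ := by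
    intro α β M
    ext s t
    exact hρ1 _
  have hmV : ∀ {α : Type} (z : α → RZ m k h i), ρ ∘ (jz ∘ z) = κ ∘ z := by
    intro α z
    ext s
    exact hρ1 _
  have hcomp : ρ.comp φ = e := by
    refine hext _ _ _ (rtr_extW m k _ _ (fun r => ?_) ?_ ?_ ?_ ?_ ?_)
    · show ρ (φ (js (MvPolynomial.C r))) = e (js (MvPolynomial.C r))
      rw [hφC, hρ1, k0]
      rfl
    · have e1 : (wM m k 0).map ((ρ.comp φ).comp js) = (((wM m k 0).map js).map φ).map ρ := rfl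
      have e2 : (wM m k 0).map (e.comp js) = ((wM m k 0).map js).map e := rfl
      rw [e1, e2, hx_, hφx, hmM, kx]
    · have e1 : (wM m k 1).map ((ρ.comp φ).comp js) = (((wM m k 1).map js).map φ).map ρ := rfl
      have e2 : (wM m k 1).map (e.comp js) = ((wM m k 1).map js).map e := rfl
      rw [e1, e2, hy_, hφy, hmM, ky]
    · have e1 : ((ρ.comp φ).comp js) ∘ wV m k 0 = ρ ∘ (φ ∘ (js ∘ wV m k 0)) := rfl
      have e2 : (e.comp js) ∘ wV m k 0 = e ∘ (js ∘ wV m k 0) := rfl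
      rw [e1, e2, hv_, hφv, hmV, kv]
    · have e1 : ((ρ.comp φ).comp js) ∘ wV m k 1 = ρ ∘ (φ ∘ (js ∘ wV m k 1)) := rfl
      have e2 : (e.comp js) ∘ wV m k 1 = e ∘ (js ∘ wV m k 1) := rfl
      rw [e1, e2, hj_, hφj, hmV, kj]
    · have e1 : ((ρ.comp φ).comp js) ∘ wV m k 2 = ρ ∘ (φ ∘ (js ∘ wV m k 2)) := rfl
      have e2 : (e.comp js) ∘ wV m k 2 = e ∘ (js ∘ wV m k 2) := rfl
      rw [e1, e2, hw_, hφw, hmV, kw]
  refine ⟨ρ, fun a => ?_, fun z b => ?_⟩
  · have h1 : ρ (φ a) = (ρ.comp φ) a := rfl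
    rw [h1, hcomp, he]
    rfl
  · have h1 : ρ (((zg' m k h i).map jz *ᵥ (φ ∘ z)) (Sum.inr b)) =
        (((zg' m k h i).map jz).map ρ *ᵥ ((ρ.comp φ) ∘ z)) (Sum.inr b) := by
      rw [RingHom.map_mulVec]
      rfl
    rw [h1, hmM, k2, hcomp, RingHom.map_mulVec]
    show ∑ l, g' (Sum.inr b) l * e (z l) = ∑ l, (pX i (frm W x y v w)⁻¹).map π b l *
      (π ∘ fun l => MvPolynomial.C (z l)) l
    refine Finset.sum_congr rfl fun l _ => ?_
    rw [g3, he]
    rfl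

/-! ### the retraction -/

theorem rtr_core (hNAY : St_NAY) (hNrY : St_NrY) (hAdp : St_Adp) (hKap : St_Kap)
    (m k h i : ℕ) (W : Fin m → List Bool)
    (hi : 0 < i) (hik : i ≤ k) (hh : h + i = m + k) (S Q : Type) [CommRing S] [Algebra ℂ S]
    [CommRing Q] (js : RW m k →+* S) (jz : RZ m k h i →+* Q) (x y : Matrix (Iv m k) (Iv m k) S)
    (v j w : Iv m k → S) (hx_ : (wM m k 0).map js = x) (hy_ : (wM m k 1).map js = y)
    (hv_ : js ∘ wV m k 0 = v) (hj_ : js ∘ wV m k 1 = j) (hw_ : js ∘ wV m k 2 = w)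
    (hAC : AC x y v j) (hF : IsUnit (frm W x y v w).det)
    (hext : ∀ (T : Type) [CommRing T] (f g : S →+* T), f.comp js = g.comp js → f = g)
    (UnS : ∀ (T : Type) [CommRing T] (ψ : RW m k →+* T),
      AC ((wM m k 0).map ψ) ((wM m k 1).map ψ) (ψ ∘ wV m k 0) (ψ ∘ wV m k 1) →
      IsUnit (frm W ((wM m k 0).map ψ) ((wM m k 1).map ψ) (ψ ∘ wV m k 0) (ψ ∘ wV m k 2)).det →
      ∃ φ : S →+* T, φ.comp js = ψ)
    (UnZ : ∀ (T : Type) [CommRing T] (ψ : RZ m k h i →+* T),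
      (zg' m k h i).map ψ * (zg m k h i).map ψ = 1 →
      AC ((zM m k h i 0).map ψ) ((zM m k h i 1).map ψ) (ψ ∘ zV m k h i 0) (ψ ∘ zV m k h i 1) →
      E3 ((zM m k h i 0).map ψ) ((zM m k h i 1).map ψ) (ψ ∘ zV m k h i 0) (ψ ∘ zA m k h i 0)
        (ψ ∘ zA m k h i 1) (ψ ∘ zP m k h i 0) (ψ ∘ zP m k h i 1) (ψ ∘ zP m k h i 2) →
      IsUnit (ψ (thZ m k h i W)) → ∃ φ : Q →+* T, φ.comp jz = ψ)
    (hg : (zg' m k h i).map jz * (zg m k h i).map jz = 1)
    (hACz : AC ((zM m k h i 0).map jz) ((zM m k h i 1).map jz) (jz ∘ zV m k h i 0)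
      (jz ∘ zV m k h i 1))
    (hE3z : E3 ((zM m k h i 0).map jz) ((zM m k h i 1).map jz) (jz ∘ zV m k h i 0)
      (jz ∘ zA m k h i 0) (jz ∘ zA m k h i 1) (jz ∘ zP m k h i 0) (jz ∘ zP m k h i 1)
      (jz ∘ zP m k h i 2))
    (hth : IsUnit (jz (thZ m k h i W))) :
    ∃ (φ : S →+* Q) (u : (⋀[S]^i (NV x y v)) →+ Q) (s : Q →+ (⋀[S]^i (NV x y v))),
      (∀ a z, u (a • z) = φ a * u z) ∧ (∀ a q, s (φ a * q) = a • s q) ∧ (∀ z, s (u z) = z) ∧
      φ (js (dsx (m + k) (wM m k 0))) = jz (dZ m k h i) ∧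
      (∀ c : ℂ, φ (js (MvPolynomial.C c)) = jz (MvPolynomial.C c)) ∧
      ∀ b : Fin k, φ (js (wV m k 1 ⬝ᵥ ((wM m k 0 ^ (b : ℕ)) *ᵥ wV m k 2))) =
        jz (gZ m k h i b) := by
  have hg2 : (zg m k h i).map jz * (zg' m k h i).map jz = 1 :=
    (Matrix.mul_eq_one_comm_of_card_eq (Iv h i) (Iv m k) Q (by simp [hh])).1 hg
  have hXe : (zX m k h i).map jz = hx ((zM m k h i 0).map jz) (jz ∘ zA m k h i 0)
      (jz ∘ zP m k h i 0) := rtr_hx jz _ _ _
  have hYe : (zY m k h i).map jz = hy ((zM m k h i 0).map jz) ((zM m k h i 1).map jz)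
      (jz ∘ zV m k h i 0) (jz ∘ zA m k h i 0) (jz ∘ zA m k h i 1) (jz ∘ zP m k h i 0)
      (jz ∘ zP m k h i 1) (jz ∘ zP m k h i 2) := rtr_hy jz _ _ _ _ _ _ _ _
  have hxe : (zg m k h i * zX m k h i * zg' m k h i).map jz =
      (zg m k h i).map jz * (zX m k h i).map jz * (zg' m k h i).map jz := by
    rw [Matrix.map_mul, Matrix.map_mul]
  have hye : (zg m k h i * zY m k h i * zg' m k h i).map jz =
      (zg m k h i).map jz * (zY m k h i).map jz * (zg' m k h i).map jz := by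
    rw [Matrix.map_mul, Matrix.map_mul]
  have hve : jz ∘ (zg m k h i *ᵥ hv i (zV m k h i 0)) =
      (zg m k h i).map jz *ᵥ hv i (jz ∘ zV m k h i 0) := by
    rw [rtr_mulVec, rtr_hv]
  have hje : jz ∘ (hj (zV m k h i 1) (zP m k h i 2) ᵥ* zg' m k h i) =
      hj (jz ∘ zV m k h i 1) (jz ∘ zP m k h i 2) ᵥ* (zg' m k h i).map jz := by
    rw [rtr_vecMul, rtr_hj]
  have hwe : jz ∘ (zg m k h i *ᵥ hw h i (RZ m k h i)) = (zg m k h i).map jz *ᵥ hw h i Q := by
    rw [rtr_mulVec, rtr_hw]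
  have hNA := hNAY h i Q hi _ _ _ _ _ _ _ _ _ hACz hE3z
  rw [← hXe, ← hYe] at hNA
  have hconj := rtr_cAC _ _ hg hNA
  obtain ⟨ψ, p0, p1, p2, p3, p4, p5⟩ := rtr_kW m k (jz.comp MvPolynomial.C)
    ((zg m k h i * zX m k h i * zg' m k h i).map jz)
    ((zg m k h i * zY m k h i * zg' m k h i).map jz)
    (jz ∘ (zg m k h i *ᵥ hv i (zV m k h i 0)))
    (jz ∘ (hj (zV m k h i 1) (zP m k h i 2) ᵥ* zg' m k h i))
    (jz ∘ (zg m k h i *ᵥ hw h i (RZ m k h i)))
  obtain ⟨φ, hφ⟩ := UnS Q ψ (by rw [p1, p2, p3, p4, hxe, hye, hve, hje]; exact hconj) (by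
    rw [p1, p2, p3, p5]
    unfold thZ at hth
    rw [RingHom.map_det, RingHom.mapMatrix_apply, rtr_frm] at hth
    exact hth)
  have hφ1 : ∀ t, φ (js t) = ψ t := fun t => by
    rw [← hφ]
    rfl
  have hφC : ∀ r, φ (js (MvPolynomial.C r)) = jz (MvPolynomial.C r) := fun r => by
    rw [hφ1, p0]
    rfl
  have hφx : x.map φ = (zg m k h i * zX m k h i * zg' m k h i).map jz := by
    rw [← p1, ← hx_]
    ext s t
    exact hφ1 _
  have hφy : y.map φ = (zg m k h i * zY m k h i * zg' m k h i).map jz := by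
    rw [← p2, ← hy_]
    ext s t
    exact hφ1 _
  have hφv : φ ∘ v = jz ∘ (zg m k h i *ᵥ hv i (zV m k h i 0)) := by
    rw [← p3, ← hv_]
    ext s
    exact hφ1 _
  have hφj : φ ∘ j = jz ∘ (hj (zV m k h i 1) (zP m k h i 2) ᵥ* zg' m k h i) := by
    rw [← p4, ← hj_]
    ext s
    exact hφ1 _
  have hφw : φ ∘ w = jz ∘ (zg m k h i *ᵥ hw h i (RZ m k h i)) := by
    rw [← p5, ← hw_]
    ext s
    exact hφ1 _
  obtain ⟨ρ, hρ1, hρ2⟩ := rtr_rho hNrY hAdp m k h i W hi hik hh S Q js jz x y v j w hx_ hy_ hv_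
    hj_ hw_ hAC hF hext UnZ φ hφC hφx hφy hφv hφj hφw
  obtain ⟨κ, hκ1, hκ2⟩ := hKap m k i S W x y v j w hAC hF
  obtain ⟨s, hs1, hs2⟩ := rtr_s (rI i x y v w (frm W x y v w)⁻¹) κ hκ1 φ ρ hρ1
  obtain ⟨u, hu1, hu2⟩ := rtr_u x y v φ ((zg m k h i).map jz) ((zg' m k h i).map jz)
    ((zX m k h i).map jz) ((zY m k h i).map jz) (hv i (jz ∘ zV m k h i 0)) hg hg2
    (by rw [hXe]; exact rtr_hx0 _ _ _) (by rw [hYe]; exact rtr_hy0 _ _ _ _ _ _ _ _)
    (fun b => rfl) (hφx.trans hxe) (hφy.trans hye) (hφv.trans hve)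
  refine ⟨φ, u, s, hu1, hs1, fun z => ?_, ?_, hφC, fun b => ?_⟩
  · -- the composition is linear and is the identity on the generators
    let L : (⋀[S]^i (NV x y v)) →ₗ[S] (⋀[S]^i (NV x y v)) :=
      { toFun := fun z => s (u z)
        map_add' := fun z z' => by rw [map_add, map_add]
        map_smul' := fun a z => by
          rw [hu1, hs1]
          rfl }
    have hL : L = LinearMap.id := by
      refine exteriorPower.linearMap_ext ?_
      ext n
      obtain ⟨z, hz⟩ : ∃ z : Fin i → Iv m k → S, n = fun s => Submodule.Quotient.mk (z s) := by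
        have h0 : ∀ s, ∃ z : Iv m k → S, Submodule.Quotient.mk z = n s :=
          fun s => Submodule.Quotient.mk_surjective _ _
        choose z hz using h0
        exact ⟨z, funext fun s => (hz s).symm⟩
      rw [hz]
      show ((s (u (exteriorPower.ιMulti S i fun s => Submodule.Quotient.mk (z s))) :
        (⋀[S]^i (NV x y v))) : ExteriorAlgebra S (NV x y v)) =
        (exteriorPower.ιMulti S i fun s => Submodule.Quotient.mk (z s) : (⋀[S]^i (NV x y v)))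
      rw [hu2, ← hκ2, hs2 _ _ ?_]
      rw [RingHom.map_det, RingHom.map_det]
      congr 1
      ext s b
      exact hρ2 (z s) b
    exact LinearMap.congr_fun hL z
  · rw [rtr_dsx, rtr_dsx]
    have e1 : ((wM m k 0).map js).map φ = x.map φ := by rw [hx_]
    rw [e1, hφx, hxe, rtr_cdsx _ _ hg hg2]
    unfold dZ
    rw [rtr_dsx]
  · have e1 : φ (js (wV m k 1 ⬝ᵥ ((wM m k 0 ^ (b : ℕ)) *ᵥ wV m k 2))) =
        (φ ∘ j) ⬝ᵥ (((x.map φ) ^ (b : ℕ)) *ᵥ (φ ∘ w)) := by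
      rw [RingHom.map_dotProduct, RingHom.map_dotProduct, rtr_mulVec, rtr_mulVec, rtr_pow, rtr_pow,
        hx_, hj_, hw_]
    rw [e1, hφj, hφx, hφw, hxe, hje, hwe, rtr_cpow _ _ hg hg2, rtr_cvec _ _ hg, rtr_cdot _ _ hg]
    unfold gZ
    rw [RingHom.map_dotProduct, rtr_hj, rtr_mulVec, rtr_hw, rtr_pow]

/-! ### the two rings -/

theorem rtr_ACW (m k : ℕ) {T : Type} [CommRing T] (f : RW m k →+* T)
    (hf : ∀ r ∈ IWd m k, f r = 0) :
    AC ((wM m k 0).map f) ((wM m k 1).map f) (f ∘ wV m k 0) (f ∘ wV m k 1) := by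
  unfold AC
  ext i l
  have h1 := hf _ (Ideal.subset_span ⟨(i, l), rfl⟩)
  rw [Matrix.zero_apply, ← h1]
  simp [Matrix.mul_apply, vecMulVec_apply, Matrix.map_apply]

theorem rtr_gZ (m k h i : ℕ) {T : Type} [CommRing T] (f : RZ m k h i →+* T)
    (hf : ∀ r ∈ IZ m k h i, f r = 0) : (zg' m k h i).map f * (zg m k h i).map f = 1 := by
  ext a b
  have h1 := hf _ (Ideal.subset_span ⟨Sum.inl (a, b), rfl⟩)
  have h2 := rtr_mm f (zg' m k h i) (zg m k h i) a b
  have h3 : f ((zg' m k h i * zg m k h i) a b -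
    (1 : Matrix (Iv h i) (Iv h i) (RZ m k h i)) a b) = 0 := h1
  rw [map_sub, sub_eq_zero] at h3
  rw [← h2, h3, Matrix.one_apply, Matrix.one_apply]
  split_ifs
  · exact map_one f
  · exact map_zero f

theorem rtr_ACZ (m k h i : ℕ) {T : Type} [CommRing T] (f : RZ m k h i →+* T)
    (hf : ∀ r ∈ IZ m k h i, f r = 0) :
    AC ((zM m k h i 0).map f) ((zM m k h i 1).map f) (f ∘ zV m k h i 0) (f ∘ zV m k h i 1) := by
  unfold AC
  ext a b
  have h1 := hf _ (Ideal.subset_span ⟨Sum.inr (Sum.inl (a, b)), rfl⟩)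
  have h2 : f ((zM m k h i 0 * zM m k h i 1 - zM m k h i 1 * zM m k h i 0 +
      vecMulVec (zV m k h i 0) (zV m k h i 1)) a b) = 0 := h1
  rw [Matrix.zero_apply, ← h2]
  simp [Matrix.mul_apply, vecMulVec_apply, Matrix.map_apply]

theorem rtr_E3Z (m k h i : ℕ) {T : Type} [CommRing T] (f : RZ m k h i →+* T)
    (hf : ∀ r ∈ IZ m k h i, f r = 0) :
    E3 ((zM m k h i 0).map f) ((zM m k h i 1).map f) (f ∘ zV m k h i 0) (f ∘ zA m k h i 0)
      (f ∘ zA m k h i 1) (f ∘ zP m k h i 0) (f ∘ zP m k h i 1) (f ∘ zP m k h i 2) := by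
  unfold E3
  rw [← rtr_pe, ← rtr_re, ← rtr_qe, ← rtr_mulVec, ← rtr_mulVec, ← rtr_mulVec, ← rtr_mulVec]
  ext s
  have h1 := hf _ (Ideal.subset_span ⟨Sum.inr (Sum.inr s), rfl⟩)
  have h2 : f ((pe (zP m k h i 0) (zM m k h i 0) *ᵥ zA m k h i 1 -
      (zM m k h i 1 *ᵥ zA m k h i 0 - re (zP m k h i 1) (zM m k h i 0) *ᵥ zA m k h i 0) +
      qe (zP m k h i 0) (zP m k h i 2) (zM m k h i 0) *ᵥ zV m k h i 0) s) = 0 := h1
  simp only [Pi.add_apply, Pi.sub_apply, map_add, map_sub] at h2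
  exact h2

theorem rtr_extL {A : Type} [CommRing A] (I : Ideal A) (x : A ⧸ I) {T : Type} [CommRing T]
    (f g : Localization.Away x →+* T)
    (h : f.comp ((algebraMap (A ⧸ I) (Localization.Away x)).comp (Ideal.Quotient.mk I)) =
      g.comp ((algebraMap (A ⧸ I) (Localization.Away x)).comp (Ideal.Quotient.mk I))) : f = g := by
  refine IsLocalization.ringHom_ext (Submonoid.powers x) (Ideal.Quotient.ringHom_ext ?_)
  rw [RingHom.comp_assoc, RingHom.comp_assoc]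
  exact h

theorem rtr_algC (m k : ℕ) (W : Fin m → List Bool) (c : ℂ) :
    algebraMap ℂ (SA m k W) c = js m k W (MvPolynomial.C c) := by
  rw [IsScalarTower.algebraMap_apply ℂ (RW m k ⧸ IWd m k) (SA m k W)]
  rfl

theorem thm_Rtr (hNAY : St_NAY) (hNrY : St_NrY) (hAdp : St_Adp) (hKap : St_Kap) (hUnS : St_UnS)
    (hUnZ : St_UnZ) : St_Rtr := by
  intro m k h i W hi hik hh
  have hjs : ∀ r ∈ IWd m k, js m k W r = 0 := by
    intro r hr
    show algebraMap (RW m k ⧸ IWd m k) (SA m k W) (Ideal.Quotient.mk (IWd m k) r) = 0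
    rw [Ideal.Quotient.eq_zero_iff_mem.2 hr, map_zero]
  have hjz : ∀ r ∈ IZ m k h i, jz m k h i W r = 0 := by
    intro r hr
    show algebraMap (RZ m k h i ⧸ IZ m k h i) (QZ m k h i W) (Ideal.Quotient.mk (IZ m k h i) r) = 0
    rw [Ideal.Quotient.eq_zero_iff_mem.2 hr, map_zero]
  have hF : IsUnit (frm W (sM m k W 0) (sM m k W 1) (sV m k W 0) (sV m k W 2)).det := by
    have e1 : frm W (sM m k W 0) (sM m k W 1) (sV m k W 0) (sV m k W 2) =
        (frm W (wM m k 0) (wM m k 1) (wV m k 0) (wV m k 2)).map (js m k W) :=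
      (rtr_frm (js m k W) _ _ _ _ _).symm
    rw [e1, ← RingHom.mapMatrix_apply, ← RingHom.map_det]
    exact IsLocalization.Away.algebraMap_isUnit
      (Ideal.Quotient.mk (IWd m k) (frm W (wM m k 0) (wM m k 1) (wV m k 0) (wV m k 2)).det)
  obtain ⟨φ, u, s, c1, c2, c3, c4, c5, c6⟩ := rtr_core hNAY hNrY hAdp hKap m k h i W hi hik hh
    (SA m k W) (QZ m k h i W) (js m k W) (jz m k h i W) (sM m k W 0) (sM m k W 1) (sV m k W 0)
    (sV m k W 1) (sV m k W 2) rfl rfl rfl rfl rfl (rtr_ACW m k (js m k W) hjs) hF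
    (fun T _ f g h => rtr_extL _ _ f g h) (hUnS m k W) (hUnZ m k h i W)
    (rtr_gZ m k h i (jz m k h i W) hjz) (rtr_ACZ m k h i (jz m k h i W) hjz)
    (rtr_E3Z m k h i (jz m k h i W) hjz)
    (IsLocalization.Away.algebraMap_isUnit
      (Ideal.Quotient.mk (IZ m k h i) (thZ m k h i W)))
  exact ⟨φ, u, s, c1, c2, c3, c4, fun c => by rw [rtr_algC]; exact c5 c, c6⟩

end Pool.Agent.AOC
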