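import Pool.Agent.AOC.St

/-!
# AOC, Spp: the discriminant of the normal form
-/

set_option autoImplicit false

noncomputable section

namespace Pool.Agent.AOC

open Matrix Pool.Agent.CTR Pool.Agent.ANC

private theorem spp_pow_vec {L ι : Type} [Field L] [Fintype ι] [DecidableEq ι] (A : Matrix ι ι L)
    (v : ι → L) (t : L) (h : A *ᵥ v = t • v) (r : ℕ) : A ^ r *ᵥ v = t ^ r • v := by
  induction r with
  | zero => simp
  | succ r ih => rw [pow_succ, ← Matrix.mulVec_mulVec, h, Matrix.mulVec_smul, ih, smul_smul, pow_succ, mul_comm]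

private theorem spp_trace {L ι κ : Type} [Field L] [Fintype ι] [DecidableEq ι] [Fintype κ] [DecidableEq κ]
    (A : Matrix ι ι L) (J : Module.Basis κ L (ι → L)) (t : κ → L)
    (h : ∀ i, A *ᵥ J i = t i • J i) : A.trace = ∑ i, t i := by
  have h1 : A.trace = LinearMap.trace L (ι → L) (Matrix.toLin' A) := by
    rw [Matrix.trace_toLin'_eq]
  rw [h1, LinearMap.trace_eq_matrix_trace L J, Matrix.trace]
  refine Finset.sum_congr rfl fun i _ => ?_
  rw [Matrix.diag_apply, LinearMap.toMatrix_apply, Matrix.toLin'_apply, h]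
  simp

/-- the polynomial -/
private def spp_P {L : Type} [Field L] {i : ℕ} (p : Fin i → L) : Polynomial L :=
  Polynomial.X ^ i + ∑ b : Fin i, Polynomial.C (p b) * Polynomial.X ^ (b : ℕ)

private theorem spp_eval {L : Type} [Field L] {i : ℕ} (p : Fin i → L) (μ : L) :
    (spp_P p).eval μ = μ ^ i + ∑ b : Fin i, p b * μ ^ (b : ℕ) := by
  unfold spp_P
  rw [Polynomial.eval_add, Polynomial.eval_pow, Polynomial.eval_X, Polynomial.eval_finsetSum]
  congr 1
  refine Finset.sum_congr rfl fun b _ => ?_
  rw [Polynomial.eval_mul, Polynomial.eval_C, Polynomial.eval_pow, Polynomial.eval_X]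

private theorem spp_evald {L : Type} [Field L] {i : ℕ} (p : Fin i → L) (μ : L) :
    (Polynomial.derivative (spp_P p)).eval μ =
      (i : L) * μ ^ (i - 1) + ∑ b : Fin i, p b * ((b : ℕ) : L) * μ ^ ((b : ℕ) - 1) := by
  unfold spp_P
  rw [Polynomial.derivative_add, Polynomial.derivative_X_pow, Polynomial.derivative_sum,
    Polynomial.eval_add, Polynomial.eval_finsetSum]
  congr 1
  · simp
  · refine Finset.sum_congr rfl fun b _ => ?_
    rw [Polynomial.derivative_C_mul_X_pow]
    simp

private theorem spp_deg {L : Type} [Field L] {i : ℕ} (p : Fin i → L) : (spp_P p).natDegree = i := by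
  unfold spp_P
  rw [Polynomial.natDegree_add_eq_left_of_degree_lt, Polynomial.natDegree_X_pow]
  rw [Polynomial.degree_X_pow]
  exact Polynomial.degree_sum_fin_lt p

/-- a root of the polynomial is an eigenvalue of the companion matrix -/
private theorem spp_cp {L : Type} [Field L] {i : ℕ} (p : Fin i → L) (μ : L)
    (h : μ ^ i + ∑ b : Fin i, p b * μ ^ (b : ℕ) = 0) : (cp p).charpoly.eval μ = 0 := by
  have hi : 0 < i := by
    rcases Nat.eq_zero_or_pos i with h0 | h0
    · subst h0
      simp at h
    · exact h0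
  rw [Matrix.eval_charpoly, ← Matrix.exists_vecMul_eq_zero_iff]
  refine ⟨fun a => μ ^ (a : ℕ), ?_, ?_⟩
  · intro h0
    have h1 := congrFun h0 ⟨0, hi⟩
    simp at h1
  · rw [Matrix.vecMul_sub]
    have h1 : (fun a : Fin i => μ ^ (a : ℕ)) ᵥ* cp p = fun a : Fin i => μ ^ (a : ℕ) * μ := by
      funext b
      show ∑ a : Fin i, μ ^ (a : ℕ) * cp p a b = μ ^ (b : ℕ) * μ
      by_cases hb : (b : ℕ) + 1 = i
      · have h2 : ∀ a : Fin i, μ ^ (a : ℕ) * cp p a b = -(p a * μ ^ (a : ℕ)) := by
          intro a
          unfold cp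
          rw [if_pos hb]
          ring
        rw [Finset.sum_congr rfl fun a _ => h2 a, Finset.sum_neg_distrib, ← pow_succ, hb]
        linear_combination -h
      · have hb2 : (b : ℕ) + 1 < i := by
          have := b.2
          omega
        rw [Finset.sum_eq_single ⟨(b : ℕ) + 1, hb2⟩]
        · unfold cp
          rw [if_neg hb, if_pos rfl, mul_one, pow_succ]
        · intro a _ ha
          unfold cp
          rw [if_neg hb, if_neg, mul_zero]
          intro h3
          exact ha (Fin.ext h3)
        · intro h3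
          exact absurd (Finset.mem_univ _) h3
    rw [h1]
    funext b
    rw [Matrix.scalar_apply, Pi.sub_apply, Matrix.vecMul_diagonal]
    exact sub_self _

theorem thm_Spp : St_Spp := by
  intro L _ _ _ h i xH a p hD
  classical
  by_contra hcon
  push Not at hcon
  obtain ⟨hc1, hc2, hc3⟩ := hcon
  set M := hx xH a p with hM
  have hP0 : spp_P p ≠ 0 := by
    intro h0
    by_cases hi : i = 0
    · subst hi
      have h1 := congrArg (Polynomial.eval (0 : L)) h0
      rw [spp_eval] at h1
      simp at h1
    · have h1 := spp_deg p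
      rw [h0, Polynomial.natDegree_zero] at h1
      exact hi h1.symm
  -- the two sets of roots
  have hcard1 : xH.charpoly.roots.toFinset.card = h := by
    have h1 : xH.charpoly.roots.toFinset.card ≤ h := by
      refine (Multiset.toFinset_card_le _).trans ((Polynomial.card_roots' _).trans ?_)
      rw [Matrix.charpoly_natDegree_eq_dim, Fintype.card_fin]
    omega
  have hcard2 : (spp_P p).roots.toFinset.card = i := by
    rw [Multiset.toFinset_card_of_nodup, ← (IsAlgClosed.splits (spp_P p)).natDegree_eq_card_roots, spp_deg]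
    rw [Multiset.nodup_iff_count_le_one]
    intro μ
    rw [Polynomial.count_roots]
    by_contra h1
    push Not at h1
    obtain ⟨h2, h3⟩ := (Polynomial.one_lt_rootMultiplicity_iff_isRoot hP0).1 h1
    have h4 : (spp_P p).eval μ = 0 := h2
    have h5 : (Polynomial.derivative (spp_P p)).eval μ = 0 := h3
    rw [spp_eval] at h4
    rw [spp_evald] at h5
    exact hc3 μ h4 h5
  have hdisj : Disjoint xH.charpoly.roots.toFinset (spp_P p).roots.toFinset := by
    rw [Finset.disjoint_left]
    intro μ h1 h2
    rw [Multiset.mem_toFinset, Polynomial.mem_roots (Matrix.charpoly_monic xH).ne_zero] at h1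
    rw [Multiset.mem_toFinset, Polynomial.mem_roots hP0] at h2
    have h3 : (spp_P p).eval μ = 0 := h2
    rw [spp_eval] at h3
    exact hc2 μ h1 h3
  set Λ := xH.charpoly.roots.toFinset ∪ (spp_P p).roots.toFinset with hΛ
  have hΛc : Λ.card = h + i := by
    rw [hΛ, Finset.card_union_of_disjoint hdisj, hcard1, hcard2]
  have hroot : ∀ μ ∈ Λ, M.charpoly.eval μ = 0 := by
    intro μ hμ
    have h1 : M.charpoly = xH.charpoly * (cp p).charpoly := by
      rw [hM]
      unfold hx
      exact Matrix.charpoly_fromBlocks_zero₂₁ ..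
    rw [h1, Polynomial.eval_mul]
    rw [hΛ, Finset.mem_union] at hμ
    rcases hμ with hμ | hμ
    · rw [Multiset.mem_toFinset, Polynomial.mem_roots (Matrix.charpoly_monic xH).ne_zero] at hμ
      have h2 : xH.charpoly.eval μ = 0 := hμ
      rw [h2, zero_mul]
    · rw [Multiset.mem_toFinset, Polynomial.mem_roots hP0] at hμ
      have h2 : (spp_P p).eval μ = 0 := hμ
      rw [spp_eval] at h2
      rw [spp_cp p μ h2, mul_zero]
  let E : Fin (h + i) ≃ Λ := (Fintype.equivFinOfCardEq (by rw [Fintype.card_coe, hΛc])).symm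
  let lam : Fin (h + i) → L := fun s => (E s : L)
  have hlam : Function.Injective lam := Subtype.val_injective.comp E.injective
  have hev : ∀ s, ∃ v : Iv h i → L, v ≠ 0 ∧ M *ᵥ v = lam s • v := by
    intro s
    have h1 := hroot (lam s) (E s).2
    rw [Matrix.eval_charpoly, ← Matrix.exists_mulVec_eq_zero_iff] at h1
    obtain ⟨v, hv, h2⟩ := h1
    refine ⟨v, hv, ?_⟩
    rw [Matrix.sub_mulVec, sub_eq_zero, Matrix.scalar_apply, ← Matrix.smul_one_eq_diagonal,
      Matrix.smul_mulVec, Matrix.one_mulVec] at h2
    exact h2.symm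
  choose V hV0 hV using hev
  have hli : LinearIndependent L V := by
    refine Module.End.eigenvectors_linearIndependent' (Matrix.toLin' M) lam hlam V fun s => ?_
    refine ⟨?_, hV0 s⟩
    rw [Module.End.mem_eigenspace_iff, Matrix.toLin'_apply]
    exact hV s
  have hfr : Fintype.card (Fin (h + i)) = Module.finrank L (Iv h i → L) := by
    rw [Module.finrank_fintype_fun_eq_card]
    simp
  by_cases hne : Nonempty (Fin (h + i))
  · let J := basisOfLinearIndependentOfCardEqFinrank hli hfr
    have hJ : ∀ s, J s = V s := fun s => by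
      show basisOfLinearIndependentOfCardEqFinrank hli hfr s = V s
      rw [coe_basisOfLinearIndependentOfCardEqFinrank]
    have htr : ∀ r : ℕ, (M ^ r).trace = ∑ s, lam s ^ r := by
      intro r
      refine spp_trace (M ^ r) J (fun s => lam s ^ r) fun s => ?_
      rw [hJ]
      exact spp_pow_vec M _ _ (hV s) r
    have hG : (Matrix.of fun a' b' : Fin (h + i) => (M ^ ((a' : ℕ) + b')).trace) =
        (Matrix.vandermonde lam)ᵀ * Matrix.vandermonde lam := by
      ext a' b'
      rw [Matrix.of_apply, htr, Matrix.mul_apply]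
      refine Finset.sum_congr rfl fun s _ => ?_
      rw [Matrix.transpose_apply, Matrix.vandermonde_apply, Matrix.vandermonde_apply, ← pow_add]
    unfold dsx at hD
    rw [hG, Matrix.det_mul, Matrix.det_transpose] at hD
    exact Matrix.det_vandermonde_ne_zero_iff.2 hlam (mul_self_eq_zero.1 hD)
  · have : IsEmpty (Fin (h + i)) := not_nonempty_iff.1 hne
    unfold dsx at hD
    rw [Matrix.det_isEmpty] at hD
    exact one_ne_zero hD

end Pool.Agent.AOC
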