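import Pool.Agent.AOC.St

/-!
# AOC, Sub: the higher exterior powers vanish
-/

set_option autoImplicit false

noncomputable section

namespace Pool.Agent.AOC

open Matrix Pool.Agent.CTR Pool.Agent.ANC

private theorem sub_wd {ι R S : Type} [Fintype ι] [DecidableEq ι] [CommRing R] [CommRing S]
    (φ : R →+* S) (x y : Matrix ι ι R) (w : List Bool) :
    (wd x y w).map φ = wd (x.map φ) (y.map φ) w := by
  induction w with
  | nil =>
    show (1 : Matrix ι ι R).map φ = 1
    exact Matrix.map_one φ (map_zero φ) (map_one φ)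
  | cons b w ih =>
    show ((if b then x else y) * wd x y w).map φ = (if b then x.map φ else y.map φ) * wd _ _ w
    rw [Matrix.map_mul, ih]
    congr 1
    cases b <;> rfl

private theorem sub_mulVec {ι R S : Type} [Fintype ι] [CommRing R] [CommRing S]
    (φ : R →+* S) (x : Matrix ι ι R) (v : ι → R) (s : ι) :
    φ ((x *ᵥ v) s) = (x.map φ *ᵥ fun t => φ (v t)) s := by
  simp only [mulVec, dotProduct, map_sum, map_mul, Matrix.map_apply]

private theorem sub_frm {m k : ℕ} {R S : Type} [CommRing R] [CommRing S] (φ : R →+* S)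
    (W : Fin m → List Bool) (x y : Matrix (Iv m k) (Iv m k) R) (v w : Iv m k → R) :
    (frm W x y v w).map φ = frm W (x.map φ) (y.map φ) (fun t => φ (v t)) fun t => φ (w t) := by
  ext s t
  rcases t with a | b
  · show φ ((wd x y (W a) *ᵥ v) s) = (wd (x.map φ) (y.map φ) (W a) *ᵥ fun t => φ (v t)) s
    rw [sub_mulVec, sub_wd]
  · show φ (((x ^ (b : ℕ)) *ᵥ w) s) = (((x.map φ) ^ (b : ℕ)) *ᵥ fun t => φ (w t)) s
    rw [sub_mulVec]
    congr 2
    exact (φ.mapMatrix.map_pow x b)

/-- The frame is a basis. -/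
private theorem sub_unit (m k : ℕ) (W : Fin m → List Bool) :
    IsUnit (frm W (sM m k W 0) (sM m k W 1) (sV m k W 0) (sV m k W 2)).det := by
  have h := sub_frm (js m k W) W (wM m k 0) (wM m k 1) (wV m k 0) (wV m k 2)
  have h2 : js m k W (frm W (wM m k 0) (wM m k 1) (wV m k 0) (wV m k 2)).det
      = (frm W (sM m k W 0) (sM m k W 1) (sV m k W 0) (sV m k W 2)).det := by
    refine (RingHom.map_det (js m k W) _).trans ?_
    exact congrArg Matrix.det h
  rw [← h2]
  exact IsLocalization.Away.algebraMap_isUnit (S := SA m k W)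
    (Ideal.Quotient.mk (IWd m k) (frm W (wM m k 0) (wM m k 1) (wV m k 0) (wV m k 2)).det)

/-- The classes of the `x^b w` generate the quotient. -/
private theorem sub_span (m k : ℕ) (W : Fin m → List Bool) :
    Submodule.span (SA m k W) (Set.range fun b : Fin k =>
      (AV (sM m k W 0) (sM m k W 1) (sV m k W 0)).mkQ ((sM m k W 0 ^ (b : ℕ)) *ᵥ sV m k W 2)) = ⊤ := by
  rw [eq_top_iff]
  rintro q -
  obtain ⟨u, rfl⟩ := Submodule.mkQ_surjective _ q
  obtain ⟨F, hF⟩ : ∃ F, F = frm W (sM m k W 0) (sM m k W 1) (sV m k W 0) (sV m k W 2) := ⟨_, rfl⟩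
  have hu : IsUnit F.det := by
    rw [hF]
    exact sub_unit m k W
  have h1 : u = ∑ t, (F⁻¹ *ᵥ u) t • F.col t := by
    have h2 : u = F *ᵥ (F⁻¹ *ᵥ u) := by
      rw [mulVec_mulVec, Matrix.mul_nonsing_inv _ hu, one_mulVec]
    conv_lhs => rw [h2]
    rw [Matrix.mulVec_eq_sum]
    refine Finset.sum_congr rfl fun t _ => ?_
    ext s
    simp [Matrix.col, mul_comm]
  rw [h1, map_sum, Fintype.sum_sum_type]
  refine Submodule.add_mem _ (Submodule.sum_mem _ fun a _ => ?_) (Submodule.sum_mem _ fun b _ => ?_)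
  · rw [map_smul]
    have h3 : (AV (sM m k W 0) (sM m k W 1) (sV m k W 0)).mkQ (F.col (Sum.inl a)) = 0 := by
      rw [Submodule.mkQ_apply, Submodule.Quotient.mk_eq_zero, hF]
      exact Submodule.subset_span ⟨W a, rfl⟩
    rw [h3, smul_zero]
    exact Submodule.zero_mem _
  · rw [map_smul]
    refine Submodule.smul_mem _ _ (Submodule.subset_span ⟨b, ?_⟩)
    rw [hF]
    rfl

/-- The exterior powers of a module with `k` generators. -/
private theorem sub_gen {R M : Type} [CommRing R] [AddCommGroup M] [Module R M] {k i : ℕ}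
    (v : Fin k → M) (hv : Submodule.span R (Set.range v) = ⊤) (hki : k < i) :
    Subsingleton (⋀[R]^i M) := by
  have h := exteriorPower.ιMulti_family_span_of_span (n := i) R hv
  have he : IsEmpty (Set.powersetCard (Fin k) i) := by
    refine ⟨fun s => ?_⟩
    have h1 : (s : Finset (Fin k)).card = i := s.2
    have h2 := Finset.card_le_univ (s : Finset (Fin k))
    rw [h1, Fintype.card_fin] at h2
    omega
  rw [Set.range_eq_empty, Submodule.span_empty] at h
  exact (Submodule.subsingleton_iff R).1 (subsingleton_of_bot_eq_top h)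

theorem thm_Sub : St_Sub := by
  intro m k W i hki
  exact sub_gen _ (sub_span m k W) hki

end Pool.Agent.AOC
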