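import Pool.Agent.AOC.St
import Pool.Agent.ANC.TQ
import Pool.Agent.ANC.Alg

/-!
# AOC, TY: the tangent vectors of the normal form
-/

set_option autoImplicit false
set_option linter.unusedVariables false

noncomputable section

namespace Pool.Agent.AOC

open Matrix Pool.Agent.CTR Pool.Agent.ANC

variable {L : Type} [Field L]

/-! ### linear algebra -/

theorem ty_rn {V N : Type} [AddCommGroup V] [Module L V] [Module.Finite L V] [AddCommGroup N]
    [Module L N] [Module.Finite L N] (W : Submodule L V) (f : V →ₗ[L] N) (N' : Submodule L N)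
    (hf : ∀ w ∈ W, f w ∈ N') :
    Module.finrank L W ≤ Module.finrank L N' +
      Module.finrank L (W ⊓ LinearMap.ker f : Submodule L V) := by
  let g : W →ₗ[L] N' := (f.comp W.subtype).codRestrict N' fun w => hf w w.2
  have h1 := LinearMap.finrank_range_add_finrank_ker g
  have h2 : Module.finrank L (LinearMap.range g) ≤ Module.finrank L N' := Submodule.finrank_le _
  have h0 : ∀ w : LinearMap.ker g, (w.1 : V) ∈ W ⊓ LinearMap.ker f := by
    intro w
    refine ⟨w.1.2, ?_⟩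
    have h3 : g w.1 = 0 := w.2
    have h4 := congrArg Subtype.val h3
    exact h4
  let k : LinearMap.ker g →ₗ[L] (W ⊓ LinearMap.ker f : Submodule L V) :=
    (W.subtype.comp (LinearMap.ker g).subtype).codRestrict _ h0
  have h3 : Function.Injective k := by
    intro a b hab
    have h4 := congrArg Subtype.val hab
    exact Subtype.ext (Subtype.ext h4)
  have h4 := LinearMap.finrank_le_finrank_of_injective h3
  omega

theorem ty_count {h i : ℕ} {N : Type} [AddCommGroup N] [Module L N] [Module.Finite L N]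
    (T : Submodule L (Yv h i → L)) (T₁ : Submodule L (Sv (Fin h) → L))
    (Kp Kr : Submodule L (Fin i → L)) (ρ : (Yv h i → L) →ₗ[L] N) (K : Submodule L N)
    (h1 : ∀ t ∈ T, (fun s => t (Sum.inl s)) ∈ T₁)
    (h2 : ∀ t ∈ T, (∀ s, t (Sum.inl s) = 0) → (fun b => t (Sum.inr (Sum.inr (0, b)))) ∈ Kp)
    (h3 : ∀ t ∈ T, (∀ s, t (Sum.inl s) = 0) → (∀ b, t (Sum.inr (Sum.inr (0, b))) = 0) →
      (fun b => t (Sum.inr (Sum.inr (1, b)))) ∈ Kr)
    (h4 : ∀ t ∈ T, (∀ s, t (Sum.inl s) = 0) → (∀ b, t (Sum.inr (Sum.inr (0, b))) = 0) →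
      (∀ b, t (Sum.inr (Sum.inr (1, b))) = 0) → ρ t ∈ K ∧ (ρ t = 0 → t = 0)) :
    Module.finrank L T ≤ Module.finrank L T₁ + Module.finrank L Kp + Module.finrank L Kr +
      Module.finrank L K := by
  let f₁ : (Yv h i → L) →ₗ[L] (Sv (Fin h) → L) :=
    LinearMap.funLeft L L (fun s => (Sum.inl s : Yv h i))
  let f₂ : (Yv h i → L) →ₗ[L] (Fin i → L) :=
    LinearMap.funLeft L L (fun b => (Sum.inr (Sum.inr (0, b)) : Yv h i))
  let f₃ : (Yv h i → L) →ₗ[L] (Fin i → L) :=
    LinearMap.funLeft L L (fun b => (Sum.inr (Sum.inr (1, b)) : Yv h i))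
  have e1 : ∀ t ∈ T ⊓ LinearMap.ker f₁, ∀ s, t (Sum.inl s) = 0 := by
    intro t ht s
    have h5 : f₁ t = 0 := ht.2
    exact congrFun h5 s
  have e2 : ∀ t ∈ T ⊓ LinearMap.ker f₁ ⊓ LinearMap.ker f₂, ∀ b, t (Sum.inr (Sum.inr (0, b))) = 0 := by
    intro t ht s
    have h5 : f₂ t = 0 := ht.2
    exact congrFun h5 s
  have e3 : ∀ t ∈ T ⊓ LinearMap.ker f₁ ⊓ LinearMap.ker f₂ ⊓ LinearMap.ker f₃, ∀ b,
      t (Sum.inr (Sum.inr (1, b))) = 0 := by
    intro t ht s
    have h5 : f₃ t = 0 := ht.2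
    exact congrFun h5 s
  have a1 := ty_rn T f₁ T₁ h1
  have a2 := ty_rn (T ⊓ LinearMap.ker f₁) f₂ Kp (fun t ht => h2 t ht.1 (e1 t ht))
  have a3 := ty_rn (T ⊓ LinearMap.ker f₁ ⊓ LinearMap.ker f₂) f₃ Kr
    (fun t ht => h3 t ht.1.1 (e1 t ht.1) (e2 t ht))
  have a4 := ty_rn (T ⊓ LinearMap.ker f₁ ⊓ LinearMap.ker f₂ ⊓ LinearMap.ker f₃) ρ K
    (fun t ht => (h4 t ht.1.1.1 (e1 t ht.1.1) (e2 t ht.1) (e3 t ht)).1)
  have a5 : (T ⊓ LinearMap.ker f₁ ⊓ LinearMap.ker f₂ ⊓ LinearMap.ker f₃ ⊓ LinearMap.ker ρ) = ⊥ := by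
    rw [eq_bot_iff]
    intro t ht
    exact (h4 t ht.1.1.1.1 (e1 t ht.1.1.1) (e2 t ht.1.1) (e3 t ht.1)).2 ht.2
  rw [a5, finrank_bot] at a4
  omega

theorem ty_ann {h : ℕ} {N : Type} [AddCommGroup N] [Module L N] [Module.Finite L N]
    (F : N →ₗ[L] (Fin h → L)) (U : Submodule L (Fin h → L))
    (hU : ∀ η : Fin h → L, (∀ n, η ⬝ᵥ F n = 0) → η ∈ U) :
    Module.finrank L (LinearMap.ker F) + h ≤ Module.finrank L N + Module.finrank L U := by
  have h1 := LinearMap.finrank_range_add_finrank_ker F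
  have h2 := Subspace.finrank_add_finrank_dualAnnihilator_eq (LinearMap.range F)
  rw [Module.finrank_fin_fun] at h2
  let g₀ : Module.Dual L (Fin h → L) →ₗ[L] (Fin h → L) :=
    { toFun := fun φ s => φ (fun j => if s = j then 1 else 0)
      map_add' := fun _ _ => rfl
      map_smul' := fun _ _ => rfl }
  have hg : ∀ (φ : Module.Dual L (Fin h → L)) (w : Fin h → L), g₀ φ ⬝ᵥ w = φ w := by
    intro φ w
    rw [LinearMap.pi_apply_eq_sum_univ φ w]
    exact Finset.sum_congr rfl fun s _ => mul_comm _ _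
  have h3 : ∀ φ : (LinearMap.range F).dualAnnihilator, g₀ φ.1 ∈ U := by
    intro φ
    refine hU _ fun n => ?_
    rw [hg]
    exact (Submodule.mem_dualAnnihilator _).1 φ.2 _ ⟨n, rfl⟩
  have h4 : Function.Injective ((g₀.comp (LinearMap.range F).dualAnnihilator.subtype).codRestrict U h3) := by
    refine (injective_iff_map_eq_zero _).2 ?_
    intro φ hφ
    have h5 : g₀ φ.1 = 0 := congrArg Subtype.val hφ
    apply Subtype.ext
    apply LinearMap.ext
    intro w
    rw [← hg, h5, zero_dotProduct]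
    rfl
  have h5 := LinearMap.finrank_le_finrank_of_injective h4
  omega

/-- Evaluation of polynomials of degree `< i`. -/
def tyEv (i : ℕ) (Λ : Finset L) : (Fin i → L) →ₗ[L] (Λ → L) where
  toFun p l := ∑ b : Fin i, p b * (l : L) ^ (b : ℕ)
  map_add' p q := by
    funext l
    simp only [Pi.add_apply, add_mul, Finset.sum_add_distrib]
  map_smul' c p := by
    funext l
    simp only [Pi.smul_apply, smul_eq_mul, RingHom.id_apply, Finset.mul_sum, mul_assoc]

theorem ty_int [DecidableEq L] (i : ℕ) (Λ : Finset L) (hΛ : Λ.card ≤ i) :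
    Module.finrank L (LinearMap.ker (tyEv i Λ)) + Λ.card = i := by
  have h1 := LinearMap.finrank_range_add_finrank_ker (tyEv i Λ)
  rw [Module.finrank_fin_fun] at h1
  have h2 : LinearMap.range (tyEv i Λ) = ⊤ := by
    rw [LinearMap.range_eq_top]
    intro r
    let r' : L → L := fun l => if h : l ∈ Λ then r ⟨l, h⟩ else 0
    have h3 : (Lagrange.interpolate Λ id r').degree < (i : WithBot ℕ) :=
      (Lagrange.degree_interpolate_lt r' (Set.injOn_id _)).trans_le (by exact_mod_cast hΛ)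
    have h4 : Lagrange.interpolate Λ id r' ∈ Polynomial.degreeLT L i := Polynomial.mem_degreeLT.2 h3
    refine ⟨Polynomial.degreeLTEquiv L i ⟨_, h4⟩, ?_⟩
    funext l
    have h5 := Polynomial.eval_eq_sum_degreeLTEquiv h4 (l : L)
    have h6 : Polynomial.eval (id (l : L)) (Lagrange.interpolate Λ id r') = r' l :=
      Lagrange.eval_interpolate_at_node r' (Set.injOn_id _) l.2
    have h7 : r' l = r l := dif_pos l.2
    rw [← h7, ← h6]
    exact h5.symm
  rw [h2, finrank_top, Module.finrank_fintype_fun_eq_card, Fintype.card_coe] at h1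
  omega

/-! ### eigenvalues -/

theorem ty_sc {h : ℕ} (μ : L) (η : Fin h → L) : η ᵥ* Matrix.scalar (Fin h) μ = μ • η := by
  ext s
  rw [Matrix.scalar_apply, Matrix.vecMul_diagonal, Pi.smul_apply, smul_eq_mul, mul_comm]

theorem ty_sc' {h : ℕ} (μ : L) (η : Fin h → L) : Matrix.scalar (Fin h) μ *ᵥ η = μ • η := by
  ext s
  rw [Matrix.scalar_apply, Matrix.mulVec_diagonal, Pi.smul_apply, smul_eq_mul]

theorem ty_eig {h : ℕ} (x : Matrix (Fin h) (Fin h) L) (μ : L) (η : Fin h → L) (h0 : η ≠ 0)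
    (h1 : η ᵥ* x = μ • η) : x.charpoly.eval μ = 0 := by
  rw [Matrix.eval_charpoly]
  refine Matrix.exists_vecMul_eq_zero_iff.1 ⟨η, h0, ?_⟩
  rw [vecMul_sub, ty_sc, h1, sub_self]

theorem ty_eig' {h : ℕ} (x : Matrix (Fin h) (Fin h) L) (μ : L) (η : Fin h → L) (h0 : η ≠ 0)
    (h1 : x *ᵥ η = μ • η) : x.charpoly.eval μ = 0 := by
  rw [Matrix.eval_charpoly]
  refine Matrix.exists_mulVec_eq_zero_iff.1 ⟨η, h0, ?_⟩
  rw [sub_mulVec, ty_sc', h1, sub_self]

theorem ty_pow {h : ℕ} (x : Matrix (Fin h) (Fin h) L) (μ : L) (η : Fin h → L)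
    (h1 : η ᵥ* x = μ • η) (s : ℕ) : η ᵥ* x ^ s = μ ^ s • η := by
  induction s with
  | zero => rw [pow_zero, pow_zero, vecMul_one, one_smul]
  | succ s ih => rw [pow_succ, ← vecMul_vecMul, ih, smul_vecMul, h1, smul_smul, pow_succ]

theorem ty_re {h i : ℕ} (x : Matrix (Fin h) (Fin h) L) (μ : L) (η : Fin h → L) (r : Fin i → L)
    (h1 : η ᵥ* x = μ • η) : η ᵥ* re r x = (∑ b : Fin i, r b * μ ^ (b : ℕ)) • η := by
  unfold re
  rw [vecMul_sum, Finset.sum_smul]
  refine Finset.sum_congr rfl fun b _ => ?_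
  rw [vecMul_smul, ty_pow x μ η h1, smul_smul]

theorem ty_pe {h i : ℕ} (x : Matrix (Fin h) (Fin h) L) (μ : L) (η : Fin h → L) (p : Fin i → L)
    (h1 : η ᵥ* x = μ • η) : η ᵥ* pe p x = (μ ^ i + ∑ b : Fin i, p b * μ ^ (b : ℕ)) • η := by
  have h2 := ty_re x μ η p h1
  unfold re at h2
  unfold pe
  rw [vecMul_add, h2, ty_pow x μ η h1, add_smul]

/-- The number of roots. -/
theorem ty_roots [DecidableEq L] {i : ℕ} (p : Fin i → L) (Λ : Finset L)
    (hΛ : ∀ μ ∈ Λ, μ ^ i + ∑ b : Fin i, p b * μ ^ (b : ℕ) = 0) : Λ.card ≤ i := by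
  have h1 : (∑ b : Fin i, Polynomial.C (p b) * Polynomial.X ^ (b : ℕ)).degree < (i : WithBot ℕ) :=
    Polynomial.degree_sum_fin_lt p
  have h2 : (Polynomial.X ^ i + ∑ b : Fin i, Polynomial.C (p b) * Polynomial.X ^ (b : ℕ)).Monic :=
    Polynomial.monic_X_pow_add h1
  have h3 : (Polynomial.X ^ i + ∑ b : Fin i, Polynomial.C (p b) * Polynomial.X ^ (b : ℕ)).natDegree = i := by
    rw [Polynomial.natDegree_add_eq_left_of_degree_lt (by rwa [Polynomial.degree_X_pow]),
      Polynomial.natDegree_X_pow]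
  have h4 : Λ ⊆ (Polynomial.X ^ i + ∑ b : Fin i, Polynomial.C (p b) * Polynomial.X ^ (b : ℕ)).roots.toFinset := by
    intro μ hμ
    rw [Multiset.mem_toFinset, Polynomial.mem_roots h2.ne_zero, Polynomial.IsRoot.def]
    simp only [Polynomial.eval_add, Polynomial.eval_pow, Polynomial.eval_X, Polynomial.eval_finsetSum,
      Polynomial.eval_mul, Polynomial.eval_C]
    exact hΛ μ hμ
  calc Λ.card ≤ _ := Finset.card_le_card h4
    _ ≤ _ := Multiset.toFinset_card_le _
    _ ≤ _ := Polynomial.card_roots' _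
    _ = i := h3

/-! ### derivations -/

variable [Algebra ℂ L]

/-- `δ` kills the entries. -/
def TyK {ι κ : Type} (δ : Derivation ℂ L L) (M : Matrix ι κ L) : Prop := ∀ s t, δ (M s t) = 0

theorem tyK_add {ι κ : Type} {δ : Derivation ℂ L L} {M N : Matrix ι κ L} (hM : TyK δ M)
    (hN : TyK δ N) : TyK δ (M + N) := fun s t => by
  rw [Matrix.add_apply, map_add, hM, hN, add_zero]

theorem tyK_smul {ι κ : Type} {δ : Derivation ℂ L L} {M : Matrix ι κ L} {c : L} (hc : δ c = 0)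
    (hM : TyK δ M) : TyK δ (c • M) := fun s t => by
  rw [Matrix.smul_apply, smul_eq_mul, Derivation.leibniz, hM, hc, smul_zero, smul_zero, add_zero]

theorem tyK_zero {ι κ : Type} {δ : Derivation ℂ L L} : TyK δ (0 : Matrix ι κ L) :=
  fun s t => map_zero δ

theorem tyK_sum {ι κ σ : Type} {δ : Derivation ℂ L L} (s : Finset σ) (f : σ → Matrix ι κ L)
    (hf : ∀ b ∈ s, TyK δ (f b)) : TyK δ (∑ b ∈ s, f b) := fun k l => by
  rw [Matrix.sum_apply, map_sum]
  exact Finset.sum_eq_zero fun b hb => hf b hb k l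

theorem tyK_pow {ι : Type} [Fintype ι] [DecidableEq ι] {δ : Derivation ℂ L L} {M : Matrix ι ι L}
    (hM : TyK δ M) (n : ℕ) : TyK δ (M ^ n) := by
  induction n with
  | zero =>
    intro s t
    rw [pow_zero, one_apply]
    split_ifs
    · exact δ.map_one_eq_zero
    · exact map_zero δ
  | succ n ih =>
    intro s t
    rw [pow_succ, mul_apply, map_sum]
    exact Finset.sum_eq_zero fun u _ => by
      rw [Derivation.leibniz, hM, ih, smul_zero, smul_zero, add_zero]

theorem tyK_re {h i : ℕ} {δ : Derivation ℂ L L} {x : Matrix (Fin h) (Fin h) L} {r : Fin i → L}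
    (hx' : TyK δ x) (hr : ∀ s, δ (r s) = 0) : TyK δ (re r x) :=
  tyK_sum _ _ fun b _ => tyK_smul (hr b) (tyK_pow hx' _)

theorem tyK_pe {h i : ℕ} {δ : Derivation ℂ L L} {x : Matrix (Fin h) (Fin h) L} {r : Fin i → L}
    (hx' : TyK δ x) (hr : ∀ s, δ (r s) = 0) : TyK δ (pe r x) :=
  tyK_add (tyK_pow hx' _) (tyK_re hx' hr)

theorem ty_dmv {ι κ : Type} [Fintype κ] {δ : Derivation ℂ L L} {M : Matrix ι κ L} (hM : TyK δ M)
    (u : κ → L) (s : ι) : δ ((M *ᵥ u) s) = (M *ᵥ fun t => δ (u t)) s := by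
  simp only [mulVec, dotProduct, map_sum]
  exact Finset.sum_congr rfl fun t _ => by
    rw [Derivation.leibniz, hM, smul_zero, add_zero, smul_eq_mul]

/-- The matrices of `qe`. -/
def tyW {h i : ℕ} (p : Fin i → L) (x : Matrix (Fin h) (Fin h) L) (u : Fin i) :
    Matrix (Fin h) (Fin h) L :=
  x ^ (i - 1 - (u : ℕ)) + ∑ l : Fin i, if (u : ℕ) < l then p l • x ^ ((l : ℕ) - 1 - u) else 0

theorem ty_qe {h i : ℕ} (p c : Fin i → L) (x : Matrix (Fin h) (Fin h) L) (v : Fin h → L) :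
    qe p c x *ᵥ v = ∑ u : Fin i, c u • (tyW p x u *ᵥ v) := by
  unfold qe
  rw [sum_mulVec]
  exact Finset.sum_congr rfl fun u _ => smul_mulVec _ _ _

theorem tyK_W {h i : ℕ} {δ : Derivation ℂ L L} {x : Matrix (Fin h) (Fin h) L} {p : Fin i → L}
    (hx' : TyK δ x) (hp : ∀ s, δ (p s) = 0) (u : Fin i) : TyK δ (tyW p x u) := by
  refine tyK_add (tyK_pow hx' _) (tyK_sum _ _ fun l _ => ?_)
  split_ifs
  · exact tyK_smul (hp l) (tyK_pow hx' _)
  · exact tyK_zero

theorem ty_dq {h i : ℕ} {δ : Derivation ℂ L L} {x : Matrix (Fin h) (Fin h) L} {p : Fin i → L}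
    (hx' : TyK δ x) (hp : ∀ s, δ (p s) = 0) (c : Fin i → L) (v : Fin h → L)
    (hv' : ∀ s, δ (v s) = 0) (s : Fin h) :
    δ ((qe p c x *ᵥ v) s) = (qe p (fun t => δ (c t)) x *ᵥ v) s := by
  rw [ty_qe, ty_qe, Finset.sum_apply, Finset.sum_apply, map_sum]
  refine Finset.sum_congr rfl fun u _ => ?_
  rw [Pi.smul_apply, Pi.smul_apply, smul_eq_mul, smul_eq_mul, Derivation.leibniz,
    ty_dmv (tyK_W hx' hp u)]
  have h1 : (fun t => δ (v t)) = 0 := funext hv'
  rw [h1, mulVec_zero, Pi.zero_apply, smul_zero, zero_add, smul_eq_mul, mul_comm]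

theorem ty_dP (δ : Derivation ℂ L L) {i : ℕ} (p : Fin i → L) (μ : L)
    (h0 : μ ^ i + ∑ b : Fin i, p b * μ ^ (b : ℕ) = 0) :
    ∑ b : Fin i, δ (p b) * μ ^ (b : ℕ) = -(((i : L) * μ ^ (i - 1) +
      ∑ b : Fin i, p b * ((b : ℕ) : L) * μ ^ ((b : ℕ) - 1)) * δ μ) := by
  have h1 := congrArg δ h0
  rw [map_add, map_sum, map_zero, Derivation.leibniz_pow] at h1
  simp only [Derivation.leibniz, Derivation.leibniz_pow, smul_eq_mul, nsmul_eq_mul,
    Finset.sum_add_distrib] at h1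
  have h2 : ∑ b : Fin i, p b * (((b : ℕ) : L) * (μ ^ ((b : ℕ) - 1) * δ μ)) =
      (∑ b : Fin i, p b * ((b : ℕ) : L) * μ ^ ((b : ℕ) - 1)) * δ μ := by
    rw [Finset.sum_mul]
    exact Finset.sum_congr rfl fun b _ => by ring
  have h3 : ∑ b : Fin i, μ ^ (b : ℕ) * δ (p b) = ∑ b : Fin i, δ (p b) * μ ^ (b : ℕ) :=
    Finset.sum_congr rfl fun b _ => mul_comm _ _
  rw [h2, h3] at h1
  linear_combination h1

theorem ty_dR (δ : Derivation ℂ L L) {i : ℕ} (r : Fin i → L) (μ : L) (h0 : δ μ = 0)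
    (h1 : δ (∑ b : Fin i, r b * μ ^ (b : ℕ)) = 0) : ∑ b : Fin i, δ (r b) * μ ^ (b : ℕ) = 0 := by
  rw [map_sum] at h1
  rw [← h1]
  refine Finset.sum_congr rfl fun b _ => ?_
  rw [Derivation.leibniz, Derivation.leibniz_pow, h0, smul_zero, smul_zero, smul_zero, zero_add,
    smul_eq_mul, mul_comm]

theorem ty_alg {h : ℕ} (δ : Derivation ℂ L L) (x : Matrix (Fin h) (Fin h) L) (μ : L)
    (h0 : x.charpoly.eval μ = 0) (h1 : TyK δ x) : δ μ = 0 := by
  obtain ⟨ℓ, hℓ⟩ := thm_Alg ℂ L (Fin h × Fin h) (fun t => x t.1 t.2) μ (tq_alg x μ h0)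
  rw [hℓ δ]
  have h2 : (fun t : Fin h × Fin h => δ (x t.1 t.2)) = 0 := by
    funext t
    exact h1 _ _
  rw [h2, map_zero]

/-- The values of the derivations. -/
def tyPsi {σ : Type} (z : σ → L) : Derivation ℂ L L →ₗ[L] (σ → L) where
  toFun δ s := δ (z s)
  map_add' δ δ' := rfl
  map_smul' c δ := rfl

theorem ty_T1 [IsAlgClosed L] [DecidableEq L] {h : ℕ} (x y : Matrix (Fin h) (Fin h) L)
    (v j : Fin h → L) (hAC : AC x y v j) :
    ∃ T₁ : Submodule L (Sv (Fin h) → L),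
      Module.finrank L T₁ ≤ h ^ 2 + h + x.charpoly.roots.toFinset.card ∧
      ∀ δ : Derivation ℂ L L, (fun s => δ (coI x y v j s)) ∈ T₁ := by
  obtain ⟨κ, _, ℓ, μ, J, hJ⟩ := Pool.Agent.ACV.thm_JBx L h x
  obtain ⟨T₁, hT₁, hδ₁⟩ : ∃ T₁ : Submodule L (Sv (Fin h) → L),
      Module.finrank L T₁ ≤ h ^ 2 + h + (Finset.univ.image μ).card ∧
        ∀ δ : Derivation ℂ L L, (fun i => δ (coI x y v j i)) ∈ T₁ :=
    Pool.Agent.ACV.thm_TA (Pool.Agent.ACV.thm_Xi Pool.Agent.ACV.thm_Stb) ℂ L h x y v j hAC κ ℓ μ J hJ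
  have hs : Finset.univ.image μ ⊆ x.charpoly.roots.toFinset := by
    intro l hl
    obtain ⟨k, -, rfl⟩ := Finset.mem_image.1 hl
    have hk := hJ.1 k
    have h1 := hJ.2 k ⟨ℓ k - 1, by omega⟩
    rw [dif_neg (by simp only [Fin.val_mk]; omega), add_zero] at h1
    rw [Multiset.mem_toFinset, Polynomial.mem_roots (Matrix.charpoly_monic x).ne_zero,
      Polynomial.IsRoot.def]
    exact ty_eig' x _ _ (J.ne_zero _) h1
  have hc := Finset.card_le_card hs
  exact ⟨T₁, by omega, hδ₁⟩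

/-! ### the common part -/

theorem ty_part (hUlm : St_Ulm) (hSpp : St_Spp) [IsAlgClosed L] {h i : ℕ}
    (x y : Matrix (Fin h) (Fin h) L) (v j a b : Fin h → L) (p r c : Fin i → L)
    (hAC : AC x y v j) (hD : dsx (h + i) (hx x a p) = 0)
    {N : Type} [AddCommGroup N] [Module L N] [Module.Finite L N] (U : Submodule L (Fin h → L))
    (hUx : ∀ η ∈ U, η ᵥ* x ∈ U) (hUP : ∀ η ∈ U, η ᵥ* pe p x = 0)
    (hUR : ∀ η ∈ U, η ᵥ* y = η ᵥ* re r x) (F : N →ₗ[L] (Fin h → L))
    (hFU : ∀ η : Fin h → L, (∀ n, η ⬝ᵥ F n = 0) → η ∈ U) (ρ : (Yv h i → L) →ₗ[L] N)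
    (hρ : ∀ δ : Derivation ℂ L L, TyK δ x → TyK δ y → (∀ s, δ (v s) = 0) → (∀ s, δ (j s) = 0) →
      (∀ s, δ (p s) = 0) → (∀ s, δ (r s) = 0) →
      F (ρ (tyPsi (coY x y v j a b p r c) δ)) = 0 ∧
      (ρ (tyPsi (coY x y v j a b p r c) δ) = 0 → tyPsi (coY x y v j a b p r c) δ = 0)) :
    Module.finrank L (LinearMap.range (tyPsi (coY x y v j a b p r c))) + 1 + h ≤
      h ^ 2 + 2 * h + 2 * i + Module.finrank L N := by
  classical
  obtain ⟨T₁, hT₁, hδ₁⟩ := ty_T1 x y v j hAC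
  have hann := ty_ann F U hFU
  -- the vanishing on the first block
  have k1 : ∀ δ : Derivation ℂ L L, (∀ s, tyPsi (coY x y v j a b p r c) δ (Sum.inl s) = 0) →
      TyK δ x ∧ TyK δ y ∧ (∀ s, δ (v s) = 0) ∧ (∀ s, δ (j s) = 0) := by
    intro δ h0
    refine ⟨fun s t => ?_, fun s t => ?_, fun s => ?_, fun s => ?_⟩
    · exact h0 (Sum.inl (0, s, t))
    · exact h0 (Sum.inl (1, s, t))
    · exact h0 (Sum.inr (0, s))
    · exact h0 (Sum.inr (1, s))
  have main : ∀ Λp Λr : Finset L, Λp.card ≤ i → Λr.card ≤ i →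
      (∀ μ ∈ Λp, μ ^ i + ∑ b : Fin i, p b * μ ^ (b : ℕ) = 0 ∧ (x.charpoly.eval μ = 0 ∨
        (i : L) * μ ^ (i - 1) + ∑ b : Fin i, p b * ((b : ℕ) : L) * μ ^ ((b : ℕ) - 1) = 0)) →
      (∀ μ ∈ Λr, x.charpoly.eval μ = 0 ∧
        y.charpoly.eval (∑ b : Fin i, r b * μ ^ (b : ℕ)) = 0) →
      Module.finrank L (LinearMap.range (tyPsi (coY x y v j a b p r c))) + Λp.card + Λr.card + h ≤
        h ^ 2 + h + x.charpoly.roots.toFinset.card + 2 * i + Module.finrank L N +
          Module.finrank L U := by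
    intro Λp Λr hcp hcr hp hr
    have hip := ty_int i Λp hcp
    have hir := ty_int i Λr hcr
    have hcount := ty_count (LinearMap.range (tyPsi (coY x y v j a b p r c))) T₁
      (LinearMap.ker (tyEv i Λp)) (LinearMap.ker (tyEv i Λr)) ρ (LinearMap.ker F)
      (by
        rintro t ⟨δ, rfl⟩
        exact hδ₁ δ)
      (by
        rintro t ⟨δ, rfl⟩ h0
        obtain ⟨kx, ky, kv, kj⟩ := k1 δ h0
        rw [LinearMap.mem_ker]
        funext l
        show ∑ b : Fin i, δ (p b) * (l : L) ^ (b : ℕ) = 0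
        obtain ⟨h1, h2⟩ := hp l l.2
        rw [ty_dP δ p l h1]
        rcases h2 with h2 | h2
        · rw [ty_alg δ x l h2 kx, mul_zero, neg_zero]
        · rw [h2, zero_mul, neg_zero])
      (by
        rintro t ⟨δ, rfl⟩ h0 h0p
        obtain ⟨kx, ky, kv, kj⟩ := k1 δ h0
        rw [LinearMap.mem_ker]
        funext l
        obtain ⟨h1, h2⟩ := hr l l.2
        exact ty_dR δ r l (ty_alg δ x l h1 kx) (ty_alg δ y _ h2 ky))
      (by
        rintro t ⟨δ, rfl⟩ h0 h0p h0r
        obtain ⟨kx, ky, kv, kj⟩ := k1 δ h0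
        exact hρ δ kx ky kv kj h0p h0r)
    omega
  -- the eigenvalues on `U`
  obtain ⟨Λ, hΛ⟩ : ∃ Λ : Finset L, ∀ μ : L, μ ∈ Λ ↔ ∃ η ∈ U, η ≠ 0 ∧ η ᵥ* x = μ • η := by
    refine ⟨x.charpoly.roots.toFinset.filter (fun μ => ∃ η ∈ U, η ≠ 0 ∧ η ᵥ* x = μ • η), ?_⟩
    intro μ
    rw [Finset.mem_filter]
    refine ⟨fun h => h.2, fun h => ⟨?_, h⟩⟩
    obtain ⟨η, -, h0, h1⟩ := h
    rw [Multiset.mem_toFinset, Polynomial.mem_roots (Matrix.charpoly_monic x).ne_zero,
      Polynomial.IsRoot.def]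
    exact ty_eig x μ η h0 h1
  have hulm := hUlm L h x U hUx Λ hΛ
  have hP : ∀ μ ∈ Λ, μ ^ i + ∑ b : Fin i, p b * μ ^ (b : ℕ) = 0 := by
    intro μ hμ
    obtain ⟨η, hη, h0, h1⟩ := (hΛ μ).1 hμ
    have h2 := ty_pe x μ η p h1
    rw [hUP η hη] at h2
    exact (smul_eq_zero.1 h2.symm).resolve_right h0
  rcases Finset.eq_empty_or_nonempty Λ with he | he
  · -- no eigenvalue
    have hU : U = ⊥ := by
      by_contra hne
      have hnt : Nontrivial U := Submodule.nontrivial_iff_ne_bot.2 hne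
      let f : Module.End L U := ((Matrix.vecMulLinear x).comp U.subtype).codRestrict U
        fun η => hUx η η.2
      obtain ⟨μ, hμ⟩ := Module.End.exists_eigenvalue f
      obtain ⟨η, hη⟩ := hμ.exists_hasEigenvector
      have h1 : f η = μ • η := hη.apply_eq_smul
      have h2 : (η : Fin h → L) ᵥ* x = μ • (η : Fin h → L) := congrArg Subtype.val h1
      have h3 : μ ∈ Λ := (hΛ μ).2 ⟨η, η.2, fun h0 => hη.2 (Subtype.ext h0), h2⟩
      rw [he] at h3
      exact absurd h3 (Finset.notMem_empty _)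
    have hU0 : Module.finrank L U = 0 := by rw [hU, finrank_bot]
    rw [he, Finset.card_empty] at hulm
    rcases hSpp L h i x a p hD with h1 | ⟨μ, h1, h2⟩ | ⟨μ, h1, h2⟩
    · have h3 := main ∅ ∅ (by simp) (by simp) (by simp) (by simp)
      rw [Finset.card_empty] at h3
      omega
    · have hc : ({μ} : Finset L).card ≤ i :=
        ty_roots p {μ} fun l hl => by rw [Finset.mem_singleton.1 hl]; exact h2
      have h3 := main {μ} ∅ hc (by simp)
        (fun l hl => by rw [Finset.mem_singleton.1 hl]; exact ⟨h2, Or.inl h1⟩) (by simp)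
      rw [Finset.card_empty, Finset.card_singleton] at h3
      omega
    · have hc : ({μ} : Finset L).card ≤ i :=
        ty_roots p {μ} fun l hl => by rw [Finset.mem_singleton.1 hl]; exact h1
      have h3 := main {μ} ∅ hc (by simp)
        (fun l hl => by rw [Finset.mem_singleton.1 hl]; exact ⟨h1, Or.inr h2⟩) (by simp)
      rw [Finset.card_empty, Finset.card_singleton] at h3
      omega
  · have hc : Λ.card ≤ i := ty_roots p Λ hP
    have h3 := main Λ Λ hc hc
      (fun μ hμ => by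
        obtain ⟨η, hη, h0, h1⟩ := (hΛ μ).1 hμ
        exact ⟨hP μ hμ, Or.inl (ty_eig x μ η h0 h1)⟩)
      (fun μ hμ => by
        obtain ⟨η, hη, h0, h1⟩ := (hΛ μ).1 hμ
        refine ⟨ty_eig x μ η h0 h1, ty_eig y _ η h0 ?_⟩
        rw [hUR η hη, ty_re x μ η r h1])
    have h4 := Finset.card_pos.2 he
    omega

/-! ### the two spaces of row vectors -/

theorem ty_comm_re {h i : ℕ} (x : Matrix (Fin h) (Fin h) L) (r : Fin i → L) :
    x * re r x = re r x * x := by
  unfold re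
  rw [Finset.mul_sum, Finset.sum_mul]
  refine Finset.sum_congr rfl fun b _ => ?_
  rw [mul_smul_comm, smul_mul_assoc, ← pow_succ', ← pow_succ]

theorem ty_comm_pe {h i : ℕ} (x : Matrix (Fin h) (Fin h) L) (p : Fin i → L) :
    x * pe p x = pe p x * x := by
  have h1 := ty_comm_re x p
  unfold re at h1
  unfold pe
  rw [mul_add, add_mul, h1, ← pow_succ', ← pow_succ]

/-- The linear map for the pairs. -/
def tyF2 {h i : ℕ} (x y : Matrix (Fin h) (Fin h) L) (p r : Fin i → L) :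
    ((Fin h → L) × (Fin h → L)) →ₗ[L] (Fin h → L) where
  toFun n := pe p x *ᵥ n.2 - (y *ᵥ n.1 - re r x *ᵥ n.1)
  map_add' n m := by
    simp only [Prod.fst_add, Prod.snd_add, mulVec_add]
    abel
  map_smul' c n := by
    simp only [Prod.smul_fst, Prod.smul_snd, mulVec_smul, RingHom.id_apply, smul_sub]

/-- The linear map for the triples. -/
def tyF1 {h i : ℕ} (x y : Matrix (Fin h) (Fin h) L) (v : Fin h → L) (p r : Fin i → L) :
    ((Fin h → L) × (Fin h → L)) × (Fin i → L) →ₗ[L] (Fin h → L) where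
  toFun n := tyF2 x y p r n.1 + qe p n.2 x *ᵥ v
  map_add' n m := by
    simp only [Prod.fst_add, Prod.snd_add, map_add, ty_qe, Pi.add_apply, add_smul,
      Finset.sum_add_distrib]
    abel
  map_smul' c n := by
    simp only [Prod.smul_fst, Prod.smul_snd, map_smul, ty_qe, RingHom.id_apply, smul_add,
      Pi.smul_apply, Finset.smul_sum, smul_eq_mul, mul_smul]

/-- The row vectors of the second part. -/
def tyU2 {h i : ℕ} (x y : Matrix (Fin h) (Fin h) L) (p r : Fin i → L) :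
    Submodule L (Fin h → L) where
  carrier := {η | η ᵥ* pe p x = 0 ∧ η ᵥ* y = η ᵥ* re r x}
  zero_mem' := ⟨zero_vecMul _, by rw [zero_vecMul, zero_vecMul]⟩
  add_mem' := by
    rintro η θ ⟨h1, h2⟩ ⟨h3, h4⟩
    exact ⟨by rw [add_vecMul, h1, h3, add_zero], by rw [add_vecMul, add_vecMul, h2, h4]⟩
  smul_mem' := by
    rintro c η ⟨h1, h2⟩
    exact ⟨by rw [smul_vecMul, h1, smul_zero], by rw [smul_vecMul, smul_vecMul, h2]⟩

/-- The row vectors which kill all `x^s v`, `s < i`. -/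
def tyU0 {h : ℕ} (i : ℕ) (x : Matrix (Fin h) (Fin h) L) (v : Fin h → L) :
    Submodule L (Fin h → L) where
  carrier := {η | ∀ s < i, η ⬝ᵥ (x ^ s *ᵥ v) = 0}
  zero_mem' := fun s _ => zero_dotProduct _
  add_mem' := by
    intro η θ h1 h2 s hs
    rw [add_dotProduct, h1 s hs, h2 s hs, add_zero]
  smul_mem' := by
    intro c η h1 s hs
    rw [smul_dotProduct, h1 s hs, smul_zero]

theorem ty_F2U {h i : ℕ} (x y : Matrix (Fin h) (Fin h) L) (p r : Fin i → L) (η : Fin h → L)
    (hη : ∀ n, η ⬝ᵥ tyF2 x y p r n = 0) : η ∈ tyU2 x y p r := by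
  constructor
  · refine dotProduct_eq_zero _ fun w => ?_
    have h1 := hη (0, w)
    simp only [tyF2, LinearMap.coe_mk, AddHom.coe_mk, mulVec_zero, sub_zero] at h1
    rw [← dotProduct_mulVec, h1]
  · rw [← sub_eq_zero]
    refine dotProduct_eq_zero _ fun w => ?_
    have h1 := hη (w, 0)
    simp only [tyF2, LinearMap.coe_mk, AddHom.coe_mk, mulVec_zero, zero_sub, dotProduct_neg,
      neg_eq_zero, dotProduct_sub] at h1
    rw [sub_dotProduct, ← dotProduct_mulVec, ← dotProduct_mulVec, h1]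

theorem ty_F1U {h i : ℕ} (x y : Matrix (Fin h) (Fin h) L) (v : Fin h → L) (p r : Fin i → L)
    (η : Fin h → L) (hη : ∀ n, η ⬝ᵥ tyF1 x y v p r n = 0) :
    η ∈ tyU2 x y p r ⊓ tyU0 i x v := by
  constructor
  · apply ty_F2U
    intro n
    have h1 := hη (n, 0)
    simp only [tyF1, LinearMap.coe_mk, AddHom.coe_mk, ty_qe, Pi.zero_apply, zero_smul,
      Finset.sum_const_zero, add_zero] at h1
    exact h1
  · have h2 : ∀ u : Fin i, η ⬝ᵥ (tyW p x u *ᵥ v) = 0 := by
      intro u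
      have h1 := hη (0, Pi.single u 1)
      simp only [tyF1, LinearMap.coe_mk, AddHom.coe_mk, ty_qe, map_zero, zero_add] at h1
      rw [Finset.sum_eq_single u (fun w _ hw => by rw [Pi.single_eq_of_ne hw, zero_smul])
        (fun h3 => absurd (Finset.mem_univ u) h3), Pi.single_eq_same, one_smul] at h1
      exact h1
    intro s
    induction s using Nat.strong_induction_on with
    | _ s ih =>
      intro hs
      have h1 := h2 ⟨i - 1 - s, by omega⟩
      unfold tyW at h1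
      rw [add_mulVec, dotProduct_add, sum_mulVec, dotProduct_sum] at h1
      rw [Finset.sum_eq_zero, add_zero] at h1
      · have h3 : i - 1 - (i - 1 - s) = s := by omega
        simp only [Fin.val_mk, h3] at h1
        exact h1
      · intro l _
        split_ifs with h3
        · rw [smul_mulVec, dotProduct_smul, ih _ (by
            have := l.2
            simp only [Fin.val_mk] at h3 ⊢
            omega) (by
            have := l.2
            simp only [Fin.val_mk] at h3 ⊢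
            omega), smul_zero]
        · rw [zero_mulVec, dotProduct_zero]

theorem ty_U2x {h i : ℕ} (x y : Matrix (Fin h) (Fin h) L) (v j : Fin h → L) (p r : Fin i → L)
    (hAC : AC x y v j) (η : Fin h → L) (hη : η ∈ tyU2 x y p r) (h0 : (η ⬝ᵥ v) • j = 0) :
    η ᵥ* x ∈ tyU2 x y p r := by
  obtain ⟨h1, h2⟩ := hη
  constructor
  · rw [vecMul_vecMul, ty_comm_pe, ← vecMul_vecMul, h1, zero_vecMul]
  · have h3 : x * y = y * x - vecMulVec v j := by
      unfold AC at hAC
      rw [← sub_eq_zero, ← hAC]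
      abel
    rw [vecMul_vecMul, vecMul_vecMul, ty_comm_re, h3, vecMul_sub, ← vecMul_vecMul, h2,
      vecMul_vecMul]
    have h4 : η ᵥ* vecMulVec v j = (η ⬝ᵥ v) • j := by
      ext t
      simp only [vecMul, vecMulVec, dotProduct, Matrix.of_apply, Pi.smul_apply, smul_eq_mul,
        Finset.sum_mul]
      exact Finset.sum_congr rfl fun s _ => by ring
    rw [h4, h0, sub_zero]

theorem ty_U0v {h i : ℕ} (x y : Matrix (Fin h) (Fin h) L) (v : Fin h → L) (p r : Fin i → L)
    (η : Fin h → L) (h1 : η ∈ tyU2 x y p r) (h2 : η ∈ tyU0 i x v) : η ⬝ᵥ v = 0 := by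
  rcases Nat.eq_zero_or_pos i with h0 | h0
  · subst h0
    have h3 : pe p x = 1 := by
      unfold pe
      rw [Finset.univ_eq_empty, Finset.sum_empty, pow_zero, add_zero]
    have h4 := h1.1
    rw [h3, vecMul_one] at h4
    rw [h4, zero_dotProduct]
  · have h3 := h2 0 h0
    rwa [pow_zero, one_mulVec] at h3

theorem ty_U0x {h i : ℕ} (x y : Matrix (Fin h) (Fin h) L) (v : Fin h → L) (p r : Fin i → L)
    (η : Fin h → L) (h1 : η ∈ tyU2 x y p r) (h2 : η ∈ tyU0 i x v) : η ᵥ* x ∈ tyU0 i x v := by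
  intro s hs
  rw [← dotProduct_mulVec, mulVec_mulVec, ← pow_succ']
  rcases Nat.lt_or_ge (s + 1) i with h3 | h3
  · exact h2 _ h3
  · have h4 : s + 1 = i := by omega
    rw [h4]
    have h5 : η ⬝ᵥ (pe p x *ᵥ v) = 0 := by
      rw [dotProduct_mulVec, h1.1, zero_dotProduct]
    unfold pe at h5
    rw [add_mulVec, dotProduct_add, sum_mulVec, dotProduct_sum, Finset.sum_eq_zero, add_zero] at h5
    · exact h5
    · intro b _
      rw [smul_mulVec, dotProduct_smul, h2 _ b.2, smul_zero]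

theorem thm_TY (hUlm : St_Ulm) (hSpp : St_Spp) : St_TY := by
  classical
  intro L _ _ _ h i x y v j a b p r c hAC hE hD
  have hd2 : ∀ δ : Derivation ℂ L L, TyK δ x → TyK δ y → (∀ s, δ (v s) = 0) →
      (∀ s, δ (p s) = 0) → (∀ s, δ (r s) = 0) →
      pe p x *ᵥ (fun s => δ (b s)) - (y *ᵥ (fun s => δ (a s)) - re r x *ᵥ (fun s => δ (a s))) +
        qe p (fun s => δ (c s)) x *ᵥ v = 0 := by
    intro δ kx ky kv kp kr
    funext s
    have h1 := congrArg δ (congrFun hE s)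
    simp only [Pi.add_apply, Pi.sub_apply, Pi.zero_apply, map_add, map_sub, map_zero] at h1
    rw [ty_dmv (tyK_pe kx kp), ty_dmv ky, ty_dmv (tyK_re kx kr), ty_dq kx kp c v kv] at h1
    simp only [Pi.add_apply, Pi.sub_apply, Pi.zero_apply]
    exact h1
  constructor
  · refine ⟨LinearMap.range (tyPsi (coY x y v j a b p r c)), ?_, fun δ => ⟨δ, rfl⟩⟩
    have h1 := ty_part hUlm hSpp x y v j a b p r c hAC hD (tyU2 x y p r ⊓ tyU0 i x v)
      (fun η hη => ⟨ty_U2x x y v j p r hAC η hη.1 (by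
          rw [ty_U0v x y v p r η hη.1 hη.2, zero_smul]), ty_U0x x y v p r η hη.1 hη.2⟩)
      (fun η hη => hη.1.1) (fun η hη => hη.1.2) (tyF1 x y v p r) (ty_F1U x y v p r)
      (((LinearMap.funLeft L L (fun s : Fin h => (Sum.inr (Sum.inl (0, s)) : Yv h i))).prod
        (LinearMap.funLeft L L (fun s : Fin h => (Sum.inr (Sum.inl (1, s)) : Yv h i)))).prod
        (LinearMap.funLeft L L (fun s : Fin i => (Sum.inr (Sum.inr (2, s)) : Yv h i))))
      (by
        intro δ kx ky kv kj kp kr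
        refine ⟨hd2 δ kx ky kv kp kr, fun h0 => ?_⟩
        have ha : ∀ s, δ (a s) = 0 := fun s =>
          congrFun (congrArg (fun n : ((Fin h → L) × (Fin h → L)) × (Fin i → L) => n.1.1) h0) s
        have hb : ∀ s, δ (b s) = 0 := fun s =>
          congrFun (congrArg (fun n : ((Fin h → L) × (Fin h → L)) × (Fin i → L) => n.1.2) h0) s
        have hc : ∀ s, δ (c s) = 0 := fun s =>
          congrFun (congrArg (fun n : ((Fin h → L) × (Fin h → L)) × (Fin i → L) => n.2) h0) s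
        funext t
        rcases t with (⟨d, s, u⟩ | ⟨d, s⟩) | ⟨d, s⟩ | ⟨d, s⟩ <;> fin_cases d
        · exact kx s u
        · exact ky s u
        · exact kv s
        · exact kj s
        · exact ha s
        · exact hb s
        · exact kp s
        · exact kr s
        · exact hc s)
    rw [Module.finrank_prod, Module.finrank_prod, Module.finrank_fin_fun, Module.finrank_fin_fun] at h1
    omega
  · intro hj hc0
    subst hj
    subst hc0
    refine ⟨LinearMap.range (tyPsi (coY x y v 0 a b p r 0)), ?_, fun δ => ⟨δ, rfl⟩⟩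
    have h1 := ty_part hUlm hSpp x y v 0 a b p r 0 hAC hD (tyU2 x y p r)
      (fun η hη => ty_U2x x y v 0 p r hAC η hη (smul_zero _))
      (fun η hη => hη.1) (fun η hη => hη.2) (tyF2 x y p r) (ty_F2U x y p r)
      ((LinearMap.funLeft L L (fun s : Fin h => (Sum.inr (Sum.inl (0, s)) : Yv h i))).prod
        (LinearMap.funLeft L L (fun s : Fin h => (Sum.inr (Sum.inl (1, s)) : Yv h i))))
      (by
        intro δ kx ky kv kj kp kr
        refine ⟨?_, fun h0 => ?_⟩
        · have h2 := hd2 δ kx ky kv kp kr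
          have h3 : (fun s => δ ((0 : Fin i → L) s)) = 0 := by
            funext s
            exact map_zero δ
          rw [h3, ty_qe] at h2
          simp only [Pi.zero_apply, zero_smul, Finset.sum_const_zero, add_zero] at h2
          exact h2
        · have ha : ∀ s, δ (a s) = 0 := fun s =>
            congrFun (congrArg (fun n : ((Fin h → L) × (Fin h → L)) => n.1) h0) s
          have hb : ∀ s, δ (b s) = 0 := fun s =>
            congrFun (congrArg (fun n : ((Fin h → L) × (Fin h → L)) => n.2) h0) s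
          funext t
          rcases t with (⟨d, s, u⟩ | ⟨d, s⟩) | ⟨d, s⟩ | ⟨d, s⟩ <;> fin_cases d
          · exact kx s u
          · exact ky s u
          · exact kv s
          · exact kj s
          · exact ha s
          · exact hb s
          · exact kp s
          · exact kr s
          · exact map_zero δ)
    rw [Module.finrank_prod, Module.finrank_fin_fun] at h1
    omega

end Pool.Agent.AOC
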