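import Pool.Agent.AOC.St

/-!
# AOC, module Ulm: stable subspaces and number of eigenvalues
-/

set_option autoImplicit false

namespace Pool.Agent.AOC

open Matrix

theorem ulm_ev {L V : Type} [Field L] [AddCommGroup V] [Module L V] (f : Module.End L V)
    (U : Submodule L V) (hle : U ≤ U.comap f) (μ : L) (hμ : f.HasEigenvalue μ)
    (hn : ¬ ∃ η ∈ U, η ≠ 0 ∧ f η = μ • η) :
    ∃ v : V ⧸ U, Module.End.HasEigenvector (U.mapQ U f hle) μ v := by
  obtain ⟨η, hη⟩ := hμ.exists_hasEigenvector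
  have h3 : f η = μ • η := hη.apply_eq_smul
  refine ⟨Submodule.Quotient.mk η, Module.End.mem_eigenspace_iff.2 ?_, ?_⟩
  · rw [Submodule.mapQ_apply, h3, Submodule.Quotient.mk_smul]
  · intro h0
    rw [Submodule.Quotient.mk_eq_zero] at h0
    exact hn ⟨η, h0, hη.2, h3⟩

theorem ulm_card {L V : Type} [Field L] [AddCommGroup V] [Module L V] [FiniteDimensional L V]
    (g : Module.End L V) (s : Finset L) (hs : ∀ μ ∈ s, ∃ v, g.HasEigenvector μ v) :
    s.card ≤ Module.finrank L V := by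
  have h1 : ∀ μ : {μ // μ ∈ s}, ∃ v, g.HasEigenvector μ.1 v := fun μ => hs μ.1 μ.2
  choose v hv using h1
  have hli : LinearIndependent L v :=
    g.eigenvectors_linearIndependent' (fun μ : {μ // μ ∈ s} => μ.1) Subtype.val_injective v hv
  have h3 : Fintype.card {μ // μ ∈ s} ≤ Module.finrank L V := hli.fintype_card_le_finrank
  rw [Fintype.card_coe] at h3
  exact h3

theorem ulm_main {L V : Type} [Field L] [DecidableEq L] [AddCommGroup V] [Module L V]
    [FiniteDimensional L V] (f : Module.End L V) (U : Submodule L V) (hle : U ≤ U.comap f)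
    (s Λ : Finset L) (hs : ∀ μ ∈ s, f.HasEigenvalue μ)
    (hΛ : ∀ μ, (∃ η ∈ U, η ≠ 0 ∧ f η = μ • η) → μ ∈ Λ) :
    s.card + Module.finrank L U ≤ Module.finrank L V + Λ.card := by
  have h3 : (s \ Λ).card ≤ Module.finrank L (V ⧸ U) :=
    ulm_card (U.mapQ U f hle) _ fun μ hμ => ulm_ev f U hle μ (hs μ (Finset.mem_sdiff.1 hμ).1)
      fun h => (Finset.mem_sdiff.1 hμ).2 (hΛ μ h)
  have h4 := U.finrank_quotient_add_finrank
  have h5 : s.card ≤ (s \ Λ).card + Λ.card := Finset.card_le_card_sdiff_add_card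
  omega

theorem thm_Ulm : St_Ulm := by
  intro L _ _ _ h x U hU Λ hΛ
  have hf : ∀ η, Matrix.toLin' xᵀ η = η ᵥ* x := fun η => by
    rw [Matrix.toLin'_apply, Matrix.mulVec_transpose]
  have hle : U ≤ U.comap (Matrix.toLin' xᵀ) := fun η hη => by
    rw [Submodule.mem_comap, hf]
    exact hU η hη
  have h1 := ulm_main (Matrix.toLin' xᵀ) U hle x.charpoly.roots.toFinset Λ
    (fun μ hμ => by
      rw [Multiset.mem_toFinset, Polynomial.mem_roots'] at hμ
      rw [Module.End.hasEigenvalue_iff_isRoot_charpoly, Matrix.charpoly_toLin',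
        Matrix.charpoly_transpose]
      exact hμ.2)
    (fun μ hμ => by
      obtain ⟨η, h1, h2, h3⟩ := hμ
      exact (hΛ μ).2 ⟨η, h1, h2, by rw [← hf, h3]⟩)
  rwa [Module.finrank_fin_fun] at h1

end Pool.Agent.AOC
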