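import Pool.Agent.AOC.St

/-!
# AOC, module UnS: universal property of `SA m k W` (MP_c67a3f_ag)
-/

set_option autoImplicit false

noncomputable section

namespace Pool.Agent.AOC

open Matrix Pool.Agent.CTR Pool.Agent.ANC

theorem uns_wd {ι R T : Type} [Fintype ι] [DecidableEq ι] [CommRing R] [CommRing T] (κ : R →+* T)
    (x y : Matrix ι ι R) (w : List Bool) : (wd x y w).map κ = wd (x.map κ) (y.map κ) w := by
  induction w with
  | nil => exact Matrix.map_one κ (map_zero κ) (map_one κ)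
  | cons b w ih =>
    simp only [wd]
    rw [Matrix.map_mul, ih]
    cases b <;> rfl

theorem uns_pow {ι R T : Type} [Fintype ι] [DecidableEq ι] [CommRing R] [CommRing T] (κ : R →+* T)
    (x : Matrix ι ι R) (b : ℕ) : (x ^ b).map κ = x.map κ ^ b :=
  map_pow κ.mapMatrix x b

theorem uns_frm {m k : ℕ} {R T : Type} [CommRing R] [CommRing T] (κ : R →+* T) (W : Fin m → List Bool)
    (x y : Matrix (Iv m k) (Iv m k) R) (v w : Iv m k → R) :
    (frm W x y v w).map κ = frm W (x.map κ) (y.map κ) (κ ∘ v) (κ ∘ w) := by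
  ext i s
  rcases s with a | b
  · show κ ((wd x y (W a) *ᵥ v) i) = (wd (x.map κ) (y.map κ) (W a) *ᵥ (κ ∘ v)) i
    rw [RingHom.map_mulVec, uns_wd]
  · show κ (((x ^ (b : ℕ)) *ᵥ w) i) = ((x.map κ ^ (b : ℕ)) *ᵥ (κ ∘ w)) i
    rw [RingHom.map_mulVec, uns_pow]

theorem uns_eq {ι R T : Type} [Fintype ι] [DecidableEq ι] [CommRing R] [CommRing T] (κ : R →+* T)
    (x y : Matrix ι ι R) (v j : ι → R) :
    (x * y - y * x + vecMulVec v j).map κ =
      x.map κ * y.map κ - y.map κ * x.map κ + vecMulVec (κ ∘ v) (κ ∘ j) := by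
  rw [← Matrix.map_mul, ← Matrix.map_mul]
  ext a b
  simp only [Matrix.map_apply, Matrix.add_apply, Matrix.sub_apply, vecMulVec_apply, map_add, map_sub, map_mul,
    Function.comp]

theorem thm_UnS : St_UnS := by
  intro m k W T _ κ hAC hU
  have hk : ∀ a ∈ IWd m k, κ a = 0 := by
    have h1 : IWd m k ≤ RingHom.ker κ := by
      unfold IWd
      rw [Ideal.span_le]
      rintro _ ⟨t, rfl⟩
      have h2 := uns_eq κ (wM m k 0) (wM m k 1) (wV m k 0) (wV m k 1)
      unfold AC at hAC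
      rw [hAC] at h2
      have h3 := congrFun (congrFun h2 t.1) t.2
      exact h3
    intro a ha
    exact h1 ha
  let φ₀ : (RW m k ⧸ IWd m k) →+* T := Ideal.Quotient.lift (IWd m k) κ hk
  have hφ : ∀ a, φ₀ (Ideal.Quotient.mk (IWd m k) a) = κ a := fun a => Ideal.Quotient.lift_mk _ _ _
  have hu : IsUnit (φ₀ (Ideal.Quotient.mk (IWd m k) (frm W (wM m k 0) (wM m k 1) (wV m k 0) (wV m k 2)).det)) := by
    rw [hφ, RingHom.map_det, RingHom.mapMatrix_apply, uns_frm]
    exact hU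
  refine ⟨IsLocalization.Away.lift (S := SA m k W)
    (Ideal.Quotient.mk (IWd m k) (frm W (wM m k 0) (wM m k 1) (wV m k 0) (wV m k 2)).det) hu, ?_⟩
  refine RingHom.ext fun a => ?_
  show IsLocalization.Away.lift (S := SA m k W)
    (Ideal.Quotient.mk (IWd m k) (frm W (wM m k 0) (wM m k 1) (wV m k 0) (wV m k 2)).det) hu
      (algebraMap (RW m k ⧸ IWd m k) (SA m k W) (Ideal.Quotient.mk (IWd m k) a)) = κ a
  rw [IsLocalization.Away.lift_eq, hφ]

end Pool.Agent.AOC
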