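import Pool.Agent.AOC.St

/-!
# AOC, module UnZ: universal property of `QZ m k h i W` (MP_c67a3f_ag)
-/

set_option autoImplicit false

noncomputable section

namespace Pool.Agent.AOC

open Matrix Pool.Agent.CTR Pool.Agent.ANC

theorem unz_smul {ι R T : Type} [Fintype ι] [DecidableEq ι] [CommRing R] [CommRing T]
    (κ : R →+* T) (c : R) (x : Matrix ι ι R) :
    κ.mapMatrix (c • x) = κ c • κ.mapMatrix x := by
  ext a b
  simp [Matrix.map_apply, Matrix.smul_apply]

theorem unz_pe {ι R T : Type} [Fintype ι] [DecidableEq ι] [CommRing R] [CommRing T] {i : ℕ}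
    (κ : R →+* T) (p : Fin i → R) (x : Matrix ι ι R) :
    (pe p x).map κ = pe (κ ∘ p) (x.map κ) := by
  show κ.mapMatrix (pe p x) = pe (κ ∘ p) (κ.mapMatrix x)
  unfold pe
  simp only [map_add, map_pow, map_sum, unz_smul, Function.comp]

theorem unz_re {ι R T : Type} [Fintype ι] [DecidableEq ι] [CommRing R] [CommRing T] {i : ℕ}
    (κ : R →+* T) (p : Fin i → R) (x : Matrix ι ι R) :
    (re p x).map κ = re (κ ∘ p) (x.map κ) := by
  show κ.mapMatrix (re p x) = re (κ ∘ p) (κ.mapMatrix x)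
  unfold re
  simp only [map_pow, map_sum, unz_smul, Function.comp]

theorem unz_qe {ι R T : Type} [Fintype ι] [DecidableEq ι] [CommRing R] [CommRing T] {i : ℕ}
    (κ : R →+* T) (p c : Fin i → R) (x : Matrix ι ι R) :
    (qe p c x).map κ = qe (κ ∘ p) (κ ∘ c) (x.map κ) := by
  show κ.mapMatrix (qe p c x) = qe (κ ∘ p) (κ ∘ c) (κ.mapMatrix x)
  unfold qe
  simp only [map_add, map_pow, map_sum, unz_smul, Function.comp]
  refine Finset.sum_congr rfl fun u _ => ?_
  congr 2
  refine Finset.sum_congr rfl fun l _ => ?_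
  split_ifs
  · rw [unz_smul, map_pow]
  · rw [map_zero]

theorem thm_UnZ : St_UnZ := by
  intro m k h i W T _ ψ hg hAC hE hU
  have h1 : ∀ t, ψ (eqZ m k h i t) = 0 := by
    rintro (⟨a, b⟩ | ⟨⟨a, b⟩ | s⟩)
    · have h2 := congrFun (congrFun hg a) b
      rw [← Matrix.map_mul] at h2
      show ψ ((zg' m k h i * zg m k h i - 1 : Matrix (Iv h i) (Iv h i) (RZ m k h i)) a b) = 0
      rw [Matrix.sub_apply, map_sub, sub_eq_zero]
      rw [Matrix.map_apply] at h2
      rw [h2, Matrix.one_apply, Matrix.one_apply]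
      split_ifs <;> simp
    · have h2 := congrFun (congrFun hAC a) b
      rw [← Matrix.map_mul, ← Matrix.map_mul] at h2
      simp only [Matrix.add_apply, Matrix.sub_apply, Matrix.map_apply, Matrix.zero_apply,
        vecMulVec_apply, Function.comp_apply] at h2
      show ψ ((zM m k h i 0 * zM m k h i 1 - zM m k h i 1 * zM m k h i 0 +
        vecMulVec (zV m k h i 0) (zV m k h i 1)) a b) = 0
      simp only [Matrix.add_apply, Matrix.sub_apply, vecMulVec_apply]
      rw [map_add, map_sub, map_mul]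
      exact h2
    · have h2 := congrFun hE s
      rw [← unz_pe, ← unz_qe, ← unz_re] at h2
      simp only [Pi.add_apply, Pi.sub_apply, Pi.zero_apply] at h2
      show ψ ((pe (zP m k h i 0) (zM m k h i 0) *ᵥ zA m k h i 1 -
        (zM m k h i 1 *ᵥ zA m k h i 0 - re (zP m k h i 1) (zM m k h i 0) *ᵥ zA m k h i 0) +
        qe (zP m k h i 0) (zP m k h i 2) (zM m k h i 0) *ᵥ zV m k h i 0) s) = 0
      simp only [Pi.add_apply, Pi.sub_apply]
      rw [map_add, map_sub, map_sub, RingHom.map_mulVec, RingHom.map_mulVec, RingHom.map_mulVec,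
        RingHom.map_mulVec]
      exact h2
  have hk : ∀ a ∈ IZ m k h i, ψ a = 0 := by
    have h2 : IZ m k h i ≤ RingHom.ker ψ := by
      unfold IZ
      rw [Ideal.span_le]
      rintro _ ⟨t, rfl⟩
      exact h1 t
    intro a ha
    exact h2 ha
  let φ₀ : (RZ m k h i ⧸ IZ m k h i) →+* T := Ideal.Quotient.lift (IZ m k h i) ψ hk
  have hφ : ∀ a, φ₀ (Ideal.Quotient.mk (IZ m k h i) a) = ψ a := fun a => Ideal.Quotient.lift_mk _ _ _
  have hu : IsUnit (φ₀ (Ideal.Quotient.mk (IZ m k h i) (thZ m k h i W))) := by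
    rw [hφ]
    exact hU
  refine ⟨IsLocalization.Away.lift (S := QZ m k h i W)
    (Ideal.Quotient.mk (IZ m k h i) (thZ m k h i W)) hu, ?_⟩
  refine RingHom.ext fun a => ?_
  show IsLocalization.Away.lift (S := QZ m k h i W)
    (Ideal.Quotient.mk (IZ m k h i) (thZ m k h i W)) hu
      (algebraMap (RZ m k h i ⧸ IZ m k h i) (QZ m k h i W) (Ideal.Quotient.mk (IZ m k h i) a)) = ψ a
  rw [IsLocalization.Away.lift_eq, hφ]

end Pool.Agent.AOC
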