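import Pool.Agent.ANC.All
import Pool.Agent.AOC.Cmp
import Pool.Agent.AOC.NAY
import Pool.Agent.AOC.NrY
import Pool.Agent.AOC.Adp
import Pool.Agent.AOC.Kap
import Pool.Agent.AOC.Kos
import Pool.Agent.AOC.Acy
import Pool.Agent.AOC.Ulm
import Pool.Agent.AOC.Spp
import Pool.Agent.AOC.TY
import Pool.Agent.AOC.DZ
import Pool.Agent.AOC.Cho
import Pool.Agent.AOC.RgZ
import Pool.Agent.AOC.UnS
import Pool.Agent.AOC.UnZ
import Pool.Agent.AOC.Rtr
import Pool.Agent.AOC.Reg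
import Pool.Agent.AOC.NZW
import Pool.Agent.AOC.Sub
import Pool.Agent.AOC.Frj
import Pool.Agent.AOC.Brg
import Pool.Agent.AOC.Loc
import Pool.Agent.AOC.Ptt
import Pool.Agent.AOC.GLt
import Pool.Agent.AOC.One
import Pool.Agent.AOC.Cub
import Pool.Agent.AOC.Dec

/-!
# AOC: assembly
-/

set_option autoImplicit false

namespace Pool.Agent.AOC

theorem all_DZ : St_DZ := thm_DZ thm_NAY (thm_TY thm_Ulm thm_Spp)

theorem all_RgZ : St_RgZ := thm_RgZ all_DZ thm_Cho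

theorem all_Rtr : St_Rtr :=
  thm_Rtr thm_NAY (thm_NrY thm_Cmp thm_NAY) (thm_Adp thm_Cmp) (thm_Kap thm_Cmp) thm_UnS thm_UnZ

theorem all_Reg : St_Reg := thm_Reg all_RgZ all_Rtr

theorem all_Brg : St_Brg := thm_Brg thm_Kos thm_Acy all_Reg thm_NZW thm_Sub thm_Frj

theorem all_Loc : St_Loc := thm_Loc thm_Frj all_Brg

theorem all_One : St_One := thm_One thm_Ptt all_Loc thm_GLt

theorem all_Dec : St_Dec :=
  thm_Dec Pool.Agent.ANC.thm_Trn Pool.Agent.ANC.all_Prd all_One thm_Cub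

end Pool.Agent.AOC
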