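import Pool.Agent.ANC.St
import Mathlib.LinearAlgebra.ExteriorPower.Basic

/-!
# AOC: definitions

The commuting scheme of `gl_n` at the pairs `(A, B)` for which `V = ℂ[A, B] v + ℂ[A] w` (MP_c67a3f_ag).
-/

set_option autoImplicit false

noncomputable section

namespace Pool.Agent.AOC

open Matrix Pool.Agent.CTR Pool.Agent.ANC

/-! ### frames -/

/-- The indices of `V`. -/
abbrev Iv (m k : ℕ) := Fin m ⊕ Fin k

/-- The matrix with the columns `W_a v` (`a` in `Fin m`) and `x^b w` (`b < k`). -/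
def frm {m k : ℕ} {R : Type} [CommRing R] (W : Fin m → List Bool)
    (x y : Matrix (Iv m k) (Iv m k) R) (v w : Iv m k → R) : Matrix (Iv m k) (Iv m k) R :=
  fun s t => Sum.elim (fun a => (wd x y (W a) *ᵥ v) s) (fun b => ((x ^ (b : ℕ)) *ᵥ w) s) t

/-! ### the normal form -/

/-- The companion matrix of `t^i + ∑ p_b t^b`. -/
def cp {i : ℕ} {R : Type} [CommRing R] (p : Fin i → R) : Matrix (Fin i) (Fin i) R :=
  fun a b => if (b : ℕ) + 1 = i then -p a else if (a : ℕ) = b + 1 then 1 else 0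

/-- The first unit vector. -/
def e0 {i : ℕ} {R : Type} [CommRing R] : Fin i → R := fun b => if (b : ℕ) = 0 then 1 else 0

/-- The matrix `x^i + ∑ p_b x^b`. -/
def pe {ι : Type} [Fintype ι] [DecidableEq ι] {i : ℕ} {R : Type} [CommRing R] (p : Fin i → R)
    (x : Matrix ι ι R) : Matrix ι ι R :=
  x ^ i + ∑ b : Fin i, p b • x ^ (b : ℕ)

/-- The matrix `∑ r_b x^b`. -/
def re {ι : Type} [Fintype ι] [DecidableEq ι] {i : ℕ} {R : Type} [CommRing R] (r : Fin i → R)
    (x : Matrix ι ι R) : Matrix ι ι R :=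
  ∑ b : Fin i, r b • x ^ (b : ℕ)

/-- The matrix `∑_u c_u (x^(i-1-u) + ∑_(l > u) p_l x^(l-1-u))`. -/
def qe {ι : Type} [Fintype ι] [DecidableEq ι] {i : ℕ} {R : Type} [CommRing R] (p c : Fin i → R)
    (x : Matrix ι ι R) : Matrix ι ι R :=
  ∑ u : Fin i, c u • (x ^ (i - 1 - (u : ℕ)) +
    ∑ l : Fin i, if (u : ℕ) < l then p l • x ^ ((l : ℕ) - 1 - u) else 0)

/-- The matrix `x` of the normal form. -/
def hx {h i : ℕ} {R : Type} [CommRing R] (xH : Matrix (Fin h) (Fin h) R) (a : Fin h → R)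
    (p : Fin i → R) : Matrix (Iv h i) (Iv h i) R :=
  Matrix.fromBlocks xH (fun s b => if (b : ℕ) + 1 = i then a s else 0) 0 (cp p)

/-- The vector `v` of the normal form. -/
def hv {h : ℕ} (i : ℕ) {R : Type} [CommRing R] (vH : Fin h → R) : Iv h i → R :=
  Sum.elim vH fun _ => 0

/-- The covector `j` of the normal form. -/
def hj {h i : ℕ} {R : Type} (jH : Fin h → R) (c : Fin i → R) : Iv h i → R := Sum.elim jH c

/-- The vector `w` of the normal form. -/
def hw (h i : ℕ) (R : Type) [CommRing R] : Iv h i → R := Sum.elim (fun _ => 0) e0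

/-- The matrix `y` of the normal form: `y` is `yH` on the first block, `y w = (b, r)` and the column of `x^t w` is
`x^t (b, r) + ∑_(l < t) c_l x^(t-1-l) v`. -/
def hy {h i : ℕ} {R : Type} [CommRing R] (xH yH : Matrix (Fin h) (Fin h) R) (vH a b : Fin h → R)
    (p r c : Fin i → R) : Matrix (Iv h i) (Iv h i) R :=
  fun s t => Sum.elim (fun t' : Fin h => Sum.elim (fun s' : Fin h => yH s' t') (fun _ => 0) s)
    (fun t' : Fin i => ((hx xH a p ^ (t' : ℕ)) *ᵥ Sum.elim b r) s +
      ∑ l : Fin i, if (l : ℕ) < t' then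
        c l * ((hx xH a p ^ ((t' : ℕ) - 1 - l)) *ᵥ hv i vH) s else 0) t

/-- The second equation `p(x) b - (y - r(x)) a + q_c(x) v = 0` of the normal form. -/
def E3 {h i : ℕ} {R : Type} [CommRing R] (xH yH : Matrix (Fin h) (Fin h) R) (vH a b : Fin h → R)
    (p r c : Fin i → R) : Prop :=
  pe p xH *ᵥ b - (yH *ᵥ a - re r xH *ᵥ a) + qe p c xH *ᵥ vH = 0

/-! ### the quotient of `V` -/

/-- The submodule generated by the `W v`, `W` a word in `x`, `y`. -/
def AV {ι S : Type} [Fintype ι] [DecidableEq ι] [CommRing S] (x y : Matrix ι ι S) (v : ι → S) :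
    Submodule S (ι → S) :=
  Submodule.span S (Set.range fun w : List Bool => wd x y w *ᵥ v)

/-- The quotient module. -/
abbrev NV {ι S : Type} [Fintype ι] [DecidableEq ι] [CommRing S] (x y : Matrix ι ι S) (v : ι → S) :
    Type := (ι → S) ⧸ AV x y v

/-- The matrix with the columns `C^c e_0`, `c < k`, `C` the companion matrix. -/
def Pm (k : ℕ) {i : ℕ} {R : Type} [CommRing R] (p : Fin i → R) : Matrix (Fin i) (Fin k) R :=
  fun b c => ((cp p ^ (c : ℕ)) *ᵥ e0) b

/-- The matrix of the map from `V` to `R[t] / p(t)` which kills the `W_a v` and maps `x^b w` to `t^b`; `F'` is the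
inverse of the frame matrix. -/
def pim {m k i : ℕ} {R : Type} [CommRing R] (F' : Matrix (Iv m k) (Iv m k) R) (p : Fin i → R) :
    Matrix (Fin i) (Iv m k) R :=
  Pm k p * F'.submatrix Sum.inr id

/-- The map `pim F' p` is compatible with `x`, `y`, `v`. -/
def Rl {m k i : ℕ} {R : Type} [CommRing R] (x y : Matrix (Iv m k) (Iv m k) R) (v w : Iv m k → R)
    (F' : Matrix (Iv m k) (Iv m k) R) (p : Fin i → R) : Prop :=
  pim F' p * x = cp p * pim F' p ∧
  pim F' p * y = re (pim F' p *ᵥ (y *ᵥ w)) (cp p) * pim F' p ∧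
  pim F' p *ᵥ v = 0

/-- The matrix `pim` for the polynomial `t^i + ∑ X_b t^b` with indeterminate coefficients. -/
def pX {m k : ℕ} (i : ℕ) {S : Type} [CommRing S] (F' : Matrix (Iv m k) (Iv m k) S) :
    Matrix (Fin i) (Iv m k) (MvPolynomial (Fin i) S) :=
  pim (F'.map MvPolynomial.C) MvPolynomial.X

/-- The ideal of the relations of `Rl` for the polynomial `t^i + ∑ X_b t^b` with indeterminate coefficients. -/
def rI {m k : ℕ} (i : ℕ) {S : Type} [CommRing S] (x y : Matrix (Iv m k) (Iv m k) S)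
    (v w : Iv m k → S) (F' : Matrix (Iv m k) (Iv m k) S) : Ideal (MvPolynomial (Fin i) S) :=
  Ideal.span ({r | ∃ b l, r = (pX i F' * x.map MvPolynomial.C : Matrix (Fin i) (Iv m k)
      (MvPolynomial (Fin i) S)) b l -
      (cp MvPolynomial.X * pX i F' : Matrix (Fin i) (Iv m k) (MvPolynomial (Fin i) S)) b l} ∪
    {r | ∃ b l, r = (pX i F' * y.map MvPolynomial.C : Matrix (Fin i) (Iv m k)
      (MvPolynomial (Fin i) S)) b l -
      (re (pX i F' *ᵥ (y.map MvPolynomial.C *ᵥ fun l => MvPolynomial.C (w l)))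
        (cp MvPolynomial.X) * pX i F' : Matrix (Fin i) (Iv m k) (MvPolynomial (Fin i) S)) b l} ∪
    {r | ∃ b, r = (pX i F' *ᵥ fun l => MvPolynomial.C (v l)) b})

/-! ### the almost commuting scheme with one more vector -/

/-- Polynomials in the coordinates: `inl (0, i, j)` is `x_ij`, `inl (1, i, j)` is `y_ij`, `inr (0, i)` is `v_i`,
`inr (1, i)` is `j_i`, `inr (2, i)` is `w_i`. -/
abbrev RW (m k : ℕ) := MvPolynomial ((Fin 2 × Iv m k × Iv m k) ⊕ (Fin 3 × Iv m k)) ℂ

/-- The matrices `x` (`s = 0`), `y` (`s = 1`). -/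
def wM (m k : ℕ) (s : Fin 2) : Matrix (Iv m k) (Iv m k) (RW m k) :=
  fun i j => MvPolynomial.X (Sum.inl (s, i, j))

/-- The vectors `v` (`s = 0`), `j` (`s = 1`), `w` (`s = 2`). -/
def wV (m k : ℕ) (s : Fin 3) : Iv m k → RW m k := fun i => MvPolynomial.X (Sum.inr (s, i))

/-- The ideal generated by the entries of `x y - y x + v j`. -/
def IWd (m k : ℕ) : Ideal (RW m k) :=
  Ideal.span (Set.range fun t : Iv m k × Iv m k =>
    (wM m k 0 * wM m k 1 - wM m k 1 * wM m k 0 + vecMulVec (wV m k 0) (wV m k 1)) t.1 t.2)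

/-- The ring of the almost commuting scheme, where the frame is a basis. -/
abbrev SA (m k : ℕ) (W : Fin m → List Bool) :=
  Localization.Away (Ideal.Quotient.mk (IWd m k) (frm W (wM m k 0) (wM m k 1) (wV m k 0)
    (wV m k 2)).det)

/-- The canonical map. -/
def js (m k : ℕ) (W : Fin m → List Bool) : RW m k →+* SA m k W :=
  (algebraMap (RW m k ⧸ IWd m k) (SA m k W)).comp (Ideal.Quotient.mk (IWd m k))

/-- The matrices over `SA`. -/
def sM (m k : ℕ) (W : Fin m → List Bool) (s : Fin 2) : Matrix (Iv m k) (Iv m k) (SA m k W) :=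
  (wM m k s).map (js m k W)

/-- The vectors over `SA`. -/
def sV (m k : ℕ) (W : Fin m → List Bool) (s : Fin 3) : Iv m k → SA m k W :=
  fun i => js m k W (wV m k s i)

/-- The discriminant. -/
def sD (m k : ℕ) (W : Fin m → List Bool) : SA m k W := js m k W (dsx (m + k) (wM m k 0))

/-- The elements `c_b = j x^b w`. -/
def sc (m k : ℕ) (W : Fin m → List Bool) (b : Fin k) : SA m k W :=
  js m k W (wV m k 1 ⬝ᵥ ((wM m k 0 ^ (b : ℕ)) *ᵥ wV m k 2))

/-- Linear combinations of the `c_b`. -/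
def sd (m k : ℕ) (W : Fin m → List Bool) (g : ℕ → Fin k → ℂ) (s : ℕ) : SA m k W :=
  ∑ b, algebraMap ℂ (SA m k W) (g s b) * sc m k W b

/-- The ideal generated by `D` and the first `s` of the linear combinations. -/
def sdI (m k : ℕ) (W : Fin m → List Bool) (g : ℕ → Fin k → ℂ) (s : ℕ) : Ideal (SA m k W) :=
  Ideal.span ({sD m k W} ∪ {r | ∃ s' < s, r = sd m k W g s'})

/-! ### the scheme of the normal form -/

/-- The coordinates of the normal form: those of `xH, yH, vH, jH`; `(0, s)`: `a_s`, `(1, s)`: `b_s`; `(0, b)`: `p_b`,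
`(1, b)`: `r_b`, `(2, b)`: `c_b`. -/
abbrev Yv (h i : ℕ) := Sv (Fin h) ⊕ ((Fin 2 × Fin h) ⊕ (Fin 3 × Fin i))

/-- The vector of the coordinates. -/
def coY {h i : ℕ} {R : Type} (xH yH : Matrix (Fin h) (Fin h) R) (vH jH a b : Fin h → R)
    (p r c : Fin i → R) : Yv h i → R :=
  Sum.elim (coI xH yH vH jH) (Sum.elim (fun t => (![a, b] : Fin 2 → Fin h → R) t.1 t.2)
    (fun t => (![p, r, c] : Fin 3 → Fin i → R) t.1 t.2))

/-- The variables: those of `g` (from `Iv h i` to `Iv m k`), of its inverse `g'` and of the normal form. -/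
abbrev Zv (m k h i : ℕ) := ((Iv m k × Iv h i) ⊕ (Iv h i × Iv m k)) ⊕ Yv h i

/-- The ring of polynomials. -/
abbrev RZ (m k h i : ℕ) := MvPolynomial (Zv m k h i) ℂ

/-- The matrix `g`. -/
def zg (m k h i : ℕ) : Matrix (Iv m k) (Iv h i) (RZ m k h i) :=
  fun s t => MvPolynomial.X (Sum.inl (Sum.inl (s, t)))

/-- The matrix `g'`. -/
def zg' (m k h i : ℕ) : Matrix (Iv h i) (Iv m k) (RZ m k h i) :=
  fun s t => MvPolynomial.X (Sum.inl (Sum.inr (s, t)))

/-- The matrices `xH` (`s = 0`), `yH` (`s = 1`). -/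
def zM (m k h i : ℕ) (s : Fin 2) : Matrix (Fin h) (Fin h) (RZ m k h i) :=
  fun a b => MvPolynomial.X (Sum.inr (Sum.inl (Sum.inl (s, a, b))))

/-- The vectors `vH` (`s = 0`), `jH` (`s = 1`). -/
def zV (m k h i : ℕ) (s : Fin 2) : Fin h → RZ m k h i :=
  fun a => MvPolynomial.X (Sum.inr (Sum.inl (Sum.inr (s, a))))

/-- The vectors `a` (`s = 0`), `b` (`s = 1`). -/
def zA (m k h i : ℕ) (s : Fin 2) : Fin h → RZ m k h i :=
  fun a => MvPolynomial.X (Sum.inr (Sum.inr (Sum.inl (s, a))))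

/-- The vectors `p` (`s = 0`), `r` (`s = 1`), `c` (`s = 2`). -/
def zP (m k h i : ℕ) (s : Fin 3) : Fin i → RZ m k h i :=
  fun b => MvPolynomial.X (Sum.inr (Sum.inr (Sum.inr (s, b))))

/-- The matrix `x` of the normal form. -/
def zX (m k h i : ℕ) : Matrix (Iv h i) (Iv h i) (RZ m k h i) :=
  hx (zM m k h i 0) (zA m k h i 0) (zP m k h i 0)

/-- The matrix `y` of the normal form. -/
def zY (m k h i : ℕ) : Matrix (Iv h i) (Iv h i) (RZ m k h i) :=
  hy (zM m k h i 0) (zM m k h i 1) (zV m k h i 0) (zA m k h i 0) (zA m k h i 1) (zP m k h i 0)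
    (zP m k h i 1) (zP m k h i 2)

/-- The equations: `g' g = 1`, `[xH, yH] + vH jH = 0` and E3. -/
def eqZ (m k h i : ℕ) : (Iv h i × Iv h i) ⊕ ((Fin h × Fin h) ⊕ Fin h) → RZ m k h i :=
  Sum.elim (fun t => (zg' m k h i * zg m k h i - 1 : Matrix (Iv h i) (Iv h i) (RZ m k h i)) t.1 t.2)
    (Sum.elim (fun t => (zM m k h i 0 * zM m k h i 1 - zM m k h i 1 * zM m k h i 0 +
      vecMulVec (zV m k h i 0) (zV m k h i 1)) t.1 t.2)
    (fun s => (pe (zP m k h i 0) (zM m k h i 0) *ᵥ zA m k h i 1 -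
      (zM m k h i 1 *ᵥ zA m k h i 0 - re (zP m k h i 1) (zM m k h i 0) *ᵥ zA m k h i 0) +
      qe (zP m k h i 0) (zP m k h i 2) (zM m k h i 0) *ᵥ zV m k h i 0) s))

/-- The ideal of the equations. -/
def IZ (m k h i : ℕ) : Ideal (RZ m k h i) := Ideal.span (Set.range (eqZ m k h i))

/-- The determinant of the frame matrix. -/
def thZ (m k h i : ℕ) (W : Fin m → List Bool) : RZ m k h i :=
  (frm W (zg m k h i * zX m k h i * zg' m k h i) (zg m k h i * zY m k h i * zg' m k h i)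
    (zg m k h i *ᵥ hv i (zV m k h i 0)) (zg m k h i *ᵥ hw h i (RZ m k h i))).det

/-- The discriminant. -/
def dZ (m k h i : ℕ) : RZ m k h i := dsx (m + k) (zX m k h i)

/-- The elements `c_b = j x^b w`, `b < k`. -/
def gZ (m k h i : ℕ) (b : Fin k) : RZ m k h i :=
  hj (zV m k h i 1) (zP m k h i 2) ⬝ᵥ ((zX m k h i ^ (b : ℕ)) *ᵥ hw h i (RZ m k h i))

/-- The ring of the normal form, where the frame is a basis. -/
abbrev QZ (m k h i : ℕ) (W : Fin m → List Bool) :=
  Localization.Away (Ideal.Quotient.mk (IZ m k h i) (thZ m k h i W))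

/-- The canonical map. -/
def jz (m k h i : ℕ) (W : Fin m → List Bool) : RZ m k h i →+* QZ m k h i W :=
  (algebraMap (RZ m k h i ⧸ IZ m k h i) (QZ m k h i W)).comp (Ideal.Quotient.mk (IZ m k h i))

/-! ### the condition -/

/-- For some `a`, `b` and some vector `v` the intersection of the joint generalized eigenspace for `(α, β)` with
`ℂ[A, B] v + (a A + b B - a α - b β) V` has codimension at most one in this joint generalized eigenspace. -/
def Cu {n : ℕ} (A B : Matrix (Fin n) (Fin n) ℂ) (α β : ℂ) : Prop :=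
  ∃ (a b : ℂ) (v : Fin n → ℂ), Module.finrank ℂ (gE A B α β) ≤
    Module.finrank ℂ (gE A B α β ⊓ (gen A B v ⊔
      LinearMap.range (Matrix.toLin' (a • A + b • B - (a * α + b * β) • 1))) :
      Submodule ℂ (Fin n → ℂ)) + 1

end Pool.Agent.AOC
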