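import Pool.Agent.AOC.St

/-!
# AOC: module Reg

Transfer of the regular sequences along the retraction.
-/

set_option autoImplicit false

noncomputable section

namespace Pool.Agent.AOC

open Matrix Pool.Agent.CTR Pool.Agent.ANC

/-- The abstract transfer of regularity along a retraction. -/
theorem reg_abs {S Q M : Type} [CommRing S] [CommRing Q] [AddCommGroup M] [Module S M]
    (φ : S →+* Q) (u : M →+ Q) (σ : Q →+ M)
    (hu : ∀ a z, u (a • z) = φ a * u z) (hσ : ∀ a q, σ (φ a * q) = a • σ q)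
    (hσu : ∀ z, σ (u z) = z) (D : Set S) (D' : Set Q) (h1 : ∀ r ∈ D, φ r ∈ D')
    (h2 : ∀ r' ∈ D', ∃ r ∈ D, φ r = r') (d : S)
    (hreg : ∀ q : Q, φ d * q ∈ Ideal.span D' → q ∈ Ideal.span D') (z : M)
    (hz : d • z ∈ Ideal.span D • (⊤ : Submodule S M)) :
    z ∈ Ideal.span D • (⊤ : Submodule S M) := by
  have hle : Ideal.span D ≤ (Ideal.span D').comap φ := by
    rw [Ideal.span_le]
    intro r hr
    exact Ideal.subset_span (h1 r hr)
  have hu1 : ∀ y ∈ Ideal.span D • (⊤ : Submodule S M), u y ∈ Ideal.span D' := by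
    intro y hy
    refine Submodule.smul_induction_on hy ?_ ?_
    · intro a ha n _
      rw [hu]
      exact Ideal.mul_mem_right _ _ (hle ha)
    · intro a b ha hb
      rw [map_add]
      exact Ideal.add_mem _ ha hb
  have hs1 : ∀ q ∈ Ideal.span D', ∀ q' : Q, σ (q' * q) ∈ Ideal.span D • (⊤ : Submodule S M) := by
    intro q hq
    refine Submodule.span_induction ?_ ?_ ?_ ?_ hq
    · intro r' hr' q'
      obtain ⟨r, hr, hrr⟩ := h2 r' hr'
      rw [← hrr, mul_comm, hσ]
      exact Submodule.smul_mem_smul (Ideal.subset_span hr) Submodule.mem_top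
    · intro q'
      rw [mul_zero, map_zero]
      exact Submodule.zero_mem _
    · intro a b _ _ ha hb q'
      rw [mul_add, map_add]
      exact Submodule.add_mem _ (ha q') (hb q')
    · intro a b _ hb q'
      rw [smul_eq_mul, ← mul_assoc]
      exact hb (q' * a)
  have h3 : u z ∈ Ideal.span D' := by
    apply hreg
    rw [← hu]
    exact hu1 _ hz
  have h4 := hs1 _ h3 1
  rwa [one_mul, hσu] at h4

/-- **Reg.** Regular sequences on the exterior powers. -/
theorem thm_Reg (hRgZ : St_RgZ) (hRtr : St_Rtr) : St_Reg := by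
  intro m k W
  obtain ⟨g, hg⟩ := hRgZ m k W
  refine ⟨g, ?_⟩
  intro i s hsi hik z hz
  have hi : 0 < i := by omega
  have hh : (m + k - i) + i = m + k := by omega
  obtain ⟨φ, u, σ, hu, hσ, hσu, hD, hC, hc⟩ := hRtr m k (m + k - i) i W hi hik hh
  have hd : ∀ t, φ (sd m k W g t) =
      jz m k (m + k - i) i W (∑ b, MvPolynomial.C (g t b) * gZ m k (m + k - i) i b) := by
    intro t
    unfold sd
    rw [map_sum, map_sum]
    refine Finset.sum_congr rfl fun b _ => ?_
    rw [map_mul, map_mul, hC, hc]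
  have h5 := hg (m + k - i) i hi hik hh s hsi
  refine reg_abs φ u σ hu hσ hσu ({sD m k W} ∪ {r | ∃ s' < s, r = sd m k W g s'})
    ({jz m k (m + k - i) i W (dZ m k (m + k - i) i)} ∪
        {r | ∃ s' < s, r = jz m k (m + k - i) i W
          (∑ b, MvPolynomial.C (g s' b) * gZ m k (m + k - i) i b)}) ?_ ?_ (sd m k W g s) ?_ z hz
  · rintro r (hr | ⟨s', hs', hr⟩)
    · rw [Set.mem_singleton_iff] at hr
      rw [hr, hD]
      exact Or.inl rfl
    · rw [hr]
      exact Or.inr ⟨s', hs', hd s'⟩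
  · rintro r (hr | ⟨s', hs', hr⟩)
    · rw [Set.mem_singleton_iff] at hr
      exact ⟨sD m k W, Or.inl rfl, by rw [hr, hD]⟩
    · exact ⟨sd m k W g s', Or.inr ⟨s', hs', rfl⟩, by rw [hr, hd]⟩
  · intro q hq
    rw [hd] at hq
    exact h5 q hq

end Pool.Agent.AOC
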