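import Pool.Agent.AOC.Defs

/-!
# AOC: statements

THEOREM (MP_c67a3f_ag). Let `A`, `B` be commuting complex matrices of size `n` such that `V = ℂ^n` is
`ℂ[A, B] v + ℂ[X] w` for some vectors `v`, `w` and some combination `X` of `A`, `B` (or the same for the transposed
matrices; it is enough that this holds, with different `X`, for all generalized joint eigenspaces). Then the commuting
scheme of `gl_n` is reduced at `(A, B)`.

PLAN. Let `S` be the ring of the scheme `[x, y] + v j = 0` (with one more vector `w`), at the points where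
`W_1 v, .., W_m v, w, x w, .., x^(k-1) w` is a basis. Let `N = V / ∑ S W v` (all words `W`), `τ : N → S`, `u ↦ j u`. The
image of `τ` is the ideal `J = (j)`, generated by the `c_b = j x^b w`. The Koszul complex of `τ` is
`.. → ⋀² N → N → S`. (1) `⋀^i N` is a retract (as an `S`-module) of the ring `QZ` of a normal form with `i` by `i`
companion block (Kap, Cmp, Adp, NrY, NAY, Rtr). (2) This ring is a complete intersection; the dimension bounds (TY, DZ)
show that for general combinations `d_1, .., d_k` of the `c_b` the elements `D, d_1, .., d_i` (`D` the discriminant of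
`x`) form a regular sequence on it (Cho, RgZ), so on `⋀^i N` (Reg). (3) multiplication by `d_s` is homotopic to zero on the
Koszul complex, so the complex modulo `D` is exact in degree one (Kos, Acy), and `D` is not a zero divisor modulo `J`
(Brg). Nilpotent functions on the commuting scheme are killed by a power of `D`, so they vanish in `S / J` (Loc).
-/

set_option autoImplicit false
set_option linter.unusedVariables false

noncomputable section

namespace Pool.Agent.AOC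

open Matrix Pool.Agent.CTR Pool.Agent.ANC

/-! ### the normal form -/

/-- **Cmp.** The companion matrix.

Proof. `C ε_b = ε_(b+1)` for `b + 1 < i` and `C ε_(i-1) = - ∑ p_b ε_b`, so `C^b ε_0 = ε_b` for `b < i` and
`(C^i + ∑ p_b C^b) ε_0 = 0`; this matrix commutes with `C` and kills `ε_0`, so it kills all `ε_b = C^b ε_0`. If `α` is a
root, the row vector `(1, α, .., α^(i-1))` times `C` is `α` times it: in the column `b + 1 < i` it is `α^(b+1)`, in the
last column `- ∑ p_b α^b = α^i`. -/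
def St_Cmp : Prop := ∀ (i : ℕ) (R : Type) [CommRing R] (p : Fin i → R),
  (∀ b s : Fin i, ((cp p ^ (b : ℕ)) *ᵥ e0) s = if s = b then 1 else 0) ∧
  pe p (cp p) = 0 ∧
  ∀ α : R, α ^ i + ∑ b : Fin i, p b * α ^ (b : ℕ) = 0 →
    (fun b : Fin i => α ^ (b : ℕ)) ᵥ* cp p = α • fun b : Fin i => α ^ (b : ℕ)

/-- **NAY.** The normal form satisfies the relation.

Proof. Write `X = hx xH a p`, `Y = hy ..`, `v = hv i vH`, `j = hj jH c`, `ε_b` the unit vectors of the second block,
`Y_b = Y ε_b`, `η = (b, r) = Y_0`. `X` and `Y` map the first block `H` to itself. `X Y - Y X + v j` on `H` is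
`[xH, yH] + vH jH = 0`. On `ε_t` with `t + 1 < i`: `X Y_t - Y_(t+1) + c_t v = 0` by the definition of `Y_(t+1)`. On
`ε_(i-1)`: `X ε_(i-1) = (a, -p)`, so it is `X Y_(i-1) + c_(i-1) v - (yH a, 0) + ∑ p_b Y_b`, and
`X Y_(i-1) + c_(i-1) v = X^i η + ∑_(l < i) c_l X^(i-1-l) v` (the formula for `Y_t` with `t = i`), so it is
`P(X) η + q v - (yH a, 0)` with `P(X) = X^i + ∑ p_b X^b` and `q = qe p c X` (collect the `c_l`). `r := ∑ r_b ε_b = r(X) ε_0`
(`X^b ε_0 = ε_b`), `P(X) ε_0 = (a, 0)` (`X^i ε_0 = X ε_(i-1) = (a, -p)`), so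
`P(X) η = P(X) (b, 0) + r(X) P(X) ε_0 = (P(xH) b + r(xH) a, 0)`, and `q v = (q(xH) vH, 0)`. So E3 is the claim. -/
def St_NAY : Prop := ∀ (h i : ℕ) (R : Type) [CommRing R], 0 < i →
  ∀ (xH yH : Matrix (Fin h) (Fin h) R) (vH jH a b : Fin h → R) (p r c : Fin i → R),
  AC xH yH vH jH → E3 xH yH vH a b p r c →
  AC (hx xH a p) (hy xH yH vH a b p r c) (hv i vH) (hj jH c)

/-- **NrY.** Quadruples with a quotient `R[t]/p` are of the normal form.

Proof. Let `X = g' x g`, `Y = g' y g`, `v' = g' v`, `j' = j g`, `w' = g' w = ε_0` (`w` is the column `0` of the second block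
of `g`, `i > 0`). The rows of the second block of `g'` are `π`; `π g = (0, 1)`. The second block of rows of `X` is
`π x g = C π g = (0, C)`. For `b + 1 < i`: `X ε_b = g' x x^b w = g' x^(b+1) w = ε_(b+1)`. So `X = hx xH a p` with `xH` the
first block, `(a, -p)` the last column. The second block of rows of `Y` is `ρ(C) π g = (0, ρ(C))`, so `Y` on the first
block is `(yH, 0)`; `Y ε_0 = g' y w = (b, π y w) = (b, ρ)`, put `r = ρ = π y w`. As `y x = x y + v j`,
`Y ε_(t+1) = Y X ε_t = X Y ε_t + (j x^t w) v'`, so `Y ε_t = X^t (b, r) + ∑_(l < t) c_l X^(t-1-l) v'` with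
`c_l = j x^l w = (j')_(ε_l)`. `v' = (vH, π v) = (vH, 0)`. So `Y = hy ..`, `v' = hv`, `j' = hj jH c`, `w' = hw`. AC for
`X, Y, v', j'`: the first block is AC for `xH, yH, vH, jH`; the last column gives E3 by the computation of NAY. -/
def St_NrY : Prop := ∀ (m k h i : ℕ) (R : Type) [CommRing R], 0 < i →
  ∀ (x y : Matrix (Iv m k) (Iv m k) R) (v j w : Iv m k → R) (p ρ : Fin i → R)
  (π : Matrix (Fin i) (Iv m k) R) (g : Matrix (Iv m k) (Iv h i) R) (g' : Matrix (Iv h i) (Iv m k) R),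
  AC x y v j → π * x = cp p * π → π * y = re ρ (cp p) * π → π *ᵥ v = 0 → ρ = π *ᵥ (y *ᵥ w) →
  g' * g = 1 → g * g' = 1 → (∀ b l, g' (Sum.inr b) l = π b l) →
  (∀ s (b : Fin i), g s (Sum.inr b) = ((x ^ (b : ℕ)) *ᵥ w) s) →
  ∃ (xH yH : Matrix (Fin h) (Fin h) R) (vH jH a b : Fin h → R) (r c : Fin i → R),
    AC xH yH vH jH ∧ E3 xH yH vH a b p r c ∧
    x = g * hx xH a p * g' ∧ y = g * hy xH yH vH a b p r c * g' ∧ v = g *ᵥ hv i vH ∧
    j = hj jH c ᵥ* g' ∧ w = g *ᵥ hw h i R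

/-- **Adp.** A basis of `V` adapted to the quotient.

Proof. Let `F = frm W x y v w`, `F' = F⁻¹`, `π = pim F' p`, so `π F = (0, Γ)`, `Γ = Pm k p` with the columns `C^c ε_0`
(`c < k`). Let `U` be the matrix (from `Fin m ⊕ Fin (k - i) ⊕ Fin i` to `Iv m k`) with the columns: the unit vectors of the
first block; for `l < k - i` the coefficients of `P(t) t^l`, `P = t^i + ∑ p_b t^b`, in the second block; for `b < i` the
unit vector `b` of the second block. It is invertible (up to the order unitriangular). `π F U`: on the first columns `0`;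
on the second ones `P(C) C^l ε_0 = 0` (Cmp); on the last ones `C^b ε_0 = ε_b` (Cmp). So for `g = F U` one has
`π g = (0, 1)`, the last columns of `g` are the `x^b w`, and for `g' = g⁻¹` the last rows are `(0, 1) g' = π g g' = π`.
(Identify `Fin m ⊕ Fin (k - i)` with `Fin h`.) -/
def St_Adp : Prop := ∀ (m k h i : ℕ) (R : Type) [CommRing R], i ≤ k → h + i = m + k →
  ∀ (W : Fin m → List Bool) (x y : Matrix (Iv m k) (Iv m k) R) (v w : Iv m k → R) (p : Fin i → R),
  IsUnit (frm W x y v w).det →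
  ∃ (g : Matrix (Iv m k) (Iv h i) R) (g' : Matrix (Iv h i) (Iv m k) R), g' * g = 1 ∧ g * g' = 1 ∧
    (∀ b l, g' (Sum.inr b) l = pim (frm W x y v w)⁻¹ p b l) ∧
    ∀ s (b : Fin i), g s (Sum.inr b) = ((x ^ (b : ℕ)) *ᵥ w) s

/-! ### exterior powers -/

/-- **Kap.** The ring of the relations maps onto the exterior power.

Proof. Write `F' = F⁻¹`, `N = NV x y v`, `π = pX i F'` over `S[E] = MvPolynomial (Fin i) S` (`E_b = X b`), `C = cp E`. For
`u ∈ S^V` let `f_u = ∑_c (F' u)_(inr c) t^c ∈ S[t]`. As `F F' = 1`, `u = f_u(x) w` modulo the span of the `W_a v`, so in `N`.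
(1) `br : S[α_0, .., α_(i-1)] → ⋀^i N` is the `S`-linear map with `α^a ↦ [x^(a_0) w] ∧ .. ∧ [x^(a_(i-1)) w]`. If `f` is
invariant under the exchange of `α_s`, `α_t`, `s ≠ t`, then `br f = 0` (it changes the sign; `2` is invertible); `br` of
a polynomial with permuted variables is `sgn` times `br`. If `g_s ∈ S[t]` then
`br (∏ g_s(α_s)) = [g_0(x) w] ∧ .. ∧ [g_(i-1)(x) w]`. (2) let `ε : S[E] → S[α]` be the homomorphism of `S`-algebras with
`E_b ↦` the coefficient of `t^b` in `∏ (t - α_s)`, and `κ f = br (ε f * ∏ α_s^s)`. (3) `κ` and determinants: for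
`u_0, .., u_(i-1)`, applying the row vector `(1, α_s, .., α_s^(i-1))` (an eigenvector of `ε C`, Cmp) to `ε (π u_s)` one gets
`f_(u_s)(α_s)`, as `(row) C^c ε_0 = α_s^c`. So `∏_s f_(u_s)(α_s) = ∑_b ∏_s (ε (π u_s)_(b_s)) α_s^(b_s)`, sum over the maps
`b : Fin i → Fin i`; `br` of the terms with `b` not injective is `0` by (1) (the factors in the image of `ε` are symmetric),
the other terms give `sgn b * br (∏_s ε (π u_s)_(b_s) * ∏ α_s^s)`, in total `κ (det)`. And
`br (∏ f_(u_s)(α_s)) = [u_0] ∧ .. ∧ [u_(i-1)]`. (4) `κ` kills `rI`: let `ϱ ∈ S[E]^i` be one of the vectors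
`π x e_l - C π e_l`, `π y e_l - re (π y w) C π e_l`, `π v`; the row vector applied to `ε ϱ` is `R(α_s)` with
`R = f_(x e_l) - t f_(e_l)`, `f_(y e_l) - f_(y w) f_(e_l)`, `f_v` respectively, and `R(x) x^l' w = 0` in `N` for all `l'`
(in `N`: `f_(x e_l)(x) w = x e_l`, `x f_(e_l)(x) w = x e_l`; `f_(y w)(x) f_(e_l)(x) w = f_(e_l)(x) y w = y f_(e_l)(x) w = y e_l`
as `x^b y w - y x^b w` is in the submodule generated by the `x^s v`; `AV` is stable under `x`, `y`). For `f ∈ S[E]` and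
`b < i` take `s` with exponent `b` in `∏ α_s^s`: `ε f * R(α_b) * ∏_(s ≠ b) α_s^s = ∑_c ε (f ϱ_c) α_b^c ∏_(s ≠ b) α_s^s`; `br`
of the left side is `0` (expand `ε f` in monomials: a factor `[R(x) x^l' w] = 0`), `br` of the terms `c ≠ b` is `0` by
(1). So `κ (f ϱ_b) = 0`. -/
def St_Kap : Prop := ∀ (m k i : ℕ) (S : Type) [CommRing S] [Algebra ℂ S] (W : Fin m → List Bool)
  (x y : Matrix (Iv m k) (Iv m k) S) (v j w : Iv m k → S), AC x y v j →
  IsUnit (frm W x y v w).det →
  ∃ κ : MvPolynomial (Fin i) S →ₗ[S] (⋀[S]^i (NV x y v)),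
    (∀ f ∈ rI i x y v w (frm W x y v w)⁻¹, κ f = 0) ∧
    ∀ u : Fin i → Iv m k → S,
      κ (Matrix.det (Matrix.of fun s b =>
        (pX i (frm W x y v w)⁻¹ *ᵥ fun l => MvPolynomial.C (u s l)) b)) =
      exteriorPower.ιMulti S i fun s => Submodule.Quotient.mk (u s)

/-- **Kos.** The Koszul complex.

Proof. `∂` is the contraction with `τ` (`CliffordAlgebra.contractLeft` for the quadratic form `0`), which maps
`⋀^(i+1) N` to `⋀^i N`: `τ⌋(ι n * z) = τ n • z - ι n * (τ⌋z)`, induction on `i`. `contractLeft_contractLeft`. `h` is the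
multiplication by `ι n` from the left. -/
def St_Kos : Prop := ∀ (S : Type) [CommRing S] (N : Type) [AddCommGroup N] [Module S N]
  (τ : N →ₗ[S] S), ∃ d : ∀ i : ℕ, (⋀[S]^(i + 1) N) →ₗ[S] (⋀[S]^i N),
    (∀ i z, d i (d (i + 1) z) = 0) ∧
    (∀ n : N, ∃ h : ∀ i : ℕ, (⋀[S]^i N) →ₗ[S] (⋀[S]^(i + 1) N),
      ∀ i z, d (i + 1) (h (i + 1) z) + h i (d i z) = τ n • z) ∧
    ∀ z, exteriorPower.zeroEquiv S N (d 0 z) = τ (exteriorPower.oneEquiv S N z)

/-- **Acy.** The acyclicity lemma.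

Proof. Let `𝔡 s` be the ideal generated by `D` and the `d s'`, `s' < s`. Claim for all `s ≤ k`: if `i ≥ s + 1`, `z ∈ F i` and
`∂ z ∈ 𝔡 s F (i-1)`, then `z ∈ ∂ F (i+1) + 𝔡 s F i`. Descending induction on `s`; for `s = k`, `F i = 0`. Let the claim hold
for `s + 1`, `z` as in the claim for `s`, `i ≥ s + 1` (so `i > k` or the regularity can be used). `b = h_s z` satisfies
`∂ b = d_s z - h_s ∂ z ∈ 𝔡 (s+1) F i`, so by the claim for `s + 1` (`i + 1 ≥ s + 2`) `b = ∂ e + b₂ + d_s b'` with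
`b₂ ∈ 𝔡 s F (i+1)`. Then `d_s z - h_s ∂ z = ∂ b = ∂ b₂ + d_s ∂ b'`, so `d_s (z - ∂ b') ∈ 𝔡 s F i`, and by the
regularity (`s < i`) `z - ∂ b' ∈ 𝔡 s F i`. The claim for `s = 0`, `i = 1` is the statement. -/
def St_Acy : Prop := ∀ (S : Type) [CommRing S] (F : ℕ → Type) [∀ i, AddCommGroup (F i)]
  [∀ i, Module S (F i)] (k : ℕ) (D : S) (d : ℕ → S) (del : ∀ i, F (i + 1) →ₗ[S] F i),
  (∀ i z, del i (del (i + 1) z) = 0) →
  (∀ s < k, ∃ h : ∀ i, F i →ₗ[S] F (i + 1), ∀ i z, del (i + 1) (h (i + 1) z) + h i (del i z) = d s • z) →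
  (∀ i, k < i → Subsingleton (F i)) →
  (∀ i s, s < i → i ≤ k → ∀ z : F i,
    d s • z ∈ (Ideal.span ({D} ∪ {r | ∃ s' < s, r = d s'})) • (⊤ : Submodule S (F i)) →
    z ∈ (Ideal.span ({D} ∪ {r | ∃ s' < s, r = d s'})) • (⊤ : Submodule S (F i))) →
  ∀ z : F 1, del 0 z ∈ (Ideal.span {D}) • (⊤ : Submodule S (F 0)) →
    ∃ ω : F 2, z - del 1 ω ∈ (Ideal.span {D}) • (⊤ : Submodule S (F 1))

/-! ### dimensions -/

/-- **Ulm.** Stable subspaces and eigenvalues.

Proof. Let `h_λ` be the multiplicity of the root `λ` of the characteristic polynomial. `U` is the direct sum of its parts in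
the (left) generalized eigenspaces, only those for `λ ∈ Λ` are not zero, so `dim U ≤ ∑_(λ ∈ Λ) h_λ`; all `λ ∈ Λ` are
roots, and the number of roots is at most `|Λ| + ∑_(λ ∉ Λ) h_λ`; `∑ h_λ = h`. -/
def St_Ulm : Prop := ∀ (L : Type) [Field L] [IsAlgClosed L] [DecidableEq L] (h : ℕ)
  (x : Matrix (Fin h) (Fin h) L) (U : Submodule L (Fin h → L)), (∀ η ∈ U, η ᵥ* x ∈ U) →
  ∀ Λ : Finset L, (∀ μ : L, μ ∈ Λ ↔ ∃ η ∈ U, η ≠ 0 ∧ η ᵥ* x = μ • η) →
    x.charpoly.roots.toFinset.card + Module.finrank L U ≤ h + Λ.card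

/-- **Spp.** The discriminant of the normal form.

Proof. The characteristic polynomial of `hx xH a p` (block triangular) is the product of that of `xH` and of
`P = X^i + ∑ p_b X^b` (the characteristic polynomial of the companion matrix). If none of the three cases holds, it has
`h + i` distinct roots `λ_s`, the trace of the `r`-th power is `∑ λ_s^r`, the Gram matrix is `Vᵀ V` with the
Vandermonde matrix, and `dsx ≠ 0`. -/
def St_Spp : Prop := ∀ (L : Type) [Field L] [IsAlgClosed L] [DecidableEq L] (h i : ℕ)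
  (xH : Matrix (Fin h) (Fin h) L) (a : Fin h → L) (p : Fin i → L), dsx (h + i) (hx xH a p) = 0 →
  xH.charpoly.roots.toFinset.card + 1 ≤ h ∨
  (∃ μ : L, xH.charpoly.eval μ = 0 ∧ μ ^ i + ∑ b : Fin i, p b * μ ^ (b : ℕ) = 0) ∨
  ∃ μ : L, μ ^ i + ∑ b : Fin i, p b * μ ^ (b : ℕ) = 0 ∧
    (i : L) * μ ^ (i - 1) + ∑ b : Fin i, p b * ((b : ℕ) : L) * μ ^ ((b : ℕ) - 1) = 0

/-- **TY.** Tangent vectors of the normal form at a generic point of a bad component.

Proof. Write `x, y, v, j` for `xH, yH, vH, jH`, `P(t) = t^i + ∑ p_b t^b`, `R(t) = ∑ r_b t^b`,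
`q_c(t) = ∑_u c_u (t^(i-1-u) + ∑_(l > u) p_l t^(l-1-u))`; the `q_c`, `c ∈ L^i`, are all polynomials of degree `< i`. Let `μ` be
the number of distinct eigenvalues of `x`. `Pool.Agent.ACV.thm_JBx`, `thm_TA (thm_Xi thm_Stb)` give `T₁` (coordinates of
`x, y, v, j`), `dim T₁ ≤ h² + h + μ` (the `μ_i` of a Jordan basis are eigenvalues). FIRST PART. Let `U` be the space of the
row vectors `η` with `η P(x) = 0`, `η y = η R(x)`, `η q_c(x) v = 0` for all `c`; the last condition says `η x^s v = 0` for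
`s < i`, hence for all `s` by the first one. `U` is stable under `x`: `(η x) y = η y x - (η v) j = (η x) R(x)`. Let `Λ` be
the set of the eigenvalues of `x` on `U`; for `λ ∈ Λ`: `P(λ) = 0`, `λ` is an eigenvalue of `x` and `R(λ)` one of `y`. So
`|Λ| ≤ i`. By Alg (`Pool.Agent.ANC.thm_Alg`) there are functionals `ℓ_λ`, `ℓ'_λ` with `δ λ = ℓ_λ (δ x)`,
`δ (R(λ)) = ℓ'_λ (δ y)` for all derivations. Let `T` be the space of the `coY x' y' v' j' a' b' p' r' c'` with
`(x', y', v', j') ∈ T₁`, satisfying the linearization of E3 and, for all `λ ∈ Λ`, `p'(λ) + P'(λ) ℓ_λ(x') = 0`,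
`r'(λ) + R'(λ) ℓ_λ(x') = ℓ'_λ(y')` (`p'(t) = ∑ p'_b t^b`). It contains the vectors of the derivations. For given
`(x', y', v', j', p', r')` the solutions `(a', b', c')` of the linearization of E3 are an affine space over the kernel of
`(a', b', c') ↦ P(x) b' - (y - R(x)) a' + q_(c')(x) v`, of dimension `2 h + i - (h - dim U)`, as `U` is the annihilator
of the image. The conditions for `λ ∈ Λ` on `(p', r')` are `2 |Λ|` independent ones (interpolation, `|Λ| ≤ i`). So
`dim T ≤ h² + h + μ + 2 i - 2 |Λ| + h + i + dim U`, and `μ + dim U ≤ h + |Λ|` (Ulm): `dim T ≤ h² + 3 h + 3 i - |Λ|`. If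
`Λ` is not empty we are done. If it is empty, `U = 0` and `dim T ≤ h² + 2 h + 3 i + μ`; by Spp either `μ ≤ h - 1` or one
of the following conditions can be added to `T`: (i) `P(λ) = 0` for an eigenvalue `λ` of `x`:
`p'(λ) + P'(λ) ℓ_λ(x') = 0`; (ii) `P(λ) = P'(λ) = 0`: `p'(λ) = 0` (`0 = δ (P(λ)) = (δ p)(λ) + P'(λ) δ λ`). (`i > 0` in
these cases.) SECOND PART (`j = 0`, `c = 0`): the same with `U` the space of the `η` with `η P(x) = 0`, `η y = η R(x)`,
stable as `x y = y x`, and the vectors with `c' = 0`; for given `(x', y', v', j', p', r')` the solutions `(a', b')` have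
the dimension `2 h - (h - dim U)`, so the total is smaller by `i`. -/
def St_TY : Prop := ∀ (L : Type) [Field L] [IsAlgClosed L] [Algebra ℂ L] (h i : ℕ)
  (xH yH : Matrix (Fin h) (Fin h) L) (vH jH a b : Fin h → L) (p r c : Fin i → L),
  AC xH yH vH jH → E3 xH yH vH a b p r c → dsx (h + i) (hx xH a p) = 0 →
  (∃ T : Submodule L (Yv h i → L), Module.finrank L T + 1 ≤ h ^ 2 + 3 * h + 3 * i ∧
    ∀ δ : Derivation ℂ L L, (fun s => δ (coY xH yH vH jH a b p r c s)) ∈ T) ∧
  (jH = 0 → c = 0 → ∃ T : Submodule L (Yv h i → L),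
    Module.finrank L T + 1 + i ≤ h ^ 2 + 3 * h + 3 * i ∧
    ∀ δ : Derivation ℂ L L, (fun s => δ (coY xH yH vH jH a b p r c s)) ∈ T)

/-- **DZ.** Dimensions of primes of the normal form.

Proof. `L` the algebraic closure of the fraction field of `RZ ⧸ P`, the data over `L` are the images of the variables
(compare `Pool/Agent/ANC/DQ.lean`, `Pool/Agent/ACV/Dm.lean`). TY gives `T`; `g' g = 1` gives the space `T_g` of the
`(g₁, g₁')` with `g₁' g + g' g₁ = 0`, of dimension `(m + k)²` (`g₁' = - g' g₁ g'`; `h + i = m + k`, so `g' = g⁻¹`).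
`Pool.Agent.ACV.thm_Der`. For the second part: over `L` the frame matrix `F` of `x = g X g'`, `y = g Y g'`, `v`, `w` is
invertible, and `(j g') F = 0`: in the columns `W_a v` by Wrd (`Pool.Agent.ANC.thm_Wrd`, NAY, conjugate), in the columns
`x^b w` it is `j X^b w`, the image of `gZ b`. So `j g' = 0` and `j = 0`, that is `jH = 0`, `c = 0`. -/
def St_DZ : Prop := ∀ (m k h i : ℕ) (W : Fin m → List Bool), 0 < i → h + i = m + k →
  ∀ (P : Ideal (RZ m k h i)) [P.IsPrime], IZ m k h i ≤ P → dZ m k h i ∈ P →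
  (ringKrullDim (RZ m k h i ⧸ P) + 1 ≤
    (((m + k) ^ 2 + h ^ 2 + 3 * h + 3 * i : ℕ) : WithBot ℕ∞)) ∧
  ((∀ b, gZ m k h i b ∈ P) → thZ m k h i W ∉ P →
    ringKrullDim (RZ m k h i ⧸ P) + 1 + ((i : ℕ) : WithBot ℕ∞) ≤
      (((m + k) ^ 2 + h ^ 2 + 3 * h + 3 * i : ℕ) : WithBot ℕ∞))

/-- **Cho.** General combinations are regular sequences.

Proof. (Index `i : Fin k` stands for `i + 1`.) Choose `g 0, g 1, ..` one after the other such that for all `s ≤ i + 1`:
(*) all primes `P` of `MvPolynomial (σ i) ℂ` which contain the `f i t` and the combinations for `g 0, .., g (s-1)` and do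
not contain `θ i` satisfy `dim + card (τ i) + s ≤ card (σ i)`. `s = 0` is the first hypothesis. Let `g 0, .., g (s-1)` be
chosen. For every `i ≥ s` consider the finitely many minimal primes `𝔮` over the ideal `I_(i,s)` generated by the
`f i t` and the combinations, with `θ i ∉ 𝔮` and `dim + card (τ i) + s + 1 > card (σ i)`. By the second hypothesis
(`s + 1 ≤ i + 1`) not all `γ i b` are in `𝔮`, so the vectors `c` with `∑ c_b γ i b ∈ 𝔮` are a proper subspace of
`ℂ^k`; choose `g s` outside of these finitely many proper subspaces. If `P` contains `I_(i,s)` and the new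
combination, `θ i ∉ P`, it contains a minimal prime `𝔮` over `I_(i,s)`, `θ i ∉ 𝔮`; either
`dim (𝔮) + card + s + 1 ≤ card σ` already, or the new combination is not in `𝔮` and `dim (P) + 1 ≤ dim (𝔮)`. In both
cases (*) holds for `s + 1`. The claim is CIa (`Pool.Agent.ANC.thm_CIa`) for the equations `f i t` and the first `s`
combinations (`card (τ i) + s` of them) and the element with the index `s`: the primes containing all have
`dim + card (τ i) + s + 1 ≤ card (σ i)` by (*) for `s + 1 ≤ i + 1`. -/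
def St_Cho : Prop := ∀ (k : ℕ) (σ τ : Fin k → Type) [∀ i, Fintype (σ i)] [∀ i, Fintype (τ i)]
  (f : ∀ i, τ i → MvPolynomial (σ i) ℂ) (θ : ∀ i, MvPolynomial (σ i) ℂ)
  (γ : ∀ i, Fin k → MvPolynomial (σ i) ℂ),
  (∀ i, ∀ P : Ideal (MvPolynomial (σ i) ℂ), P.IsPrime → (∀ t, f i t ∈ P) → θ i ∉ P →
    ringKrullDim (MvPolynomial (σ i) ℂ ⧸ P) + ((Fintype.card (τ i) : ℕ) : WithBot ℕ∞) ≤
      ((Fintype.card (σ i) : ℕ) : WithBot ℕ∞)) →
  (∀ i, ∀ P : Ideal (MvPolynomial (σ i) ℂ), P.IsPrime → (∀ t, f i t ∈ P) → (∀ b, γ i b ∈ P) →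
    θ i ∉ P → ringKrullDim (MvPolynomial (σ i) ℂ ⧸ P) +
      ((Fintype.card (τ i) + (i + 1) : ℕ) : WithBot ℕ∞) ≤ ((Fintype.card (σ i) : ℕ) : WithBot ℕ∞)) →
  ∃ g : ℕ → Fin k → ℂ, ∀ (i : Fin k) (s : ℕ), s ≤ i → ∀ q : MvPolynomial (σ i) ℂ,
    (∑ b, MvPolynomial.C (g s b) * γ i b) * q ∈ Ideal.span (Set.range (f i) ∪
      {r | ∃ s' < s, r = ∑ b, MvPolynomial.C (g s' b) * γ i b}) →
    ∃ N : ℕ, θ i ^ N * q ∈ Ideal.span (Set.range (f i) ∪
      {r | ∃ s' < s, r = ∑ b, MvPolynomial.C (g s' b) * γ i b})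

/-- **RgZ.** Regular sequences on the rings of the normal forms.

Proof. Cho with `σ i = Zv m k (m + k - (i + 1)) (i + 1)`, `τ i` the index set of `eqZ` and one more index for `dZ`,
`card τ = (m + k)² + h² + h + 1`, `card σ = 2 (m + k)² + 2 h² + 4 h + 3 i'` with `i' = i + 1`, `h = m + k - i'`,
`θ i = thZ`, `γ i = gZ`; DZ. Then clear denominators in the localization `QZ`. -/
def St_RgZ : Prop := ∀ (m k : ℕ) (W : Fin m → List Bool), ∃ g : ℕ → Fin k → ℂ,
  ∀ (h i : ℕ), 0 < i → i ≤ k → h + i = m + k → ∀ s < i, ∀ q : QZ m k h i W,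
    jz m k h i W (∑ b, MvPolynomial.C (g s b) * gZ m k h i b) * q ∈ Ideal.span
      ({jz m k h i W (dZ m k h i)} ∪
        {r | ∃ s' < s, r = jz m k h i W (∑ b, MvPolynomial.C (g s' b) * gZ m k h i b)}) →
    q ∈ Ideal.span ({jz m k h i W (dZ m k h i)} ∪
        {r | ∃ s' < s, r = jz m k h i W (∑ b, MvPolynomial.C (g s' b) * gZ m k h i b)})

/-! ### the retraction -/

/-- **UnS.** The universal property of `SA`.

Proof. As `Pool/Agent/ANC/HmR.lean`. -/
def St_UnS : Prop := ∀ (m k : ℕ) (W : Fin m → List Bool) (T : Type) [CommRing T]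
  (ψ : RW m k →+* T), AC ((wM m k 0).map ψ) ((wM m k 1).map ψ) (ψ ∘ wV m k 0) (ψ ∘ wV m k 1) →
  IsUnit (frm W ((wM m k 0).map ψ) ((wM m k 1).map ψ) (ψ ∘ wV m k 0) (ψ ∘ wV m k 2)).det →
  ∃ φ : SA m k W →+* T, φ.comp (js m k W) = ψ

/-- **UnZ.** The universal property of `QZ`.

Proof. As `Pool/Agent/ANC/HmQ.lean`. -/
def St_UnZ : Prop := ∀ (m k h i : ℕ) (W : Fin m → List Bool) (T : Type) [CommRing T]
  (ψ : RZ m k h i →+* T), (zg' m k h i).map ψ * (zg m k h i).map ψ = 1 →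
  AC ((zM m k h i 0).map ψ) ((zM m k h i 1).map ψ) (ψ ∘ zV m k h i 0) (ψ ∘ zV m k h i 1) →
  E3 ((zM m k h i 0).map ψ) ((zM m k h i 1).map ψ) (ψ ∘ zV m k h i 0) (ψ ∘ zA m k h i 0)
    (ψ ∘ zA m k h i 1) (ψ ∘ zP m k h i 0) (ψ ∘ zP m k h i 1) (ψ ∘ zP m k h i 2) →
  IsUnit (ψ (thZ m k h i W)) →
  ∃ φ : QZ m k h i W →+* T, φ.comp (jz m k h i W) = ψ

/-- **Rtr.** The exterior powers are retracts of the rings of the normal forms.

Proof. Let `S = SA m k W`, `x, y, v, j, w` its universal data, `N = NV x y v`. (φ) over `QZ` (`h + i = m + k`, so `g g' = 1`)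
NAY and conjugation with `g` give AC for `g X g'`, `g Y g'`, `g (vH, 0)`, `(jH, c) g'`, and the frame determinant is the
unit `thZ`; UnS gives `φ`. (u) `φ` makes `QZ` an `S`-module; the map
`(u_0, .., u_(i-1)) ↦ det ((g' φ(u_s))_(inr b))_(s, b)` is alternating on `S^V`, and it depends only on the classes in `N`:
`g' φ(W v) = W(X, Y) (vH, 0)` has zero second block (`X`, `Y` map the first block to itself). So it gives
`u : ⋀^i N → QZ`. (s) let `T = MvPolynomial (Fin i) S ⧸ rI i x y v w F⁻¹`, `F` the frame matrix, `p` the classes of the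
variables. Over `T`: `Rl` holds, Adp gives `g`, `g'` and NrY gives the normal form, so UnZ gives `ρ : QZ → T` with these
values (`thZ` is mapped to the frame determinant, a unit) and `ρ (φ a)` is the class of `C a` (both sides agree on the
variables). Kap gives `κ̄ : T → ⋀^i N`, `S`-linear; `s = κ̄ ∘ ρ`. `s (u z) = z` for `z = [u_0] ∧ .. ∧ [u_(i-1)]` (these
span): `ρ` maps `det ((g' φ(u_s))_(inr b))` to `det ((g' u_s)_(inr b)) = det ((π u_s)_b)`, `π = pim F⁻¹ p`, the class of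
the determinant in Kap. The last claims are computations: traces and `j X^b w` are invariant under conjugation. -/
def St_Rtr : Prop := ∀ (m k h i : ℕ) (W : Fin m → List Bool), 0 < i → i ≤ k → h + i = m + k →
  ∃ (φ : SA m k W →+* QZ m k h i W)
    (u : (⋀[SA m k W]^i (NV (sM m k W 0) (sM m k W 1) (sV m k W 0))) →+ QZ m k h i W)
    (s : QZ m k h i W →+ (⋀[SA m k W]^i (NV (sM m k W 0) (sM m k W 1) (sV m k W 0)))),
    (∀ a z, u (a • z) = φ a * u z) ∧ (∀ a q, s (φ a * q) = a • s q) ∧ (∀ z, s (u z) = z) ∧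
    φ (sD m k W) = jz m k h i W (dZ m k h i) ∧
    (∀ c : ℂ, φ (algebraMap ℂ (SA m k W) c) = jz m k h i W (MvPolynomial.C c)) ∧
    ∀ b : Fin k, φ (sc m k W b) = jz m k h i W (gZ m k h i b)

/-- **Reg.** Regular sequences on the exterior powers.

Proof. `g` from RgZ, `h = m + k - i`. Let `d z ∈ 𝔡 ⋀^i N` (`d = sd g s`, `𝔡 = sdI g s`). Applying `u`:
`φ(d) u(z) ∈ φ(𝔡) QZ`, and `φ(d)`, `φ(𝔡)` are those of RgZ, so `u(z) ∈ φ(𝔡) QZ`; applying `s`:
`z = s (u z) ∈ 𝔡 ⋀^i N`. -/
def St_Reg : Prop := ∀ (m k : ℕ) (W : Fin m → List Bool), ∃ g : ℕ → Fin k → ℂ,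
  ∀ (i s : ℕ), s < i → i ≤ k →
    ∀ z : ⋀[SA m k W]^i (NV (sM m k W 0) (sM m k W 1) (sV m k W 0)),
    sd m k W g s • z ∈ sdI m k W g s •
      (⊤ : Submodule (SA m k W) (⋀[SA m k W]^i (NV (sM m k W 0) (sM m k W 1) (sV m k W 0)))) →
    z ∈ sdI m k W g s •
      (⊤ : Submodule (SA m k W) (⋀[SA m k W]^i (NV (sM m k W 0) (sM m k W 1) (sV m k W 0))))

/-! ### reducedness -/

/-- **NZW.** The discriminant is not a zero divisor.

Proof. `Pool.Agent.ACV.all_NZ` for `ℂ`, `n = m + k`, after renaming the indices along a bijection of `Fin (m + k)` and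
`Iv m k` and adjoining the variables `w` (coefficients); then localize (clear denominators). -/
def St_NZW : Prop := ∀ (m k : ℕ) (W : Fin m → List Bool) (f : SA m k W), sD m k W * f = 0 → f = 0

/-- **Sub.** The higher exterior powers vanish.

Proof. Over `SA` the frame is a basis, so `N` is generated by the `k` classes of the `x^b w`; `⋀^i N` is spanned by the
wedges of `i` of them, which vanish for `i > k`. -/
def St_Sub : Prop := ∀ (m k : ℕ) (W : Fin m → List Bool) (i : ℕ), k < i →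
  Subsingleton (⋀[SA m k W]^i (NV (sM m k W 0) (sM m k W 1) (sV m k W 0)))

/-- **Frj.** The ideal of the covector.

Proof. AC and Wrd (`Pool.Agent.ANC.thm_Wrd`) over `SA`: `j W_a v = 0`, so `j F = (0, c)` with the frame matrix `F`, and
`j = (0, c) F⁻¹`. -/
def St_Frj : Prop := ∀ (m k : ℕ) (W : Fin m → List Bool),
  AC (sM m k W 0) (sM m k W 1) (sV m k W 0) (sV m k W 1) ∧
  IsUnit (frm W (sM m k W 0) (sM m k W 1) (sV m k W 0) (sV m k W 2)).det ∧
  (∀ w : List Bool, sV m k W 1 ⬝ᵥ (wd (sM m k W 0) (sM m k W 1) w *ᵥ sV m k W 0) = 0) ∧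
  (∀ b : Fin k, sc m k W b = sV m k W 1 ⬝ᵥ ((sM m k W 0 ^ (b : ℕ)) *ᵥ sV m k W 2)) ∧
  ∀ l, sV m k W 1 l ∈ Ideal.span (Set.range (sc m k W))

/-- **Brg.** The discriminant is not a zero divisor modulo the `c_b`.

Proof. It is enough to treat `N = 1`. Let `M = NV ..`, `τ : M → SA` the map `u ↦ j u` (well defined by Frj); its image is
the ideal `J = (c_b)` (Frj). Let `D f ∈ J`, so `D f = τ n`. Kos for `τ`, Acy for `F i = ⋀^i M`, `D`, `d s = sd g s` with `g`
from Reg (`d s = τ (∑_b g s b • [x^b w])` gives the homotopies; Sub; Reg), and `z` the element of `⋀^1 M` of `n`: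
`∂ z = τ n = D f`. So `z = ∂ ω + D z'`, `τ n = D τ(n')`, `D (f - τ n') = 0`, `f = τ n' ∈ J` (NZW). -/
def St_Brg : Prop := ∀ (m k : ℕ) (W : Fin m → List Bool) (N : ℕ) (f : SA m k W),
  sD m k W ^ N * f ∈ Ideal.span (Set.range (sc m k W)) → f ∈ Ideal.span (Set.range (sc m k W))

/-- **Loc.** The commuting scheme is reduced where the frame is a basis.

Proof. As `Pool/Agent/ANC/Loc.lean`: let `f` be nilpotent modulo `comI`, `F` its image in `RW m k`. By Gen
(`Pool.Agent.ANC.thm_Gen`) `D^N f ∈ comI`. In `SA` the entries of `x y - y x` are `- v_s j_t`, in the ideal `J` of the `c_b`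
(Frj), so `js F ∈ J` (Brg). Clearing denominators, `θ^M F` is in `IWd` plus the ideal generated by the
`wV 1 ⬝ᵥ (x^b w)`. Specialize `v`, `w` to the constants `v`, `w` and `j` to `0`. -/
def St_Loc : Prop := ∀ (m k : ℕ) (W : Fin m → List Bool) (A B : Matrix (Iv m k) (Iv m k) ℂ)
  (v w : Iv m k → ℂ), (frm W A B v w).det ≠ 0 → Rd A B

/-! ### points -/

/-- **Ptt.** Linear algebra at the point.

Proof. Let `m = dim (gen A B v)`, `k = n - m`. Choose words `W_a = x^i y^j` such that the `W_a v` are a basis of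
`G = gen A B v`. `G` is stable under `A` (`A B = B A`), `V / G` has dimension `k` and is spanned by the classes of the
`A^i w`, so those with `i < k` are a basis of it. `e` any bijection. -/
def St_Ptt : Prop := ∀ (n : ℕ) (A B : Matrix (Fin n) (Fin n) ℂ) (v w : Fin n → ℂ), A * B = B * A →
  gen A B v ⊔ Submodule.span ℂ (Set.range fun i : ℕ => (A ^ i) *ᵥ w) = ⊤ →
  ∃ (m k : ℕ) (e : Fin n ≃ Iv m k) (W : Fin m → List Bool),
    (frm W (Matrix.reindex e e A) (Matrix.reindex e e B) (v ∘ e.symm) (w ∘ e.symm)).det ≠ 0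

/-- **GLt.** Linear substitutions.

Proof. The automorphism `x ↦ a x + b y`, `y ↦ c x + d y` of `Rg` multiplies the commutator by `a d - b c`; compare
`Pool/Agent/CTR/GL.lean`. -/
def St_GLt : Prop := ∀ (n : ℕ) (A B : Matrix (Fin n) (Fin n) ℂ) (a b c d : ℂ), a * d - b * c ≠ 0 →
  Rd (a • A + b • B) (c • A + d • B) → Rd A B

/-- **One.** One joint eigenvalue.

Proof. `V = gE A B α β`. Let `a, b, v` be from `Cu`. If `(a, b) = (0, 0)`, then `ℂ[A, B] v` has codimension at most one and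
we may take `(a, b) = (1, 0)` instead. Let `X = a A + b B`, `ξ = a α + b β`, `G = gen A B v`, stable under `A`, `B`; `X - ξ` is
nilpotent (`A - α`, `B - β` are nilpotent and commute). There is `w` with `V = G + (X - ξ) V + ℂ w`. So
`V / G = (X - ξ) (V / G) + ℂ w`, and by iteration `V / G` is spanned by the `(X - ξ)^i w`, so by the `X^i w`. Choose `c, d`
with `a d - b c ≠ 0`, `Y = c A + d B`; `gen X Y v = gen A B v` (both are the span of the `p(A, B) v`). Ptt for `X, Y`, Loc,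
Cnj (`Pool.Agent.ANC.thm_Cnj` with `Q = 1`) give `Rd X Y`, GLt gives `Rd A B`. -/
def St_One : Prop := ∀ (n : ℕ) (A B : Matrix (Fin n) (Fin n) ℂ) (α β : ℂ), A * B = B * A →
  gE A B α β = ⊤ → Cu A B α β → Rd A B

/-- **Cub.** The condition for blocks.

Proof. As `Pool.Agent.ANC.St_Cdb` (`Pool/Agent/ANC/Cdb.lean`). For block matrices `gE A B α β` and the submodule
`gen A B v + (a A + b B - a α - b β) V` are the direct sums of those of the blocks (`gen` by the polynomial `p` with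
`p (A + t B) = diag (1, 0)`), and so is their intersection; the difference of the dimensions for `A, B` is the sum of
those for the blocks. -/
def St_Cub : Prop := ∀ (n n₁ n₂ : ℕ) (A B : Matrix (Fin n) (Fin n) ℂ)
  (e : Fin n ≃ Fin n₁ ⊕ Fin n₂) (Q : (Matrix (Fin n) (Fin n) ℂ)ˣ)
  (A₁ B₁ : Matrix (Fin n₁) (Fin n₁) ℂ) (A₂ B₂ : Matrix (Fin n₂) (Fin n₂) ℂ) (t : ℂ),
  A * B = B * A →
  Matrix.reindex e e ((Q⁻¹ : (Matrix (Fin n) (Fin n) ℂ)ˣ).val * A * Q.val) =
    Matrix.fromBlocks A₁ 0 0 A₂ →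
  Matrix.reindex e e ((Q⁻¹ : (Matrix (Fin n) (Fin n) ℂ)ˣ).val * B * Q.val) =
    Matrix.fromBlocks B₁ 0 0 B₂ →
  IsCoprime (A₁ + t • B₁).charpoly (A₂ + t • B₂).charpoly →
  ∀ α β, (Cu A B α β → Cu A₁ B₁ α β ∧ Cu A₂ B₂ α β) ∧
    (Cu Aᵀ Bᵀ α β → Cu A₁ᵀ B₁ᵀ α β ∧ Cu A₂ᵀ B₂ᵀ α β)

/-- **Dec.** The theorem.

Proof. As `Pool/Agent/ANC/Dec.lean`: strong induction on `n` with Bas (`Pool.Agent.ANC.thm_Bas`), Prd (a hypothesis here,
`Pool.Agent.ANC.St_Prd`), Cnj, Trn (`Pool.Agent.ANC.thm_Cnj`, `thm_Trn`), Cub, and One for the first block (for the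
transposed matrices One for `A₁ᵀ`, `B₁ᵀ` and Trn; `gE A₁ᵀ B₁ᵀ α β = ⊤` if `gE A₁ B₁ α β = ⊤`). -/
def St_Dec : Prop := ∀ (n : ℕ) (A B : Matrix (Fin n) (Fin n) ℂ), A * B = B * A →
  (∀ α β : ℂ, Cu A B α β ∨ Cu Aᵀ Bᵀ α β) → Rd A B

end Pool.Agent.AOC
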